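import Pool.Agent.Lib.CookLevin.Defs

/-!
# Planar Euclidean Max-Scatter TSP: the decision problem

An instance is a finite set of at least three points of the plane with rational coordinates and a
rational number `L`; the question is whether some round-trip through the points has all edges of
Euclidean length at least `L`. All rational numbers are written in binary.
-/

set_option autoImplicit false

namespace Pool.Agent.Lib.H48MaxScatter

open Pool.Agent.Lib.CookLevin

/-- a point of the plane with rational coordinates -/
abbrev Pt : Type := ℚ × ℚ

/-- the corresponding point of the Euclidean plane -/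
noncomputable def Pt.toE (p : Pt) : EuclideanSpace ℝ (Fin 2) := !₂[(p.1 : ℝ), (p.2 : ℝ)]

/-- `l` is a round-trip (a cyclic ordering `l[0], l[1], …, l[n-1]` of the points of the list `P`,
each point being visited exactly once), all of whose edges, including the closing edge, have
Euclidean length at least `L` -/
def IsRoundTrip (P : List Pt) (L : ℚ) (l : List Pt) : Prop :=
  l.Perm P ∧ ∀ (i : ℕ) (hi : i < l.length),
    (L : ℝ) ≤ dist l[i].toE (l[(i + 1) % l.length]'(Nat.mod_lt _ (by omega))).toE

/-- a natural number in binary, least significant bit first, every bit preceded by `1`,
and `0` at the end -/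
def encNat (n : ℕ) : Word := (n.bits.flatMap fun b => [true, b]) ++ [false]

/-- an integer: the sign, and the absolute value in binary -/
def encInt (z : ℤ) : Word := decide (z < 0) :: encNat z.natAbs

/-- a rational number: numerator and denominator in binary -/
def encRat (q : ℚ) : Word := encInt q.num ++ encNat q.den

/-- an instance: the points, each preceded by `1`, then `0`, then `L` -/
def encInst (P : List Pt) (L : ℚ) : Word :=
  (P.flatMap fun p => true :: (encRat p.1 ++ encRat p.2)) ++ false :: encRat L

/-- the decision version of the planar Euclidean Max-Scatter TSP -/
def MaxScatter (w : Word) : Prop :=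
  ∃ (P : List Pt) (L : ℚ), w = encInst P L ∧ P.Nodup ∧ 3 ≤ P.length ∧
    ∃ l : List Pt, IsRoundTrip P L l

end Pool.Agent.Lib.H48MaxScatter
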