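import Pool.Agent.Lib.H48MaxScatter.Gcd
import Pool.Agent.Lib.H48MaxScatter.Problem

/-!
# Reading an instance in polynomial time

A raw rational number consists of a sign and two natural numbers.
-/

set_option autoImplicit false

namespace Pool.Agent.Lib.H48MaxScatter

open Pool.Agent.PolyTime Pool.Agent.Lib.CookLevin

/-- raw rational numbers: sign, numerator, denominator -/
abbrev RR : Type := Bool × ℕ × ℕ

/-- raw points -/
abbrev RP : Type := RR × RR

/-- the code of a raw rational number -/
def encRR (x : RR) : Word := x.1 :: (encNat x.2.1 ++ encNat x.2.2)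

/-- the code of a raw point -/
def encRP (p : RP) : Word := encRR p.1 ++ encRR p.2

/-- the code of a raw instance -/
def encRI (P : List RP) (L : RR) : Word := (P.flatMap fun p => true :: encRP p) ++ false :: encRR L

/-- sign, numerator and denominator of a rational number -/
def raw (q : ℚ) : RR := (decide (q.num < 0), q.num.natAbs, q.den)

/-- the raw point of a point -/
def rawP (p : Pt) : RP := (raw p.1, raw p.2)

lemma encRat_eq (q : ℚ) : encRat q = encRR (raw q) := rfl

lemma encInst_eq (P : List Pt) (L : ℚ) : encInst P L = encRI (P.map rawP) (raw L) := by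
  rw [encInst, encRI, List.flatMap_map]
  rfl

/-- is a raw rational number reduced? -/
def okR (x : RR) : Bool :=
  decide (Nat.gcd x.2.1 x.2.2 = 1) && (!decide (x.2.2 = 0) && !(x.1 && decide (x.2.1 = 0)))

/-- are the coordinates reduced? -/
def okRP (p : RP) : Bool := okR p.1 && okR p.2

/-- the rational number of a raw rational number -/
def toRat (x : RR) : ℚ := (if x.1 = true then -(x.2.1 : ℚ) else (x.2.1 : ℚ)) / (x.2.2 : ℚ)

lemma toRat_raw (q : ℚ) : toRat (raw q) = q := by
  unfold toRat raw
  simp only [decide_eq_true_eq]
  conv_rhs => rw [← Rat.num_div_den q]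
  congr 1
  split_ifs with h
  · rw [Nat.cast_natAbs, abs_of_neg h]
    push_cast
    ring
  · rw [Nat.cast_natAbs, abs_of_nonneg (not_lt.mp h)]

lemma raw_inj : Function.Injective raw := fun a b h => by
  rw [← toRat_raw a, ← toRat_raw b, h]

lemma rawP_inj : Function.Injective rawP := fun a b h => by
  have h1 := raw_inj (Prod.mk.inj h).1
  have h2 := raw_inj (Prod.mk.inj h).2
  exact Prod.ext h1 h2

lemma okR_raw (q : ℚ) : okR (raw q) = true := by
  unfold okR raw
  simp only [Bool.and_eq_true, Bool.not_eq_true', decide_eq_true_eq, decide_eq_false_iff_not,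
    Bool.and_eq_false_iff]
  refine ⟨q.reduced, q.den_nz, ?_⟩
  by_cases h : q.num < 0
  · right; omega
  · left; exact h

lemma exists_raw {x : RR} (h : okR x = true) : ∃ q, raw q = x := by
  obtain ⟨s, a, b⟩ := x
  unfold okR at h
  simp only [Bool.and_eq_true, Bool.not_eq_true', decide_eq_true_eq, decide_eq_false_iff_not,
    Bool.and_eq_false_iff] at h
  obtain ⟨h1, h2, h3⟩ := h
  cases s with
  | false =>
    refine ⟨⟨(a : ℤ), b, h2, by simpa using h1⟩, ?_⟩
    simp [raw]
  | true =>
    have ha : a ≠ 0 := by
      rcases h3 with h3 | h3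
      · exact absurd h3 (by decide)
      · exact h3
    refine ⟨⟨-(a : ℤ), b, h2, by simpa using h1⟩, ?_⟩
    simp only [raw, Int.natAbs_neg, Int.natAbs_natCast, Prod.mk.injEq, and_true,
      decide_eq_true_eq]
    omega

lemma exists_rawP {p : RP} (h : okRP p = true) : ∃ q, rawP q = p := by
  rw [okRP, Bool.and_eq_true] at h
  obtain ⟨q1, h1⟩ := exists_raw h.1
  obtain ⟨q2, h2⟩ := exists_raw h.2
  exact ⟨(q1, q2), Prod.ext h1 h2⟩

lemma exists_map_rawP {P : List RP} (h : ∀ p ∈ P, okRP p = true) : ∃ Q : List Pt, Q.map rawP = P := by
  induction P with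
  | nil => exact ⟨[], rfl⟩
  | cons p P ih =>
    obtain ⟨Q, hQ⟩ := ih fun p hp => h p (by simp [hp])
    obtain ⟨q, hq⟩ := exists_rawP (h p (by simp))
    exact ⟨q :: Q, by rw [List.map_cons, hQ, hq]⟩

/-! ### Parsing -/

/-- positions of the digits of the number at the beginning of a word -/
def idx (w : Word) : List ℕ := (List.range w.length).takeWhile fun i => w.getD (2 * i) false

/-- the number at the beginning of a word, and the rest of the word -/
def parseNat (w : Word) : ℕ × Word :=
  (val ((idx w).map fun k => w.getD (2 * k + 1) false), w.drop (2 * (idx w).length + 1))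

lemma takeWhile_range {p : ℕ → Bool} {m N : ℕ} (hm : m < N) (h1 : ∀ i < m, p i = true)
    (h2 : p m = false) : (List.range N).takeWhile p = List.range m := by
  obtain ⟨k, rfl⟩ : ∃ k, N = m + (k + 1) := ⟨N - m - 1, by omega⟩
  rw [List.range_add, List.takeWhile_append_of_pos (by
    intro a ha
    exact h1 a (List.mem_range.mp ha)), List.range_succ_eq_map]
  simp [h2]

lemma getD_even (l : List Bool) (r : Word) : ∀ i, i < l.length →
    (((l.flatMap fun b => [true, b]) ++ [false]) ++ r).getD (2 * i) false = true := by
  induction l with
  | nil => intro i hi; simp at hi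
  | cons b l ih =>
    intro i hi
    cases i with
    | zero => simp
    | succ i =>
      have := ih i (by simpa using hi)
      simpa [Nat.mul_add] using this

lemma getD_last (l : List Bool) (r : Word) :
    (((l.flatMap fun b => [true, b]) ++ [false]) ++ r).getD (2 * l.length) false = false := by
  induction l with
  | nil => simp
  | cons b l ih => simpa [Nat.mul_add] using ih

lemma getD_odd (l : List Bool) (r : Word) : ∀ i, i < l.length →
    (((l.flatMap fun b => [true, b]) ++ [false]) ++ r).getD (2 * i + 1) false = l.getD i false := by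
  induction l with
  | nil => intro i hi; simp at hi
  | cons b l ih =>
    intro i hi
    cases i with
    | zero => simp
    | succ i =>
      have := ih i (by simpa using hi)
      simpa [Nat.mul_add] using this

lemma drop_last (l : List Bool) (r : Word) :
    (((l.flatMap fun b => [true, b]) ++ [false]) ++ r).drop (2 * l.length + 1) = r := by
  induction l with
  | nil => simp
  | cons b l ih => simpa [Nat.mul_add] using ih

lemma length_dbl (l : List Bool) (r : Word) :
    (((l.flatMap fun b => [true, b]) ++ [false]) ++ r).length = 2 * l.length + 1 + r.length := by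
  induction l with
  | nil => simp; omega
  | cons b l ih =>
    simp only [List.flatMap_cons, List.cons_append, List.nil_append, List.length_cons] at ih ⊢
    omega

lemma parseNat_encNat (n : ℕ) (r : Word) : parseNat (encNat n ++ r) = (n, r) := by
  have h1 : idx (encNat n ++ r) = List.range n.bits.length := by
    unfold idx encNat
    refine takeWhile_range ?_ ?_ ?_
    · rw [length_dbl]; omega
    · exact getD_even _ _
    · exact getD_last _ _
  rw [parseNat, h1, List.length_range]
  refine Prod.ext ?_ ?_
  · show val _ = n
    conv_rhs => rw [← val_bits n]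
    congr 1
    apply List.ext_getElem
    · simp
    · intro i hi hi'
      have h2 : i < n.bits.length := hi'
      rw [List.getElem_map, List.getElem_range]
      have := getD_odd n.bits r i h2
      unfold encNat
      rw [this, List.getD_eq_getElem _ _ h2]
  · exact drop_last _ _

/-- the raw rational number at the beginning of a word, and the rest of the word -/
def parseRR (w : Word) : RR × Word :=
  ((w.headD false, (parseNat w.tail).1, (parseNat (parseNat w.tail).2).1),
    (parseNat (parseNat w.tail).2).2)

lemma parseRR_encRR (x : RR) (r : Word) : parseRR (encRR x ++ r) = (x, r) := by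
  obtain ⟨s, a, b⟩ := x
  have h1 : encRR (s, a, b) ++ r = s :: (encNat a ++ (encNat b ++ r)) := by
    simp [encRR]
  rw [parseRR, h1]
  simp only [List.tail_cons, parseNat_encNat, List.headD_cons]

/-- the raw point at the beginning of a word, and the rest of the word -/
def parseRP (w : Word) : RP × Word :=
  (((parseRR w).1, (parseRR (parseRR w).2).1), (parseRR (parseRR w).2).2)

lemma parseRP_encRP (x : RP) (r : Word) : parseRP (encRP x ++ r) = (x, r) := by
  obtain ⟨a, b⟩ := x
  have h1 : encRP (a, b) ++ r = encRR a ++ (encRR b ++ r) := by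
    simp [encRP]
  rw [parseRP, h1]
  simp only [parseRR_encRR]

/-- read one more point -/
def pstep (s : List RP × Word) : List RP × Word :=
  bif s.2.headD false then ((parseRP s.2.tail).1 :: s.1, (parseRP s.2.tail).2) else s

/-- read all points -/
def parsePts (w : Word) : List RP × Word := pstep^[w.length] ([], w)

lemma pstep_false (A : List RP) (r : Word) : pstep (A, false :: r) = (A, false :: r) := rfl

lemma pstep_false_iter (A : List RP) (r : Word) (n : ℕ) :
    pstep^[n] (A, false :: r) = (A, false :: r) := by
  induction n with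
  | zero => rfl
  | succ n ih => rw [Function.iterate_succ_apply, pstep_false, ih]

lemma pstep_iter (P : List RP) (r : Word) : ∀ A : List RP,
    pstep^[P.length] (A, (P.flatMap fun p => true :: encRP p) ++ false :: r) =
      (P.reverse ++ A, false :: r) := by
  induction P with
  | nil => intro A; rfl
  | cons p P ih =>
    intro A
    rw [List.length_cons, Function.iterate_succ_apply]
    have h1 : pstep (A, ((p :: P).flatMap fun p => true :: encRP p) ++ false :: r) =
        (p :: A, (P.flatMap fun p => true :: encRP p) ++ false :: r) := by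
      simp only [List.flatMap_cons, List.cons_append, pstep, List.headD_cons, cond_true,
        List.tail_cons, List.append_assoc, parseRP_encRP]
    rw [h1, ih]
    simp

lemma length_le_flatMap (P : List RP) : P.length ≤ (P.flatMap fun p => true :: encRP p).length := by
  induction P with
  | nil => simp
  | cons p P ih =>
    simp only [List.flatMap_cons, List.length_append, List.length_cons]
    omega

lemma parsePts_encRI (P : List RP) (L : RR) :
    parsePts (encRI P L) = (P.reverse, false :: encRR L) := by
  unfold parsePts
  obtain ⟨n, hn⟩ : ∃ n, (encRI P L).length = n + P.length := by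
    refine ⟨(encRI P L).length - P.length, ?_⟩
    have := length_le_flatMap P
    have h2 : (P.flatMap fun p => true :: encRP p).length ≤ (encRI P L).length := by
      rw [encRI, List.length_append]; omega
    omega
  rw [hn, Function.iterate_add_apply, encRI, pstep_iter, pstep_false_iter]
  simp

/-! ### Polynomial time -/

variable {α : Type*} [Enc α]

lemma PT_encNat : PT encNat := by
  refine PT.append (PT.flatMap (f := fun (_ : ℕ) (b : Bool) => [true, b]) (by fun_prop)
    (by fun_prop)) (by fun_prop)

lemma PT_encRR : PT encRR :=
  PT.cons PT.fst' (PT.append (PT_encNat.comp (by fun_prop)) (PT_encNat.comp (by fun_prop)))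

lemma PT_encRP : PT encRP :=
  PT.append (PT_encRR.comp PT.fst') (PT_encRR.comp PT.snd')

lemma PT_encRI : PT fun p : List RP × RR => encRI p.1 p.2 := by
  refine PT.append (PT.flatMap (f := fun (_ : List RP × RR) (p : RP) => true :: encRP p) ?_
    (by fun_prop)) (PT.cons (by fun_prop) (PT_encRR.comp PT.snd'))
  exact PT.cons (by fun_prop) (PT_encRP.comp PT.snd')

lemma PT_okR : PT okR := by
  refine PT.and (PT.decide_eq (by fun_prop) (by fun_prop)) (PT.and (PT.not (PT.decide_eq
    (by fun_prop) (by fun_prop))) (PT.not (PT.and PT.fst' (PT.decide_eq (by fun_prop)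
    (by fun_prop)))))

lemma PT_okRP : PT okRP := PT.and (PT_okR.comp PT.fst') (PT_okR.comp PT.snd')

lemma PT_idx : PT idx := by
  refine PT.takeWhile (f := fun (w : Word) (i : ℕ) => w.getD (2 * i) false) ?_
    (PT.rangeLength PT.id)
  exact PT.getD PT.fst' (PT.mul (by fun_prop) PT.snd') (by fun_prop)

lemma PT_parseNat : PT parseNat := by
  refine PT.pair (PT.ofBits ?_) ?_
  · refine PT.map (f := fun (w : Word) (k : ℕ) => w.getD (2 * k + 1) false) ?_ PT_idx
    exact PT.getD PT.fst' (PT.succ (PT.mul (by fun_prop) PT.snd')) (by fun_prop)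
  · exact PT.drop PT.id (PT.succ (PT.mul (by fun_prop) (PT.length PT_idx)))

lemma PT_parseRR : PT parseRR := by
  have h1 : PT fun w : Word => parseNat w.tail := PT_parseNat.comp (by fun_prop)
  have h2 : PT fun w : Word => parseNat (parseNat w.tail).2 := PT_parseNat.comp h1.snd
  exact PT.pair (PT.pair (PT.headD PT.id (by fun_prop)) (PT.pair h1.fst h2.fst)) h2.snd

lemma PT_parseRP : PT parseRP := by
  have h2 : PT fun w : Word => parseRR (parseRR w).2 := PT_parseRR.comp PT_parseRR.snd
  exact PT.pair (PT.pair PT_parseRR.fst h2.fst) h2.snd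

lemma PT_pstep : PT pstep := by
  have h1 : PT fun s : List RP × Word => parseRP s.2.tail := PT_parseRP.comp (by fun_prop)
  exact PT.bif (PT.headD PT.snd' (by fun_prop)) (PT.pair (PT.cons h1.fst PT.fst') h1.snd) PT.id

lemma sz_parseNat_le (w : Word) : sz (parseNat w).2 ≤ sz w := sz_drop_le _ _

lemma sz_parseRR_le (w : Word) : sz (parseRR w).2 ≤ sz w := by
  refine (sz_parseNat_le _).trans ((sz_parseNat_le _).trans ?_)
  rw [← List.drop_one]
  exact sz_drop_le _ _

lemma sz_parseRP_le (w : Word) : sz (parseRP w).2 ≤ sz w :=
  (sz_parseRR_le _).trans (sz_parseRR_le _)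

lemma PT_parsePts : PT parsePts := by
  obtain ⟨c, k, hck⟩ := PT_parseRP.bdd
  refine PT.iterate_length (f := pstep) (s := fun w : Word => (([] : List RP), w))
    (l := fun w : Word => w) PT_pstep (by fun_prop) PT.id
    (B := fun w => (sz w * (c * sz w ^ k + 1) + 1) + sz w + 1)
    (((((PBd.sz.mul (((PBd.const c).mul (PBd.sz.pow k)).add (PBd.const 1))).add
      (PBd.const 1))).add PBd.sz).add (PBd.const 1)) ?_
  intro w i hi
  have key : ∀ i : ℕ, sz (pstep^[i] (([] : List RP), w)).2 ≤ sz w ∧
      sz (pstep^[i] (([] : List RP), w)).1 ≤ i * (c * sz w ^ k + 1) + 1 := by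
    intro i
    induction i with
    | zero => exact ⟨le_rfl, by simp⟩
    | succ i ih =>
      rw [Function.iterate_succ_apply']
      set s := pstep^[i] (([] : List RP), w) with hs
      obtain ⟨h1, h2⟩ := ih
      unfold pstep
      cases h3 : s.2.headD false with
      | false =>
        simp only [cond_false]
        refine ⟨h1, h2.trans ?_⟩
        nlinarith [Nat.zero_le (c * sz w ^ k)]
      | true =>
        simp only [cond_true]
        have h4 : sz s.2.tail ≤ sz w := by
          rw [← List.drop_one]
          exact (sz_drop_le _ _).trans h1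
        refine ⟨(sz_parseRP_le _).trans h4, ?_⟩
        rw [sz_cons]
        have h5 : sz (parseRP s.2.tail).1 ≤ c * sz w ^ k := by
          have h6 : sz (parseRP s.2.tail) ≤ c * sz s.2.tail ^ k := hck s.2.tail
          rw [sz_prod] at h6
          have h7 : c * sz s.2.tail ^ k ≤ c * sz w ^ k := by gcongr
          omega
        calc sz (parseRP s.2.tail).1 + sz s.1 + 1 ≤ c * sz w ^ k + (i * (c * sz w ^ k + 1) + 1) + 1 := by
              omega
          _ = (i + 1) * (c * sz w ^ k + 1) + 1 := by ring
  obtain ⟨h1, h2⟩ := key i
  have h3 : i ≤ sz w := hi.trans (length_lt_sz w).le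
  have h4 : i * (c * sz w ^ k + 1) ≤ sz w * (c * sz w ^ k + 1) := Nat.mul_le_mul_right _ h3
  rw [sz_prod]
  omega

end Pool.Agent.Lib.H48MaxScatter
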