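import Mathlib

/-!
# Connected 2-factors of bipartite graphs

`TwoFac VH VP adj F`: `F` is a 2-regular subgraph of the bipartite graph `adj` on `VH`, `VP`.
`Conn VH VP F`: it is connected (so it is a Hamiltonian cycle).
-/

set_option autoImplicit false

namespace Pool.Agent.Lib.H48MaxScatter

variable {α β : Type*}

/-- `F` is a 2-factor of the bipartite graph `adj` between `VH` and `VP` -/
structure TwoFac (VH : Set α) (VP : Set β) (adj F : α → β → Prop) : Prop where
  sub : ∀ h p, F h p → h ∈ VH ∧ p ∈ VP ∧ adj h p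
  row : ∀ h ∈ VH, ∃ p1 p2, p1 ≠ p2 ∧ ∀ p, F h p ↔ p = p1 ∨ p = p2
  col : ∀ p ∈ VP, ∃ h1 h2, h1 ≠ h2 ∧ ∀ h, F h p ↔ h = h1 ∨ h = h2

/-- a pair of sets which no edge of `F` leaves -/
def Closed (F : α → β → Prop) (S : Set α) (S' : Set β) : Prop :=
  ∀ h p, F h p → (h ∈ S ↔ p ∈ S')

/-- the pair of sets is everything or nothing -/
def Trivial (VH : Set α) (VP : Set β) (S : Set α) (S' : Set β) : Prop :=
  (VH ⊆ S ∧ VP ⊆ S') ∨ (Disjoint VH S ∧ Disjoint VP S')

/-- connectedness -/
def Conn (VH : Set α) (VP : Set β) (F : α → β → Prop) : Prop :=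
  ∀ S S', Closed F S S' → Trivial VH VP S S'

/-- a swap replaces the edges `(h1, p1)`, `(h2, p2)` by `(h1, p2)`, `(h2, p1)` -/
structure Swap (α β : Type*) where
  h1 : α
  p1 : β
  h2 : α
  p2 : β

theorem Closed.compl {F : α → β → Prop} {S : Set α} {S' : Set β} (h : Closed F S S') :
    Closed F Sᶜ S'ᶜ := fun a b hab => not_congr (h a b hab)

/-- the relation after a swap -/
def swapF (F : α → β → Prop) (s : Swap α β) (h : α) (p : β) : Prop :=
  (F h p ∧ ¬ (h = s.h1 ∧ p = s.p1) ∧ ¬ (h = s.h2 ∧ p = s.p2)) ∨ (h = s.h1 ∧ p = s.p2) ∨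
    (h = s.h2 ∧ p = s.p1)

theorem swapF_twoFac {VH : Set α} {VP : Set β} {adj F : α → β → Prop} (hF : TwoFac VH VP adj F)
    (s : Swap α β) (h1 : F s.h1 s.p1) (h2 : F s.h2 s.p2) (h3 : ¬ F s.h1 s.p2)
    (h4 : ¬ F s.h2 s.p1) (h5 : adj s.h1 s.p2) (h6 : adj s.h2 s.p1) (h7 : s.h1 ≠ s.h2)
    (h8 : s.p1 ≠ s.p2) : TwoFac VH VP adj (swapF F s) := by
  obtain ⟨m1, n1, -⟩ := hF.sub _ _ h1
  obtain ⟨m2, n2, -⟩ := hF.sub _ _ h2
  refine ⟨?_, ?_, ?_⟩
  · rintro h p (⟨h', -, -⟩ | ⟨rfl, rfl⟩ | ⟨rfl, rfl⟩)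
    · exact hF.sub _ _ h'
    · exact ⟨m1, n2, h5⟩
    · exact ⟨m2, n1, h6⟩
  · intro h hh
    obtain ⟨a, b, hab, hiff⟩ := hF.row h hh
    by_cases e1 : h = s.h1
    · subst e1
      have hp1 := (hiff _).1 h1
      have hp2 : ¬ (s.p2 = a ∨ s.p2 = b) := fun h' => h3 ((hiff _).2 h')
      push Not at hp2
      rcases hp1 with hp1 | hp1
      · refine ⟨s.p2, b, hp2.2, fun p => ?_⟩
        unfold swapF
        rw [hiff]
        constructor
        · rintro (⟨h' | h', h'', -⟩ | ⟨-, h'⟩ | ⟨h', -⟩)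
          · exact absurd ⟨rfl, h'.trans hp1.symm⟩ h''
          · exact .inr h'
          · exact .inl h'
          · exact absurd h' h7
        · rintro (h' | h')
          · exact .inr (.inl ⟨rfl, h'⟩)
          · refine .inl ⟨.inr h', ?_, fun h'' => h7 h''.1⟩
            rintro ⟨-, h''⟩
            exact hab (hp1.symm.trans (h''.symm.trans h'))
      · refine ⟨s.p2, a, hp2.1, fun p => ?_⟩
        unfold swapF
        rw [hiff]
        constructor
        · rintro (⟨h' | h', h'', -⟩ | ⟨-, h'⟩ | ⟨h', -⟩)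
          · exact .inr h'
          · exact absurd ⟨rfl, h'.trans hp1.symm⟩ h''
          · exact .inl h'
          · exact absurd h' h7
        · rintro (h' | h')
          · exact .inr (.inl ⟨rfl, h'⟩)
          · refine .inl ⟨.inl h', ?_, fun h'' => h7 h''.1⟩
            rintro ⟨-, h''⟩
            exact hab (h'.symm.trans (h''.trans hp1))
    · by_cases e2 : h = s.h2
      · subst e2
        have hp2 := (hiff _).1 h2
        have hp1 : ¬ (s.p1 = a ∨ s.p1 = b) := fun h' => h4 ((hiff _).2 h')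
        push Not at hp1
        rcases hp2 with hp2 | hp2
        · refine ⟨s.p1, b, hp1.2, fun p => ?_⟩
          unfold swapF
          rw [hiff]
          constructor
          · rintro (⟨h' | h', -, h''⟩ | ⟨h', -⟩ | ⟨-, h'⟩)
            · exact absurd ⟨rfl, h'.trans hp2.symm⟩ h''
            · exact .inr h'
            · exact absurd h' e1
            · exact .inl h'
          · rintro (h' | h')
            · exact .inr (.inr ⟨rfl, h'⟩)
            · refine .inl ⟨.inr h', fun h'' => e1 h''.1, ?_⟩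
              rintro ⟨-, h''⟩
              exact hab (hp2.symm.trans (h''.symm.trans h'))
        · refine ⟨s.p1, a, hp1.1, fun p => ?_⟩
          unfold swapF
          rw [hiff]
          constructor
          · rintro (⟨h' | h', -, h''⟩ | ⟨h', -⟩ | ⟨-, h'⟩)
            · exact .inr h'
            · exact absurd ⟨rfl, h'.trans hp2.symm⟩ h''
            · exact absurd h' e1
            · exact .inl h'
          · rintro (h' | h')
            · exact .inr (.inr ⟨rfl, h'⟩)
            · refine .inl ⟨.inl h', fun h'' => e1 h''.1, ?_⟩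
              rintro ⟨-, h''⟩
              exact hab (h'.symm.trans (h''.trans hp2))
      · refine ⟨a, b, hab, fun p => ?_⟩
        unfold swapF
        rw [hiff]
        constructor
        · rintro (⟨h', -, -⟩ | ⟨h', -⟩ | ⟨h', -⟩)
          · exact h'
          · exact absurd h' e1
          · exact absurd h' e2
        · intro h'
          exact .inl ⟨h', fun h'' => e1 h''.1, fun h'' => e2 h''.1⟩
  · intro p hp
    obtain ⟨a, b, hab, hiff⟩ := hF.col p hp
    by_cases e1 : p = s.p1
    · subst e1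
      have hh1 := (hiff _).1 h1
      have hh2 : ¬ (s.h2 = a ∨ s.h2 = b) := fun h' => h4 ((hiff _).2 h')
      push Not at hh2
      rcases hh1 with hh1 | hh1
      · refine ⟨s.h2, b, hh2.2, fun h => ?_⟩
        unfold swapF
        rw [hiff]
        constructor
        · rintro (⟨h' | h', h'', -⟩ | ⟨-, h'⟩ | ⟨h', -⟩)
          · exact absurd ⟨h'.trans hh1.symm, rfl⟩ h''
          · exact .inr h'
          · exact absurd h' h8
          · exact .inl h'
        · rintro (h' | h')
          · exact .inr (.inr ⟨h', rfl⟩)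
          · refine .inl ⟨.inr h', ?_, fun h'' => h8 h''.2⟩
            rintro ⟨h'', -⟩
            exact hab (hh1.symm.trans (h''.symm.trans h'))
      · refine ⟨s.h2, a, hh2.1, fun h => ?_⟩
        unfold swapF
        rw [hiff]
        constructor
        · rintro (⟨h' | h', h'', -⟩ | ⟨-, h'⟩ | ⟨h', -⟩)
          · exact .inr h'
          · exact absurd ⟨h'.trans hh1.symm, rfl⟩ h''
          · exact absurd h' h8
          · exact .inl h'
        · rintro (h' | h')
          · exact .inr (.inr ⟨h', rfl⟩)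
          · refine .inl ⟨.inl h', ?_, fun h'' => h8 h''.2⟩
            rintro ⟨h'', -⟩
            exact hab (h'.symm.trans (h''.trans hh1))
    · by_cases e2 : p = s.p2
      · subst e2
        have hh2 := (hiff _).1 h2
        have hh1 : ¬ (s.h1 = a ∨ s.h1 = b) := fun h' => h3 ((hiff _).2 h')
        push Not at hh1
        rcases hh2 with hh2 | hh2
        · refine ⟨s.h1, b, hh1.2, fun h => ?_⟩
          unfold swapF
          rw [hiff]
          constructor
          · rintro (⟨h' | h', -, h''⟩ | ⟨h', -⟩ | ⟨-, h'⟩)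
            · exact absurd ⟨h'.trans hh2.symm, rfl⟩ h''
            · exact .inr h'
            · exact .inl h'
            · exact absurd h' e1
          · rintro (h' | h')
            · exact .inr (.inl ⟨h', rfl⟩)
            · refine .inl ⟨.inr h', fun h'' => e1 h''.2, ?_⟩
              rintro ⟨h'', -⟩
              exact hab (hh2.symm.trans (h''.symm.trans h'))
        · refine ⟨s.h1, a, hh1.1, fun h => ?_⟩
          unfold swapF
          rw [hiff]
          constructor
          · rintro (⟨h' | h', -, h''⟩ | ⟨h', -⟩ | ⟨-, h'⟩)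
            · exact .inr h'
            · exact absurd ⟨h'.trans hh2.symm, rfl⟩ h''
            · exact .inl h'
            · exact absurd h' e1
          · rintro (h' | h')
            · exact .inr (.inl ⟨h', rfl⟩)
            · refine .inl ⟨.inl h', fun h'' => e1 h''.2, ?_⟩
              rintro ⟨h'', -⟩
              exact hab (h'.symm.trans (h''.trans hh2))
      · refine ⟨a, b, hab, fun h => ?_⟩
        unfold swapF
        rw [hiff]
        constructor
        · rintro (⟨h', -, -⟩ | ⟨-, h'⟩ | ⟨-, h'⟩)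
          · exact h'
          · exact absurd h' e2
          · exact absurd h' e1
        · intro h'
          exact .inl ⟨h', fun h'' => e1 h''.2, fun h'' => e2 h''.2⟩

/-- the parity argument: an edge cannot be the only edge of a 2-factor leaving a set -/
theorem not_single_edge {VH : Set α} {VP : Set β} (hVH : VH.Finite) (hVP : VP.Finite)
    {adj F : α → β → Prop} (hF : TwoFac VH VP adj F) {h1 : α} {p1 : β} (hF1 : F h1 p1)
    {T : Set α} {T' : Set β} (hT : h1 ∈ T) (hT' : p1 ∉ T')
    (hcl : ∀ h p, F h p → ¬ (h = h1 ∧ p = p1) → (h ∈ T ↔ p ∈ T')) : False := by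
  classical
  let A : Finset α := hVH.toFinset.filter (· ∈ T)
  let B : Finset β := hVP.toFinset.filter (· ∈ T')
  let r : α → β → Prop := fun h p => F h p
  have hA : ∀ h, h ∈ A ↔ h ∈ VH ∧ h ∈ T := fun h => by simp [A]
  have hB : ∀ p, p ∈ B ↔ p ∈ VP ∧ p ∈ T' := fun p => by simp [B]
  have key := Finset.sum_card_bipartiteAbove_eq_sum_card_bipartiteBelow (s := A) (t := B) r
  have hright : ∀ p ∈ B, (A.bipartiteBelow r p).card = 2 := by
    intro p hp
    obtain ⟨hpV, hpT⟩ := (hB p).1 hp
    obtain ⟨a, b, hab, hiff⟩ := hF.col p hpV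
    have : A.bipartiteBelow r p = {a, b} := by
      ext h
      rw [Finset.mem_bipartiteBelow, hA, Finset.mem_insert, Finset.mem_singleton]
      change (h ∈ VH ∧ h ∈ T) ∧ F h p ↔ _
      rw [hiff]
      constructor
      · exact fun h' => h'.2
      · intro h'
        have hFp : F h p := (hiff h).2 h'
        refine ⟨⟨(hF.sub _ _ hFp).1, ?_⟩, h'⟩
        refine (hcl h p hFp ?_).2 hpT
        rintro ⟨-, rfl⟩
        exact hT' hpT
    rw [this, Finset.card_pair hab]
  have hleft : ∀ h ∈ A.erase h1, (B.bipartiteAbove r h).card = 2 := by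
    intro h hh
    rw [Finset.mem_erase] at hh
    obtain ⟨hne, hh⟩ := hh
    obtain ⟨hhV, hhT⟩ := (hA h).1 hh
    obtain ⟨a, b, hab, hiff⟩ := hF.row h hhV
    have : B.bipartiteAbove r h = {a, b} := by
      ext p
      rw [Finset.mem_bipartiteAbove, hB, Finset.mem_insert, Finset.mem_singleton]
      change (p ∈ VP ∧ p ∈ T') ∧ F h p ↔ _
      rw [hiff]
      constructor
      · exact fun h' => h'.2
      · intro h'
        have hFp : F h p := (hiff p).2 h'
        refine ⟨⟨(hF.sub _ _ hFp).2.1, ?_⟩, h'⟩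
        exact (hcl h p hFp fun h'' => hne h''.1).1 hhT
    rw [this, Finset.card_pair hab]
  have h1A : h1 ∈ A := (hA h1).2 ⟨(hF.sub _ _ hF1).1, hT⟩
  have hone : (B.bipartiteAbove r h1).card = 1 := by
    obtain ⟨a, b, hab, hiff⟩ := hF.row h1 (hF.sub _ _ hF1).1
    have hc : ∀ c, F h1 c → c ≠ p1 → c ∈ VP ∧ c ∈ T' := fun c hc hne =>
      ⟨(hF.sub _ _ hc).2.1, (hcl h1 c hc fun h'' => hne h''.2).1 hT⟩
    rcases (hiff p1).1 hF1 with e | e
    · have : B.bipartiteAbove r h1 = {b} := by
        ext p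
        rw [Finset.mem_bipartiteAbove, hB, Finset.mem_singleton]
        change (p ∈ VP ∧ p ∈ T') ∧ F h1 p ↔ _
        constructor
        · rintro ⟨⟨-, h'⟩, h''⟩
          rcases (hiff p).1 h'' with e' | e'
          · exact absurd (e'.trans e.symm ▸ h') hT'
          · exact e'
        · rintro rfl
          have hFb : F h1 p := (hiff p).2 (.inr rfl)
          exact ⟨hc p hFb fun h' => hab (e.symm.trans h'.symm), hFb⟩
      rw [this, Finset.card_singleton]
    · have : B.bipartiteAbove r h1 = {a} := by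
        ext p
        rw [Finset.mem_bipartiteAbove, hB, Finset.mem_singleton]
        change (p ∈ VP ∧ p ∈ T') ∧ F h1 p ↔ _
        constructor
        · rintro ⟨⟨-, h'⟩, h''⟩
          rcases (hiff p).1 h'' with e' | e'
          · exact e'
          · exact absurd (e'.trans e.symm ▸ h') hT'
        · rintro rfl
          have hFb : F h1 p := (hiff p).2 (.inl rfl)
          exact ⟨hc p hFb fun h' => hab (h'.trans e), hFb⟩
      rw [this, Finset.card_singleton]
  rw [← Finset.add_sum_erase _ _ h1A, hone, Finset.sum_congr rfl hleft,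
    Finset.sum_congr rfl hright, Finset.sum_const, Finset.sum_const, smul_eq_mul, smul_eq_mul] at key
  omega

theorem closed_of_swapF_aux {VH : Set α} {VP : Set β} (hVH : VH.Finite) (hVP : VP.Finite)
    {adj F : α → β → Prop} (hF : TwoFac VH VP adj F)
    (s : Swap α β) (h1 : F s.h1 s.p1) (h2 : F s.h2 s.p2)
    {S0 : Set α} {S0' : Set β} (hcl0 : Closed F S0 S0') (hm1 : s.h1 ∈ S0) (hm2 : s.h2 ∉ S0)
    {S : Set α} {S' : Set β} (hcl : Closed (swapF F s) S S') (hS : s.h1 ∈ S) : s.p1 ∈ S' := by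
  by_contra hS'
  have hp2 : s.p2 ∉ S0' := fun h => hm2 ((hcl0 _ _ h2).2 h)
  refine not_single_edge hVH hVP hF h1 (T := S ∩ S0) (T' := S' ∩ S0') ⟨hS, hm1⟩
    (fun h => hS' h.1) ?_
  intro h p hhp hne
  have e0 := hcl0 h p hhp
  by_cases hne2 : h = s.h2 ∧ p = s.p2
  · obtain ⟨rfl, rfl⟩ := hne2
    constructor
    · exact fun h => absurd h.2 hm2
    · exact fun h => absurd h.2 hp2
  · have e1 := hcl h p (.inl ⟨hhp, hne, hne2⟩)
    exact and_congr e1 e0

theorem closed_of_swapF {VH : Set α} {VP : Set β} (hVH : VH.Finite) (hVP : VP.Finite)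
    {adj F : α → β → Prop} (hF : TwoFac VH VP adj F)
    (s : Swap α β) (h1 : F s.h1 s.p1) (h2 : F s.h2 s.p2)
    {S0 : Set α} {S0' : Set β} (hcl0 : Closed F S0 S0') (hm1 : s.h1 ∈ S0) (hm2 : s.h2 ∉ S0)
    {S : Set α} {S' : Set β} (hcl : Closed (swapF F s) S S') : Closed F S S' := by
  have e1 : s.h1 ∈ S ↔ s.p2 ∈ S' := hcl _ _ (.inr (.inl ⟨rfl, rfl⟩))
  have e2 : s.h2 ∈ S ↔ s.p1 ∈ S' := hcl _ _ (.inr (.inr ⟨rfl, rfl⟩))
  have e3 : s.h1 ∈ S ↔ s.p1 ∈ S' := by
    constructor
    · exact closed_of_swapF_aux hVH hVP hF s h1 h2 hcl0 hm1 hm2 hcl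
    · intro h
      by_contra h'
      exact closed_of_swapF_aux hVH hVP hF s h1 h2 hcl0 hm1 hm2 hcl.compl h' h
  intro h p hhp
  by_cases c1 : h = s.h1 ∧ p = s.p1
  · obtain ⟨rfl, rfl⟩ := c1
    exact e3
  · by_cases c2 : h = s.h2 ∧ p = s.p2
    · obtain ⟨rfl, rfl⟩ := c2
      rw [e2, ← e3, e1]
    · exact hcl h p (.inl ⟨hhp, c1, c2⟩)

/-- **Greedy patching.** A 2-factor `F` and a list of swaps which use pairwise different edges (every
edge `(h, p)` is used by at most one swap, the one with the key `key h p`); if everything is connected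
by `F` and the swaps, then there is a connected 2-factor. -/
theorem exists_conn_of_swaps {κ : Type*} {VH : Set α} {VP : Set β} (hVH : VH.Finite)
    (hVP : VP.Finite) (adj : α → β → Prop) (key : α → β → κ) (name : Swap α β → κ)
    (sw : List (Swap α β)) (hnd : (sw.map name).Nodup)
    (hsw : ∀ s ∈ sw, adj s.h1 s.p2 ∧ adj s.h2 s.p1 ∧ s.h1 ≠ s.h2 ∧ s.p1 ≠ s.p2 ∧
      key s.h1 s.p1 = name s ∧ key s.h2 s.p2 = name s ∧ key s.h1 s.p2 = name s ∧
      key s.h2 s.p1 = name s)
    (F : α → β → Prop) (hF : TwoFac VH VP adj F)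
    (hsF : ∀ s ∈ sw, F s.h1 s.p1 ∧ F s.h2 s.p2 ∧ ¬ F s.h1 s.p2 ∧ ¬ F s.h2 s.p1)
    (hconn : ∀ S S', Closed F S S' → (∀ s ∈ sw, s.h1 ∈ S ↔ s.h2 ∈ S) → Trivial VH VP S S') :
    ∃ F', TwoFac VH VP adj F' ∧ Conn VH VP F' := by
  induction sw generalizing F with
  | nil => exact ⟨F, hF, fun S S' hcl => hconn S S' hcl (by simp)⟩
  | cons s rest ih =>
    have hs := hsw s (by simp)
    have hsFs := hsF s (by simp)
    rw [List.map_cons, List.nodup_cons] at hnd
    have hrest : ∀ s' ∈ rest, name s' ≠ name s := fun s' hs' h =>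
      hnd.1 (h ▸ List.mem_map_of_mem hs')
    by_cases hA : ∀ S S', Closed F S S' → (s.h1 ∈ S ↔ s.h2 ∈ S)
    · refine ih hnd.2 (fun s' h' => hsw s' (List.mem_cons_of_mem _ h')) F hF
        (fun s' h' => hsF s' (List.mem_cons_of_mem _ h')) fun S S' hcl hr => ?_
      refine hconn S S' hcl fun s' h' => ?_
      rcases List.mem_cons.1 h' with rfl | h'
      · exact hA S S' hcl
      · exact hr s' h'
    · have hB : ∃ S0 S0', Closed F S0 S0' ∧ s.h1 ∈ S0 ∧ s.h2 ∉ S0 := by
        push Not at hA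
        obtain ⟨S, S', hcl, h⟩ := hA
        rcases h with ⟨ha, hb⟩ | ⟨ha, hb⟩
        · exact ⟨S, S', hcl, ha, hb⟩
        · exact ⟨Sᶜ, S'ᶜ, hcl.compl, ha, fun h => h hb⟩
      obtain ⟨S0, S0', hcl0, hm1, hm2⟩ := hB
      refine ih hnd.2 (fun s' h' => hsw s' (List.mem_cons_of_mem _ h')) (swapF F s)
        (swapF_twoFac hF s hsFs.1 hsFs.2.1 hsFs.2.2.1 hsFs.2.2.2 hs.1 hs.2.1 hs.2.2.1
          hs.2.2.2.1) ?_ ?_
      · intro s' h'
        have hne := hrest s' h'
        have hk := (hsw s' (List.mem_cons_of_mem _ h')).2.2.2.2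
        have hks := hs.2.2.2.2
        obtain ⟨f1, f2, f3, f4⟩ := hsF s' (List.mem_cons_of_mem _ h')
        have gen : ∀ (h h' : α) (p p' : β), key h p = name s' → key h' p' = name s →
            ¬ (h = h' ∧ p = p') := by
          rintro h h' p p' k1 k2 ⟨rfl, rfl⟩
          exact hne (k1.symm.trans k2)
        refine ⟨.inl ⟨f1, gen _ _ _ _ hk.1 hks.1, gen _ _ _ _ hk.1 hks.2.1⟩,
          .inl ⟨f2, gen _ _ _ _ hk.2.1 hks.1, gen _ _ _ _ hk.2.1 hks.2.1⟩, ?_, ?_⟩
        · rintro (h'' | h'' | h'')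
          · exact f3 h''.1
          · exact gen _ _ _ _ hk.2.2.1 hks.2.2.1 h''
          · exact gen _ _ _ _ hk.2.2.1 hks.2.2.2 h''
        · rintro (h'' | h'' | h'')
          · exact f4 h''.1
          · exact gen _ _ _ _ hk.2.2.2 hks.2.2.1 h''
          · exact gen _ _ _ _ hk.2.2.2 hks.2.2.2 h''
      · intro S S' hcl hr
        have hcl' := closed_of_swapF hVH hVP hF s hsFs.1 hsFs.2.1 hcl0 hm1 hm2 hcl
        refine hconn S S' hcl' fun s' h' => ?_
        rcases List.mem_cons.1 h' with rfl | h'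
        · rw [hcl _ _ (.inr (.inl ⟨rfl, rfl⟩)), hcl' _ _ hsFs.2.1]
        · exact hr s' h'

end Pool.Agent.Lib.H48MaxScatter
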