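import Pool.Agent.Lib.H48MaxScatter.Spec
import Pool.Agent.Lib.H48MaxScatter.Factor

/-!
# Completeness: a satisfying assignment yields a connected 2-factor
-/

set_option autoImplicit false
set_option linter.unusedSimpArgs false

namespace Pool.Agent.Lib.H48MaxScatter

namespace Dat

variable (d : Dat) (a : ℕ → Bool)

/-- the first neighbour of a half-plane in the base 2-factor -/
def nb1 : HN → PN
  | .T e b => if e = 0 then .x (d.N + 1) b else if e = d.N + 1 then .x d.N b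
      else .l0 (e - 1) (if b then d.V else 0)
  | .HA e m => if e = 0 ∨ e = d.N then .qA e m else .q e m
  | .HB e m => if e = 0 ∨ e = d.N then .qB e m else .q e m
  | .GlA j m => .l0 j m
  | .GlB j m => .l1 j m
  | .GrA j m => .r0 j m
  | .GrB j m => .r1 j m
  | .Go j m => .oA j m
  | .D m => .oA d.N m
  | .D' m => .qB 0 m
  | .D1 m => .qA 0 m
  | .D2 m => .qA d.N m

/-- the second neighbour of a half-plane in the base 2-factor -/
def nb2 : HN → PN
  | .T e b => if e = d.N then .x d.N b else if e = d.N + 1 then .x (d.N + 1) b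
      else .r0 e (if b then d.V else 0)
  | .HA e m => .oA (if a m then e else rc d.N e) m
  | .HB e m => .oB (if a m then e else rc d.N e) m
  | .GlA j m => .l1 j m
  | .GlB j m => .l0 j (m + 1)
  | .GrA j m => .r1 j m
  | .GrB j m => .r0 j (m + 1)
  | .Go j m => .oB j m
  | .D m => .oA (d.N + 1) m
  | .D' m => .qB d.N m
  | .D1 m => .oB (d.N + 1) m
  | .D2 m => .oB d.N m

/-- the first neighbour of a point in the base 2-factor -/
def mb1 : PN → HN
  | .l0 j m => if m < d.V then .GlA j m else .T (j + 1) true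
  | .r0 j m => if m < d.V then .GrA j m else .T j true
  | .l1 j m => .GlA j m
  | .r1 j m => .GrA j m
  | .oA c m => if c < d.N then .Go c m else .D m
  | .oB c m => if c < d.N then .Go c m else if c = d.N then .D2 m else .D1 m
  | .q e m => .HA e m
  | .qA e m => .HA e m
  | .qB e m => .HB e m
  | .x c b => .T c b

/-- the second neighbour of a point in the base 2-factor -/
def mb2 : PN → HN
  | .l0 j m => if m = 0 then .T (j + 1) false else .GlB j (m - 1)
  | .r0 j m => if m = 0 then .T j false else .GrB j (m - 1)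
  | .l1 j m => .GlB j m
  | .r1 j m => .GrB j m
  | .oA c m => .HA (if a m then c else leftEdge d.N c) m
  | .oB c m => .HB (if a m then c else leftEdge d.N c) m
  | .q e m => .HB e m
  | .qA e m => if e = 0 then .D1 m else .D2 m
  | .qB _ m => .D' m
  | .x c b => if c = d.N then .T (d.N + 1) b else .T 0 b

theorem nb_ok {h : HN} (hh : d.okH h) : d.okP (d.nb1 h) ∧ d.okP (d.nb2 a h) := by
  have hN := d.hN
  have hV := d.hV
  rcases h with ⟨e, _ | _⟩ | ⟨e, m⟩ | ⟨e, m⟩ | ⟨j, m⟩ | ⟨j, m⟩ | ⟨j, m⟩ | ⟨j, m⟩ | ⟨j, m⟩ |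
      m | m | m | m <;>
  simp only [okH, nb1, nb2, rc] at * <;>
  (try split_ifs) <;>
  simp only [okP, or_true, true_or, true_and, and_true, false_or, or_false] <;> omega

theorem mb_ok {p : PN} (hp : d.okP p) : d.okH (d.mb1 p) ∧ d.okH (d.mb2 a p) := by
  have hN := d.hN
  have hV := d.hV
  rcases p with ⟨j, m⟩ | ⟨j, m⟩ | ⟨j, m⟩ | ⟨j, m⟩ | ⟨j, m⟩ | ⟨j, m⟩ | ⟨j, m⟩ | ⟨j, m⟩ | ⟨j, m⟩ |
      ⟨c, _ | _⟩ <;>
  simp only [okP, mb1, mb2, leftEdge] at * <;>
  (try split_ifs) <;>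
  simp only [okH, or_true, true_or, true_and, and_true, false_or, or_false] <;> omega

theorem nb_ne {h : HN} : d.nb1 h ≠ d.nb2 a h := by
  have hN := d.hN
  have hV := d.hV
  rcases h with ⟨e, _ | _⟩ | ⟨e, m⟩ | ⟨e, m⟩ | ⟨j, m⟩ | ⟨j, m⟩ | ⟨j, m⟩ | ⟨j, m⟩ | ⟨j, m⟩ |
      m | m | m | m <;>
  simp only [nb1, nb2, rc] at * <;>
  (try split_ifs) <;>
  simp only [ne_eq, PN.l0.injEq, PN.l1.injEq, PN.r0.injEq, PN.r1.injEq, PN.oA.injEq, PN.oB.injEq,
      PN.x.injEq, PN.q.injEq, PN.qA.injEq, PN.qB.injEq, reduceCtorEq, not_false_eq_true] <;>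
  omega

theorem mb_ne {p : PN} (hp : d.okP p) : d.mb1 p ≠ d.mb2 a p := by
  have hN := d.hN
  have hV := d.hV
  rcases p with ⟨j, m⟩ | ⟨j, m⟩ | ⟨j, m⟩ | ⟨j, m⟩ | ⟨j, m⟩ | ⟨j, m⟩ | ⟨j, m⟩ | ⟨j, m⟩ | ⟨j, m⟩ |
      ⟨c, _ | _⟩ <;>
  simp only [okP, mb1, mb2, leftEdge] at * <;>
  (try split_ifs) <;>
  simp only [ne_eq, HN.T.injEq, reduceCtorEq, not_false_eq_true, not_and] <;>
  omega


theorem mb_nb1 {h : HN} (hh : d.okH h) : h = d.mb1 (d.nb1 h) ∨ h = d.mb2 a (d.nb1 h) := by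
  have hN := d.hN
  have hV := d.hV
  rcases h with ⟨e, _ | _⟩ | ⟨e, m⟩ | ⟨e, m⟩ | ⟨j, m⟩ | ⟨j, m⟩ | ⟨j, m⟩ | ⟨j, m⟩ | ⟨j, m⟩ |
      m | m | m | m <;>
  simp only [okH, nb1] at * <;>
  (try split_ifs) <;> simp only [mb1, mb2] <;> (try split_ifs) <;>
  simp only [HN.T.injEq, reduceCtorEq, true_or, or_true, or_false, false_or, HN.GlA.injEq,
    HN.GlB.injEq, HN.GrA.injEq, HN.GrB.injEq, HN.Go.injEq, HN.D.injEq, HN.D'.injEq, HN.D1.injEq,
    HN.D2.injEq, HN.HA.injEq, HN.HB.injEq] <;> (try simp) <;> omega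

theorem mb_nb2 {h : HN} (hh : d.okH h) : h = d.mb1 (d.nb2 a h) ∨ h = d.mb2 a (d.nb2 a h) := by
  have hN := d.hN
  have hV := d.hV
  rcases h with ⟨e, _ | _⟩ | ⟨e, m⟩ | ⟨e, m⟩ | ⟨j, m⟩ | ⟨j, m⟩ | ⟨j, m⟩ | ⟨j, m⟩ | ⟨j, m⟩ |
      m | m | m | m <;>
  simp only [okH, nb2, rc] at * <;>
  (try split_ifs) <;> simp only [mb1, mb2, leftEdge] <;> (try split_ifs) <;>
  simp only [HN.T.injEq, reduceCtorEq, true_or, or_true, or_false, false_or, HN.GlA.injEq,
    HN.GlB.injEq, HN.GrA.injEq, HN.GrB.injEq, HN.Go.injEq, HN.D.injEq, HN.D'.injEq, HN.D1.injEq,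
    HN.D2.injEq, HN.HA.injEq, HN.HB.injEq] <;> (try simp) <;> omega


theorem nb_mb1 {p : PN} (hp : d.okP p) : p = d.nb1 (d.mb1 p) ∨ p = d.nb2 a (d.mb1 p) := by
  have hN := d.hN
  have hV := d.hV
  rcases p with ⟨j, m⟩ | ⟨j, m⟩ | ⟨j, m⟩ | ⟨j, m⟩ | ⟨j, m⟩ | ⟨j, m⟩ | ⟨j, m⟩ | ⟨j, m⟩ | ⟨j, m⟩ |
      ⟨c, _ | _⟩ <;>
  simp only [okP, mb1] at * <;>
  (try split_ifs) <;> simp only [nb1, nb2, rc] <;>
  (try simp only [Nat.succ_ne_zero, Nat.add_sub_cancel, if_false, if_true, Bool.false_eq_true]) <;>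
  (try split_ifs) <;>
  (try simp only [PN.l0.injEq, PN.l1.injEq, PN.r0.injEq, PN.r1.injEq, PN.oA.injEq, PN.oB.injEq,
      PN.x.injEq, PN.q.injEq, PN.qA.injEq, PN.qB.injEq, reduceCtorEq, true_or, or_true, or_false,
      false_or, true_and, and_true]) <;> omega

theorem vis_nb {h : HN} (hh : d.okH h) : d.Vis h (d.nb1 h) ∧ d.Vis h (d.nb2 a h) := by
  have hN := d.hN
  have hV := d.hV
  have hI : d.I = 32 * d.V + 64 := rfl
  rcases h with ⟨e, _ | _⟩ | ⟨e, m⟩ | ⟨e, m⟩ | ⟨j, m⟩ | ⟨j, m⟩ | ⟨j, m⟩ | ⟨j, m⟩ | ⟨j, m⟩ |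
      m | m | m | m <;>
  simp only [okH, nb1, nb2, rc, Vis, if_false, if_true, Bool.false_eq_true] at * <;>
  (try split_ifs) <;>
  simp only [dH, dP, leftEdge] <;> (try split_ifs) <;> simp only [Sees, leftEdge] <;>
  (try split_ifs) <;>
  (try simp only [true_and, and_true, true_or, or_true, or_false, false_or]) <;>
  omega


theorem nb_mb2 {p : PN} (hp : d.okP p) : p = d.nb1 (d.mb2 a p) ∨ p = d.nb2 a (d.mb2 a p) := by
  have hN := d.hN
  have hV := d.hV
  rcases p with ⟨j, m⟩ | ⟨j, m⟩ | ⟨j, m⟩ | ⟨j, m⟩ | ⟨j, m⟩ | ⟨j, m⟩ | ⟨j, m⟩ | ⟨j, m⟩ | ⟨j, m⟩ |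
      ⟨c, _ | _⟩ <;>
  simp only [okP, mb2, leftEdge] at * <;>
  (try split_ifs) <;> simp only [nb1, nb2, rc] <;>
  (try simp only [Nat.succ_ne_zero, Nat.add_sub_cancel, if_false, if_true, Bool.false_eq_true]) <;>
  (try split_ifs) <;>
  (try simp only [PN.l0.injEq, PN.l1.injEq, PN.r0.injEq, PN.r1.injEq, PN.oA.injEq, PN.oB.injEq,
      PN.x.injEq, PN.q.injEq, PN.qA.injEq, PN.qB.injEq, reduceCtorEq, true_or, or_true, or_false,
      false_or, true_and, and_true]) <;> omega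

/-- the base 2-factor -/
def base (h : HN) (p : PN) : Prop := d.okH h ∧ (p = d.nb1 h ∨ p = d.nb2 a h)

theorem base_iff {h : HN} {p : PN} (hp : d.okP p) :
    d.base a h p ↔ h = d.mb1 p ∨ h = d.mb2 a p := by
  constructor
  · rintro ⟨hh, rfl | rfl⟩
    · exact d.mb_nb1 a hh
    · exact d.mb_nb2 a hh
  · rintro (rfl | rfl)
    · exact ⟨(d.mb_ok a hp).1, d.nb_mb1 a hp⟩
    · exact ⟨(d.mb_ok a hp).2, d.nb_mb2 a hp⟩

theorem twoFac_base : TwoFac {h | d.okH h} {p | d.okP p} d.Vis (d.base a) := by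
  refine ⟨?_, ?_, ?_⟩
  · rintro h p ⟨hh, rfl | rfl⟩
    · exact ⟨hh, (d.nb_ok a hh).1, (d.vis_nb a hh).1⟩
    · exact ⟨hh, (d.nb_ok a hh).2, (d.vis_nb a hh).2⟩
  · intro h hh
    exact ⟨d.nb1 h, d.nb2 a h, d.nb_ne a, fun p => ⟨fun h1 => h1.2, fun h1 => ⟨hh, h1⟩⟩⟩
  · intro p hp
    exact ⟨d.mb1 p, d.mb2 a p, d.mb_ne a hp, fun h => d.base_iff a hp⟩

/-- the swaps at the second points `oB` -/
def swB (j m : ℕ) : Swap HN PN :=
  if a m then ⟨.HB j m, .oB j m, .GrB j m, .r1 j m⟩ else ⟨.HB (j + 1) m, .oB j m, .GlB j m, .l1 j m⟩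

/-- the swaps at the first points `oA` -/
def swA (j m : ℕ) : Swap HN PN :=
  if a m then ⟨.HA j m, .oA j m, .GlA j m, .l0 j m⟩ else ⟨.HA (j + 1) m, .oA j m, .GrA j m, .r0 j m⟩

/-- the literal of the variable `m` at the corner `j` is true -/
def lit (j m : ℕ) : Bool := if a m then d.pos j m else d.neg j m

/-- the key of an edge -/
def key (h : HN) (p : PN) : ℕ × ℕ × Bool :=
  (p.i1, p.i2, match h with
    | .HB _ _ => true | .GlB _ _ => true | .GrB _ _ => true | _ => false)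

/-- the list of the keys of the swaps -/
def keys : List (ℕ × ℕ × Bool) :=
  ((List.range d.N) ×ˢ ((List.range d.V) ×ˢ [true, false])).filter
    fun k => k.2.2 || d.lit a k.1 k.2.1

/-- the swap with a given key -/
def mkSwap (k : ℕ × ℕ × Bool) : Swap HN PN :=
  if k.2.2 then swB a k.1 k.2.1 else swA a k.1 k.2.1

theorem nodup_keys : (d.keys a).Nodup := by
  unfold keys
  refine List.Nodup.filter _ (List.Nodup.product List.nodup_range
    (List.Nodup.product List.nodup_range (by simp)))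

theorem mem_keys {k : ℕ × ℕ × Bool} (hk : k ∈ d.keys a) :
    k.1 < d.N ∧ k.2.1 < d.V ∧ (k.2.2 = false → d.lit a k.1 k.2.1 = true) := by
  obtain ⟨j, m, b⟩ := k
  unfold keys at hk
  simp only [List.mem_filter, List.mem_product, List.mem_range, Bool.or_eq_true] at hk
  refine ⟨hk.1.1, hk.1.2.1, fun hb => ?_⟩
  simp only at hb
  rcases hk.2 with h | h
  · rw [hb] at h; exact absurd h (by simp)
  · exact h

theorem keys_B {j m : ℕ} (hj : j < d.N) (hm : m < d.V) : (j, m, true) ∈ d.keys a := by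
  simp [keys, hj, hm]

theorem keys_A {j m : ℕ} (hj : j < d.N) (hm : m < d.V) (hl : d.lit a j m = true) :
    (j, m, false) ∈ d.keys a := by
  simp [keys, hj, hm, hl]


theorem key_mkSwap (k : ℕ × ℕ × Bool) :
    key (mkSwap a k).h1 (mkSwap a k).p1 = k ∧ key (mkSwap a k).h2 (mkSwap a k).p2 = k ∧
    key (mkSwap a k).h1 (mkSwap a k).p2 = k ∧ key (mkSwap a k).h2 (mkSwap a k).p1 = k := by
  obtain ⟨j, m, _ | _⟩ := k <;>
  simp only [mkSwap, swA, swB, if_true, if_false, Bool.false_eq_true] <;>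
  split_ifs <;> exact ⟨rfl, rfl, rfl, rfl⟩

theorem swap_vis {k : ℕ × ℕ × Bool} (hk : k ∈ d.keys a) :
    d.Vis (mkSwap a k).h1 (mkSwap a k).p2 ∧ d.Vis (mkSwap a k).h2 (mkSwap a k).p1 ∧
    (mkSwap a k).h1 ≠ (mkSwap a k).h2 ∧ (mkSwap a k).p1 ≠ (mkSwap a k).p2 := by
  have hN := d.hN
  have hV := d.hV
  obtain ⟨h1, h2, h3⟩ := d.mem_keys a hk
  obtain ⟨j, m, _ | _⟩ := k
  · have h4 := h3 rfl
    simp only [lit] at h4
    simp only at h1 h2
    simp only [mkSwap, swA, if_false, Bool.false_eq_true]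
    split_ifs at h4 ⊢ with h5
    · simp only [Vis, dH, dP, h4, if_true, Sees, leftEdge]
      refine ⟨?_, ?_, by simp, by simp⟩ <;> (try split_ifs) <;>
        (try simp only [true_and]) <;> omega
    · simp only [Vis, dH, dP, h4, if_true, Sees, leftEdge]
      refine ⟨?_, ?_, by simp, by simp⟩ <;> (try split_ifs) <;>
        (try simp only [true_and]) <;> omega
  · simp only at h1 h2
    simp only [mkSwap, swB, if_true]
    split_ifs with h5
    · simp only [Vis, dH, dP, if_true, Sees, leftEdge]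
      refine ⟨?_, ?_, by simp, by simp⟩ <;> (try split_ifs) <;>
        (try simp only [true_and]) <;> omega
    · simp only [Vis, dH, dP, if_true, Sees, leftEdge]
      refine ⟨?_, ?_, by simp, by simp⟩ <;> (try split_ifs) <;>
        (try simp only [true_and]) <;> omega

theorem swap_base {k : ℕ × ℕ × Bool} (hk : k ∈ d.keys a) :
    d.base a (mkSwap a k).h1 (mkSwap a k).p1 ∧ d.base a (mkSwap a k).h2 (mkSwap a k).p2 ∧
    ¬ d.base a (mkSwap a k).h1 (mkSwap a k).p2 ∧ ¬ d.base a (mkSwap a k).h2 (mkSwap a k).p1 := by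
  have hN := d.hN
  have hV := d.hV
  obtain ⟨h1, h2, h3⟩ := d.mem_keys a hk
  obtain ⟨j, m, _ | _⟩ := k
  · simp only at h1 h2
    simp only [mkSwap, swA, if_false, Bool.false_eq_true]
    split_ifs with h5
    · simp only [base, nb1, nb2, okH, h5, if_true, rc]
      refine ⟨?_, ?_, ?_, ?_⟩ <;> (try split_ifs) <;> simp <;> omega
    · simp only [base, nb1, nb2, okH, h5, if_false, rc]
      refine ⟨?_, ?_, ?_, ?_⟩ <;> (try split_ifs) <;> simp <;> omega
  · simp only at h1 h2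
    simp only [mkSwap, swB, if_true]
    split_ifs with h5
    · simp only [base, nb1, nb2, okH, h5, if_true, rc]
      refine ⟨?_, ?_, ?_, ?_⟩ <;> (try split_ifs) <;> simp <;> omega
    · simp only [base, nb1, nb2, okH, h5, if_false, rc]
      refine ⟨?_, ?_, ?_, ?_⟩ <;> (try split_ifs) <;> simp <;> omega


theorem mem_hps {h : HN} : h ∈ d.hps ↔ d.okH h := by
  have hN := d.hN
  rcases h with ⟨e, _ | _⟩ | ⟨e, m⟩ | ⟨e, m⟩ | ⟨j, m⟩ | ⟨j, m⟩ | ⟨j, m⟩ | ⟨j, m⟩ | ⟨j, m⟩ |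
      m | m | m | m <;>
  simp [hps, okH]

section conn

variable {d a} {S : Set HN} {S' : Set PN}

theorem conn_all (hlit : ∀ j, 1 ≤ j → j < d.N → ∃ m, m < d.V ∧ d.lit a j m = true)
    (hcl : Closed (d.base a) S S')
    (hsw : ∀ k ∈ d.keys a, (mkSwap a k).h1 ∈ S ↔ (mkSwap a k).h2 ∈ S) (h : HN)
    (hh : d.okH h) : h ∈ S ↔ HN.T 1 false ∈ S := by
  have hN := d.hN
  have hV := d.hV
  have c1 : ∀ h, d.okH h → (h ∈ S ↔ d.nb1 h ∈ S') := fun h hh => hcl h _ ⟨hh, Or.inl rfl⟩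
  have c2 : ∀ h, d.okH h → (h ∈ S ↔ d.nb2 a h ∈ S') := fun h hh => hcl h _ ⟨hh, Or.inr rfl⟩
  -- the wires
  have gA1 : ∀ j m, j < d.N → m < d.V → (HN.GlA j m ∈ S ↔ PN.l0 j m ∈ S') :=
    fun j m hj hm => c1 (.GlA j m) ⟨hj, hm⟩
  have gA2 : ∀ j m, j < d.N → m < d.V → (HN.GlA j m ∈ S ↔ PN.l1 j m ∈ S') :=
    fun j m hj hm => c2 (.GlA j m) ⟨hj, hm⟩
  have gB1 : ∀ j m, j < d.N → m < d.V → (HN.GlB j m ∈ S ↔ PN.l1 j m ∈ S') :=
    fun j m hj hm => c1 (.GlB j m) ⟨hj, hm⟩
  have gB2 : ∀ j m, j < d.N → m < d.V → (HN.GlB j m ∈ S ↔ PN.l0 j (m + 1) ∈ S') :=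
    fun j m hj hm => c2 (.GlB j m) ⟨hj, hm⟩
  have kA1 : ∀ j m, j < d.N → m < d.V → (HN.GrA j m ∈ S ↔ PN.r0 j m ∈ S') :=
    fun j m hj hm => c1 (.GrA j m) ⟨hj, hm⟩
  have kA2 : ∀ j m, j < d.N → m < d.V → (HN.GrA j m ∈ S ↔ PN.r1 j m ∈ S') :=
    fun j m hj hm => c2 (.GrA j m) ⟨hj, hm⟩
  have kB1 : ∀ j m, j < d.N → m < d.V → (HN.GrB j m ∈ S ↔ PN.r1 j m ∈ S') :=
    fun j m hj hm => c1 (.GrB j m) ⟨hj, hm⟩
  have kB2 : ∀ j m, j < d.N → m < d.V → (HN.GrB j m ∈ S ↔ PN.r0 j (m + 1) ∈ S') :=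
    fun j m hj hm => c2 (.GrB j m) ⟨hj, hm⟩
  have wl : ∀ j, j < d.N → ∀ m, m ≤ d.V → (PN.l0 j m ∈ S' ↔ HN.T (j + 1) false ∈ S) := by
    intro j hj m
    induction m with
    | zero =>
      intro _
      have e1 := c1 (.T (j + 1) false) (by simp only [okH]; omega)
      have e2 : d.nb1 (.T (j + 1) false) = .l0 j 0 := by
        simp only [nb1, Nat.succ_ne_zero, if_false, Bool.false_eq_true, Nat.add_sub_cancel]
        rw [if_neg (by omega)]
      rw [e2] at e1
      exact e1.symm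
    | succ m ih =>
      intro hm
      rw [← ih (by omega), ← gA1 j m hj (by omega), gA2 j m hj (by omega),
        ← gB1 j m hj (by omega), gB2 j m hj (by omega)]
  have wr : ∀ j, j < d.N → ∀ m, m ≤ d.V → (PN.r0 j m ∈ S' ↔ HN.T j false ∈ S) := by
    intro j hj m
    induction m with
    | zero =>
      intro _
      have e1 := c2 (.T j false) (by simp only [okH]; omega)
      have e2 : d.nb2 a (.T j false) = .r0 j 0 := by
        simp only [nb2, if_false, Bool.false_eq_true]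
        rw [if_neg (by omega), if_neg (by omega)]
      rw [e2] at e1
      exact e1.symm
    | succ m ih =>
      intro hm
      rw [← ih (by omega), ← kA1 j m hj (by omega), kA2 j m hj (by omega),
        ← kB1 j m hj (by omega), kB2 j m hj (by omega)]
  -- the loops at the corners, by the modes
  have m0 : ∀ c m, c < d.N → m < d.V → a m = false →
      ((HN.HA (c + 1) m ∈ S ↔ HN.T (c + 1) false ∈ S) ∧
      (HN.HB (c + 1) m ∈ S ↔ HN.T (c + 1) false ∈ S) ∧
      (HN.Go c m ∈ S ↔ HN.T (c + 1) false ∈ S)) := by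
    intro c m hc hm ha
    have e1 : HN.HA (c + 1) m ∈ S ↔ PN.oA c m ∈ S' := by
      have := c2 (.HA (c + 1) m) ⟨by omega, hm⟩
      simpa [nb2, ha, rc] using this
    have e2 : HN.HB (c + 1) m ∈ S ↔ PN.oB c m ∈ S' := by
      have := c2 (.HB (c + 1) m) ⟨by omega, hm⟩
      simpa [nb2, ha, rc] using this
    have e3 : HN.Go c m ∈ S ↔ PN.oA c m ∈ S' := c1 (.Go c m) ⟨hc, hm⟩
    have e4 : HN.Go c m ∈ S ↔ PN.oB c m ∈ S' := c2 (.Go c m) ⟨hc, hm⟩
    have e5 := hsw _ (d.keys_B a hc hm)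
    simp only [mkSwap, swB, ha, if_true, if_false, Bool.false_eq_true] at e5
    have e6 := gB2 c m hc hm
    have e7 := wl c hc (m + 1) (by omega)
    have f2 := e5.trans (e6.trans e7)
    have f3 := e4.trans (e2.symm.trans f2)
    exact ⟨e1.trans (e3.symm.trans f3), f2, f3⟩
  have m1 : ∀ c m, c < d.N → m < d.V → a m = true →
      ((HN.HA c m ∈ S ↔ HN.T c false ∈ S) ∧
      (HN.HB c m ∈ S ↔ HN.T c false ∈ S) ∧
      (HN.Go c m ∈ S ↔ HN.T c false ∈ S)) := by
    intro c m hc hm ha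
    have e1 : HN.HA c m ∈ S ↔ PN.oA c m ∈ S' := by
      have := c2 (.HA c m) ⟨by omega, hm⟩
      simpa [nb2, ha] using this
    have e2 : HN.HB c m ∈ S ↔ PN.oB c m ∈ S' := by
      have := c2 (.HB c m) ⟨by omega, hm⟩
      simpa [nb2, ha] using this
    have e3 : HN.Go c m ∈ S ↔ PN.oA c m ∈ S' := c1 (.Go c m) ⟨hc, hm⟩
    have e4 : HN.Go c m ∈ S ↔ PN.oB c m ∈ S' := c2 (.Go c m) ⟨hc, hm⟩
    have e5 := hsw _ (d.keys_B a hc hm)
    simp only [mkSwap, swB, ha, if_true] at e5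
    have e6 := kB2 c m hc hm
    have e7 := wr c hc (m + 1) (by omega)
    have f2 := e5.trans (e6.trans e7)
    have f3 := e4.trans (e2.symm.trans f2)
    exact ⟨e1.trans (e3.symm.trans f3), f2, f3⟩
  -- the clause corners
  have step : ∀ c, 1 ≤ c → c < d.N → (HN.T (c + 1) false ∈ S ↔ HN.T c false ∈ S) := by
    intro c hc1 hc
    obtain ⟨m, hm, hl⟩ := hlit c hc1 hc
    have e5 := hsw _ (d.keys_A a hc hm hl)
    rcases ha : a m
    · simp only [mkSwap, swA, ha, if_false, Bool.false_eq_true] at e5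
      have e1 := (m0 c m hc hm ha).1
      have e2 := kA1 c m hc hm
      have e3 := wr c hc m (by omega)
      exact e1.symm.trans (e5.trans (e2.trans e3))
    · simp only [mkSwap, swA, ha, if_true, if_false, Bool.false_eq_true] at e5
      have e1 := (m1 c m hc hm ha).1
      have e2 := gA1 c m hc hm
      have e3 := wl c hc m (by omega)
      exact (e1.symm.trans (e5.trans (e2.trans e3))).symm
  have tE : ∀ e, 1 ≤ e → e ≤ d.N → (HN.T e false ∈ S ↔ HN.T 1 false ∈ S) := by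
    intro e he
    induction e, he using Nat.le_induction with
    | base => intro _; exact Iff.rfl
    | succ e he ih =>
      intro h1
      rw [step e he (by omega), ih (by omega)]
  have xN : ∀ b, (HN.T d.N b ∈ S ↔ PN.x d.N b ∈ S') := fun b => by
    have := c2 (.T d.N b) (by simp only [okH]; omega)
    simpa [nb2] using this
  have xN' : ∀ b, (HN.T (d.N + 1) b ∈ S ↔ PN.x d.N b ∈ S') := fun b => by
    have := c1 (.T (d.N + 1) b) (by simp only [okH]; omega)
    simpa [nb1] using this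
  have xM : ∀ b, (HN.T (d.N + 1) b ∈ S ↔ PN.x (d.N + 1) b ∈ S') := fun b => by
    have := c2 (.T (d.N + 1) b) (by simp only [okH]; omega)
    simpa [nb2] using this
  have xM' : ∀ b, (HN.T 0 b ∈ S ↔ PN.x (d.N + 1) b ∈ S') := fun b => by
    have := c1 (.T 0 b) (by simp only [okH]; omega)
    simpa [nb1] using this
  have tN := tE d.N (by omega) le_rfl
  have tall : ∀ e, e < d.N + 2 → (HN.T e false ∈ S ↔ HN.T 1 false ∈ S) := by
    intro e he
    have e1 := xN false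
    have e2 := xN' false
    have e3 := xM false
    have e4 := xM' false
    have e5 := e2.trans (e1.symm.trans tN)
    rcases Nat.eq_zero_or_pos e with rfl | hpos
    · exact e4.trans (e3.symm.trans e5)
    · rcases Nat.lt_or_ge d.N e with h1 | h1
      · obtain rfl : e = d.N + 1 := by omega
        exact e5
      · exact tE e hpos h1
  have tall' : ∀ e, e < d.N + 2 → (HN.T e true ∈ S ↔ HN.T 1 false ∈ S) := by
    intro e he
    have e1 := xN true
    have e2 := xN' true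
    have e3 : HN.T d.N true ∈ S ↔ HN.T 1 false ∈ S := by
      have h1 := c1 (.T d.N true) (by simp only [okH]; omega)
      have h2 : d.nb1 (.T d.N true) = .l0 (d.N - 1) d.V := by
        simp only [nb1, if_true]
        rw [if_neg (by omega), if_neg (by omega)]
      rw [h2, wl (d.N - 1) (by omega) d.V le_rfl] at h1
      rw [h1]
      exact tall _ (by omega)
    rcases Nat.lt_or_ge e d.N with h1 | h1
    · have h3 := c2 (.T e true) (by simp only [okH]; omega)
      have h2 : d.nb2 a (.T e true) = .r0 e d.V := by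
        simp only [nb2, if_true]
        rw [if_neg (by omega), if_neg (by omega)]
      rw [h2, wr e h1 d.V le_rfl] at h3
      rw [h3]
      exact tall _ (by omega)
    · rcases Nat.lt_or_ge d.N e with h2 | h2
      · obtain rfl : e = d.N + 1 := by omega
        exact e2.trans (e1.symm.trans e3)
      · obtain rfl : e = d.N := by omega
        exact e3
  -- the special corners
  have sp : ∀ m, m < d.V → ((∀ e, e < d.N + 2 → (HN.HA e m ∈ S ↔ HN.T 1 false ∈ S) ∧
      (HN.HB e m ∈ S ↔ HN.T 1 false ∈ S)) ∧ (HN.D m ∈ S ↔ HN.T 1 false ∈ S) ∧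
      (HN.D1 m ∈ S ↔ HN.T 1 false ∈ S) ∧ (HN.D2 m ∈ S ↔ HN.T 1 false ∈ S) ∧
      (HN.D' m ∈ S ↔ HN.T 1 false ∈ S) ∧ (∀ c, c < d.N → (HN.Go c m ∈ S ↔ HN.T 1 false ∈ S))) := by
    intro m hm
    have q1 : HN.HA (d.N + 1) m ∈ S ↔ PN.q (d.N + 1) m ∈ S' := by
      have := c1 (.HA (d.N + 1) m) ⟨by omega, hm⟩
      simpa [nb1] using this
    have q2 : HN.HB (d.N + 1) m ∈ S ↔ PN.q (d.N + 1) m ∈ S' := by
      have := c1 (.HB (d.N + 1) m) ⟨by omega, hm⟩
      simpa [nb1] using this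
    have q3 : HN.HA d.N m ∈ S ↔ PN.qA d.N m ∈ S' := by
      have := c1 (.HA d.N m) ⟨by omega, hm⟩
      simpa [nb1] using this
    have q4 : HN.HB d.N m ∈ S ↔ PN.qB d.N m ∈ S' := by
      have := c1 (.HB d.N m) ⟨by omega, hm⟩
      simpa [nb1] using this
    have q5 : HN.HA 0 m ∈ S ↔ PN.qA 0 m ∈ S' := by
      have := c1 (.HA 0 m) ⟨by omega, hm⟩
      simpa [nb1] using this
    have q6 : HN.HB 0 m ∈ S ↔ PN.qB 0 m ∈ S' := by
      have := c1 (.HB 0 m) ⟨by omega, hm⟩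
      simpa [nb1] using this
    have d1 : HN.D m ∈ S ↔ PN.oA d.N m ∈ S' := c1 (.D m) hm
    have d2 : HN.D m ∈ S ↔ PN.oA (d.N + 1) m ∈ S' := c2 (.D m) hm
    have d3 : HN.D' m ∈ S ↔ PN.qB 0 m ∈ S' := c1 (.D' m) hm
    have d4 : HN.D' m ∈ S ↔ PN.qB d.N m ∈ S' := c2 (.D' m) hm
    have d5 : HN.D1 m ∈ S ↔ PN.qA 0 m ∈ S' := c1 (.D1 m) hm
    have d6 : HN.D1 m ∈ S ↔ PN.oB (d.N + 1) m ∈ S' := c2 (.D1 m) hm
    have d7 : HN.D2 m ∈ S ↔ PN.qA d.N m ∈ S' := c1 (.D2 m) hm
    have d8 : HN.D2 m ∈ S ↔ PN.oB d.N m ∈ S' := c2 (.D2 m) hm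
    rcases ha : a m
    · -- mode zero
      have o1 : HN.HA (d.N + 1) m ∈ S ↔ PN.oA d.N m ∈ S' := by
        have := c2 (.HA (d.N + 1) m) ⟨by omega, hm⟩
        simpa [nb2, ha, rc] using this
      have o2 : HN.HB (d.N + 1) m ∈ S ↔ PN.oB d.N m ∈ S' := by
        have := c2 (.HB (d.N + 1) m) ⟨by omega, hm⟩
        simpa [nb2, ha, rc] using this
      have o3 : HN.HA 0 m ∈ S ↔ PN.oA (d.N + 1) m ∈ S' := by
        have := c2 (.HA 0 m) ⟨by omega, hm⟩
        simpa [nb2, ha, rc] using this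
      have o4 : HN.HB 0 m ∈ S ↔ PN.oB (d.N + 1) m ∈ S' := by
        have := c2 (.HB 0 m) ⟨by omega, hm⟩
        simpa [nb2, ha, rc] using this
      have n1 : HN.HA d.N m ∈ S ↔ HN.T 1 false ∈ S := by
        have := (m0 (d.N - 1) m (by omega) hm ha).1
        rw [show d.N - 1 + 1 = d.N by omega] at this
        rw [this, tN]
      have p1 := q3.symm.trans n1
      have p2 := d7.trans p1
      have p3 := d8.symm.trans p2
      have p4 := o2.trans p3
      have p5 := q2.symm.trans p4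
      have p6 := q1.trans p5
      have p7 := o1.symm.trans p6
      have p8 := d1.trans p7
      have p9 := d2.symm.trans p8
      have p10 := o3.trans p9
      have p11 := q5.symm.trans p10
      have p12 := d5.trans p11
      have p13 := d6.symm.trans p12
      have p14 := o4.trans p13
      have p15 := q6.symm.trans p14
      have p16 := d3.trans p15
      refine ⟨fun e he => ?_, p8, p12, p2, p16, fun c hc => ?_⟩
      · rcases Nat.eq_zero_or_pos e with rfl | hpos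
        · exact ⟨p10, p14⟩
        · rcases Nat.lt_or_ge d.N e with h1 | h1
          · obtain rfl : e = d.N + 1 := by omega
            exact ⟨p6, p4⟩
          · have := m0 (e - 1) m (by omega) hm ha
            rw [show e - 1 + 1 = e by omega] at this
            rw [this.1, this.2.1]
            exact ⟨tall e he, tall e he⟩
      · rw [(m0 c m hc hm ha).2.2]
        exact tall _ (by omega)
    · -- mode one
      have o1 : HN.HA (d.N + 1) m ∈ S ↔ PN.oA (d.N + 1) m ∈ S' := by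
        have := c2 (.HA (d.N + 1) m) ⟨by omega, hm⟩
        simpa [nb2, ha] using this
      have o2 : HN.HB (d.N + 1) m ∈ S ↔ PN.oB (d.N + 1) m ∈ S' := by
        have := c2 (.HB (d.N + 1) m) ⟨by omega, hm⟩
        simpa [nb2, ha] using this
      have o3 : HN.HA d.N m ∈ S ↔ PN.oA d.N m ∈ S' := by
        have := c2 (.HA d.N m) ⟨by omega, hm⟩
        simpa [nb2, ha] using this
      have o4 : HN.HB d.N m ∈ S ↔ PN.oB d.N m ∈ S' := by
        have := c2 (.HB d.N m) ⟨by omega, hm⟩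
        simpa [nb2, ha] using this
      have n1 : HN.HA 0 m ∈ S ↔ HN.T 1 false ∈ S := by
        have := (m1 0 m (by omega) hm ha).1
        rw [this]
        exact tall _ (by omega)
      have n2 : HN.HB 0 m ∈ S ↔ HN.T 1 false ∈ S := by
        have := (m1 0 m (by omega) hm ha).2.1
        rw [this]
        exact tall _ (by omega)
      have p1 := q5.symm.trans n1
      have p2 := d5.trans p1
      have p3 := d6.symm.trans p2
      have p4 := o2.trans p3
      have p5 := q2.symm.trans p4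
      have p6 := q1.trans p5
      have p7 := o1.symm.trans p6
      have p8 := d2.trans p7
      have p9 := d1.symm.trans p8
      have p10 := o3.trans p9
      have p11 := q3.symm.trans p10
      have p12 := d7.trans p11
      have p13 := d8.symm.trans p12
      have p14 := o4.trans p13
      have p15 := q4.symm.trans p14
      have p16 := d4.trans p15
      refine ⟨fun e he => ?_, p8, p2, p12, p16, fun c hc => ?_⟩
      · rcases Nat.lt_or_ge e d.N with h1 | h1
        · have := m1 e m h1 hm ha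
          rw [this.1, this.2.1]
          exact ⟨tall e he, tall e he⟩
        · rcases Nat.lt_or_ge d.N e with h2 | h2
          · obtain rfl : e = d.N + 1 := by omega
            exact ⟨p6, p4⟩
          · obtain rfl : e = d.N := by omega
            exact ⟨p10, p14⟩
      · rw [(m1 c m hc hm ha).2.2]
        exact tall _ (by omega)
  -- collect
  rcases h with ⟨e, _ | _⟩ | ⟨e, m⟩ | ⟨e, m⟩ | ⟨j, m⟩ | ⟨j, m⟩ | ⟨j, m⟩ | ⟨j, m⟩ | ⟨j, m⟩ |
      m | m | m | m <;> simp only [okH] at hh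
  · exact tall e hh
  · exact tall' e hh
  · exact ((sp m hh.2).1 e hh.1).1
  · exact ((sp m hh.2).1 e hh.1).2
  · rw [gA1 j m hh.1 hh.2, wl j hh.1 m (by omega)]; exact tall _ (by omega)
  · rw [gB2 j m hh.1 hh.2, wl j hh.1 (m + 1) (by omega)]; exact tall _ (by omega)
  · rw [kA1 j m hh.1 hh.2, wr j hh.1 m (by omega)]; exact tall _ (by omega)
  · rw [kB2 j m hh.1 hh.2, wr j hh.1 (m + 1) (by omega)]; exact tall _ (by omega)
  · exact (sp m hh.2).2.2.2.2.2 j hh.1
  · exact (sp m hh).2.1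
  · exact (sp m hh).2.2.2.2.1
  · exact (sp m hh).2.2.1
  · exact (sp m hh).2.2.2.1

end conn

/-- **Completeness.** -/
theorem complete (hs : d.Sat) : ∃ F, TwoFac {h | d.okH h} {p | d.okP p} d.Vis F ∧
    Conn {h | d.okH h} {p | d.okP p} F := by
  obtain ⟨a, ha⟩ := hs
  have hlit : ∀ j, 1 ≤ j → j < d.N → ∃ m, m < d.V ∧ d.lit a j m = true := by
    intro j h1 h2
    obtain ⟨m, hm, h3⟩ := ha j h1 h2
    refine ⟨m, hm, ?_⟩
    unfold lit
    rcases h3 with ⟨h3, h4⟩ | ⟨h3, h4⟩ <;> simp [h3, h4]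
  have hfH : {h | d.okH h}.Finite := by
    refine (List.finite_toSet d.hps).subset fun h hh => d.mem_hps.2 hh
  have hfP : {p | d.okP p}.Finite := by
    refine (List.finite_toSet d.pts).subset fun p hp => d.mem_pts.2 hp
  refine exists_conn_of_swaps hfH hfP d.Vis key (fun s => key s.h1 s.p1)
    ((d.keys a).map (mkSwap a)) ?_ ?_ (d.base a) (d.twoFac_base a) ?_ ?_
  · rw [List.map_map]
    have : (fun s : Swap HN PN => key s.h1 s.p1) ∘ mkSwap a = id := by
      funext k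
      exact (key_mkSwap a k).1
    rw [this, List.map_id]
    exact d.nodup_keys a
  · intro s hs
    obtain ⟨k, hk, rfl⟩ := List.mem_map.1 hs
    have e1 := d.swap_vis a hk
    have e2 := key_mkSwap a k
    refine ⟨e1.1, e1.2.1, e1.2.2.1, e1.2.2.2, rfl, ?_, ?_, ?_⟩
    · rw [e2.1, e2.2.1]
    · rw [e2.1, e2.2.2.1]
    · rw [e2.1, e2.2.2.2]
  · intro s hs
    obtain ⟨k, hk, rfl⟩ := List.mem_map.1 hs
    exact d.swap_base a hk
  · intro S S' hcl hsw
    have hall := conn_all hlit hcl (fun k hk => hsw _ (List.mem_map_of_mem hk))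
    have hall' : ∀ p, d.okP p → (p ∈ S' ↔ HN.T 1 false ∈ S) := by
      intro p hp
      rw [← hall _ (d.mb_ok a hp).1]
      exact (hcl _ _ ((d.base_iff a hp).2 (Or.inl rfl))).symm
    by_cases hT : HN.T 1 false ∈ S
    · exact Or.inl ⟨fun h hh => (hall h hh).2 hT, fun p hp => (hall' p hp).2 hT⟩
    · refine Or.inr ⟨?_, ?_⟩
      · rw [Set.disjoint_left]
        exact fun h hh hS => hT ((hall h hh).1 hS)
      · rw [Set.disjoint_left]
        exact fun p hp hS => hT ((hall' p hp).1 hS)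

end Dat

end Pool.Agent.Lib.H48MaxScatter
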