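import Mathlib

/-!
# The abstract arrangement of points and half-planes

The arrangement lives at the corners of a convex polygon with `N + 2` edges `0, …, N + 1` and
`N + 2` corners; corner `c` lies between edge `c` (its *right* edge) and edge `c + 1` (its *left*
edge; the left edge of corner `N + 1` is edge `0`). So edge `e` has the right end `e - 1` and the
left end `e`. A point near corner `c` has two depths: `p` with respect to the edge `c` and `q` with
respect to the edge `c + 1`.
-/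

set_option autoImplicit false

namespace Pool.Agent.Lib.H48MaxScatter

/-- the data of the reduction: `N` normal corners, `V` variables; corner `j` has type `pos` for the
variable `m` if the clause of the corner contains the variable positively, and similarly `neg` -/
structure Dat where
  N : ℕ
  V : ℕ
  pos : ℕ → ℕ → Bool
  neg : ℕ → ℕ → Bool
  hN : 2 ≤ N
  hV : 1 ≤ V
  pos_lt : ∀ j m, pos j m = true → 1 ≤ j ∧ j < N ∧ m < V
  neg_lt : ∀ j m, neg j m = true → 1 ≤ j ∧ j < N ∧ m < V

/-- satisfiability: the clause of every corner `1 ≤ j < N` contains a true literal -/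
def Dat.Sat (d : Dat) : Prop :=
  ∃ a : ℕ → Bool, ∀ j, 1 ≤ j → j < d.N → ∃ m, m < d.V ∧
    ((a m = true ∧ d.pos j m = true) ∨ (a m = false ∧ d.neg j m = true))

/-- names of the points of the small cluster -/
inductive PN : Type
  | l0 (j m : ℕ) | l1 (j m : ℕ) | r0 (j m : ℕ) | r1 (j m : ℕ)
  | oA (c m : ℕ) | oB (c m : ℕ)
  | q (e m : ℕ) | qA (e m : ℕ) | qB (e m : ℕ)
  | x (c : ℕ) (b : Bool)
  deriving DecidableEq

/-- names of the half-planes (the far points) -/
inductive HN : Type
  | T (e : ℕ) (b : Bool)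
  | HA (e m : ℕ) | HB (e m : ℕ)
  | GlA (j m : ℕ) | GlB (j m : ℕ) | GrA (j m : ℕ) | GrB (j m : ℕ) | Go (j m : ℕ)
  | D (m : ℕ) | D' (m : ℕ) | D1 (m : ℕ) | D2 (m : ℕ)
  deriving DecidableEq

/-- kinds of local half-planes at a corner -/
inductive Kind : Type
  | L | R | M
  deriving DecidableEq

/-- positions of points -/
inductive PD : Type
  | corner (c p q : ℕ)
  | mid (e z : ℕ)
  deriving DecidableEq

/-- positions of half-planes -/
inductive HD : Type
  | edge (e d : ℕ)
  | loc (c : ℕ) (k : Kind) (t : ℕ)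
  deriving DecidableEq

/-- the left edge of a corner -/
def leftEdge (N c : ℕ) : ℕ := if c = N + 1 then 0 else c + 1

/-- the right end of an edge -/
def rc (N e : ℕ) : ℕ := if e = 0 then N + 1 else e - 1

/-- the abstract incidence -/
def Sees (N : ℕ) : HD → PD → Prop
  | .edge e d, .corner c p q => (e = c ∧ p ≤ d) ∨ (e = leftEdge N c ∧ q ≤ d)
  | .edge e d, .mid e' z => e = e' ∧ z ≤ d
  | .loc c .L t, .corner c' _ q => c = c' ∧ q < t
  | .loc c .R t, .corner c' p _ => c = c' ∧ p < t
  | .loc c .M t, .corner c' p q => c = c' ∧ p + q ≤ 2 * t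
  | .loc _ _ _, .mid _ _ => False

namespace Dat

variable (d : Dat)

/-- a very large depth -/
def I : ℕ := 32 * d.V + 64

/-- the existing points -/
def okP : PN → Prop
  | .l0 j m => j < d.N ∧ m ≤ d.V
  | .r0 j m => j < d.N ∧ m ≤ d.V
  | .l1 j m => j < d.N ∧ m < d.V
  | .r1 j m => j < d.N ∧ m < d.V
  | .oA c m => c < d.N + 2 ∧ m < d.V
  | .oB c m => c < d.N + 2 ∧ m < d.V
  | .q e m => ((1 ≤ e ∧ e < d.N) ∨ e = d.N + 1) ∧ m < d.V
  | .qA e m => (e = 0 ∨ e = d.N) ∧ m < d.V
  | .qB e m => (e = 0 ∨ e = d.N) ∧ m < d.V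
  | .x c _ => c = d.N ∨ c = d.N + 1

/-- the existing half-planes -/
def okH : HN → Prop
  | .T e _ => e < d.N + 2
  | .HA e m => e < d.N + 2 ∧ m < d.V
  | .HB e m => e < d.N + 2 ∧ m < d.V
  | .GlA j m => j < d.N ∧ m < d.V
  | .GlB j m => j < d.N ∧ m < d.V
  | .GrA j m => j < d.N ∧ m < d.V
  | .GrB j m => j < d.N ∧ m < d.V
  | .Go j m => j < d.N ∧ m < d.V
  | .D m => m < d.V
  | .D' m => m < d.V
  | .D1 m => m < d.V
  | .D2 m => m < d.V

/-- positions of the points -/
def dP : PN → PD
  | .l0 j m => .corner j (if d.pos j m then 16 * m + 8 else d.I) (16 * m + 4)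
  | .r0 j m => .corner j (16 * m + 4) (if d.neg j m then 16 * m + 8 else d.I)
  | .l1 j m => .corner j d.I (16 * m + 12)
  | .r1 j m => .corner j (16 * m + 12) d.I
  | .oA c m => .corner c (if c = d.N + 1 then 16 * m + 7 else 16 * m + 8)
      (if c = d.N then 16 * m + 7 else 16 * m + 8)
  | .oB c m => .corner c (16 * m + 16) (16 * m + 16)
  | .q e m => .mid e (if e = d.N + 1 then 16 * m + 9 else 16 * m + 8)
  | .qA e m => if e = 0 then .corner (d.N + 1) (16 * m + 14) (16 * m + 8)
      else .corner d.N (16 * m + 8) (16 * m + 14)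
  | .qB e m => if e = 0 then .corner (d.N + 1) (16 * m + 20) (16 * m + 16)
      else .corner d.N (16 * m + 16) (16 * m + 20)
  | .x c false => .corner c 4 4
  | .x c true => .corner c (if c = d.N + 1 then 16 * d.V + 7 else 16 * d.V + 4)
      (if c = d.N then 16 * d.V + 7 else 16 * d.V + 4)

/-- positions of the half-planes -/
def dH : HN → HD
  | .T e false => .edge e 6
  | .T e true => .edge e (16 * d.V + 8)
  | .HA e m => .edge e (16 * m + 10)
  | .HB e m => .edge e (16 * m + 18)
  | .GlA j m => .loc j .L (16 * m + 14)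
  | .GlB j m => .loc j .L (16 * m + 22)
  | .GrA j m => .loc j .R (16 * m + 14)
  | .GrB j m => .loc j .R (16 * m + 22)
  | .Go j m => .loc j .M (16 * m + 18)
  | .D m => .edge (d.N + 1) (16 * m + 8)
  | .D' m => .edge (d.N + 1) (16 * m + 21)
  | .D1 m => .loc (d.N + 1) .M (16 * m + 17)
  | .D2 m => .loc d.N .M (16 * m + 17)

/-- the incidence of names -/
def Vis (h : HN) (p : PN) : Prop := Sees d.N (d.dH h) (d.dP p)

/-- level of a half-plane -/
def lv : HN → ℕ
  | .T _ false => 0
  | .T _ true => 2 * d.V + 1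
  | .HA _ m => 2 * m + 1
  | .HB _ m => 2 * m + 2
  | .GlA _ m => 2 * m + 1
  | .GlB _ m => 2 * m + 2
  | .GrA _ m => 2 * m + 1
  | .GrB _ m => 2 * m + 2
  | .Go _ m => 2 * m + 1
  | .D m => 2 * m + 1
  | .D' m => 2 * m + 2
  | .D1 m => 2 * m + 1
  | .D2 m => 2 * m + 1

/-- level at which a point is saturated -/
def dl : PN → ℕ
  | .l0 _ m => 2 * m + 1
  | .r0 _ m => 2 * m + 1
  | .l1 _ m => 2 * m + 2
  | .r1 _ m => 2 * m + 2
  | .oA _ m => 2 * m + 1
  | .oB _ m => 2 * m + 2
  | .q _ m => 2 * m + 2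
  | .qA _ m => 2 * m + 1
  | .qB _ m => 2 * m + 2
  | .x _ false => 0
  | .x _ true => 2 * d.V + 1

/-- for every half-plane, a list containing all visible points which are not yet saturated -/
def live : HN → List PN
  | .T e b => [.l0 (rc d.N e) (if b then d.V else 0), .r0 e (if b then d.V else 0),
      .x (rc d.N e) b, .x e b]
  | .HA e m => [if e = 0 ∨ e = d.N then .qA e m else .q e m, .l0 (rc d.N e) m, .oA (rc d.N e) m,
      .r0 (rc d.N e) m, .r0 e m, .oA e m, .l0 e m]
  | .HB e m => [if e = 0 ∨ e = d.N then .qB e m else .q e m, .l1 (rc d.N e) m, .oB (rc d.N e) m,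
      .r1 e m, .oB e m]
  | .GlA j m => [.l1 j m, .l0 j m, .oA j m, .r0 j m]
  | .GrA j m => [.r1 j m, .r0 j m, .oA j m, .l0 j m]
  | .Go j m => [.oA j m, .oB j m, .l0 j m, .r0 j m]
  | .GlB j m => [.l1 j m, .l0 j (m + 1), .oB j m]
  | .GrB j m => [.r1 j m, .r0 j (m + 1), .oB j m]
  | .D m => [.oA d.N m, .oA (d.N + 1) m]
  | .D' m => [.qB 0 m, .qB d.N m, .q (d.N + 1) m, .oB d.N m, .oB (d.N + 1) m]
  | .D1 m => [.qA 0 m, .oA (d.N + 1) m, .oB (d.N + 1) m]
  | .D2 m => [.qA d.N m, .oA d.N m, .oB d.N m]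

/-- list of the existing points -/
def pts : List PN :=
  ((List.range d.N).flatMap fun j => (List.range (d.V + 1)).flatMap fun m =>
    [PN.l0 j m, .r0 j m]) ++
  ((List.range d.N).flatMap fun j => (List.range d.V).flatMap fun m => [PN.l1 j m, .r1 j m]) ++
  ((List.range (d.N + 2)).flatMap fun c => (List.range d.V).flatMap fun m =>
    [PN.oA c m, .oB c m]) ++
  ((List.range (d.N - 1)).flatMap fun e => (List.range d.V).map fun m => PN.q (e + 1) m) ++
  ((List.range d.V).flatMap fun m => [PN.q (d.N + 1) m, .qA 0 m, .qB 0 m, .qA d.N m, .qB d.N m]) ++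
  [.x d.N false, .x d.N true, .x (d.N + 1) false, .x (d.N + 1) true]

/-- list of the existing half-planes -/
def hps : List HN :=
  ((List.range (d.N + 2)).flatMap fun e => [HN.T e false, .T e true]) ++
  ((List.range (d.N + 2)).flatMap fun e => (List.range d.V).flatMap fun m =>
    [HN.HA e m, .HB e m]) ++
  ((List.range d.N).flatMap fun j => (List.range d.V).flatMap fun m =>
    [HN.GlA j m, .GlB j m, .GrA j m, .GrB j m, .Go j m]) ++
  ((List.range d.V).flatMap fun m => [HN.D m, .D' m, .D1 m, .D2 m])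

end Dat

end Pool.Agent.Lib.H48MaxScatter
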