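import Pool.Agent.Lib.H48MaxScatter.Decode

/-!
# The encoding of instances is injective
-/

set_option autoImplicit false

namespace Pool.Agent.Lib.H48MaxScatter

theorem encInst_inj {P P' : List Pt} {L L' : ℚ} (h : encInst P L = encInst P' L') :
    P = P' ∧ L = L' := by
  rw [encInst_eq, encInst_eq] at h
  have h1 := congrArg parsePts h
  rw [parsePts_encRI, parsePts_encRI, Prod.mk.injEq] at h1
  have h2 := List.reverse_injective h1.1
  have h3 : encRR (raw L) = encRR (raw L') := by simpa using h1.2
  have h4 := congrArg (fun w => (parseRR (w ++ [])).1) h3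
  simp only [parseRR_encRR] at h4
  exact ⟨List.map_injective_iff.2 rawP_inj h2, raw_inj h4⟩

end Pool.Agent.Lib.H48MaxScatter
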