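import Pool.Agent.Lib.PolyTime.PairInput
import Pool.Agent.Lib.PolyTime.Subsets

/-!
# The greatest common divisor in polynomial time
-/

set_option autoImplicit false

namespace Pool.Agent.Lib.H48MaxScatter

open Pool.Agent.PolyTime

/-- one step of Euclid's algorithm -/
def euc (p : ℕ × ℕ) : ℕ × ℕ := bif decide (p.2 = 0) then p else (p.2, p.1 % p.2)

lemma euc_zero {p : ℕ × ℕ} (h : p.2 = 0) : euc p = p := by
  simp [euc, h]

lemma euc_ne {p : ℕ × ℕ} (h : p.2 ≠ 0) : euc p = (p.2, p.1 % p.2) := by
  simp [euc, h]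

lemma euc_gcd (p : ℕ × ℕ) : Nat.gcd (euc p).1 (euc p).2 = Nat.gcd p.1 p.2 := by
  by_cases h : p.2 = 0
  · rw [euc_zero h]
  · rw [euc_ne h]
    show Nat.gcd p.2 (p.1 % p.2) = _
    rw [Nat.gcd_comm p.1 p.2, Nat.gcd_comm p.2 (p.1 % p.2), Nat.gcd_rec p.2 p.1]

lemma euc_iter_gcd (n : ℕ) : ∀ p : ℕ × ℕ,
    Nat.gcd (euc^[n] p).1 (euc^[n] p).2 = Nat.gcd p.1 p.2 := by
  induction n with
  | zero => intro p; rfl
  | succ n ih => intro p; rw [Function.iterate_succ_apply, ih, euc_gcd]

lemma euc_iter_zero (n : ℕ) : ∀ a b : ℕ, b ≤ a → a.size + b.size ≤ n → (euc^[n] (a, b)).2 = 0 := by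
  induction n with
  | zero =>
    intro a b hab h
    have : b.size = 0 := by omega
    exact Nat.size_eq_zero.mp this
  | succ n ih =>
    intro a b hab h
    rw [Function.iterate_succ_apply]
    by_cases hb : b = 0
    · rw [euc_zero (p := (a, b)) hb]
      subst hb
      rcases Nat.eq_zero_or_pos a with rfl | ha
      · exact ih 0 0 le_rfl (by simp)
      · have : ∀ m, (euc^[m] (a, 0)) = (a, 0) := by
          intro m
          induction m with
          | zero => rfl
          | succ m ihm => rw [Function.iterate_succ_apply, euc_zero rfl, ihm]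
        rw [this]
    · rw [euc_ne (p := (a, b)) hb]
      show (euc^[n] (b, a % b)).2 = 0
      have hlt : a % b < b := Nat.mod_lt _ (Nat.pos_of_ne_zero hb)
      apply ih b (a % b) hlt.le
      have h1 : 2 * (a % b) < a := by
        have h2 : b * (a / b) + a % b = a := Nat.div_add_mod a b
        have h3 : 1 ≤ a / b := Nat.div_pos hab (Nat.pos_of_ne_zero hb)
        nlinarith
      have h4 : (a % b).size + 1 ≤ a.size := by
        rcases Nat.eq_zero_or_pos (a % b) with h0 | h0
        · rw [h0, Nat.size_zero]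
          have : 0 < a.size := Nat.size_pos.mpr (by omega)
          omega
        · have h5 : (2 * (a % b)).size ≤ a.size := Nat.size_le_size h1.le
          have h6 : (2 * (a % b)).size = (a % b).size + 1 := by
            have := Nat.size_bit (b := false) (n := a % b) (by simp; omega)
            simpa [Nat.bit_false] using this
          omega
      omega

lemma euc_iter_le (n : ℕ) : ∀ (p : ℕ × ℕ) (M : ℕ), p.1 ≤ M → p.2 ≤ M →
    (euc^[n] p).1 ≤ M ∧ (euc^[n] p).2 ≤ M := by
  induction n with
  | zero => intro p M h1 h2; exact ⟨h1, h2⟩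
  | succ n ih =>
    intro p M h1 h2
    rw [Function.iterate_succ_apply]
    apply ih
    · by_cases h : p.2 = 0
      · rw [euc_zero h]; exact h1
      · rw [euc_ne h]; exact h2
    · by_cases h : p.2 = 0
      · rw [euc_zero h]; exact h2
      · rw [euc_ne h]
        exact (Nat.mod_lt _ (Nat.pos_of_ne_zero h)).le.trans h2

lemma gcd_eq_iter (p : ℕ × ℕ) : (euc^[sz p] p).1 = Nat.gcd p.1 p.2 := by
  obtain ⟨a, b⟩ := p
  have hs : a.size + b.size + 3 ≤ sz (a, b) := by
    have h1 := size_lt_sz a
    have h2 := size_lt_sz b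
    rw [sz_pair]
    omega
  have h2 : (euc^[sz (a, b)] (a, b)).2 = 0 := by
    rcases le_or_gt b a with h | h
    · exact euc_iter_zero _ a b h (by omega)
    · obtain ⟨n, hn⟩ : ∃ n, sz (a, b) = n + 1 := ⟨sz (a, b) - 1, by omega⟩
      rw [hn, Function.iterate_succ_apply, euc_ne (p := (a, b)) (by show b ≠ 0; omega)]
      show (euc^[n] (b, a % b)).2 = 0
      rw [Nat.mod_eq_of_lt h]
      exact euc_iter_zero _ b a h.le (by omega)
  have h3 := euc_iter_gcd (sz (a, b)) (a, b)
  rw [h2, Nat.gcd_zero_right] at h3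
  exact h3

lemma PT_euc : PT euc :=
  PT.bif (PT.decide_eq (by fun_prop) (by fun_prop)) (by fun_prop) (by fun_prop)

variable {α : Type*} [Enc α]

@[fun_prop] lemma PT_gcd {f g : α → ℕ} (hf : PT f) (hg : PT g) :
    PT fun a => Nat.gcd (f a) (g a) := by
  have hp : PT fun a => (f a, g a) := PT.pair hf hg
  have h1 := PT.iterate_sz (f := euc) (s := fun a => (f a, g a)) (n := fun a => (f a, g a)) PT_euc
    hp hp (B := fun a => 8 * sz (f a, g a) + 1)
    (((PBd.const 8).mul hp.bdd).add (PBd.const 1)) (by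
      intro a i _
      obtain ⟨h2, h3⟩ := euc_iter_le i (f a, g a) (max (f a) (g a)) (le_max_left _ _)
        (le_max_right _ _)
      have h4 := sz_nat_le_of_le h2
      have h5 := sz_nat_le_of_le h3
      have h6 : sz (max (f a) (g a)) + 1 ≤ sz (f a, g a) := by
        rw [sz_pair]
        rcases max_choice (f a) (g a) with h | h
        · rw [h]; omega
        · rw [h]; omega
      rw [sz_prod]
      omega)
  exact h1.fst.congr fun a => gcd_eq_iter (f a, g a)

end Pool.Agent.Lib.H48MaxScatter
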