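import Pool.Agent.Lib.H48MaxScatter.Spec

/-!
# The geometric arrangement

Integer coordinates for the positions `PD`, `HD`. A half-plane is represented by a far point `a`; it
sees the point `b` of the cluster iff `|a - b| ≥ Z`. The upper edges of the polygon are tangents of
a very flat parabola; `up τ θ` represents the half-plane `T y + τ x ≥ T θ`.
-/

set_option autoImplicit false

namespace Pool.Agent.Lib.H48MaxScatter

/-- squared distance -/
def sqd (a b : ℤ × ℤ) : ℤ := (a.1 - b.1) ^ 2 + (a.2 - b.2) ^ 2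

namespace Dat

variable (d : Dat)

def zI : ℤ := 32 * d.V + 64
def zQ : ℤ := 2 * d.zI
def zLp : ℤ := 20 * d.zI
def zLam : ℤ := d.zQ * d.zLp
def zZp : ℤ := 8 * d.zLp * d.zLp * ((d.N : ℤ) * d.N * d.N * d.N) + 8
def zG : ℤ := d.N - 1
def zM' : ℤ := 8 * d.zLam * (d.N * d.N) + d.zQ * d.zQ * (d.N * d.N) * d.zZp
def zM : ℤ := d.zG * d.zM'
def zT : ℤ := d.zQ * d.zM
def zZ : ℤ := 2 * d.zT * d.zT * d.zZp
def zY0 : ℤ := 2 * d.zLam * (d.zG * d.zG)

/-- coordinates of the points of the cluster -/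
def cP : PD → ℤ × ℤ
  | .corner c p q =>
    if c = d.N then (3 * d.zM * d.zLam * d.zG - d.zM' * (p + q), q - d.zY0)
    else if c = d.N + 1 then (d.zM * (p + q - d.zLam - d.zY0), p - d.zY0)
    else ((2 * (c : ℤ) - 1) * d.zM * d.zLam + d.zM * (p - q),
      -(d.zLam * ((c : ℤ) - 1) * c) - ((c : ℤ) - 1) * (p - q) - p)
  | .mid e z =>
    if e = d.N + 1 then (0, z - d.zY0)
    else (2 * ((e : ℤ) - 1) * d.zM * d.zLam, -(d.zLam * ((e : ℤ) - 1) * ((e : ℤ) - 1)) - z)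

/-- the far point of the half-plane `T y + τ x ≥ T θ` -/
def up (τ θ : ℤ) : ℤ × ℤ :=
  (-(2 * d.zT * d.zZp * τ), -(2 * d.zT * d.zT * d.zZp) + τ * τ * d.zZp + θ)

/-- the slope of a local half-plane of kind `k` at the corner `c` -/
def slope (c : ℕ) : Kind → ℤ
  | .L => d.zQ * c - 1
  | .R => d.zQ * ((c : ℤ) - 1) + 1
  | .M => d.zQ * ((c : ℤ) - 1) + d.zI

/-- coordinates of the far points -/
def cH : HD → ℤ × ℤ
  | .edge e t =>
    if e = d.N + 1 then (0, d.zZ - d.zY0 + t)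
    else d.up (d.zQ * ((e : ℤ) - 1)) (d.zLam * ((e : ℤ) - 1) * ((e : ℤ) - 1) - t)
  | .loc c k t =>
    if c = d.N then (-d.zZ + 3 * d.zM * d.zLam * d.zG - d.zM' * (2 * t), 0)
    else if c = d.N + 1 then (d.zZ + d.zM * (2 * t - d.zLam - d.zY0), 0)
    else d.up (d.slope c k)
      (d.zLp * d.slope c k * (2 * (c : ℤ) - 1) - d.zLam * ((c : ℤ) - 1) * c - t)

/-- admissible positions of points -/
def okPD : PD → Prop
  | .corner c p q => c < d.N + 2 ∧ p ≤ d.I ∧ q ≤ d.I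
  | .mid e z => ((1 ≤ e ∧ e < d.N) ∨ e = d.N + 1) ∧ z ≤ d.I

/-- admissible positions of half-planes -/
def okHD : HD → Prop
  | .edge e t => e < d.N + 2 ∧ t ≤ 16 * d.V + 24
  | .loc c k t => c < d.N + 2 ∧ t ≤ 16 * d.V + 24 ∧ (d.N ≤ c → k = .M)

/-- no borderline cases -/
def compat : HD → PD → Prop
  | .loc c .L t, .corner c' _ q => c = c' → q ≠ t
  | .loc c .R t, .corner c' p _ => c = c' → p ≠ t
  | _, _ => True

end Dat

end Pool.Agent.Lib.H48MaxScatter
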