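import Pool.Agent.Lib.H48MaxScatter.Geom

/-!
# The estimates for the geometric incidences
-/

set_option autoImplicit false
set_option linter.unusedSectionVars false
set_option linter.unusedVariables false

namespace Pool.Agent.Lib.H48MaxScatter

namespace GF

/-- expansion of the squared distance -/
lemma sqd_up (T Z' τ θ x y : ℤ) :
    sqd (-(2 * T * Z' * τ), -(2 * T * T * Z') + τ * τ * Z' + θ) (x, y) =
    (2 * T * T * Z') ^ 2 + 4 * T * Z' * (τ * x + T * (y - θ)) +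
      (x ^ 2 + (y - θ - τ * τ * Z') ^ 2) := by
  unfold sqd; ring

lemma up_iff {T Z' τ θ x y K : ℤ} {S : Prop} (hT : 0 < T) (hZ' : 0 < Z')
    (hE : x ^ 2 + (y - θ - τ * τ * Z') ^ 2 < 4 * T * Z' * K)
    (hΦ : (S ∧ 0 ≤ τ * x + T * (y - θ)) ∨ (¬ S ∧ τ * x + T * (y - θ) ≤ -K)) :
    (2 * T * T * Z') ^ 2 ≤
      sqd (-(2 * T * Z' * τ), -(2 * T * T * Z') + τ * τ * Z' + θ) (x, y) ↔ S := by
  rw [sqd_up]
  have h4 : 0 < 4 * T * Z' := by positivity
  have hE0 : 0 ≤ x ^ 2 + (y - θ - τ * τ * Z') ^ 2 := by positivity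
  rcases hΦ with ⟨hS, h⟩ | ⟨hS, h⟩
  · refine iff_of_true ?_ hS
    have := mul_nonneg h4.le h
    linarith
  · refine iff_of_false ?_ hS
    have := mul_le_mul_of_nonneg_left h h4.le
    rw [mul_neg] at this
    linarith

lemma lin_iff {Z u w : ℤ} {S : Prop} (hu : u ^ 2 < Z) (hw : w < Z)
    (h : (S ∧ w ≤ 0) ∨ (¬ S ∧ 1 ≤ w)) : Z ^ 2 ≤ u ^ 2 + (w - Z) ^ 2 ↔ S := by
  have hZ : 0 < Z := lt_of_le_of_lt (sq_nonneg u) hu
  rcases h with ⟨hS, h⟩ | ⟨hS, h⟩
  · refine iff_of_true ?_ hS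
    nlinarith [mul_nonneg hZ.le (neg_nonneg.2 h), sq_nonneg u, sq_nonneg w]
  · refine iff_of_false ?_ hS
    have h1 : Z ≤ Z * w := by nlinarith
    have h2 : w * w ≤ w * Z := by nlinarith
    nlinarith

/-- the relations between the constants -/
structure Cst (N I Q Lp Λ Z' G M' M T Z Y0 : ℤ) : Prop where
  hI : 96 ≤ I
  hQ : Q = 2 * I
  hLp : Lp = 20 * I
  hΛ : Λ = Q * Lp
  hZ' : Z' = 8 * Lp * Lp * (N * N * N * N) + 8
  hG : 1 ≤ G
  hN : N = G + 1
  hM' : M' = 8 * Λ * (N * N) + Q * Q * (N * N) * Z'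
  hM : M = G * M'
  hT : T = Q * M
  hZ : Z = 2 * T * T * Z'
  hY0 : Y0 = 2 * Λ * (G * G)

variable {N I Q Lp Λ Z' G M' M T Z Y0 : ℤ}

section
variable (C : Cst N I Q Lp Λ Z' G M' M T Z Y0)
include C

lemma Cst.Q_pos : 0 < Q := by have := C.hI; have := C.hQ; omega
lemma Cst.I_pos : 0 < I := by have := C.hI; omega
lemma Cst.Lp_pos : 0 < Lp := by have := C.hI; have := C.hLp; omega
lemma Cst.G_pos : 0 < G := by have := C.hG; omega
lemma Cst.N_pos : 0 < N := by have := C.hG; have := C.hN; omega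
lemma Cst.Λ_pos : 0 < Λ := by rw [C.hΛ]; exact mul_pos C.Q_pos C.Lp_pos
lemma Cst.Z'_pos : 0 < Z' := by
  have := C.Lp_pos
  have := C.N_pos
  rw [C.hZ']; positivity
lemma Cst.M'_pos : 0 < M' := by
  have := C.Λ_pos
  have := C.N_pos
  have := C.Q_pos
  have := C.Z'_pos
  rw [C.hM']; positivity
lemma Cst.M_pos : 0 < M := by rw [C.hM]; exact mul_pos C.G_pos C.M'_pos
lemma Cst.T_pos : 0 < T := by rw [C.hT]; exact mul_pos C.Q_pos C.M_pos
lemma Cst.Z_pos : 0 < Z := by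
  have := C.T_pos
  have := C.Z'_pos
  rw [C.hZ]; positivity
lemma Cst.Λ_eq : Λ = 40 * (I * I) := by rw [C.hΛ, C.hQ, C.hLp]; ring
lemma Cst.Λ_eq' : Λ = 20 * (Q * I) := by rw [C.hΛ, C.hLp]; ring
lemma Cst.Λ_ge : 3840 * I ≤ Λ := by
  have := C.hI
  rw [C.Λ_eq]; nlinarith
lemma Cst.M'_le : M' ≤ M := by
  have := C.hG
  have := C.M'_pos
  rw [C.hM]; nlinarith
lemma Cst.GG : 1 ≤ G * G := by have := C.hG; nlinarith
lemma Cst.GG_le : G * G ≤ N * N := by
  have := C.hG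
  rw [C.hN]; nlinarith
lemma Cst.Y0_ge : 2 * Λ ≤ Y0 := by
  have := C.GG
  have := C.Λ_pos
  rw [C.hY0]; nlinarith
lemma Cst.ΛGG : Λ ≤ Λ * (G * G) := by
  have := C.GG
  have := C.Λ_pos
  nlinarith

lemma Cst.M_ge : 8 * Λ * (G * G) ≤ M := by
  refine le_trans ?_ C.M'_le
  rw [C.hM']
  have h1 := mul_le_mul_of_nonneg_left C.GG_le (show (0:ℤ) ≤ 8 * Λ by have := C.Λ_pos; positivity)
  have h2 : 0 ≤ Q * Q * (N * N) * Z' := by
    have := C.Q_pos
    have := C.N_pos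
    have := C.Z'_pos
    positivity
  linarith

/-- the size of the error term -/
lemma Cst.E_bound {x Y τ : ℤ} (hx : |x| ≤ 3 * M * Λ * (G * G)) (hY : |Y| ≤ 8 * Λ * (G * G))
    (hτ : |τ| ≤ Q * G) :
    x ^ 2 + (Y - τ * τ * Z') ^ 2 < 4 * T * Z' * (M * I) := by
  have hQ := C.Q_pos
  have hM := C.M_pos
  have hG := C.G_pos
  have hΛ := C.Λ_pos
  have hZ' := C.Z'_pos
  have hN := C.N_pos
  have h1 : x ^ 2 ≤ (3 * M * Λ * (G * G)) ^ 2 := by
    rw [← sq_abs x]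
    exact pow_le_pow_left₀ (abs_nonneg x) hx 2
  have h2 : τ * τ ≤ Q * Q * (G * G) := by
    have := mul_le_mul hτ hτ (abs_nonneg τ) (by positivity)
    rw [abs_mul_abs_self] at this
    linarith [this, mul_mul_mul_comm Q G Q G]
  have h3 : |Y - τ * τ * Z'| ≤ M' := by
    have a1 : |Y - τ * τ * Z'| ≤ |Y| + |τ * τ * Z'| := abs_sub _ _
    have a2 : |τ * τ * Z'| = τ * τ * Z' := abs_of_nonneg (by
      have := mul_self_nonneg τ
      positivity)
    have a3 : τ * τ * Z' ≤ Q * Q * (N * N) * Z' := by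
      refine mul_le_mul_of_nonneg_right (h2.trans ?_) hZ'.le
      exact mul_le_mul_of_nonneg_left C.GG_le (by positivity)
    have a4 : 8 * Λ * (G * G) ≤ 8 * Λ * (N * N) :=
      mul_le_mul_of_nonneg_left C.GG_le (by positivity)
    rw [C.hM']
    linarith
  have h4 : (Y - τ * τ * Z') ^ 2 ≤ M ^ 2 := by
    rw [← sq_abs (Y - τ * τ * Z')]
    exact pow_le_pow_left₀ (abs_nonneg _) (h3.trans C.M'_le) 2
  have h5 : 4 * T * Z' * (M * I) = 16 * (M * Λ * (N * N)) ^ 2 + 16 * (Q * M) ^ 2 := by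
    rw [C.hT, C.hZ', C.hΛ, C.hQ]; ring
  have h6 : (M * Λ * (G * G)) ^ 2 ≤ (M * Λ * (N * N)) ^ 2 := by
    refine pow_le_pow_left₀ (by positivity) ?_ 2
    exact mul_le_mul_of_nonneg_left C.GG_le (by positivity)
  have h7 : 0 < (M * Λ * (N * N)) ^ 2 := by positivity
  have h8 : M ^ 2 ≤ (Q * M) ^ 2 := by
    refine pow_le_pow_left₀ hM.le ?_ 2
    nlinarith
  have h9 : 0 ≤ (Q * M) ^ 2 := by positivity
  rw [h5]
  nlinarith


lemma Cst.dich {S : Prop} {Φ B : ℤ} (hΦ : Φ = Q * M * B) (h : S ↔ 0 ≤ B) :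
    (S ∧ 0 ≤ Φ) ∨ (¬ S ∧ Φ ≤ -(M * I)) := by
  have hM := C.M_pos
  have hQ := C.Q_pos
  have hI := C.I_pos
  by_cases hB : 0 ≤ B
  · left
    refine ⟨h.2 hB, ?_⟩
    rw [hΦ]; positivity
  · right
    refine ⟨fun hS => hB (h.1 hS), ?_⟩
    have h1 : B ≤ -1 := by omega
    have h2 : Q * M * B ≤ Q * M * (-1) := mul_le_mul_of_nonneg_left h1 (by positivity)
    have h3 : Q * M = 2 * (M * I) := by rw [C.hQ]; ring
    have h4 : 0 < M * I := by positivity
    rw [hΦ]; linarith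

lemma Cst.dich' {S : Prop} {Φ B : ℤ} (hΦ : Φ = M * I * B) (h : S ↔ 0 ≤ B) :
    (S ∧ 0 ≤ Φ) ∨ (¬ S ∧ Φ ≤ -(M * I)) := by
  have hM := C.M_pos
  have hI := C.I_pos
  by_cases hB : 0 ≤ B
  · left
    refine ⟨h.2 hB, ?_⟩
    rw [hΦ]; positivity
  · right
    refine ⟨fun hS => hB (h.1 hS), ?_⟩
    have h1 : B ≤ -1 := by omega
    have h2 : M * I * B ≤ M * I * (-1) := mul_le_mul_of_nonneg_left h1 (by positivity)
    rw [hΦ]; linarith

/-- negative case: `Φ = M B` with `B ≤ -I` -/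
lemma Cst.neg_case {S : Prop} {Φ B : ℤ} (hΦ : Φ ≤ M * B) (hB : B ≤ -I) (hS : ¬ S) :
    (S ∧ 0 ≤ Φ) ∨ (¬ S ∧ Φ ≤ -(M * I)) := by
  right
  refine ⟨hS, hΦ.trans ?_⟩
  have := mul_le_mul_of_nonneg_left hB C.M_pos.le
  linarith

section edges

variable {e t : ℤ} (he : 0 ≤ e) (he' : e ≤ N) (ht : 0 ≤ t) (ht' : 2 * t ≤ I)
include he he' ht ht'

lemma Cst.edge_corner {c p q : ℤ} (hc : 0 ≤ c) (hc' : c < N) (hp : 0 ≤ p) (hp' : p ≤ I)
    (hq : 0 ≤ q) (hq' : q ≤ I) :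
    (((e = c ∧ p ≤ t) ∨ (e = c + 1 ∧ q ≤ t)) ∧
      0 ≤ Q * (e - 1) * ((2 * c - 1) * M * Λ + M * (p - q)) +
        T * (-(Λ * (c - 1) * c) - (c - 1) * (p - q) - p - (Λ * (e - 1) * (e - 1) - t))) ∨
    (¬ ((e = c ∧ p ≤ t) ∨ (e = c + 1 ∧ q ≤ t)) ∧
      Q * (e - 1) * ((2 * c - 1) * M * Λ + M * (p - q)) +
        T * (-(Λ * (c - 1) * c) - (c - 1) * (p - q) - p - (Λ * (e - 1) * (e - 1) - t)) ≤
      -(M * I)) := by
  have hΛ := C.Λ_ge
  have hI := C.hI
  refine C.dich (B := -(Λ * ((c - e + 1) * (c - e))) + (p - q) * (e - c) - p + t) ?_ ?_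
  · rw [C.hT]; ring
  · rcases lt_trichotomy (c - e) 0 with h | h | h
    · by_cases h1 : c - e = -1
      · rw [h1]
        have : e - c = 1 := by omega
        rw [this]
        constructor
        · rintro (h | h) <;> omega
        · intro h; right; omega
      · refine iff_of_false (by omega) ?_
        have h2 : e - c = -(c - e) := by ring
        rw [h2]
        generalize c - e = k at *
        have h3 : k ≤ -2 := by omega
        have h4 : Λ * (-k - 1) ≤ Λ * ((k + 1) * k) := by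
          apply mul_le_mul_of_nonneg_left _ (by omega)
          nlinarith
        have h5 : (p - q) * (-k) ≤ I * (-k) := by nlinarith
        have h6 : 3840 * I * (-k - 1) ≤ Λ * (-k - 1) := by nlinarith
        nlinarith
    · rw [h]
      have : e - c = 0 := by omega
      rw [this]
      constructor
      · rintro (h | h) <;> omega
      · intro h; left; omega
    · refine iff_of_false (by omega) ?_
      have h2 : e - c = -(c - e) := by ring
      rw [h2]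
      generalize c - e = k at *
      have h3 : 1 ≤ k := by omega
      have h4 : Λ * k ≤ Λ * ((k + 1) * k) := by
        apply mul_le_mul_of_nonneg_left _ (by omega)
        nlinarith
      have h5 : (p - q) * (-k) ≤ I * k := by nlinarith
      have h6 : 3840 * I * k ≤ Λ * k := by nlinarith
      nlinarith

lemma Cst.edge_cornerN {p q : ℤ} (hp : 0 ≤ p) (hp' : p ≤ I)
    (hq : 0 ≤ q) (hq' : q ≤ I) :
    ((e = N ∧ p ≤ t) ∧
      0 ≤ Q * (e - 1) * (3 * M * Λ * G - M' * (p + q)) +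
        T * (q - Y0 - (Λ * (e - 1) * (e - 1) - t))) ∨
    (¬ (e = N ∧ p ≤ t) ∧
      Q * (e - 1) * (3 * M * Λ * G - M' * (p + q)) +
        T * (q - Y0 - (Λ * (e - 1) * (e - 1) - t)) ≤ -(M * I)) := by
  have hΛ := C.Λ_ge
  have hI := C.hI
  have hN := C.hN
  have hG := C.hG
  have hM := C.M_pos
  have hM' := C.M'_pos
  have hQ := C.Q_pos
  by_cases h : e = N
  · refine C.dich (B := t - p) ?_ ?_
    · rw [h, C.hT, C.hY0, C.hN, C.hM]; ring
    · constructor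
      · rintro ⟨_, h⟩; omega
      · intro h1; exact ⟨h, by omega⟩
  · have h1 : Q * (e - 1) * (3 * M * Λ * G - M' * (p + q)) +
        T * (q - Y0 - (Λ * (e - 1) * (e - 1) - t)) =
        M * (Q * (-(Λ * ((G - (e - 1)) * (2 * G - (e - 1)))) + q + t))
          - Q * ((e - 1) * (M' * (p + q))) := by
      rw [C.hT, C.hY0]; ring
    have h2 : -(Q * ((e - 1) * (M' * (p + q)))) ≤ Q * (M * (p + q)) := by
      have a1 : -(e - 1) * (M' * (p + q)) ≤ 1 * (M' * (p + q)) :=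
        mul_le_mul_of_nonneg_right (by omega) (by positivity)
      have a2 : M' * (p + q) ≤ M * (p + q) :=
        mul_le_mul_of_nonneg_right C.M'_le (by positivity)
      have a3 : -((e - 1) * (M' * (p + q))) ≤ M * (p + q) := by linarith
      have a4 := mul_le_mul_of_nonneg_left a3 hQ.le
      linarith
    have h3 : 2 ≤ (G - (e - 1)) * (2 * G - (e - 1)) := by
      have a1 : 1 ≤ G - (e - 1) := by omega
      have a2 : 2 ≤ 2 * G - (e - 1) := by omega
      nlinarith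
    have h4 : Λ * 2 ≤ Λ * ((G - (e - 1)) * (2 * G - (e - 1))) :=
      mul_le_mul_of_nonneg_left h3 (by omega)
    refine C.neg_case (B := Q * (-(Λ * 2) + q + t + (p + q))) ?_ ?_ (by tauto)
    · rw [h1]
      have a1 : M * (Q * (-(Λ * ((G - (e - 1)) * (2 * G - (e - 1)))) + q + t)) ≤
          M * (Q * (-(Λ * 2) + q + t)) := by
        apply mul_le_mul_of_nonneg_left _ hM.le
        apply mul_le_mul_of_nonneg_left _ hQ.le
        linarith
      linarith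
    · have a1 : -(Λ * 2) + q + t + (p + q) ≤ -1 := by omega
      have a2 := mul_le_mul_of_nonneg_left a1 hQ.le
      have := C.hQ
      omega

lemma Cst.edge_cornerN1 {p q : ℤ} (hp : 0 ≤ p) (hp' : p ≤ I)
    (hq : 0 ≤ q) (hq' : q ≤ I) :
    ((e = 0 ∧ q ≤ t) ∧
      0 ≤ Q * (e - 1) * (M * (p + q - Λ - Y0)) +
        T * (p - Y0 - (Λ * (e - 1) * (e - 1) - t))) ∨
    (¬ (e = 0 ∧ q ≤ t) ∧
      Q * (e - 1) * (M * (p + q - Λ - Y0)) +
        T * (p - Y0 - (Λ * (e - 1) * (e - 1) - t)) ≤ -(M * I)) := by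
  have hΛ := C.Λ_ge
  have hI := C.hI
  have hY := C.Y0_ge
  by_cases h : e = 0
  · refine C.dich (B := t - q) ?_ ?_
    · rw [h, C.hT]; ring
    · constructor
      · rintro ⟨_, h⟩; omega
      · intro h1; exact ⟨h, by omega⟩
  · refine C.dich (B := (e - 1) * (p + q - Λ - Y0) + p - Y0 - Λ * ((e - 1) * (e - 1)) + t) ?_ ?_
    · rw [C.hT]; ring
    · refine iff_of_false (by tauto) ?_
      have h1 : 0 ≤ e - 1 := by omega
      have h2 : (e - 1) * (p + q - Λ - Y0) ≤ 0 :=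
        mul_nonpos_of_nonneg_of_nonpos h1 (by omega)
      have h3 : 0 ≤ Λ * ((e - 1) * (e - 1)) := by
        have := C.Λ_pos
        positivity
      omega

lemma Cst.edge_mid {f z : ℤ} (hf : 1 ≤ f) (hf' : f < N) (hz : 0 ≤ z) (hz' : z ≤ I) :
    ((e = f ∧ z ≤ t) ∧
      0 ≤ Q * (e - 1) * (2 * (f - 1) * M * Λ) +
        T * (-(Λ * (f - 1) * (f - 1)) - z - (Λ * (e - 1) * (e - 1) - t))) ∨
    (¬ (e = f ∧ z ≤ t) ∧
      Q * (e - 1) * (2 * (f - 1) * M * Λ) +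
        T * (-(Λ * (f - 1) * (f - 1)) - z - (Λ * (e - 1) * (e - 1) - t)) ≤ -(M * I)) := by
  have hΛ := C.Λ_ge
  have hI := C.hI
  refine C.dich (B := -(Λ * ((f - e) * (f - e))) - z + t) ?_ ?_
  · rw [C.hT]; ring
  · by_cases h : e = f
    · rw [h]
      constructor
      · rintro ⟨_, h⟩; simp; omega
      · intro h1; refine ⟨rfl, ?_⟩; simp at h1; omega
    · refine iff_of_false (by tauto) ?_
      have h1 : 1 ≤ (f - e) * (f - e) := by
        have : f - e ≠ 0 := by omega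
        have := mul_self_pos.2 this
        omega
      have h2 := mul_le_mul_of_nonneg_left h1 C.Λ_pos.le
      omega

lemma Cst.edge_midN1 {z : ℤ} (hz : 0 ≤ z) (hz' : z ≤ I) :
    (False ∧
      0 ≤ Q * (e - 1) * 0 +
        T * (z - Y0 - (Λ * (e - 1) * (e - 1) - t))) ∨
    (¬ False ∧
      Q * (e - 1) * 0 +
        T * (z - Y0 - (Λ * (e - 1) * (e - 1) - t)) ≤ -(M * I)) := by
  have hΛ := C.Λ_ge
  have hI := C.hI
  have hY := C.Y0_ge
  refine C.dich (B := -(Λ * ((e - 1) * (e - 1))) - Y0 + z + t) ?_ ?_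
  · rw [C.hT]; ring
  · refine iff_of_false (by tauto) ?_
    have h3 : 0 ≤ Λ * ((e - 1) * (e - 1)) := by
      have := C.Λ_pos
      have := mul_self_nonneg (e - 1)
      positivity
    omega

end edges


section locals

variable {c t s τ : ℤ} (hc : 0 ≤ c) (hc' : c < N) (ht : 0 ≤ t) (ht' : 2 * t ≤ I)
  (hs : 1 ≤ s) (hs' : s ≤ Q - 1) (hτ : τ = Q * (c - 1) + s)
include hc hc' ht ht' hs hs' hτ

lemma Cst.loc_corner {c' p q : ℤ} (hcc : c' ≠ c) (hp : 0 ≤ p) (hp' : p ≤ I)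
    (hq : 0 ≤ q) (hq' : q ≤ I) :
      τ * ((2 * c' - 1) * M * Λ + M * (p - q)) +
        T * (-(Λ * (c' - 1) * c') - (c' - 1) * (p - q) - p -
          (Lp * τ * (2 * c - 1) - Λ * (c - 1) * c - t)) ≤ -(M * I) := by
  have hΛ := C.Λ_eq'
  have hI := C.hI
  have hQ := C.Q_pos
  have hQ2 := C.hQ
  have hQI : 0 < Q * I := mul_pos hQ C.I_pos
  have h1 : τ * ((2 * c' - 1) * M * Λ + M * (p - q)) +
        T * (-(Λ * (c' - 1) * c') - (c' - 1) * (p - q) - p -
          (Lp * τ * (2 * c - 1) - Λ * (c - 1) * c - t)) =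
      M * (Λ * ((c' - c) * (2 * s - Q - Q * (c' - c))) + (p - q) * (s - Q * (c' - c))
        - Q * p + Q * t) := by
    rw [C.hT, C.hΛ, hτ]; ring
  rw [h1]
  have h2 : c' - c ≠ 0 := by omega
  generalize c' - c = δ at *
  have hb : Λ * (δ * (2 * s - Q - Q * δ)) + (p - q) * (s - Q * δ) - Q * p + Q * t ≤ -I := by
    have a1 : Q * t ≤ Q * I := by nlinarith
    have a2 : 0 ≤ Q * p := by positivity
    rcases lt_or_gt_of_ne h2 with h | h
    · -- δ ≤ -1
      have b1 : δ * (2 * s - Q - Q * δ) ≤ 2 * δ := by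
        nlinarith [mul_nonneg (show 0 ≤ -δ by omega) (show 0 ≤ Q * (-δ - 1) by
          apply mul_nonneg <;> omega), mul_nonneg (show 0 ≤ -δ by omega) (show 0 ≤ s - 1 by omega)]
      have b2 : Λ * (δ * (2 * s - Q - Q * δ)) ≤ Λ * (2 * δ) :=
        mul_le_mul_of_nonneg_left b1 C.Λ_pos.le
      have b3 : 0 ≤ s - Q * δ := by nlinarith
      have b4 : s - Q * δ ≤ Q * (1 - δ) := by nlinarith
      have b5 : (p - q) * (s - Q * δ) ≤ I * (Q * (1 - δ)) := by
        have : (p - q) * (s - Q * δ) ≤ I * (s - Q * δ) :=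
          mul_le_mul_of_nonneg_right (by omega) b3
        have : I * (s - Q * δ) ≤ I * (Q * (1 - δ)) := mul_le_mul_of_nonneg_left b4 (by omega)
        linarith
      have b6 : Λ * (2 * δ) = -(40 * (Q * I) * (-δ)) := by rw [hΛ]; ring
      have b7 : I * (Q * (1 - δ)) = Q * I + Q * I * (-δ) := by ring
      have b8 : Q * I * 1 ≤ Q * I * (-δ) := mul_le_mul_of_nonneg_left (by omega) hQI.le
      have b9 : I ≤ Q * I := by nlinarith
      linarith
    · -- δ ≥ 1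
      have b1 : δ * (2 * s - Q - Q * δ) ≤ -2 * δ := by
        nlinarith [mul_nonneg (show 0 ≤ δ by omega) (show 0 ≤ Q * (δ - 1) by
          apply mul_nonneg <;> omega), mul_nonneg (show 0 ≤ δ by omega)
          (show 0 ≤ Q - 1 - s by omega)]
      have b2 : Λ * (δ * (2 * s - Q - Q * δ)) ≤ Λ * (-2 * δ) :=
        mul_le_mul_of_nonneg_left b1 C.Λ_pos.le
      have b3 : 0 ≤ Q * δ - s := by nlinarith
      have b4 : Q * δ - s ≤ Q * δ := by omega
      have b5 : (p - q) * (s - Q * δ) ≤ I * (Q * δ) := by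
        have : (q - p) * (Q * δ - s) ≤ I * (Q * δ - s) :=
          mul_le_mul_of_nonneg_right (by omega) b3
        have : I * (Q * δ - s) ≤ I * (Q * δ) := mul_le_mul_of_nonneg_left b4 (by omega)
        linarith
      have b6 : Λ * (-2 * δ) = -(40 * (Q * I) * δ) := by rw [hΛ]; ring
      have b7 : I * (Q * δ) = Q * I * δ := by ring
      have b8 : Q * I * 1 ≤ Q * I * δ := mul_le_mul_of_nonneg_left (by omega) hQI.le
      have b9 : I ≤ Q * I := by nlinarith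
      linarith
  have := mul_le_mul_of_nonneg_left hb C.M_pos.le
  linarith

lemma Cst.loc_cornerN {p q : ℤ} (hp : 0 ≤ p) (hp' : p ≤ I)
    (hq : 0 ≤ q) (hq' : q ≤ I) :
      τ * (3 * M * Λ * G - M' * (p + q)) +
        T * (q - Y0 - (Lp * τ * (2 * c - 1) - Λ * (c - 1) * c - t)) ≤ -(M * I) := by
  have hΛ := C.Λ_eq'
  have hI := C.hI
  have hQ := C.Q_pos
  have hQ2 := C.hQ
  have hG := C.hG
  have hN := C.hN
  have hM := C.M_pos
  have hM' := C.M'_pos
  have hQI : 0 < Q * I := mul_pos hQ C.I_pos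
  have h1 : τ * (3 * M * Λ * G - M' * (p + q)) +
        T * (q - Y0 - (Lp * τ * (2 * c - 1) - Λ * (c - 1) * c - t)) =
      M * (Λ * (τ * (3 * G - 2 * c + 1) + Q * (c - 1) * c - 2 * Q * (G * G)) + Q * (t + q))
        - τ * (M' * (p + q)) := by
    rw [C.hT, C.hY0, C.hΛ]; ring
  rw [h1]
  have h2 : τ * (3 * G - 2 * c + 1) + Q * (c - 1) * c - 2 * Q * (G * G) ≤ -2 := by
    have a1 : τ ≤ Q * c - 1 := by linarith
    have a2 : τ * (3 * G - 2 * c + 1) ≤ (Q * c - 1) * (3 * G - 2 * c + 1) :=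
      mul_le_mul_of_nonneg_right a1 (by omega)
    have a3 : 0 ≤ (G - c) * (2 * G - c) := mul_nonneg (by omega) (by omega)
    have a4 := mul_nonneg hQ.le a3
    nlinarith
  have h3 : -(τ * (M' * (p + q))) ≤ M * (2 * (Q * I)) := by
    have a1 : -τ ≤ Q := by nlinarith
    have a2 : -τ * (M' * (p + q)) ≤ Q * (M' * (p + q)) :=
      mul_le_mul_of_nonneg_right a1 (by positivity)
    have a3 : M' * (p + q) ≤ M * (2 * I) :=
      mul_le_mul C.M'_le (by omega) (by omega) hM.le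
    have a4 := mul_le_mul_of_nonneg_left a3 hQ.le
    linarith
  have h4 : Λ * (τ * (3 * G - 2 * c + 1) + Q * (c - 1) * c - 2 * Q * (G * G)) ≤ Λ * (-2) :=
    mul_le_mul_of_nonneg_left h2 C.Λ_pos.le
  have h5 : Q * (t + q) ≤ Q * (2 * I) := mul_le_mul_of_nonneg_left (by omega) hQ.le
  have h6 : Λ * (τ * (3 * G - 2 * c + 1) + Q * (c - 1) * c - 2 * Q * (G * G)) + Q * (t + q)
      ≤ -(36 * (Q * I)) := by
    have : Q * (2 * I) = 2 * (Q * I) := by ring
    linarith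
  have h7 := mul_le_mul_of_nonneg_left h6 hM.le
  have h8 : M * (2 * (Q * I)) = 2 * (M * I) * Q := by ring
  have h9 : M * (-(36 * (Q * I))) = -(36 * (M * I) * Q) := by ring
  have hMI : 0 < M * I := mul_pos hM C.I_pos
  nlinarith

lemma Cst.loc_cornerN1 {p q : ℤ} (hp : 0 ≤ p) (hp' : p ≤ I)
    (hq : 0 ≤ q) (hq' : q ≤ I) :
      τ * (M * (p + q - Λ - Y0)) +
        T * (p - Y0 - (Lp * τ * (2 * c - 1) - Λ * (c - 1) * c - t)) ≤ -(M * I) := by
  have hΛ := C.Λ_eq'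
  have hI := C.hI
  have hQ := C.Q_pos
  have hQ2 := C.hQ
  have hM := C.M_pos
  have hY := C.Y0_ge
  have hQI : 0 < Q * I := mul_pos hQ C.I_pos
  have h1 : τ * (M * (p + q - Λ - Y0)) +
        T * (p - Y0 - (Lp * τ * (2 * c - 1) - Λ * (c - 1) * c - t)) =
      M * ((τ + Q) * (p + q - Y0) - Λ * (2 * c * τ - Q * (c - 1) * c) - Q * q + Q * t) := by
    rw [C.hT, C.hΛ]; ring
  rw [h1]
  have h2 : 1 ≤ τ + Q := by nlinarith
  have h3 : 0 ≤ 2 * c * τ - Q * (c - 1) * c := by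
    rcases eq_or_lt_of_le hc with h | h
    · rw [← h]; simp
    · have : 0 ≤ Q * (c - 1) := mul_nonneg hQ.le (by omega)
      nlinarith
  have h4 : 0 ≤ Λ * (2 * c * τ - Q * (c - 1) * c) := mul_nonneg C.Λ_pos.le h3
  have h5 : (τ + Q) * (p + q - Y0) ≤ p + q - Y0 := by
    have a1 : 0 ≤ Y0 - p - q := by
      have := C.Λ_ge
      omega
    nlinarith
  have h6 : Q * t ≤ Q * I := by nlinarith
  have h7 : 0 ≤ Q * q := by positivity
  have h8 : I ≤ Q * I := by nlinarith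
  have hb : (τ + Q) * (p + q - Y0) - Λ * (2 * c * τ - Q * (c - 1) * c) - Q * q + Q * t ≤ -I := by
    linarith
  have := mul_le_mul_of_nonneg_left hb hM.le
  linarith

lemma Cst.loc_mid {f z : ℤ} (hf : 1 ≤ f) (hf' : f < N) (hz : 0 ≤ z) (hz' : z ≤ I) :
      τ * (2 * (f - 1) * M * Λ) +
        T * (-(Λ * (f - 1) * (f - 1)) - z -
          (Lp * τ * (2 * c - 1) - Λ * (c - 1) * c - t)) ≤ -(M * I) := by
  have hΛ := C.Λ_eq'
  have hI := C.hI
  have hQ := C.Q_pos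
  have hQ2 := C.hQ
  have hM := C.M_pos
  have hQI : 0 < Q * I := mul_pos hQ C.I_pos
  have h1 : τ * (2 * (f - 1) * M * Λ) +
        T * (-(Λ * (f - 1) * (f - 1)) - z -
          (Lp * τ * (2 * c - 1) - Λ * (c - 1) * c - t)) =
      M * (Λ * (s * (2 * (f - c) - 1) - Q * ((f - c) * (f - c))) - Q * z + Q * t) := by
    rw [C.hT, C.hΛ, hτ]; ring
  rw [h1]
  generalize f - c = g at *
  have h2 : s * (2 * g - 1) - Q * (g * g) ≤ -1 := by
    rcases lt_or_ge g 1 with h | h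
    · have a1 : 0 ≤ Q * (g * g) := mul_nonneg hQ.le (mul_self_nonneg g)
      nlinarith
    · have a1 : 0 ≤ Q * ((g - 1) * (g - 1)) := mul_nonneg hQ.le (mul_self_nonneg _)
      nlinarith
  have h3 := mul_le_mul_of_nonneg_left h2 C.Λ_pos.le
  have h6 : Q * t ≤ Q * I := by nlinarith
  have h7 : 0 ≤ Q * z := by positivity
  have h8 : I ≤ Q * I := by nlinarith
  have hb : Λ * (s * (2 * g - 1) - Q * (g * g)) - Q * z + Q * t ≤ -I := by linarith
  have := mul_le_mul_of_nonneg_left hb hM.le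
  linarith

lemma Cst.loc_midN1 {z : ℤ} (hz : 0 ≤ z) (hz' : z ≤ I) :
      τ * 0 + T * (z - Y0 - (Lp * τ * (2 * c - 1) - Λ * (c - 1) * c - t)) ≤ -(M * I) := by
  have hΛ := C.Λ_eq'
  have hI := C.hI
  have hQ := C.Q_pos
  have hQ2 := C.hQ
  have hM := C.M_pos
  have hY := C.Y0_ge
  have hQI : 0 < Q * I := mul_pos hQ C.I_pos
  have h1 : τ * 0 + T * (z - Y0 - (Lp * τ * (2 * c - 1) - Λ * (c - 1) * c - t)) =
      M * (-(Λ * (τ * (2 * c - 1) - Q * (c - 1) * c)) + Q * (z + t - Y0)) := by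
    rw [C.hT, C.hΛ]; ring
  rw [h1]
  have h2 : 0 ≤ τ * (2 * c - 1) - Q * (c - 1) * c := by
    rcases eq_or_lt_of_le hc with h | h
    · rw [hτ, ← h]; simp; omega
    · have a1 : 0 ≤ Q * ((c - 1) * (c - 1)) := mul_nonneg hQ.le (mul_self_nonneg _)
      nlinarith
  have h3 := mul_nonneg C.Λ_pos.le h2
  have h4 : Q * (z + t - Y0) ≤ Q * (-1) := by
    have := C.Λ_ge
    exact mul_le_mul_of_nonneg_left (by omega) hQ.le
  have hb : -(Λ * (τ * (2 * c - 1) - Q * (c - 1) * c)) + Q * (z + t - Y0) ≤ -I := by linarith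
  have := mul_le_mul_of_nonneg_left hb hM.le
  linarith

end locals


/-! ### bounds -/

lemma Cst.I_le : I ≤ Λ * (G * G) := by
  have := C.ΛGG
  have := C.Λ_ge
  have := C.hI
  omega

lemma Cst.GI_le : G * I ≤ Λ * (G * G) := by
  have h1 := C.Λ_ge
  have h2 := C.hI
  have h3 := C.hG
  have h4 : I ≤ Λ * G := by nlinarith
  have := mul_le_mul_of_nonneg_left h4 C.G_pos.le
  linarith

lemma Cst.GΛ_le : Λ * G ≤ Λ * (G * G) := by
  have h3 := C.hG
  exact mul_le_mul_of_nonneg_left (by nlinarith) C.Λ_pos.le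

lemma Cst.big : (3 * M * Λ * (G * G)) ^ 2 < Z := by
  have hQ := C.Q_pos
  have hM := C.M_pos
  have hG := C.G_pos
  have hΛ := C.Λ_pos
  have hN := C.N_pos
  have h5 : Z = 16 * (M * Λ * (N * N)) ^ 2 + 16 * (Q * M) ^ 2 := by
    rw [C.hZ, C.hT, C.hZ', C.hΛ]; ring
  have h6 : (M * Λ * (G * G)) ^ 2 ≤ (M * Λ * (N * N)) ^ 2 := by
    refine pow_le_pow_left₀ (by positivity) ?_ 2
    exact mul_le_mul_of_nonneg_left C.GG_le (by positivity)
  have h7 : 0 < (M * Λ * (N * N)) ^ 2 := by positivity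
  have h9 : 0 ≤ (Q * M) ^ 2 := by positivity
  rw [h5]
  nlinarith

lemma Cst.X_pos : 96 ≤ M * Λ * (G * G) := by
  have h1 := C.M_pos
  have h2 := C.Λ_ge
  have h3 := C.hI
  have h4 := C.GG
  have h5 : 96 ≤ M * Λ := by nlinarith
  nlinarith

lemma Cst.big' : 9 * (M * Λ * (G * G)) < Z := by
  have h1 := C.big
  have h2 := C.X_pos
  have h3 : 3 * M * Λ * (G * G) = 3 * (M * Λ * (G * G)) := by ring
  rw [h3] at h1
  nlinarith

lemma Cst.bound_corner {c p q : ℤ} (hc : 0 ≤ c) (hc' : c < N) (hp : 0 ≤ p) (hp' : p ≤ I)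
    (hq : 0 ≤ q) (hq' : q ≤ I) :
    |(2 * c - 1) * M * Λ + M * (p - q)| ≤ 3 * M * Λ * (G * G) ∧
    |-(Λ * (c - 1) * c) - (c - 1) * (p - q) - p| ≤ 3 * Λ * (G * G) := by
  have hN := C.hN
  have hG := C.hG
  have hM := C.M_pos
  have hΛ := C.Λ_pos
  have hI := C.I_le
  have hGI := C.GI_le
  have hGΛ := C.GΛ_le
  have hΛ' := C.ΛGG
  have hΛI := C.Λ_ge
  have hI' := C.hI
  constructor
  · have h1 : |(2 * c - 1) * Λ + (p - q)| ≤ 3 * (Λ * (G * G)) := by
      have a1 : |(2 * c - 1) * Λ| ≤ (2 * G) * Λ := by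
        rw [abs_mul, abs_of_pos hΛ]
        refine mul_le_mul_of_nonneg_right ?_ hΛ.le
        rw [abs_le]; constructor <;> omega
      have a2 : |p - q| ≤ I := by rw [abs_le]; constructor <;> omega
      have a3 := abs_add_le ((2 * c - 1) * Λ) (p - q)
      have a4 : (2 * G) * Λ = 2 * (Λ * G) := by ring
      linarith
    have h2 : (2 * c - 1) * M * Λ + M * (p - q) = M * ((2 * c - 1) * Λ + (p - q)) := by ring
    rw [h2, abs_mul, abs_of_pos hM]
    have := mul_le_mul_of_nonneg_left h1 hM.le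
    linarith
  · have a1 : 0 ≤ (c - 1) * c := by
      rcases eq_or_lt_of_le hc with h | h
      · rw [← h]; simp
      · exact mul_nonneg (by omega) (by omega)
    have a2 : (c - 1) * c ≤ G * G := by
      rcases eq_or_lt_of_le hc with h | h
      · rw [← h]; simp; positivity
      · exact mul_le_mul (by omega) (by omega) (by omega) (by omega)
    have a3 : |Λ * (c - 1) * c| ≤ Λ * (G * G) := by
      rw [mul_assoc, abs_of_nonneg (mul_nonneg hΛ.le a1)]
      exact mul_le_mul_of_nonneg_left a2 hΛ.le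
    have a4 : |(c - 1) * (p - q)| ≤ G * I := by
      rw [abs_mul]
      apply mul_le_mul _ _ (abs_nonneg _) (by omega)
      · rw [abs_le]; constructor <;> omega
      · rw [abs_le]; constructor <;> omega
    have a5 : |p| ≤ I := by rw [abs_le]; constructor <;> omega
    have a6 : |-(Λ * (c - 1) * c) - (c - 1) * (p - q) - p| ≤
        |Λ * (c - 1) * c| + |(c - 1) * (p - q)| + |p| := by
      have b1 := abs_sub (-(Λ * (c - 1) * c) - (c - 1) * (p - q)) p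
      have b2 := abs_sub (-(Λ * (c - 1) * c)) ((c - 1) * (p - q))
      rw [abs_neg] at b2
      linarith
    linarith

lemma Cst.bound_cornerN {p q : ℤ} (hp : 0 ≤ p) (hp' : p ≤ I)
    (hq : 0 ≤ q) (hq' : q ≤ I) :
    |3 * M * Λ * G - M' * (p + q)| ≤ 3 * M * Λ * (G * G) ∧
    |q - Y0| ≤ 3 * Λ * (G * G) := by
  have hG := C.hG
  have hM := C.M_pos
  have hM' := C.M'_pos
  have hΛ := C.Λ_pos
  have hI := C.I_le
  have hGΛ := C.GΛ_le
  have hΛ' := C.ΛGG
  have hΛI := C.Λ_ge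
  have hI' := C.hI
  constructor
  · have h1 : 0 ≤ M' * (p + q) := by positivity
    have h2 : M' * (p + q) ≤ M * (2 * I) := mul_le_mul C.M'_le (by omega) (by omega) hM.le
    have h3 := mul_le_mul_of_nonneg_left hI hM.le
    have h4 := mul_le_mul_of_nonneg_left hGΛ hM.le
    have h5 : 0 ≤ M * (Λ * G) := by positivity
    rw [abs_le]; constructor <;> linarith
  · have := C.hY0
    rw [abs_le]; constructor <;> linarith

lemma Cst.bound_cornerN1 {p q : ℤ} (hp : 0 ≤ p) (hp' : p ≤ I)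
    (hq : 0 ≤ q) (hq' : q ≤ I) :
    |M * (p + q - Λ - Y0)| ≤ 3 * M * Λ * (G * G) ∧
    |p - Y0| ≤ 3 * Λ * (G * G) := by
  have hG := C.hG
  have hM := C.M_pos
  have hΛ := C.Λ_pos
  have hI := C.I_le
  have hΛ' := C.ΛGG
  have hΛI := C.Λ_ge
  have hI' := C.hI
  have hY := C.hY0
  constructor
  · rw [abs_mul, abs_of_pos hM]
    have h1 : |p + q - Λ - Y0| ≤ 3 * Λ * (G * G) := by
      rw [abs_le]; constructor <;> linarith
    have := mul_le_mul_of_nonneg_left h1 hM.le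
    linarith
  · rw [abs_le]; constructor <;> linarith

lemma Cst.bound_mid {f z : ℤ} (hf : 1 ≤ f) (hf' : f < N) (hz : 0 ≤ z) (hz' : z ≤ I) :
    |2 * (f - 1) * M * Λ| ≤ 3 * M * Λ * (G * G) ∧
    |-(Λ * (f - 1) * (f - 1)) - z| ≤ 3 * Λ * (G * G) := by
  have hN := C.hN
  have hG := C.hG
  have hM := C.M_pos
  have hΛ := C.Λ_pos
  have hI := C.I_le
  have hGΛ := C.GΛ_le
  constructor
  · have h0 : 0 ≤ f - 1 := by omega
    rw [abs_of_nonneg (by positivity)]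
    have h1 : (f - 1) * (M * Λ) ≤ G * (M * Λ) :=
      mul_le_mul_of_nonneg_right (by omega) (by positivity)
    have h4 := mul_le_mul_of_nonneg_left hGΛ hM.le
    have h5 : 0 ≤ M * (Λ * G) := by positivity
    linarith
  · have a1 : 0 ≤ (f - 1) * (f - 1) := mul_self_nonneg _
    have a2 : (f - 1) * (f - 1) ≤ G * G := mul_le_mul (by omega) (by omega) (by omega) (by omega)
    have a3 := mul_le_mul_of_nonneg_left a2 hΛ.le
    have a4 := mul_nonneg hΛ.le a1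
    rw [abs_le]; constructor <;> linarith

lemma Cst.bound_midN1 {z : ℤ} (hz : 0 ≤ z) (hz' : z ≤ I) :
    |(0 : ℤ)| ≤ 3 * M * Λ * (G * G) ∧ |z - Y0| ≤ 3 * Λ * (G * G) := by
  have hI := C.I_le
  have hY := C.hY0
  have hX := C.X_pos
  have := C.GG
  have := C.Λ_pos
  have h : 0 ≤ Λ * (G * G) := by positivity
  constructor
  · rw [abs_zero]; linarith
  · rw [abs_le]; constructor <;> linarith

lemma Cst.bound_edge {e t : ℤ} (he : 0 ≤ e) (he' : e ≤ N) (ht : 0 ≤ t) (ht' : 2 * t ≤ I) :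
    |Q * (e - 1)| ≤ Q * G ∧ |Λ * (e - 1) * (e - 1) - t| ≤ 4 * Λ * (G * G) := by
  have hN := C.hN
  have hG := C.hG
  have hQ := C.Q_pos
  have hΛ := C.Λ_pos
  have hI := C.I_le
  have hI' := C.hI
  have h0 : |e - 1| ≤ G := by rw [abs_le]; constructor <;> omega
  constructor
  · rw [abs_mul, abs_of_pos hQ]
    exact mul_le_mul_of_nonneg_left h0 hQ.le
  · have a1 : (e - 1) * (e - 1) ≤ G * G := by
      have := mul_le_mul h0 h0 (abs_nonneg _) (by omega)
      rwa [abs_mul_abs_self] at this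
    have a2 : 0 ≤ (e - 1) * (e - 1) := mul_self_nonneg _
    have a3 := mul_le_mul_of_nonneg_left a1 hΛ.le
    have a4 := mul_nonneg hΛ.le a2
    rw [abs_le]; constructor <;> linarith

lemma Cst.bound_loc {c t s τ : ℤ} (hc : 0 ≤ c) (hc' : c < N) (ht : 0 ≤ t) (ht' : 2 * t ≤ I)
    (hs : 1 ≤ s) (hs' : s ≤ Q - 1) (hτ : τ = Q * (c - 1) + s) :
    |τ| ≤ Q * G ∧ |Lp * τ * (2 * c - 1) - Λ * (c - 1) * c - t| ≤ 4 * Λ * (G * G) := by
  have hN := C.hN
  have hG := C.hG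
  have hQ := C.Q_pos
  have hΛ := C.Λ_pos
  have hI := C.I_le
  have hI' := C.hI
  have hLp := C.Lp_pos
  have h1 : |τ| ≤ Q * G := by
    have a1 : Q * c ≤ Q * G := mul_le_mul_of_nonneg_left (by omega) hQ.le
    have a2 : 0 ≤ Q * c := by positivity
    have a3 : Q * 1 ≤ Q * G := mul_le_mul_of_nonneg_left (by omega) hQ.le
    rw [abs_le, hτ]; constructor <;> linarith
  refine ⟨h1, ?_⟩
  have a1 : 0 ≤ (c - 1) * c := by
    rcases eq_or_lt_of_le hc with h | h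
    · rw [← h]; simp
    · exact mul_nonneg (by omega) (by omega)
  have a2 : (c - 1) * c ≤ G * G := by
    rcases eq_or_lt_of_le hc with h | h
    · rw [← h]; simp; positivity
    · exact mul_le_mul (by omega) (by omega) (by omega) (by omega)
  have a3 := mul_le_mul_of_nonneg_left a2 hΛ.le
  have a4 := mul_nonneg hΛ.le a1
  have a5 : |Lp * τ * (2 * c - 1)| ≤ 2 * (Λ * (G * G)) := by
    rw [abs_mul, abs_mul, abs_of_pos hLp]
    have b1 : |2 * c - 1| ≤ 2 * G := by rw [abs_le]; constructor <;> omega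
    have b2 : Lp * |τ| ≤ Lp * (Q * G) := mul_le_mul_of_nonneg_left h1 hLp.le
    have b3 := mul_le_mul b2 b1 (abs_nonneg _) (by positivity)
    have b4 : Lp * (Q * G) * (2 * G) = 2 * (Λ * (G * G)) := by rw [C.hΛ]; ring
    linarith
  rw [abs_le] at a5 ⊢
  constructor <;> linarith [a5.1, a5.2]

/-- the criterion for the steep half-planes -/
lemma Cst.up_case {τ θ x y : ℤ} {S : Prop} (hp : |x| ≤ 3 * M * Λ * (G * G) ∧
    |y| ≤ 3 * Λ * (G * G)) (hh : |τ| ≤ Q * G ∧ |θ| ≤ 4 * Λ * (G * G))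
    (h : (S ∧ 0 ≤ τ * x + T * (y - θ)) ∨ (¬ S ∧ τ * x + T * (y - θ) ≤ -(M * I))) :
    Z ^ 2 ≤ sqd (-(2 * T * Z' * τ), -(2 * T * T * Z') + τ * τ * Z' + θ) (x, y) ↔ S := by
  have h1 : |y - θ| ≤ 8 * Λ * (G * G) := by
    have := abs_sub y θ
    have := C.ΛGG
    have := C.Λ_pos
    linarith [hp.2, hh.2]
  have h2 := C.E_bound hp.1 h1 hh.1
  rw [C.hZ]
  exact up_iff C.T_pos C.Z'_pos h2 h

lemma Cst.sq_lt {x : ℤ} (hx : |x| ≤ 3 * M * Λ * (G * G)) : x ^ 2 < Z := by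
  refine lt_of_le_of_lt ?_ C.big
  rw [← sq_abs x]
  exact pow_le_pow_left₀ (abs_nonneg x) hx 2

lemma Cst.ΛM : 3 * Λ * (G * G) ≤ 3 * M * Λ * (G * G) := by
  have := C.M_pos
  have := C.ΛGG
  have := C.Λ_pos
  nlinarith

lemma Cst.sq_lt' {y : ℤ} (hy : |y| ≤ 3 * Λ * (G * G)) : y ^ 2 < Z :=
  C.sq_lt (hy.trans C.ΛM)

/-- the criterion for the edge `N + 1` -/
lemma Cst.hor_case {x y t : ℤ} {S : Prop} (hp : |x| ≤ 3 * M * Λ * (G * G) ∧
    |y| ≤ 3 * Λ * (G * G)) (ht : 0 ≤ t) (ht' : 2 * t ≤ I)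
    (h : (S ∧ Y0 + y ≤ t) ∨ (¬ S ∧ t < Y0 + y)) :
    Z ^ 2 ≤ sqd (0, Z - Y0 + t) (x, y) ↔ S := by
  have h1 : sqd (0, Z - Y0 + t) (x, y) = x ^ 2 + ((Y0 + y - t) - Z) ^ 2 := by
    unfold sqd; ring
  rw [h1]
  refine lin_iff (C.sq_lt hp.1) ?_ ?_
  · have := (abs_le.1 hp.2).2
    have := C.hY0
    have := C.big'
    have := C.ΛM
    have : 0 < Λ * (G * G) := by
      have := C.ΛGG
      have := C.Λ_pos
      linarith
    linarith
  · rcases h with ⟨h, h'⟩ | ⟨h, h'⟩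
    · left; exact ⟨h, by omega⟩
    · right; exact ⟨h, by omega⟩

lemma Cst.left_case {x y X : ℤ} {S : Prop} (hp : |x| ≤ 3 * M * Λ * (G * G) ∧
    |y| ≤ 3 * Λ * (G * G)) (hX : |X| ≤ 3 * M * Λ * (G * G))
    (h : (S ∧ X ≤ x) ∨ (¬ S ∧ x < X)) :
    Z ^ 2 ≤ sqd (-Z + X, 0) (x, y) ↔ S := by
  have h1 : sqd (-Z + X, 0) (x, y) = y ^ 2 + ((X - x) - Z) ^ 2 := by
    unfold sqd; ring
  rw [h1]
  refine lin_iff (C.sq_lt' hp.2) ?_ ?_
  · have a1 := abs_le.1 hp.1
    have a2 := abs_le.1 hX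
    have := C.big'
    have := C.X_pos
    linarith [a1.1, a2.2]
  · rcases h with ⟨h, h'⟩ | ⟨h, h'⟩
    · left; exact ⟨h, by omega⟩
    · right; exact ⟨h, by omega⟩

lemma Cst.right_case {x y X : ℤ} {S : Prop} (hp : |x| ≤ 3 * M * Λ * (G * G) ∧
    |y| ≤ 3 * Λ * (G * G)) (hX : |X| ≤ 3 * M * Λ * (G * G))
    (h : (S ∧ x ≤ X) ∨ (¬ S ∧ X < x)) :
    Z ^ 2 ≤ sqd (Z + X, 0) (x, y) ↔ S := by
  have h1 : sqd (Z + X, 0) (x, y) = y ^ 2 + ((x - X) - Z) ^ 2 := by
    unfold sqd; ring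
  rw [h1]
  refine lin_iff (C.sq_lt' hp.2) ?_ ?_
  · have a1 := abs_le.1 hp.1
    have a2 := abs_le.1 hX
    have := C.big'
    have := C.X_pos
    linarith [a1.2, a2.1]
  · rcases h with ⟨h, h'⟩ | ⟨h, h'⟩
    · left; exact ⟨h, by omega⟩
    · right; exact ⟨h, by omega⟩

end

end GF

end Pool.Agent.Lib.H48MaxScatter
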