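import Pool.Agent.Lib.H48MaxScatter.GeomConst

/-!
# The geometric incidences are the abstract ones
-/

set_option autoImplicit false
set_option linter.unusedSectionVars false
set_option linter.unusedVariables false

namespace Pool.Agent.Lib.H48MaxScatter

namespace Dat

variable (d : Dat)

lemma cst : GF.Cst (d.N : ℤ) d.zI d.zQ d.zLp d.zLam d.zZp d.zG d.zM' d.zM d.zT d.zZ d.zY0 where
  hI := by have := d.hV; unfold zI; omega
  hQ := rfl
  hLp := rfl
  hΛ := rfl
  hZ' := rfl
  hG := by have := d.hN; unfold zG; omega
  hN := by unfold zG; omega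
  hM' := rfl
  hM := rfl
  hT := rfl
  hZ := rfl
  hY0 := rfl

lemma I_eq : d.I = 32 * d.V + 64 := rfl

lemma zG_eq : d.zG = (d.N : ℤ) - 1 := rfl

lemma slope_L (c : ℕ) : d.slope c .L = d.zQ * c - 1 := rfl

lemma slope_R (c : ℕ) : d.slope c .R = d.zQ * ((c : ℤ) - 1) + 1 := rfl

lemma slope_M (c : ℕ) : d.slope c .M = d.zQ * ((c : ℤ) - 1) + d.zI := rfl

lemma zI_eq : (d.I : ℤ) = d.zI := by unfold I zI; push_cast; ring

attribute [local irreducible] zI zQ zLp zLam zZp zG zM' zM zT zZ zY0 slope I

/-- the bounds of all points -/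
lemma bound_cP {p : PD} (hp : d.okPD p) :
    |(d.cP p).1| ≤ 3 * d.zM * d.zLam * (d.zG * d.zG) ∧
    |(d.cP p).2| ≤ 3 * d.zLam * (d.zG * d.zG) := by
  have hI := d.zI_eq
  rcases p with ⟨c, p, q⟩ | ⟨e, z⟩
  · obtain ⟨h1, h2, h3⟩ := hp
    have hq : (0 : ℤ) ≤ q := by positivity
    have hp : (0 : ℤ) ≤ p := by positivity
    by_cases hc : c = d.N
    · simp only [cP, if_pos hc]
      exact d.cst.bound_cornerN hp (by omega) hq (by omega)
    · by_cases hc' : c = d.N + 1
      · have : ¬ (c = d.N) := hc
        simp only [cP, if_neg hc, if_pos hc']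
        exact d.cst.bound_cornerN1 hp (by omega) hq (by omega)
      · simp only [cP, if_neg hc, if_neg hc']
        exact d.cst.bound_corner (by omega) (by omega) hp (by omega) hq (by omega)
  · obtain ⟨h1, h2⟩ := hp
    have hz : (0 : ℤ) ≤ z := by positivity
    by_cases he : e = d.N + 1
    · simp only [cP, if_pos he]
      exact d.cst.bound_midN1 hz (by omega)
    · simp only [cP, if_neg he]
      exact d.cst.bound_mid (by omega) (by omega) hz (by omega)

/-- the edge half-planes -/
lemma far_edge {e t : ℕ} {p : PD} (hh : d.okHD (.edge e t)) (hp : d.okPD p) :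
    d.zZ ^ 2 ≤ sqd (d.cH (.edge e t)) (d.cP p) ↔ Sees d.N (.edge e t) p := by
  have C := d.cst
  have hI := d.zI_eq
  have hI' := d.I_eq
  have hb := d.bound_cP hp
  have hN := d.hN
  obtain ⟨h1, h2⟩ := hh
  have ht : (0 : ℤ) ≤ t := by positivity
  have ht' : 2 * (t : ℤ) ≤ d.zI := by omega
  by_cases he : e = d.N + 1
  · -- the horizontal edge
    simp only [cH, if_pos he]
    refine C.hor_case (x := (d.cP p).1) (y := (d.cP p).2) hb ht ht' ?_
    have hY := C.Y0_ge
    have hY' := C.hY0
    have hΛ := C.Λ_ge
    have hIp := C.hI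
    have hΛGG := C.ΛGG
    rcases p with ⟨c, p, q⟩ | ⟨e', z⟩
    · obtain ⟨h3, h4, h5⟩ := hp
      by_cases hc : c = d.N
      · simp only [cP, if_pos hc, Sees, leftEdge]
        by_cases hq : q ≤ t
        · left; constructor
          · right; constructor
            · rw [if_neg (by omega)]; omega
            · exact hq
          · omega
        · right; constructor
          · split_ifs <;> omega
          · omega
      · by_cases hc' : c = d.N + 1
        · simp only [cP, if_neg hc, if_pos hc', Sees, leftEdge]
          by_cases hq : p ≤ t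
          · left; constructor
            · left; exact ⟨by omega, hq⟩
            · omega
          · right; constructor
            · omega
            · omega
        · simp only [cP, if_neg hc, if_neg hc', Sees, leftEdge]
          right; constructor
          · omega
          · have hcN : (c : ℤ) ≤ d.zG := by rw [zG_eq]; omega
            have hc0 : (0 : ℤ) ≤ c := by positivity
            generalize (c : ℤ) = c at *
            have hG := C.hG
            have a2 : (c - 1) * c ≤ d.zG * d.zG := by
              rcases eq_or_lt_of_le hc0 with h | h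
              · rw [← h]; simp; positivity
              · exact mul_le_mul (by omega) (by omega) (by omega) (by omega)
            have a3 := mul_le_mul_of_nonneg_left a2 C.Λ_pos.le
            have a4 : |(c - 1) * ((p : ℤ) - q)| ≤ d.zG * d.zI := by
              rw [abs_mul]
              apply mul_le_mul _ _ (abs_nonneg _) (by omega)
              · rw [abs_le]; constructor <;> omega
              · rw [abs_le]; constructor <;> omega
            have a5 := (abs_le.1 a4).2
            have a6 : d.zG * d.zI * 3840 ≤ d.zLam * (d.zG * d.zG) := by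
              have := mul_le_mul_of_nonneg_left hΛ C.G_pos.le
              have := C.GΛ_le
              linarith
            have a7 : (0 : ℤ) ≤ p := by positivity
            have a8 : d.zI ≤ d.zG * d.zI := by
              have := C.I_pos
              nlinarith
            have a9 : (p : ℤ) ≤ d.zI := by omega
            have a10 := C.I_pos
            linarith
    · obtain ⟨h3, h4⟩ := hp
      by_cases he' : e' = d.N + 1
      · simp only [cP, if_pos he', Sees]
        by_cases hz : z ≤ t
        · left; exact ⟨⟨by omega, hz⟩, by omega⟩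
        · right; exact ⟨by omega, by omega⟩
      · simp only [cP, if_neg he', Sees]
        right; constructor
        · omega
        · have hcN : (e' : ℤ) - 1 ≤ d.zG := by rw [zG_eq]; omega
          have hc0 : (1 : ℤ) ≤ e' := by omega
          generalize (e' : ℤ) = c at *
          have hG := C.hG
          have a2 : (c - 1) * (c - 1) ≤ d.zG * d.zG :=
            mul_le_mul (by omega) (by omega) (by omega) (by omega)
          have a3 := mul_le_mul_of_nonneg_left a2 C.Λ_pos.le
          have a9 : (z : ℤ) ≤ d.zI := by omega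
          linarith
  · -- the other edges
    simp only [cH, if_neg he, up]
    have hbe := C.bound_edge (e := (e : ℤ)) (t := t) (by positivity) (by omega) ht ht'
    refine C.up_case (x := (d.cP p).1) (y := (d.cP p).2) hb hbe ?_
    rcases p with ⟨c, p, q⟩ | ⟨e', z⟩
    · obtain ⟨h3, h4, h5⟩ := hp
      have hq : (0 : ℤ) ≤ q := by positivity
      have hp : (0 : ℤ) ≤ p := by positivity
      by_cases hc : c = d.N
      · simp only [cP, if_pos hc, Sees, leftEdge]
        have := C.edge_cornerN (e := (e : ℤ)) (t := t) (by positivity) (by omega) ht ht' hp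
          (by omega) hq (by omega)
        have h6 : ((e = c ∧ p ≤ t) ∨ (e = (if c = d.N + 1 then 0 else c + 1)) ∧ q ≤ t) ↔
            ((e : ℤ) = d.N ∧ (p : ℤ) ≤ t) := by
          split_ifs <;> omega
        rw [h6]
        exact this
      · by_cases hc' : c = d.N + 1
        · simp only [cP, if_neg hc, if_pos hc', Sees, leftEdge]
          have := C.edge_cornerN1 (e := (e : ℤ)) (t := t) (by positivity) (by omega) ht ht' hp
            (by omega) hq (by omega)
          have h6 : ((e = c ∧ p ≤ t) ∨ e = 0 ∧ q ≤ t) ↔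
              ((e : ℤ) = 0 ∧ (q : ℤ) ≤ t) := by
            omega
          rw [h6]
          exact this
        · simp only [cP, if_neg hc, if_neg hc', Sees, leftEdge]
          have := C.edge_corner (e := (e : ℤ)) (t := t) (c := (c : ℤ)) (by positivity)
            (by omega) ht ht' (by positivity) (by omega) hp (by omega) hq (by omega)
          have h6 : ((e = c ∧ p ≤ t) ∨ e = c + 1 ∧ q ≤ t) ↔
              (((e : ℤ) = c ∧ (p : ℤ) ≤ t) ∨ ((e : ℤ) = c + 1 ∧ (q : ℤ) ≤ t)) := by
            omega
          rw [h6]
          exact this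
    · obtain ⟨h3, h4⟩ := hp
      have hz : (0 : ℤ) ≤ z := by positivity
      by_cases he' : e' = d.N + 1
      · simp only [cP, if_pos he', Sees]
        have := C.edge_midN1 (e := (e : ℤ)) (t := t) (by positivity) (by omega) ht ht' hz
          (by omega)
        have h6 : (e = e' ∧ z ≤ t) ↔ False := iff_of_false (by omega) id
        rw [h6]
        exact this
      · simp only [cP, if_neg he', Sees]
        have := C.edge_mid (e := (e : ℤ)) (t := t) (f := (e' : ℤ)) (by positivity) (by omega)
          ht ht' (by omega) (by omega) hz (by omega)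
        have h6 : (e = e' ∧ z ≤ t) ↔ ((e : ℤ) = e' ∧ (z : ℤ) ≤ t) := by
          omega
        rw [h6]
        exact this

/-- the half-planes at the corner `N` -/
lemma far_left {k : Kind} {t : ℕ} {p : PD} (hh : d.okHD (.loc d.N k t)) (hp : d.okPD p) :
    d.zZ ^ 2 ≤ sqd (d.cH (.loc d.N k t)) (d.cP p) ↔ Sees d.N (.loc d.N k t) p := by
  have C := d.cst
  have hI := d.zI_eq
  have hI' := d.I_eq
  have hb := d.bound_cP hp
  have hN := d.hN
  obtain ⟨h1, h2, h3⟩ := hh
  obtain rfl := h3 le_rfl
  have ht : (0 : ℤ) ≤ t := by positivity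
  have ht' : 2 * (t : ℤ) ≤ d.zI := by omega
  have hY := C.Y0_ge
  have hΛ := C.Λ_ge
  have hIp := C.hI
  have hΛGG := C.ΛGG
  have hM := C.M_pos
  have hM' := C.M'_pos
  have hMM := C.M'_le
  have hG := C.hG
  have hGN := C.hN
  have hX := C.bound_cornerN (p := t) (q := t) ht (by omega) ht (by omega)
  have hZ1 : -d.zZ + 3 * d.zM * d.zLam * d.zG - d.zM' * (2 * (t : ℤ)) =
      -d.zZ + (3 * d.zM * d.zLam * d.zG - d.zM' * ((t : ℤ) + t)) := by ring
  simp only [cH, if_true]
  rw [hZ1]
  refine C.left_case (x := (d.cP p).1) (y := (d.cP p).2) hb hX.1 ?_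
  have ht1 : d.zM' * ((t : ℤ) + t) ≤ d.zM * d.zI :=
    mul_le_mul hMM (by omega) (by omega) hM.le
  rcases p with ⟨c, p, q⟩ | ⟨e', z⟩
  · obtain ⟨h3, h4, h5⟩ := hp
    have hq : (0 : ℤ) ≤ q := by positivity
    have hp : (0 : ℤ) ≤ p := by positivity
    by_cases hc : c = d.N
    · simp only [cP, if_pos hc, Sees]
      by_cases h : p + q ≤ 2 * t
      · left; refine ⟨⟨hc.symm, h⟩, ?_⟩
        have := mul_le_mul_of_nonneg_left (show ((p : ℤ) + q) ≤ t + t by omega) hM'.le
        linarith
      · right; refine ⟨by omega, ?_⟩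
        have := mul_lt_mul_of_pos_left (show (t : ℤ) + t < p + q by omega) hM'
        linarith
    · right
      refine ⟨by simp only [Sees]; omega, ?_⟩
      by_cases hc' : c = d.N + 1
      · simp only [cP, if_neg hc, if_pos hc']
        have a1 : d.zM * ((p : ℤ) + q - d.zLam - d.zY0) ≤ d.zM * 0 :=
          mul_le_mul_of_nonneg_left (by omega) hM.le
        have a2 : 1 * (d.zM * d.zLam) ≤ d.zG * (d.zM * d.zLam) :=
          mul_le_mul_of_nonneg_right hG (by have := C.Λ_pos; positivity)
        have a3 := mul_le_mul_of_nonneg_left hΛ hM.le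
        have a4 : 0 < d.zM * d.zI := mul_pos hM C.I_pos
        linarith
      · simp only [cP, if_neg hc, if_neg hc']
        have hcN : (c : ℤ) ≤ d.zG := by rw [zG_eq]; omega
        have hΛM : 0 < d.zM * d.zLam := mul_pos hM C.Λ_pos
        have a1 : (2 * (c : ℤ) - 1) * (d.zM * d.zLam) ≤ (2 * d.zG) * (d.zM * d.zLam) :=
          mul_le_mul_of_nonneg_right (by omega) hΛM.le
        have a2 : 1 * (d.zM * d.zLam) ≤ d.zG * (d.zM * d.zLam) :=
          mul_le_mul_of_nonneg_right hG hΛM.le
        have a3 := mul_le_mul_of_nonneg_left hΛ hM.le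
        have a4 : 0 < d.zM * d.zI := mul_pos hM C.I_pos
        have a5 : d.zM * ((p : ℤ) - q) ≤ d.zM * d.zI :=
          mul_le_mul_of_nonneg_left (by omega) hM.le
        linarith
  · obtain ⟨h3, h4⟩ := hp
    right
    refine ⟨by simp only [Sees]; exact id, ?_⟩
    have hΛM : 0 < d.zM * d.zLam := mul_pos hM C.Λ_pos
    have a2 : 1 * (d.zM * d.zLam) ≤ d.zG * (d.zM * d.zLam) :=
      mul_le_mul_of_nonneg_right hG hΛM.le
    have a3 := mul_le_mul_of_nonneg_left hΛ hM.le
    have a4 : 0 < d.zM * d.zI := mul_pos hM C.I_pos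
    by_cases he' : e' = d.N + 1
    · simp only [cP, if_pos he']
      linarith
    · simp only [cP, if_neg he']
      have a1 : ((e' : ℤ) - 1) * (d.zM * d.zLam) ≤ (d.zG) * (d.zM * d.zLam) :=
        mul_le_mul_of_nonneg_right (by omega) hΛM.le
      linarith

/-- the half-planes at the corner `N + 1` -/
lemma far_right {k : Kind} {t : ℕ} {p : PD} (hh : d.okHD (.loc (d.N + 1) k t))
    (hp : d.okPD p) :
    d.zZ ^ 2 ≤ sqd (d.cH (.loc (d.N + 1) k t)) (d.cP p) ↔ Sees d.N (.loc (d.N + 1) k t) p := by
  have C := d.cst
  have hI := d.zI_eq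
  have hI' := d.I_eq
  have hb := d.bound_cP hp
  have hN := d.hN
  obtain ⟨h1, h2, h3⟩ := hh
  obtain rfl := h3 (by omega)
  have ht : (0 : ℤ) ≤ t := by positivity
  have ht' : 2 * (t : ℤ) ≤ d.zI := by omega
  have hY := C.Y0_ge
  have hΛ := C.Λ_ge
  have hIp := C.hI
  have hΛGG := C.ΛGG
  have hM := C.M_pos
  have hM' := C.M'_pos
  have hMM := C.M'_le
  have hG := C.hG
  have hGN := C.hN
  have hX := C.bound_cornerN1 (p := t) (q := t) ht (by omega) ht (by omega)
  have hZ1 : d.zZ + d.zM * (2 * (t : ℤ) - d.zLam - d.zY0) =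
      d.zZ + d.zM * ((t : ℤ) + t - d.zLam - d.zY0) := by ring
  have hne : ¬ (d.N + 1 = d.N) := by omega
  simp only [cH, if_true, if_neg hne]
  rw [hZ1]
  refine C.right_case (x := (d.cP p).1) (y := (d.cP p).2) hb hX.1 ?_
  have ht1 : d.zM * ((t : ℤ) + t) ≤ d.zM * d.zI :=
    mul_le_mul_of_nonneg_left (by omega) hM.le
  have hΛM : 0 < d.zM * d.zLam := mul_pos hM C.Λ_pos
  have a2 : 1 * (d.zM * d.zLam) ≤ d.zG * (d.zM * d.zLam) :=
    mul_le_mul_of_nonneg_right hG hΛM.le
  have a3 := mul_le_mul_of_nonneg_left hΛ hM.le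
  have a4 : 0 < d.zM * d.zI := mul_pos hM C.I_pos
  have a6 := mul_le_mul_of_nonneg_left hY hM.le
  rcases p with ⟨c, p, q⟩ | ⟨e', z⟩
  · obtain ⟨h3, h4, h5⟩ := hp
    have hq : (0 : ℤ) ≤ q := by positivity
    have hp : (0 : ℤ) ≤ p := by positivity
    by_cases hc : c = d.N
    · simp only [cP, if_pos hc]
      right
      refine ⟨by simp only [Sees]; omega, ?_⟩
      have a1 : d.zM' * ((p : ℤ) + q) ≤ d.zM * (2 * d.zI) :=
        mul_le_mul hMM (by omega) (by omega) hM.le
      linarith
    · by_cases hc' : c = d.N + 1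
      · simp only [cP, if_neg hc, if_pos hc', Sees]
        by_cases h : p + q ≤ 2 * t
        · left; refine ⟨⟨hc'.symm, h⟩, ?_⟩
          exact mul_le_mul_of_nonneg_left (by omega) hM.le
        · right; refine ⟨by omega, ?_⟩
          exact mul_lt_mul_of_pos_left (by omega) hM
      · simp only [cP, if_neg hc, if_neg hc']
        right
        refine ⟨by simp only [Sees]; omega, ?_⟩
        have a1 : (-1) * (d.zM * d.zLam) ≤ (2 * (c : ℤ) - 1) * (d.zM * d.zLam) :=
          mul_le_mul_of_nonneg_right (by omega) hΛM.le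
        have a5 : d.zM * (-d.zI) ≤ d.zM * ((p : ℤ) - q) :=
          mul_le_mul_of_nonneg_left (by omega) hM.le
        linarith
  · obtain ⟨h3, h4⟩ := hp
    right
    refine ⟨by simp only [Sees]; exact id, ?_⟩
    by_cases he' : e' = d.N + 1
    · simp only [cP, if_pos he']
      linarith
    · simp only [cP, if_neg he']
      have a1 : 0 * (d.zM * d.zLam) ≤ ((e' : ℤ) - 1) * (d.zM * d.zLam) :=
        mul_le_mul_of_nonneg_right (by omega) hΛM.le
      linarith

/-- the local half-planes at the normal corners -/
lemma far_loc {c t : ℕ} {k : Kind} {p : PD} (hh : d.okHD (.loc c k t)) (hp : d.okPD p)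
    (hcp : compat (.loc c k t) p) (hcN : c < d.N) :
    d.zZ ^ 2 ≤ sqd (d.cH (.loc c k t)) (d.cP p) ↔ Sees d.N (.loc c k t) p := by
  have C := d.cst
  have hI := d.zI_eq
  have hI' := d.I_eq
  have hb := d.bound_cP hp
  have hN := d.hN
  obtain ⟨h1, h2, -⟩ := hh
  have ht : (0 : ℤ) ≤ t := by positivity
  have ht' : 2 * (t : ℤ) ≤ d.zI := by omega
  have hIp := C.hI
  have hQ := C.hQ
  have hM := C.M_pos
  have hne : ¬ (c = d.N) := by omega
  have hne' : ¬ (c = d.N + 1) := by omega
  simp only [cH, if_neg hne, if_neg hne', up]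
  obtain ⟨s, hs, hs', hτ⟩ : ∃ s : ℤ, 1 ≤ s ∧ s ≤ d.zQ - 1 ∧
      d.slope c k = d.zQ * ((c : ℤ) - 1) + s := by
    cases k
    · exact ⟨d.zQ - 1, by omega, le_rfl, by rw [slope_L]; ring⟩
    · exact ⟨1, by omega, by omega, by rw [slope_R]⟩
    · exact ⟨d.zI, by omega, by omega, by rw [slope_M]⟩
  have hbl := C.bound_loc (c := (c : ℤ)) (t := t) (by positivity) (by omega) ht ht' hs hs' hτ
  refine C.up_case (x := (d.cP p).1) (y := (d.cP p).2) hb hbl ?_
  rcases p with ⟨c', p, q⟩ | ⟨e', z⟩
  · obtain ⟨h3, h4, h5⟩ := hp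
    have hq : (0 : ℤ) ≤ q := by positivity
    have hp : (0 : ℤ) ≤ p := by positivity
    by_cases hc : c' = d.N
    · simp only [cP, if_pos hc]
      right
      refine ⟨by cases k <;> simp only [Sees] <;> omega, ?_⟩
      exact C.loc_cornerN (by positivity) (by omega) ht ht' hs hs' hτ hp (by omega) hq (by omega)
    · by_cases hc' : c' = d.N + 1
      · simp only [cP, if_neg hc, if_pos hc']
        right
        refine ⟨by cases k <;> simp only [Sees] <;> omega, ?_⟩
        exact C.loc_cornerN1 (by positivity) (by omega) ht ht' hs hs' hτ hp (by omega) hq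
          (by omega)
      · simp only [cP, if_neg hc, if_neg hc']
        by_cases hcc : c' = c
        · subst hcc
          cases k
          · -- kind L
            have hΦ : d.slope c' Kind.L * ((2 * (c' : ℤ) - 1) * d.zM * d.zLam +
                d.zM * ((p : ℤ) - q)) + d.zT * (-(d.zLam * ((c' : ℤ) - 1) * c') -
                ((c' : ℤ) - 1) * ((p : ℤ) - q) - p - (d.zLp * d.slope c' Kind.L *
                (2 * (c' : ℤ) - 1) - d.zLam * ((c' : ℤ) - 1) * c' - t)) =
                d.zM * (d.zQ * ((t : ℤ) - q) - (p - q)) := by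
              rw [C.hT, C.hΛ, slope_L]; ring
            rw [hΦ]
            have hne2 : q ≠ t := hcp rfl
            simp only [Sees]
            rcases lt_or_gt_of_ne hne2 with h | h
            · left
              refine ⟨⟨trivial, h⟩, mul_nonneg hM.le ?_⟩
              have : (1 : ℤ) ≤ t - q := by omega
              have : d.zQ * 1 ≤ d.zQ * ((t : ℤ) - q) := mul_le_mul_of_nonneg_left this (by omega)
              omega
            · right
              refine ⟨by omega, ?_⟩
              have : (t : ℤ) - q ≤ -1 := by omega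
              have : d.zQ * ((t : ℤ) - q) ≤ d.zQ * (-1) := mul_le_mul_of_nonneg_left this (by omega)
              have : d.zM * (d.zQ * ((t : ℤ) - q) - (p - q)) ≤ d.zM * (-d.zI) :=
                mul_le_mul_of_nonneg_left (by omega) hM.le
              linarith
          · -- kind R
            have hΦ : d.slope c' Kind.R * ((2 * (c' : ℤ) - 1) * d.zM * d.zLam +
                d.zM * ((p : ℤ) - q)) + d.zT * (-(d.zLam * ((c' : ℤ) - 1) * c') -
                ((c' : ℤ) - 1) * ((p : ℤ) - q) - p - (d.zLp * d.slope c' Kind.R *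
                (2 * (c' : ℤ) - 1) - d.zLam * ((c' : ℤ) - 1) * c' - t)) =
                d.zM * (d.zQ * ((t : ℤ) - p) + (p - q)) := by
              rw [C.hT, C.hΛ, slope_R]; ring
            rw [hΦ]
            have hne2 : p ≠ t := hcp rfl
            simp only [Sees]
            rcases lt_or_gt_of_ne hne2 with h | h
            · left
              refine ⟨⟨trivial, h⟩, mul_nonneg hM.le ?_⟩
              have : (1 : ℤ) ≤ t - p := by omega
              have : d.zQ * 1 ≤ d.zQ * ((t : ℤ) - p) := mul_le_mul_of_nonneg_left this (by omega)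
              omega
            · right
              refine ⟨by omega, ?_⟩
              have : (t : ℤ) - p ≤ -1 := by omega
              have : d.zQ * ((t : ℤ) - p) ≤ d.zQ * (-1) := mul_le_mul_of_nonneg_left this (by omega)
              have : d.zM * (d.zQ * ((t : ℤ) - p) + (p - q)) ≤ d.zM * (-d.zI) :=
                mul_le_mul_of_nonneg_left (by omega) hM.le
              linarith
          · -- kind M
            have hΦ : d.slope c' Kind.M * ((2 * (c' : ℤ) - 1) * d.zM * d.zLam +
                d.zM * ((p : ℤ) - q)) + d.zT * (-(d.zLam * ((c' : ℤ) - 1) * c') -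
                ((c' : ℤ) - 1) * ((p : ℤ) - q) - p - (d.zLp * d.slope c' Kind.M *
                (2 * (c' : ℤ) - 1) - d.zLam * ((c' : ℤ) - 1) * c' - t)) =
                d.zM * d.zI * (2 * t - p - q) := by
              rw [C.hT, C.hΛ, slope_M, C.hQ]; ring
            refine C.dich' hΦ ?_
            simp only [Sees, true_and]
            omega
        · right
          refine ⟨by cases k <;> simp only [Sees] <;> omega, ?_⟩
          exact C.loc_corner (c' := (c' : ℤ)) (by positivity) (by omega) ht ht' hs hs' hτ
            (by omega) hp (by omega) hq (by omega)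
  · obtain ⟨h3, h4⟩ := hp
    have hz : (0 : ℤ) ≤ z := by positivity
    right
    by_cases he' : e' = d.N + 1
    · simp only [cP, if_pos he']
      refine ⟨by cases k <;> simp only [Sees] <;> exact id, ?_⟩
      exact C.loc_midN1 (by positivity) (by omega) ht ht' hs hs' hτ hz (by omega)
    · simp only [cP, if_neg he']
      refine ⟨by cases k <;> simp only [Sees] <;> exact id, ?_⟩
      exact C.loc_mid (f := (e' : ℤ)) (by positivity) (by omega) ht ht' hs hs' hτ (by omega)
        (by omega) hz (by omega)

/-- **The geometric incidences are the abstract ones.** -/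
theorem far_iff' {h : HD} {p : PD} (hh : d.okHD h) (hp : d.okPD p) (hc : compat h p) :
    d.zZ ^ 2 ≤ sqd (d.cH h) (d.cP p) ↔ Sees d.N h p := by
  rcases h with ⟨e, t⟩ | ⟨c, k, t⟩
  · exact d.far_edge hh hp
  · have h1 : c < d.N + 2 := hh.1
    rcases Nat.lt_or_ge c d.N with h | h
    · exact d.far_loc hh hp hc h
    · rcases Nat.eq_or_lt_of_le h with h | h
      · subst h; exact d.far_left hh hp
      · obtain rfl : c = d.N + 1 := by omega
        exact d.far_right hh hp

end Dat

end Pool.Agent.Lib.H48MaxScatter
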