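import Pool.Agent.Lib.H48MaxScatter.Geom

/-!
# Injectivity and size of the coordinates
-/

set_option autoImplicit false
set_option linter.unusedSimpArgs false

namespace Pool.Agent.Lib.H48MaxScatter

namespace Dat

variable (d : Dat)

/-! ## Sizes of the constants -/

lemma zI_ge : 96 ≤ d.zI := by
  have := d.hV
  unfold zI; omega

lemma gi_zI_eq : d.zI = (d.I : ℤ) := by
  unfold zI I; push_cast; ring

lemma zG_ge : 1 ≤ d.zG := by
  have := d.hN
  unfold zG; omega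

lemma zN_eq : (d.N : ℤ) = d.zG + 1 := by
  unfold zG; ring

lemma zQ_eq : d.zQ = 2 * d.zI := rfl

lemma zLp_eq : d.zLp = 20 * d.zI := rfl

lemma zLam_eq : d.zLam = 40 * (d.zI * d.zI) := by
  unfold zLam zQ zLp; ring

private lemma aux1 {I : ℤ} (h : 96 ≤ I) : 3840 * I ≤ 40 * (I * I) := by nlinarith

lemma zLam_ge : 3840 * d.zI ≤ d.zLam := by
  rw [zLam_eq]; exact aux1 d.zI_ge

private lemma aux2 {L N : ℤ} (hN : 0 ≤ N) : 8 ≤ 8 * L * L * (N * N * N * N) + 8 := by
  have : 0 ≤ L * L * (N * N * N * N) :=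
    mul_nonneg (mul_self_nonneg L) (mul_nonneg (mul_nonneg (mul_nonneg hN hN) hN) hN)
  nlinarith

lemma zZp_ge : 8 ≤ d.zZp := aux2 (Int.natCast_nonneg d.N)

lemma zQ_ge : 192 ≤ d.zQ := by
  have := d.zI_ge
  rw [zQ_eq]; omega

private lemma aux3 {Q N Z L : ℤ} (hZ : 8 ≤ Z) (hL : 0 ≤ L) :
    0 ≤ Q * Q * (N * N) * Z ∧ 0 ≤ 8 * L * (N * N) :=
  ⟨mul_nonneg (mul_nonneg (mul_self_nonneg Q) (mul_self_nonneg N)) (by omega),
    mul_nonneg (by omega) (mul_self_nonneg N)⟩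

lemma zM'_eq : d.zM' = 8 * d.zLam * ((d.N : ℤ) * d.N) + d.zQ * d.zQ * ((d.N : ℤ) * d.N) * d.zZp :=
  rfl

lemma zLam_pos : 0 < d.zLam := by
  have h1 := d.zLam_ge
  have h2 := d.zI_ge
  omega

lemma zM'_ge1 : 8 * d.zLam * ((d.N : ℤ) * d.N) ≤ d.zM' := by
  have := (aux3 (Q := d.zQ) (N := d.N) d.zZp_ge d.zLam_pos.le).1
  rw [zM'_eq]; linarith

lemma zM'_ge2 : d.zQ * d.zQ * ((d.N : ℤ) * d.N) * d.zZp ≤ d.zM' := by
  have := (aux3 (Q := d.zQ) (N := d.N) d.zZp_ge d.zLam_pos.le).2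
  rw [zM'_eq]; linarith

private lemma aux4 {L N : ℤ} (hL : 0 < L) (hN : 2 ≤ N) : L * 32 ≤ 8 * L * (N * N) := by
  have : 4 ≤ N * N := by nlinarith
  nlinarith

lemma zM'_ge3 : d.zLam * 32 ≤ d.zM' := by
  have h4 : (2 : ℤ) ≤ (d.N : ℤ) := by exact_mod_cast d.hN
  exact (aux4 d.zLam_pos h4).trans d.zM'_ge1

lemma zM'_pos : 0 < d.zM' := by
  have h1 := d.zM'_ge3
  have h2 := d.zLam_pos
  omega

lemma zM_eq : d.zM = d.zG * d.zM' := rfl

private lemma aux5 {G M : ℤ} (hL : 0 < M) (hN : 1 ≤ G) : M ≤ G * M := by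
  nlinarith

lemma zM_ge : d.zM' ≤ d.zM := by
  rw [zM_eq]; exact aux5 d.zM'_pos d.zG_ge

lemma zM_pos : 0 < d.zM := lt_of_lt_of_le d.zM'_pos d.zM_ge

lemma zT_eq : d.zT = d.zQ * d.zM := rfl

private lemma aux6 {Q M : ℤ} (hL : 0 < M) (hN : 192 ≤ Q) : 192 * M ≤ Q * M := by
  nlinarith

lemma zT_ge : 192 * d.zM ≤ d.zT := by
  rw [zT_eq]; exact aux6 d.zM_pos d.zQ_ge

lemma zT_pos : 0 < d.zT := by
  have h1 := d.zM_pos
  have h2 := d.zT_ge
  omega

lemma zZ_eq : d.zZ = 2 * d.zT * d.zT * d.zZp := rfl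

private lemma aux7 {M T Z : ℤ} (hM : 0 < M) (hT : 192 * M ≤ T) (hZ : 8 ≤ Z) :
    500000 * (M * M) ≤ 2 * T * T * Z := by
  have h4 : (192 * M) * (192 * M) ≤ T * T :=
    mul_le_mul hT hT (by omega) (by omega)
  have h5 : 0 ≤ T * T := mul_self_nonneg T
  have h6 : T * T * 8 ≤ T * T * Z := mul_le_mul_of_nonneg_left hZ h5
  nlinarith

lemma zZ_ge : 500000 * (d.zM * d.zM) ≤ d.zZ := by
  rw [zZ_eq]; exact aux7 d.zM_pos d.zT_ge d.zZp_ge

theorem zZ_pos : 0 < d.zZ := by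
  have h1 := d.zZ_ge
  have h2 := d.zM_pos
  have h3 : 0 < d.zM * d.zM := mul_pos h2 h2
  omega

theorem okHD_dH {h : HN} (hh : d.okH h) : d.okHD (d.dH h) := by
  have hN := d.hN
  rcases h with ⟨e, _ | _⟩ | ⟨e, m⟩ | ⟨e, m⟩ | ⟨j, m⟩ | ⟨j, m⟩ | ⟨j, m⟩ | ⟨j, m⟩ | ⟨j, m⟩ |
      m | m | m | m <;>
  simp only [okH, dH, okHD] at * <;> (try refine ⟨by omega, by omega, fun h => ?_⟩) <;>
  first | trivial | omega

theorem okPD_dP {p : PN} (hp : d.okP p) : d.okPD (d.dP p) := by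
  have hN := d.hN
  have hI : d.I = 32 * d.V + 64 := rfl
  rcases p with ⟨j, m⟩ | ⟨j, m⟩ | ⟨j, m⟩ | ⟨j, m⟩ | ⟨j, m⟩ | ⟨j, m⟩ | ⟨j, m⟩ |
    ⟨j, m⟩ | ⟨j, m⟩ | ⟨j, _ | _⟩ <;>
  simp only [okP, dP] at * <;> (try split_ifs) <;> simp only [okPD] <;> omega

theorem compat_names {h : HN} {p : PN} (hh : d.okH h) (hp : d.okP p) :
    compat (d.dH h) (d.dP p) := by
  have hN := d.hN
  have hV := d.hV
  have hI : d.I = 32 * d.V + 64 := rfl
  rcases h with ⟨e, _ | _⟩ | ⟨e, m⟩ | ⟨e, m⟩ | ⟨j, m⟩ | ⟨j, m⟩ | ⟨j, m⟩ | ⟨j, m⟩ | ⟨j, m⟩ |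
      m | m | m | m
  case GlA | GlB | GrA | GrB =>
    rcases p with ⟨j', m'⟩ | ⟨j', m'⟩ | ⟨j', m'⟩ | ⟨j', m'⟩ | ⟨j', m'⟩ | ⟨j', m'⟩ | ⟨j', m'⟩ |
      ⟨j', m'⟩ | ⟨j', m'⟩ | ⟨j', _ | _⟩ <;>
    simp only [okH, okP, dH, dP] at * <;> (try split_ifs) <;> simp only [compat] <;>
    first | trivial | omega
  all_goals (simp only [dH]; generalize d.dP p = r; rcases r with ⟨_, _, _⟩ | ⟨_, _⟩ <;> trivial)

theorem dP_inj {p p' : PN} (hp : d.okP p) (hp' : d.okP p') (h : d.dP p = d.dP p') : p = p' := by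
  have hN := d.hN
  have hV := d.hV
  have hI : d.I = 32 * d.V + 64 := rfl
  rcases p with ⟨j, m⟩ | ⟨j, m⟩ | ⟨j, m⟩ | ⟨j, m⟩ | ⟨j, m⟩ | ⟨j, m⟩ | ⟨j, m⟩ |
    ⟨j, m⟩ | ⟨j, m⟩ | ⟨j, _ | _⟩ <;>
  rcases p' with ⟨j', m'⟩ | ⟨j', m'⟩ | ⟨j', m'⟩ | ⟨j', m'⟩ | ⟨j', m'⟩ | ⟨j', m'⟩ | ⟨j', m'⟩ |
    ⟨j', m'⟩ | ⟨j', m'⟩ | ⟨j', _ | _⟩ <;>
  simp only [okP, dP] at h hp hp' <;> (try split_ifs at h) <;>
  simp only [PD.corner.injEq, PD.mid.injEq, reduceCtorEq] at h <;>
  simp only [PN.l0.injEq, PN.l1.injEq, PN.r0.injEq, PN.r1.injEq, PN.oA.injEq, PN.oB.injEq,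
    PN.x.injEq, PN.q.injEq, PN.qA.injEq, PN.qB.injEq, reduceCtorEq, and_true, and_false] <;>
  omega

theorem dH_inj {h h' : HN} (hh : d.okH h) (hh' : d.okH h') (e : d.dH h = d.dH h') : h = h' := by
  have hN := d.hN
  have hV := d.hV
  rcases h with ⟨e, _ | _⟩ | ⟨e, m⟩ | ⟨e, m⟩ | ⟨j, m⟩ | ⟨j, m⟩ | ⟨j, m⟩ | ⟨j, m⟩ | ⟨j, m⟩ |
      m | m | m | m <;>
  rcases h' with ⟨e', _ | _⟩ | ⟨e', m'⟩ | ⟨e', m'⟩ | ⟨j', m'⟩ | ⟨j', m'⟩ | ⟨j', m'⟩ | ⟨j', m'⟩ |
      ⟨j', m'⟩ | m' | m' | m' | m' <;>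
  simp only [okH, dH] at e hh hh' <;>
  simp only [HD.edge.injEq, HD.loc.injEq, reduceCtorEq, true_and, false_and, and_false] at e <;>
  simp only [HN.T.injEq, HN.HA.injEq, HN.HB.injEq, HN.GlA.injEq, HN.GlB.injEq, HN.GrA.injEq,
    HN.GrB.injEq, HN.Go.injEq, HN.D.injEq, HN.D'.injEq, HN.D1.injEq, HN.D2.injEq, reduceCtorEq,
    and_true, and_false] <;>
  omega

end Dat

/-! ## Arithmetic -/

namespace Arith

variable {M M' G L Y I : ℤ}

/-- a multiple of `L` smaller than `L` is zero -/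
lemma small {k L s : ℤ} (h : k * L = s) (h1 : s < L) (h2 : -L < s) : k = 0 ∧ s = 0 := by
  have hL : 0 < L := by omega
  have hk : k = 0 := by
    have h3 : k < 1 := by
      by_contra hc
      have : L ≤ k * L := by nlinarith
      omega
    have h4 : -1 < k := by
      by_contra hc
      have : k * L ≤ -L := by nlinarith
      omega
    omega
  subst hk
  exact ⟨rfl, by omega⟩

lemma canc {M a b : ℤ} (hM : 0 < M) (h : M * a = M * b) : a = b :=
  mul_left_cancel₀ hM.ne' h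

lemma aa (hM : 0 < M) (hI : 96 ≤ I) (hL : 3840 * I ≤ L) {c c' p q p' q' : ℤ}
    (hp : 0 ≤ p ∧ p ≤ I) (hq : 0 ≤ q ∧ q ≤ I) (hp' : 0 ≤ p' ∧ p' ≤ I) (hq' : 0 ≤ q' ∧ q' ≤ I)
    (h : (2 * c - 1) * M * L + M * (p - q) = (2 * c' - 1) * M * L + M * (p' - q')) :
    c = c' ∧ p - q = p' - q' := by
  have h1 := canc hM (a := (2 * c - 1) * L + (p - q)) (b := (2 * c' - 1) * L + (p' - q'))
    (by linear_combination h)
  have h2 := small (k := 2 * c - 2 * c') (L := L) (s := (p' - q') - (p - q))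
    (by linear_combination h1) (by omega) (by omega)
  omega

lemma an (hM' : 0 < M') (hG : 1 ≤ G) (hI : 96 ≤ I) (hL : 3840 * I ≤ L)
    {c p q p' q' : ℤ} (hc : c ≤ G)
    (hp : 0 ≤ p ∧ p ≤ I) (hq : 0 ≤ q ∧ q ≤ I) (hp' : 0 ≤ p' ∧ p' ≤ I) (hq' : 0 ≤ q' ∧ q' ≤ I)
    (h : (2 * c - 1) * (G * M') * L + (G * M') * (p - q) =
      3 * (G * M') * L * G - M' * (p' + q')) : False := by
  have h1 := canc hM' (a := G * ((2 * c - 1) * L + (p - q))) (b := 3 * G * G * L - (p' + q'))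
    (by linear_combination h)
  have h2 : (2 * c - 1) * L + (p - q) ≤ (2 * G - 1) * L + I := by nlinarith
  have h3 : G * ((2 * c - 1) * L + (p - q)) ≤ G * ((2 * G - 1) * L + I) :=
    mul_le_mul_of_nonneg_left h2 (by omega)
  have h4 : 3840 * I * G ≤ L * G := mul_le_mul_of_nonneg_right hL (by omega)
  have h5 : 0 ≤ G * G * L := mul_nonneg (mul_nonneg (by omega) (by omega)) (by omega)
  have h6 : I * 1 ≤ I * G := mul_le_mul_of_nonneg_left hG (by omega)
  nlinarith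

lemma an1 (hM : 0 < M) (hG : 1 ≤ G) (hI : 96 ≤ I) (hL : 3840 * I ≤ L)
    {c p q p' q' : ℤ} (hc : 0 ≤ c)
    (hp : 0 ≤ p ∧ p ≤ I) (hq : 0 ≤ q ∧ q ≤ I) (hp' : 0 ≤ p' ∧ p' ≤ I) (hq' : 0 ≤ q' ∧ q' ≤ I)
    (h : (2 * c - 1) * M * L + M * (p - q) = M * (p' + q' - L - 2 * L * (G * G))) : False := by
  have h1 := canc hM (a := (2 * c - 1) * L + (p - q)) (b := p' + q' - L - 2 * L * (G * G))
    (by linear_combination h)
  have h2 := small (k := 2 * c + 2 * (G * G)) (L := L) (s := (p' + q') - (p - q))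
    (by linear_combination h1) (by omega) (by omega)
  have : 1 ≤ G * G := by nlinarith
  omega

lemma am (hM : 0 < M) (hI : 96 ≤ I) (hL : 3840 * I ≤ L)
    {c p q e : ℤ} (hp : 0 ≤ p ∧ p ≤ I) (hq : 0 ≤ q ∧ q ≤ I)
    (h : (2 * c - 1) * M * L + M * (p - q) = 2 * (e - 1) * M * L) : False := by
  have h1 := canc hM (a := (2 * c - 1) * L + (p - q)) (b := 2 * (e - 1) * L)
    (by linear_combination h)
  have h2 := small (k := 2 * c - 1 - 2 * (e - 1)) (L := L) (s := - (p - q))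
    (by linear_combination h1) (by omega) (by omega)
  omega

lemma nn (hM' : 0 < M') {p q p' q' : ℤ}
    (h : 3 * M * L * G - M' * (p + q) = 3 * M * L * G - M' * (p' + q')) : p + q = p' + q' :=
  canc hM' (by linear_combination -h)

lemma nn1 (hM' : 0 < M') (hG : 1 ≤ G) (hI : 96 ≤ I) (hL : 3840 * I ≤ L) {p q p' q' : ℤ}
    (hp : 0 ≤ p ∧ p ≤ I) (hq : 0 ≤ q ∧ q ≤ I) (hp' : 0 ≤ p' ∧ p' ≤ I) (hq' : 0 ≤ q' ∧ q' ≤ I)
    (h : 3 * (G * M') * L * G - M' * (p + q) =
      (G * M') * (p' + q' - L - 2 * L * (G * G))) : False := by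
  have h1 := canc hM' (a := 3 * G * G * L - (p + q)) (b := G * (p' + q' - L - 2 * L * (G * G)))
    (by linear_combination h)
  have hGG : 1 ≤ G * G := by nlinarith
  have h2 : L * 1 ≤ L * (G * G) := mul_le_mul_of_nonneg_left hGG (by omega)
  have h3 : G * (p' + q' - L - 2 * L * (G * G)) ≤ 0 :=
    mul_nonpos_of_nonneg_of_nonpos (by omega) (by nlinarith)
  nlinarith

lemma nm (hM' : 0 < M') (hG : 1 ≤ G) (hI : 96 ≤ I) (hL : 3840 * I ≤ L) {p q e : ℤ} (he : e ≤ G)
    (hp : 0 ≤ p ∧ p ≤ I) (hq : 0 ≤ q ∧ q ≤ I)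
    (h : 3 * (G * M') * L * G - M' * (p + q) = 2 * (e - 1) * (G * M') * L) : False := by
  have h1 := canc hM' (a := 3 * G * G * L - (p + q)) (b := (G * L) * (2 * (e - 1)))
    (by linear_combination h)
  have hGL : 0 ≤ G * L := mul_nonneg (by omega) (by omega)
  have h2 : (G * L) * (2 * (e - 1)) ≤ (G * L) * (2 * (G - 1)) :=
    mul_le_mul_of_nonneg_left (by omega) hGL
  have h6 : L * 1 ≤ L * G := mul_le_mul_of_nonneg_left hG (by omega)
  have h5 : 0 ≤ G * G * L := mul_nonneg (mul_nonneg (by omega) (by omega)) (by omega)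
  nlinarith

lemma n0 (hM' : 0 < M') (hG : 1 ≤ G) (hI : 96 ≤ I) (hL : 3840 * I ≤ L) {p q : ℤ}
    (hp : 0 ≤ p ∧ p ≤ I) (hq : 0 ≤ q ∧ q ≤ I)
    (h : 3 * (G * M') * L * G - M' * (p + q) = 0) : False := by
  refine nm hM' hG hI hL (e := 1) hG hp hq ?_
  linear_combination h

lemma n1n1 (hM : 0 < M) {p q p' q' : ℤ}
    (h : M * (p + q - L - Y) = M * (p' + q' - L - Y)) : p + q = p' + q' := by
  have := canc hM h
  omega

lemma n1m (hM : 0 < M) (hI : 96 ≤ I) (hL : 3840 * I ≤ L) {p q e : ℤ}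
    (hp : 0 ≤ p ∧ p ≤ I) (hq : 0 ≤ q ∧ q ≤ I)
    (h : M * (p + q - L - 2 * L * (G * G)) = 2 * (e - 1) * M * L) : False := by
  have h1 := canc hM (a := p + q - L - 2 * L * (G * G)) (b := 2 * (e - 1) * L)
    (by linear_combination h)
  have h2 := small (k := 2 * (G * G) + 1 + 2 * (e - 1)) (L := L) (s := p + q)
    (by linear_combination -h1) (by omega) (by omega)
  omega

lemma mm (hM : 0 < M) (hL : 0 < L) {e e' : ℤ}
    (h : 2 * (e - 1) * M * L = 2 * (e' - 1) * M * L) : e = e' := by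
  have h1 := canc hM (a := 2 * (e - 1) * L) (b := 2 * (e' - 1) * L) (by linear_combination h)
  have h2 := canc hL (a := 2 * (e - 1)) (b := 2 * (e' - 1)) (by linear_combination h1)
  omega

/-- `Q² N² Zp` bounds `τ² Zp` -/
lemma sq_bd {τ Q N Z : ℤ} (h1 : τ ≤ Q * N) (h2 : -(Q * N) ≤ τ) (hZ : 8 ≤ Z) :
    τ * τ * Z ≤ Q * Q * (N * N) * Z := by
  have h3 : τ * τ ≤ (Q * N) * (Q * N) := by
    have := abs_le.2 ⟨h2, h1⟩
    rw [← abs_mul_abs_self τ]
    exact mul_self_le_mul_self (abs_nonneg _) this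
  have h4 := mul_le_mul_of_nonneg_right h3 (by omega : (0 : ℤ) ≤ Z)
  nlinarith

lemma mul_bd {a b A B : ℤ} (h1 : a ≤ A) (h2 : -A ≤ a) (h3 : b ≤ B) (h4 : -B ≤ b) :
    a * b ≤ A * B ∧ -(A * B) ≤ a * b := by
  have e1 := abs_le.2 ⟨h2, h1⟩
  have e2 := abs_le.2 ⟨h4, h3⟩
  have e3 : |a * b| ≤ A * B := by
    rw [abs_mul]
    exact mul_le_mul e1 e2 (abs_nonneg _) ((abs_nonneg _).trans e1)
  exact ⟨(abs_le.1 e3).2, (abs_le.1 e3).1⟩

lemma sq_lt {x y B Z : ℤ} (hx : x ≤ B) (hx' : -B ≤ x) (hy : y ≤ B) (hy' : -B ≤ y)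
    (hB : 0 < B) (hZ : 2 * B ≤ Z) : x ^ 2 + y ^ 2 < Z ^ 2 := by
  have h1 : x ^ 2 ≤ B ^ 2 := by nlinarith
  have h2 : y ^ 2 ≤ B ^ 2 := by nlinarith
  nlinarith

lemma bd_a {L N I M c p q : ℤ} (hc : 0 ≤ c) (hc' : c ≤ N) (hp : 0 ≤ p ∧ p ≤ I)
    (hq : 0 ≤ q ∧ q ≤ I) (hI : I ≤ L) (hN : 2 ≤ N) (hM : 8 * (L * (N * N)) ≤ M) :
    ((2 * c - 1) * L + (p - q) ≤ M ∧ -M ≤ (2 * c - 1) * L + (p - q)) ∧
    (-(L * (c - 1) * c) - (c - 1) * (p - q) - p ≤ M ∧
      -M ≤ -(L * (c - 1) * c) - (c - 1) * (p - q) - p) := by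
  have hL : 0 ≤ L := by omega
  have h1 : L * 1 ≤ L * (N * N) := mul_le_mul_of_nonneg_left (by nlinarith) hL
  have h2 : L * N ≤ L * (N * N) := mul_le_mul_of_nonneg_left (by nlinarith) hL
  have h3 : L * c ≤ L * N := mul_le_mul_of_nonneg_left hc' hL
  have h4 : 0 ≤ L * c := mul_nonneg hL hc
  have h5 : L * (c * c) ≤ L * (N * N) :=
    mul_le_mul_of_nonneg_left (mul_self_le_mul_self hc hc') hL
  have h6 : 0 ≤ L * (c * c) := mul_nonneg hL (mul_self_nonneg c)
  have h7 := mul_bd (a := c - 1) (b := p - q) (A := N) (B := L) (by omega) (by omega) (by omega)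
    (by omega)
  have h8 : L * (c - 1) * c = L * (c * c) - L * c := by ring
  have h9 : (2 * c - 1) * L = 2 * (L * c) - L := by ring
  have h10 : N * L = L * N := by ring
  rw [h8, h9]
  rw [h10] at h7
  generalize L * (c * c) = a1 at *
  generalize L * c = a2 at *
  generalize L * (N * N) = a3 at *
  generalize L * N = a4 at *
  generalize (c - 1) * (p - q) = a5 at *
  omega

lemma bd_n {L N G I M M' p q : ℤ} (hG : 1 ≤ G) (hNG : N = G + 1) (hp : 0 ≤ p ∧ p ≤ I)
    (hq : 0 ≤ q ∧ q ≤ I) (hI : I ≤ L) (hM : 8 * (L * (N * N)) ≤ M) (hM' : 0 < M')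
    (hMM : M' ≤ M) :
    3 * M * L * G - M' * (p + q) ≤ M * M ∧ -(M * M) ≤ 3 * M * L * G - M' * (p + q) := by
  have hL : 0 ≤ L := by omega
  have h1 : L * 1 ≤ L * (N * N) := mul_le_mul_of_nonneg_left (by nlinarith) hL
  have h2 : L * G ≤ L * (N * N) := mul_le_mul_of_nonneg_left (by nlinarith) hL
  have h3 : 0 ≤ L * G := mul_nonneg hL (by omega)
  have h4 : M * (3 * (L * G)) ≤ M * M := mul_le_mul_of_nonneg_left (by omega) (by omega)
  have h5 : 0 ≤ M * (3 * (L * G)) := mul_nonneg (by omega) (by omega)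
  have h6 : M' * (p + q) ≤ M * M := mul_le_mul hMM (by omega) (by omega) (by omega)
  have h7 : 0 ≤ M' * (p + q) := mul_nonneg hM'.le (by omega)
  have h8 : 3 * M * L * G = M * (3 * (L * G)) := by ring
  rw [h8]
  omega

lemma bd_n1 {L N G I M p : ℤ} (hG : 1 ≤ G) (hNG : N = G + 1) (hp : 0 ≤ p ∧ p ≤ 2 * I)
    (hI : I ≤ L) (hM : 8 * (L * (N * N)) ≤ M) :
    (p - 2 * L * (G * G) ≤ M ∧ -M ≤ p - 2 * L * (G * G)) ∧
    (p - L - 2 * L * (G * G) ≤ M ∧ -M ≤ p - L - 2 * L * (G * G)) := by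
  have hL : 0 ≤ L := by omega
  have h1 : L * 1 ≤ L * (N * N) := mul_le_mul_of_nonneg_left (by nlinarith) hL
  have h2 : L * (G * G) ≤ L * (N * N) := mul_le_mul_of_nonneg_left (by nlinarith) hL
  have h3 : 0 ≤ L * (G * G) := mul_nonneg hL (mul_self_nonneg G)
  have h4 : 2 * L * (G * G) = 2 * (L * (G * G)) := by ring
  rw [h4]
  omega

lemma bd_m {L N I M e z : ℤ} (he : 1 ≤ e) (he' : e ≤ N) (hz : 0 ≤ z ∧ z ≤ I) (hI : I ≤ L)
    (hM : 8 * (L * (N * N)) ≤ M) :
    (2 * (e - 1) * L ≤ M ∧ -M ≤ 2 * (e - 1) * L) ∧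
    (-(L * (e - 1) * (e - 1)) - z ≤ M ∧ -M ≤ -(L * (e - 1) * (e - 1)) - z) := by
  have hL : 0 ≤ L := by omega
  have h1 : L * 1 ≤ L * (N * N) := mul_le_mul_of_nonneg_left (by nlinarith) hL
  have h2 : L * (e - 1) ≤ L * (N * N) := mul_le_mul_of_nonneg_left (by nlinarith) hL
  have h3 : 0 ≤ L * (e - 1) := mul_nonneg hL (by omega)
  have h5 : L * ((e - 1) * (e - 1)) ≤ L * (N * N) :=
    mul_le_mul_of_nonneg_left (mul_self_le_mul_self (by omega) (by omega)) hL
  have h6 : 0 ≤ L * ((e - 1) * (e - 1)) := mul_nonneg hL (mul_self_nonneg _)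
  have h7 : 2 * (e - 1) * L = 2 * (L * (e - 1)) := by ring
  have h8 : L * (e - 1) * (e - 1) = L * ((e - 1) * (e - 1)) := by ring
  rw [h7, h8]
  omega

lemma sl {Q k k' s s' : ℤ} (h : Q * k + s = Q * k' + s') (h1 : s' - s < Q) (h2 : -Q < s' - s) :
    k = k' ∧ s = s' := by
  have := small (k := k - k') (L := Q) (s := s' - s) (by linear_combination h) h1 h2
  omega

lemma up_bd {T Z M Q N L τ θ : ℤ} (h1 : τ ≤ Q * N) (h2 : -(Q * N) ≤ τ) (hZ : 8 ≤ Z)
    (hM : Q * Q * (N * N) * Z ≤ M) (hM8 : 8 * (L * (N * N)) ≤ M)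
    (hL : 0 ≤ L * (N * N)) (hθ : θ ≤ 2 * (L * (N * N))) :
    -(2 * T * T * Z) + τ * τ * Z + θ ≤ -(2 * T * T * Z) + 2 * M := by
  have h3 := sq_bd h1 h2 hZ
  omega

lemma up_inj {T Z τ θ τ' θ' : ℤ} (hT : 0 < T) (hZ : 8 ≤ Z)
    (h1 : -(2 * T * Z * τ) = -(2 * T * Z * τ'))
    (h2 : -(2 * T * T * Z) + τ * τ * Z + θ = -(2 * T * T * Z) + τ' * τ' * Z + θ') :
    τ = τ' ∧ θ = θ' := by
  have h3 : 0 < 2 * T * Z := mul_pos (by omega) (by omega)
  have h4 : τ = τ' := canc h3 (by linear_combination -h1)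
  subst h4
  exact ⟨rfl, by linarith⟩

lemma slope_bd {Q N c s : ℤ} (hQ : 0 ≤ Q) (hN : 2 ≤ N) (hc : -1 ≤ c) (hc' : c ≤ N - 1)
    (hs : s ≤ Q) (hs' : -Q ≤ s) (hc1 : c = -1 → 0 ≤ s) : Q * c + s ≤ Q * N ∧
      -(Q * N) ≤ Q * c + s := by
  have h1 : Q * c ≤ Q * (N - 1) := mul_le_mul_of_nonneg_left hc' hQ
  have h2 : Q * (-1) ≤ Q * c := mul_le_mul_of_nonneg_left hc hQ
  have h3 : Q * 2 ≤ Q * N := mul_le_mul_of_nonneg_left hN hQ
  have h4 : Q * (N - 1) = Q * N - Q := by ring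
  rw [h4] at h1
  omega

lemma th_bd {Lp Q L N c sl t : ℤ} (hL : L = Q * Lp) (hQ : 0 ≤ Q) (hLp : 0 ≤ Lp) (hN : 2 ≤ N)
    (hc : 0 ≤ c) (hc' : c ≤ N) (ht : 0 ≤ t) (h1 : sl ≤ Q * N) (h2 : -(Q * N) ≤ sl) :
    Lp * sl * (2 * c - 1) - L * (c - 1) * c - t ≤ 2 * (L * (N * N)) := by
  have h3 := mul_bd h1 h2 (b := 2 * c - 1) (B := 2 * N) (by omega) (by omega)
  have h4 := mul_le_mul_of_nonneg_left h3.1 hLp
  have h5 : Lp * (Q * N * (2 * N)) = 2 * (L * (N * N)) := by rw [hL]; ring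
  have h6 : Lp * sl * (2 * c - 1) = Lp * (sl * (2 * c - 1)) := by ring
  have h7 : 0 ≤ L * (c - 1) * c := by
    have hL0 : 0 ≤ L := by rw [hL]; exact mul_nonneg hQ hLp
    rcases hc.eq_or_lt with h | h
    · rw [← h]; simp
    · exact mul_nonneg (mul_nonneg hL0 (by omega)) hc
  rw [h6]
  omega

lemma te_bd {L N e t : ℤ} (hL : 0 ≤ L) (hN : 2 ≤ N) (he : 0 ≤ e) (he' : e ≤ N) (ht : 0 ≤ t) :
    L * (e - 1) * (e - 1) - t ≤ 2 * (L * (N * N)) := by
  have h1 := mul_bd (a := e - 1) (b := e - 1) (A := N) (B := N) (by omega) (by omega) (by omega)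
    (by omega)
  have h2 := mul_le_mul_of_nonneg_left h1.1 hL
  have h3 : 0 ≤ L * (N * N) := mul_nonneg hL (mul_self_nonneg N)
  have h4 : L * (e - 1) * (e - 1) = L * ((e - 1) * (e - 1)) := by ring
  rw [h4]
  omega

lemma mulM {M u : ℤ} (hM : 0 ≤ M) (h : u ≤ M ∧ -M ≤ u) : M * u ≤ M * M ∧ -(M * M) ≤ M * u := by
  have h1 := mul_le_mul_of_nonneg_left h.1 hM
  have h2 := mul_le_mul_of_nonneg_left h.2 hM
  constructor
  · exact h1
  · linarith

end Arith

namespace Dat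

variable (d : Dat)

open Arith

/-- different positions have different coordinates -/
theorem cP_inj' {p p' : PD} (hp : d.okPD p) (hp' : d.okPD p') (h : d.cP p = d.cP p') :
    p = p' := by
  have hM := d.zM_pos
  have hM' := d.zM'_pos
  have hMe := d.zM_eq
  have hG := d.zG_ge
  have hNe := d.zN_eq
  have hI := d.zI_ge
  have hIe := d.gi_zI_eq
  have hL := d.zLam_ge
  have hL0 := d.zLam_pos
  have hN := d.hN
  have hY : d.zY0 = 2 * d.zLam * (d.zG * d.zG) := rfl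
  have hGG : 1 ≤ d.zG * d.zG := by
    have := mul_le_mul hG hG (by norm_num) (by omega)
    simpa using this
  have hLGG : d.zLam ≤ d.zLam * (d.zG * d.zG) := by
    have := mul_le_mul_of_nonneg_left hGG hL0.le
    simpa using this
  have hY2 : d.zY0 = 2 * (d.zLam * (d.zG * d.zG)) := by rw [hY]; ring
  rcases p with ⟨c, p, q⟩ | ⟨e, z⟩ <;> rcases p' with ⟨c', p', q'⟩ | ⟨e', z'⟩ <;>
    simp only [cP, okPD] at h hp hp' <;> split_ifs at h <;>
    simp only [Prod.mk.injEq] at h <;> obtain ⟨h1, h2⟩ := h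
  · have := nn hM' h1
    simp only [PD.corner.injEq]; omega
  · rw [hY, hMe] at h1
    exact (nn1 hM' hG hI hL (by omega) (by omega) (by omega) (by omega) h1).elim
  · rw [hMe] at h1
    exact (an hM' hG hI hL (by omega) (by omega) (by omega) (by omega) (by omega) h1.symm).elim
  · rw [hY, hMe] at h1
    exact (nn1 hM' hG hI hL (by omega) (by omega) (by omega) (by omega) h1.symm).elim
  · have := n1n1 hM h1
    simp only [PD.corner.injEq]; omega
  · rw [hY] at h1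
    exact (an1 hM hG hI hL (by omega) (by omega) (by omega) (by omega) (by omega) h1.symm).elim
  · rw [hMe] at h1
    exact (an hM' hG hI hL (by omega) (by omega) (by omega) (by omega) (by omega) h1).elim
  · rw [hY] at h1
    exact (an1 hM hG hI hL (by omega) (by omega) (by omega) (by omega) (by omega) h1).elim
  · obtain ⟨h3, h4⟩ := aa hM hI hL (by omega) (by omega) (by omega) (by omega) h1
    have h5 : (p : ℤ) = p' := by rw [h3, h4] at h2; linarith
    simp only [PD.corner.injEq]; omega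
  · rw [hMe] at h1
    exact (n0 hM' hG hI hL (by omega) (by omega) h1).elim
  · rw [hMe] at h1
    exact (nm hM' hG hI hL (by omega) (by omega) (by omega) h1).elim
  · rw [hY] at h1
    exact (n1m (e := 1) (G := d.zG) (p := p) (q := q) hM hI hL (by omega) (by omega)
      (by linear_combination h1)).elim
  · rw [hY] at h1
    exact (n1m hM hI hL (by omega) (by omega) h1).elim
  · exact (am (e := 1) (c := c) (p := p) (q := q) hM hI hL (by omega) (by omega)
      (by linear_combination h1)).elim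
  · exact (am hM hI hL (by omega) (by omega) h1).elim
  · rw [hMe] at h1
    exact (n0 hM' hG hI hL (by omega) (by omega) h1.symm).elim
  · rw [hY] at h1
    exact (n1m (e := 1) (G := d.zG) (p := p') (q := q') hM hI hL (by omega) (by omega)
      (by linear_combination -h1)).elim
  · exact (am (e := 1) (c := c') (p := p') (q := q') hM hI hL (by omega) (by omega)
      (by linear_combination -h1)).elim
  · rw [hMe] at h1
    exact (nm hM' hG hI hL (by omega) (by omega) (by omega) h1.symm).elim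
  · rw [hY] at h1
    exact (n1m hM hI hL (by omega) (by omega) h1.symm).elim
  · exact (am hM hI hL (by omega) (by omega) h1.symm).elim
  · simp only [PD.mid.injEq]; omega
  · have h3 := mm (e := 1) (e' := e') hM hL0 (by linear_combination h1)
    rw [← h3] at h2
    omega
  · have h3 := mm (e := 1) (e' := e) hM hL0 (by linear_combination -h1)
    rw [← h3] at h2
    omega
  · have h3 := mm hM hL0 h1
    rw [h3] at h2
    simp only [PD.mid.injEq]; omega

theorem cP_inj {p p' : PN} (hp : d.okP p) (hp' : d.okP p') (h : d.cP (d.dP p) = d.cP (d.dP p')) :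
    p = p' :=
  d.dP_inj hp hp' (d.cP_inj' (d.okPD_dP hp) (d.okPD_dP hp') h)

/-! ## Sizes -/

lemma zN2 : (2 : ℤ) ≤ (d.N : ℤ) := by exact_mod_cast d.hN

/-- `Lam * N² ≤ M / 8` in a usable form -/
lemma zM_ge8 : 8 * (d.zLam * ((d.N : ℤ) * d.N)) ≤ d.zM := by
  have h1 := d.zM'_ge1
  have h2 := d.zM_ge
  linarith

lemma zM_geQ : d.zQ * d.zQ * ((d.N : ℤ) * d.N) * d.zZp ≤ d.zM :=
  d.zM'_ge2.trans d.zM_ge

/-- size of the coordinates of the cluster -/
theorem cP_bd {p : PD} (hp : d.okPD p) :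
    ((d.cP p).1 ≤ d.zM * d.zM ∧ -(d.zM * d.zM) ≤ (d.cP p).1) ∧
    ((d.cP p).2 ≤ d.zM ∧ -d.zM ≤ (d.cP p).2) := by
  have hM := d.zM_pos
  have hM' := d.zM'_pos
  have hMe := d.zM_eq
  have hMM := d.zM_ge
  have hG := d.zG_ge
  have hNe := d.zN_eq
  have hI := d.zI_ge
  have hIe := d.gi_zI_eq
  have hL := d.zLam_ge
  have hL0 := d.zLam_pos
  have hN := d.hN
  have hY : d.zY0 = 2 * d.zLam * (d.zG * d.zG) := rfl
  have h8 := d.zM_ge8
  rcases p with ⟨c, p, q⟩ | ⟨e, z⟩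
  · simp only [okPD] at hp
    simp only [cP]
    split_ifs with hc hc'
    · refine ⟨bd_n hG hNe (I := d.zI) (by omega) (by omega) (by omega) h8 hM' hMM, ?_⟩
      rw [hY]
      exact (bd_n1 hG hNe (I := d.zI) (by omega) (by omega) h8).1
    · have h1 := bd_n1 hG hNe (I := d.zI) (L := d.zLam) (M := d.zM) (p := p + q)
        (by omega) (by omega) h8
      have h2 := bd_n1 hG hNe (I := d.zI) (L := d.zLam) (M := d.zM) (p := p)
        (by omega) (by omega) h8
      rw [← hY] at h1 h2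
      exact ⟨mulM hM.le h1.2, h2.1⟩
    · have h1 := bd_a (c := c) (N := d.N) (I := d.zI) (L := d.zLam) (M := d.zM) (p := p) (q := q)
        (by omega) (by omega) (by omega) (by omega) (by omega) d.zN2 h8
      refine ⟨?_, h1.2⟩
      have h2 := mulM hM.le h1.1
      have h3 : (2 * (c : ℤ) - 1) * d.zM * d.zLam + d.zM * ((p : ℤ) - q) =
        d.zM * ((2 * (c : ℤ) - 1) * d.zLam + ((p : ℤ) - q)) := by ring
      rw [h3]; exact h2
  · simp only [okPD] at hp
    simp only [cP]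
    split_ifs with he
    · have h2 := bd_n1 hG hNe (I := d.zI) (L := d.zLam) (M := d.zM) (p := z)
        (by omega) (by omega) h8
      rw [← hY] at h2
      have h3 : 0 < d.zM * d.zM := mul_pos hM hM
      exact ⟨⟨by omega, by omega⟩, h2.1⟩
    · have h1 := bd_m (e := e) (N := d.N) (I := d.zI) (L := d.zLam) (M := d.zM) (z := z)
        (by omega) (by omega) (by omega) (by omega) h8
      refine ⟨?_, h1.2⟩
      have h2 := mulM hM.le h1.1
      have h3 : 2 * ((e : ℤ) - 1) * d.zM * d.zLam = d.zM * (2 * ((e : ℤ) - 1) * d.zLam) := by ring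
      rw [h3]; exact h2

/-- the cluster is small -/
theorem near {p p' : PD} (hp : d.okPD p) (hp' : d.okPD p') :
    sqd (d.cP p) (d.cP p') < d.zZ ^ 2 := by
  have h1 := d.cP_bd hp
  have h2 := d.cP_bd hp'
  have h3 := d.zZ_ge
  have h4 := d.zM_pos
  have h5 : d.zM * 1 ≤ d.zM * d.zM := mul_le_mul_of_nonneg_left (by omega) h4.le
  unfold sqd
  refine sq_lt (B := 2 * (d.zM * d.zM)) ?_ ?_ ?_ ?_ ?_ ?_ <;> omega

lemma slope_bd' {c : ℕ} {k : Kind} (hc : c < d.N) :
    d.slope c k ≤ d.zQ * d.N ∧ -(d.zQ * d.N) ≤ d.slope c k := by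
  have hQ := d.zQ_ge
  have hN := d.zN2
  have hI := d.zI_ge
  have hQI := d.zQ_eq
  cases k with
  | L =>
    have := slope_bd (Q := d.zQ) (N := d.N) (c := c) (s := -1) (by omega) hN (by omega) (by omega)
      (by omega) (by omega) (by omega)
    simpa only [slope, sub_eq_add_neg] using this
  | R =>
    have := slope_bd (Q := d.zQ) (N := d.N) (c := c - 1) (s := 1) (by omega) hN (by omega)
      (by omega) (by omega) (by omega) (by omega)
    simpa only [slope] using this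
  | M =>
    have := slope_bd (Q := d.zQ) (N := d.N) (c := c - 1) (s := d.zI) (by omega) hN (by omega)
      (by omega) (by omega) (by omega) (by omega)
    simpa only [slope] using this


lemma zMM1 : d.zM ≤ d.zM * d.zM := by
  have hM := d.zM_pos
  have := mul_le_mul_of_nonneg_left (a := d.zM) (by omega : (1 : ℤ) ≤ d.zM) hM.le
  rwa [mul_one] at this

lemma up_far {τ θ : ℤ} (h1 : τ ≤ d.zQ * d.N) (h2 : -(d.zQ * d.N) ≤ τ)
    (hθ : θ ≤ 2 * (d.zLam * ((d.N : ℤ) * d.N))) : (d.up τ θ).2 < -(d.zM * d.zM) := by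
  have h3 := up_bd (T := d.zT) h1 h2 d.zZp_ge d.zM_geQ d.zM_ge8
    (mul_nonneg d.zLam_pos.le (mul_self_nonneg _)) hθ
  have h4 := d.zZ_ge
  have h5 := d.zMM1
  have h6 := d.zM_pos
  have h7 := d.zZ_eq
  have h8 : (d.up τ θ).2 = -(2 * d.zT * d.zT * d.zZp) + τ * τ * d.zZp + θ := rfl
  rw [h8]
  omega

lemma far_e {e t : ℕ} (h : d.okHD (.edge e t)) (he : e ≠ d.N + 1) :
    (d.cH (.edge e t)).2 < -(d.zM * d.zM) := by
  simp only [okHD] at h
  simp only [cH, if_neg he]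
  have hQ := d.zQ_ge
  have hN := d.zN2
  have h1 := slope_bd (Q := d.zQ) (N := d.N) (c := e - 1) (s := 0) (by omega) hN (by omega)
    (by omega) (by omega) (by omega) (by omega)
  rw [add_zero] at h1
  exact d.up_far h1.1 h1.2 (te_bd d.zLam_pos.le hN (by omega) (by omega) (by omega))

lemma far_l {c t : ℕ} {k : Kind} (hc : c < d.N) :
    (d.cH (.loc c k t)).2 < -(d.zM * d.zM) := by
  simp only [cH, if_neg (show ¬ c = d.N by omega), if_neg (show ¬ c = d.N + 1 by omega)]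
  have hI := d.zI_ge
  have h1 := d.slope_bd' (k := k) hc
  exact d.up_far h1.1 h1.2 (th_bd rfl (by have := d.zQ_ge; omega) (by rw [zLp_eq]; omega)
    d.zN2 (by omega) (by omega) (by omega) h1.1 h1.2)

lemma far_e1 {t : ℕ} :
    d.zM * d.zM < (d.cH (.edge (d.N + 1) t)).2 := by
  simp only [cH, if_true]
  have h1 := bd_n1 d.zG_ge d.zN_eq (I := d.zI) (L := d.zLam) (M := d.zM) (p := 0)
    (by have := d.zI_ge; omega) (by have := d.zLam_ge; have := d.zI_ge; omega) d.zM_ge8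
  have hY : d.zY0 = 2 * d.zLam * (d.zG * d.zG) := rfl
  rw [← hY] at h1
  have h4 := d.zZ_ge
  have h5 := d.zMM1
  have h6 := d.zM_pos
  omega

lemma far_n {t : ℕ} (ht : t ≤ d.I) {k : Kind} :
    (d.cH (.loc d.N k t)).1 < -(d.zM * d.zM) ∧ (d.cH (.loc d.N k t)).2 = 0 := by
  simp only [cH, if_true]
  have hI := d.zI_ge
  have hIe := d.gi_zI_eq
  have hL := d.zLam_ge
  have h1 := bd_n (p := t) (q := t) d.zG_ge d.zN_eq (I := d.zI) (by omega) (by omega) (by omega)
    d.zM_ge8 d.zM'_pos d.zM_ge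
  have h2 : d.zM' * (2 * (t : ℤ)) = d.zM' * ((t : ℤ) + t) := by ring
  rw [h2]
  have h4 := d.zZ_ge
  have h5 := d.zMM1
  have h6 := d.zM_pos
  exact ⟨by omega, trivial⟩

lemma far_n1 {t : ℕ} (ht : t ≤ d.I) {k : Kind} :
    d.zM * d.zM < (d.cH (.loc (d.N + 1) k t)).1 ∧ (d.cH (.loc (d.N + 1) k t)).2 = 0 := by
  simp only [cH, if_neg (show ¬ d.N + 1 = d.N by omega), if_true]
  have hI := d.zI_ge
  have hIe := d.gi_zI_eq
  have hL := d.zLam_ge
  have hM := d.zM_pos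
  have h1 := bd_n1 d.zG_ge d.zN_eq (I := d.zI) (L := d.zLam) (M := d.zM) (p := 2 * t)
    (by omega) (by omega) d.zM_ge8
  have hY : d.zY0 = 2 * d.zLam * (d.zG * d.zG) := rfl
  rw [← hY] at h1
  have h2 := mulM hM.le h1.2
  have h4 := d.zZ_ge
  have h5 := d.zMM1
  exact ⟨by omega, trivial⟩

/-- the far points are far -/
theorem cH_far {h : HD} (hh : d.okHD h) :
    (d.cH h).2 < -(d.zM * d.zM) ∨ d.zM * d.zM < (d.cH h).2 ∨
    (d.cH h).1 < -(d.zM * d.zM) ∨ d.zM * d.zM < (d.cH h).1 := by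
  have hId : d.I = 32 * d.V + 64 := rfl
  rcases h with ⟨e, t⟩ | ⟨c, k, t⟩
  · rcases eq_or_ne e (d.N + 1) with rfl | he
    · exact Or.inr (Or.inl d.far_e1)
    · exact Or.inl (d.far_e hh he)
  · simp only [okHD] at hh
    rcases lt_trichotomy c d.N with hc | rfl | hc
    · exact Or.inl (d.far_l hc)
    · exact Or.inr (Or.inr (Or.inl (d.far_n (by omega)).1))
    · obtain rfl : c = d.N + 1 := by omega
      exact Or.inr (Or.inr (Or.inr (d.far_n1 (by omega)).1))

theorem cH_ne_cP' {h : HD} {p : PD} (hh : d.okHD h) (hp : d.okPD p) : d.cH h ≠ d.cP p := by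
  intro e
  have h1 := d.cH_far hh
  have h2 := d.cP_bd hp
  rw [e] at h1
  have h5 := d.zMM1
  omega

theorem cH_ne_cP {h : HN} {p : PN} (hh : d.okH h) (hp : d.okP p) :
    d.cH (d.dH h) ≠ d.cP (d.dP p) :=
  d.cH_ne_cP' (d.okHD_dH hh) (d.okPD_dP hp)

lemma up_inj' {τ θ τ' θ' : ℤ} (h : d.up τ θ = d.up τ' θ') : τ = τ' ∧ θ = θ' := by
  simp only [up, Prod.mk.injEq] at h
  exact up_inj d.zT_pos d.zZp_ge h.1 h.2


lemma edge_ne_loc {a t c t' : ℕ} {k : Kind} (hh : d.okHD (.edge a t)) (hh' : d.okHD (.loc c k t')) :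
    d.cH (.edge a t) ≠ d.cH (.loc c k t') := by
  intro e
  have hId : d.I = 32 * d.V + 64 := rfl
  have hM := d.zM_pos
  have hMM := mul_pos hM hM
  have hQ := d.zQ_ge
  have hQI := d.zQ_eq
  have hI := d.zI_ge
  have hh'' := hh'
  simp only [okHD] at hh''
  obtain ⟨e1, e2, -⟩ := hh''
  rcases eq_or_ne a (d.N + 1) with rfl | he
  · have h1 := d.far_e1 (t := t)
    rw [e] at h1
    rcases lt_trichotomy c d.N with hc | rfl | hc
    · have h2 := d.far_l (t := t') (k := k) hc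
      omega
    · have h2 := d.far_n (t := t') (k := k) (by omega)
      omega
    · obtain rfl : c = d.N + 1 := by omega
      have h2 := d.far_n1 (t := t') (k := k) (by omega)
      omega
  · have h1 := d.far_e hh he
    rcases lt_trichotomy c d.N with hc | rfl | hc
    · simp only [cH, if_neg he, if_neg (show ¬ c = d.N by omega),
        if_neg (show ¬ c = d.N + 1 by omega)] at e
      obtain ⟨h3, h4⟩ := d.up_inj' e
      cases k with
      | L =>
        have := sl (Q := d.zQ) (k := a - 1) (s := 0) (k' := c) (s' := -1)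
          (by simp only [slope] at h3; linear_combination h3) (by omega) (by omega)
        omega
      | R =>
        have := sl (Q := d.zQ) (k := a - 1) (s := 0) (k' := c - 1) (s' := 1)
          (by simp only [slope] at h3; linear_combination h3) (by omega) (by omega)
        omega
      | M =>
        have := sl (Q := d.zQ) (k := a - 1) (s := 0) (k' := c - 1) (s' := d.zI)
          (by simp only [slope] at h3; linear_combination h3) (by omega) (by omega)
        omega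
    · have h2 := d.far_n (t := t') (k := k) (by omega)
      rw [e] at h1; omega
    · obtain rfl : c = d.N + 1 := by omega
      have h2 := d.far_n1 (t := t') (k := k) (by omega)
      rw [e] at h1; omega

lemma slope_inj {c c' : ℕ} {k k' : Kind} (h : d.slope c k = d.slope c' k') :
    c = c' ∧ k = k' := by
  have hQ := d.zQ_ge
  have hQI := d.zQ_eq
  have hI := d.zI_ge
  cases k <;> cases k' <;> simp only [slope] at h <;>
    simp only [reduceCtorEq, and_true, and_false]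
  · have := sl (Q := d.zQ) (k := c) (s := -1) (k' := c') (s' := -1)
      (by linear_combination h) (by omega) (by omega)
    omega
  · have := sl (Q := d.zQ) (k := c) (s := -1) (k' := c' - 1) (s' := 1)
      (by linear_combination h) (by omega) (by omega)
    omega
  · have := sl (Q := d.zQ) (k := c) (s := -1) (k' := c' - 1) (s' := d.zI)
      (by linear_combination h) (by omega) (by omega)
    omega
  · have := sl (Q := d.zQ) (k := c - 1) (s := 1) (k' := c') (s' := -1)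
      (by linear_combination h) (by omega) (by omega)
    omega
  · have := sl (Q := d.zQ) (k := c - 1) (s := 1) (k' := c' - 1) (s' := 1)
      (by linear_combination h) (by omega) (by omega)
    omega
  · have := sl (Q := d.zQ) (k := c - 1) (s := 1) (k' := c' - 1) (s' := d.zI)
      (by linear_combination h) (by omega) (by omega)
    omega
  · have := sl (Q := d.zQ) (k := c - 1) (s := d.zI) (k' := c') (s' := -1)
      (by linear_combination h) (by omega) (by omega)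
    omega
  · have := sl (Q := d.zQ) (k := c - 1) (s := d.zI) (k' := c' - 1) (s' := 1)
      (by linear_combination h) (by omega) (by omega)
    omega
  · have := sl (Q := d.zQ) (k := c - 1) (s := d.zI) (k' := c' - 1) (s' := d.zI)
      (by linear_combination h) (by omega) (by omega)
    omega

lemma loc_inj {c c' t t' : ℕ} {k k' : Kind} (hh : d.okHD (.loc c k t))
    (hh' : d.okHD (.loc c' k' t')) (e : d.cH (.loc c k t) = d.cH (.loc c' k' t')) :
    HD.loc c k t = HD.loc c' k' t' := by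
  have hId : d.I = 32 * d.V + 64 := rfl
  have hM := d.zM_pos
  have hM' := d.zM'_pos
  have hMM := mul_pos hM hM
  simp only [okHD] at hh hh'
  obtain ⟨e1, e2, e3⟩ := hh
  obtain ⟨e1', e2', e3'⟩ := hh'
  rcases lt_trichotomy c d.N with hc | rfl | hc
  · have h1 := d.far_l (t := t) (k := k) hc
    rcases lt_trichotomy c' d.N with hc' | rfl | hc'
    · simp only [cH, if_neg (show ¬ c = d.N by omega), if_neg (show ¬ c = d.N + 1 by omega),
        if_neg (show ¬ c' = d.N by omega), if_neg (show ¬ c' = d.N + 1 by omega)] at e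
      obtain ⟨h3, h4⟩ := d.up_inj' e
      obtain ⟨rfl, rfl⟩ := d.slope_inj h3
      simp only [HD.loc.injEq, true_and]; omega
    · have h2 := d.far_n (t := t') (k := k') (by omega)
      rw [← e] at h2; omega
    · obtain rfl : c' = d.N + 1 := by omega
      have h2 := d.far_n1 (t := t') (k := k') (by omega)
      rw [← e] at h2; omega
  · have h1 := d.far_n (t := t) (k := k) (by omega)
    rcases lt_trichotomy c' d.N with hc' | rfl | hc'
    · have h2 := d.far_l (t := t') (k := k') hc'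
      rw [← e] at h2; omega
    · simp only [cH, if_true, Prod.mk.injEq, and_true] at e
      have h3 := canc hM' (a := 2 * t) (b := 2 * t') (by linear_combination -e)
      rw [e3 le_rfl, e3' le_rfl]
      simp only [HD.loc.injEq, true_and]; omega
    · obtain rfl : c' = d.N + 1 := by omega
      have h2 := d.far_n1 (t := t') (k := k') (by omega)
      rw [← e] at h2; omega
  · obtain rfl : c = d.N + 1 := by omega
    have h1 := d.far_n1 (t := t) (k := k) (by omega)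
    rcases lt_trichotomy c' d.N with hc' | rfl | hc'
    · have h2 := d.far_l (t := t') (k := k') hc'
      rw [← e] at h2; omega
    · have h2 := d.far_n (t := t') (k := k') (by omega)
      rw [← e] at h2; omega
    · obtain rfl : c' = d.N + 1 := by omega
      simp only [cH, if_neg (show ¬ d.N + 1 = d.N by omega), if_true, Prod.mk.injEq,
        and_true] at e
      have h3 := canc hM (a := 2 * t - d.zLam - d.zY0) (b := 2 * t' - d.zLam - d.zY0)
        (by linear_combination e)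
      rw [e3 (by omega), e3' (by omega)]
      simp only [HD.loc.injEq, true_and]; omega

/-- different positions have different coordinates -/
theorem cH_inj' {h h' : HD} (hh : d.okHD h) (hh' : d.okHD h') (e : d.cH h = d.cH h') :
    h = h' := by
  have hM := d.zM_pos
  have hMM := mul_pos hM hM
  have hQ := d.zQ_ge
  rcases h with ⟨a, t⟩ | ⟨c, k, t⟩
  · rcases h' with ⟨a', t'⟩ | ⟨c', k', t'⟩
    · rcases eq_or_ne a (d.N + 1) with rfl | he
      · rcases eq_or_ne a' (d.N + 1) with rfl | he'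
        · simp only [cH, if_true, Prod.mk.injEq, true_and] at e
          simp only [HD.edge.injEq, true_and]; omega
        · have h1 := d.far_e1 (t := t)
          have h2 := d.far_e hh' he'
          rw [e] at h1; omega
      · have h1 := d.far_e hh he
        rcases eq_or_ne a' (d.N + 1) with rfl | he'
        · have h2 := d.far_e1 (t := t')
          rw [e] at h1; omega
        · simp only [cH, if_neg he, if_neg he'] at e
          obtain ⟨h3, h4⟩ := d.up_inj' e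
          have h5 : (a : ℤ) - 1 = a' - 1 := canc (by omega) h3
          rw [h5] at h4
          have h6 : t = t' := by linarith
          have h7 : a = a' := by omega
          rw [h6, h7]
    · exact (d.edge_ne_loc hh hh' e).elim
  · rcases h' with ⟨a', t'⟩ | ⟨c', k', t'⟩
    · exact (d.edge_ne_loc hh' hh e.symm).elim
    · exact d.loc_inj hh hh' e

theorem cH_inj {h h' : HN} (hh : d.okH h) (hh' : d.okH h') (e : d.cH (d.dH h) = d.cH (d.dH h')) :
    h = h' :=
  d.dH_inj hh hh' (d.cH_inj' (d.okHD_dH hh) (d.okHD_dH hh') e)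

end Dat

end Pool.Agent.Lib.H48MaxScatter
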