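import Pool.Agent.Lib.H48MaxScatter.Encode
import Pool.Agent.Lib.H48MaxScatter.Decode

/-!
# The problem is in NP
-/

set_option autoImplicit false

namespace Pool.Agent.Lib.H48MaxScatter

open Pool.Agent.PolyTime Pool.Agent.Lib.CookLevin

/-- numerator of the distance of two raw rational numbers -/
def dNum (x y : RR) : ℕ :=
  bif Bool.xor x.1 y.1 then x.2.1 * y.2.2 + y.2.1 * x.2.2
  else (x.2.1 * y.2.2 - y.2.1 * x.2.2) + (y.2.1 * x.2.2 - x.2.1 * y.2.2)

/-- denominator of the distance of two raw rational numbers -/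
def dDen (x y : RR) : ℕ := x.2.2 * y.2.2

/-- is the distance of two points at least `L`? -/
def farR (L : RR) (p q : RP) : Bool :=
  L.1 || decide (L.2.1 * L.2.1 * (dDen p.1 q.1 * dDen p.2 q.2 * (dDen p.1 q.1 * dDen p.2 q.2)) ≤
    L.2.2 * L.2.2 * (dNum p.1 q.1 * dDen p.2 q.2 * (dNum p.1 q.1 * dDen p.2 q.2) +
      dNum p.2 q.2 * dDen p.1 q.1 * (dNum p.2 q.2 * dDen p.1 q.1)))

lemma dNum_sq (x y : RR) : ((dNum x y : ℕ) : ℚ) ^ 2 =
    ((if x.1 = true then -(x.2.1 : ℚ) else (x.2.1 : ℚ)) * (y.2.2 : ℚ) -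
      (if y.1 = true then -(y.2.1 : ℚ) else (y.2.1 : ℚ)) * (x.2.2 : ℚ)) ^ 2 := by
  obtain ⟨s, a, b⟩ := x
  obtain ⟨t, c, d⟩ := y
  have key : (((a * d - c * b) + (c * b - a * d) : ℕ) : ℚ) ^ 2 =
      ((a : ℚ) * (d : ℚ) - (c : ℚ) * (b : ℚ)) ^ 2 := by
    rcases le_total (a * d) (c * b) with h | h
    · rw [Nat.sub_eq_zero_of_le h, zero_add, Nat.cast_sub h]
      push_cast
      ring
    · rw [Nat.sub_eq_zero_of_le h, add_zero, Nat.cast_sub h]
      push_cast
      ring
  cases s <;> cases t
  · simp only [dNum, Bool.xor_false, cond_false, Bool.false_eq_true, if_false]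
    exact key
  · simp only [dNum, Bool.false_xor, cond_true, Bool.false_eq_true, if_false, if_true]
    push_cast
    ring
  · simp only [dNum, Bool.xor_false, cond_true, Bool.false_eq_true, if_false, if_true]
    push_cast
    ring
  · simp only [dNum, Bool.xor_self, cond_false, if_true]
    rw [key]
    ring

lemma dist_toE (p q : Pt) : dist p.toE q.toE =
    √((((p.1 - q.1) ^ 2 + (p.2 - q.2) ^ 2 : ℚ)) : ℝ) := by
  rw [EuclideanSpace.dist_eq, Fin.sum_univ_two]
  congr 1
  simp only [Pt.toE, Real.dist_eq, sq_abs]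
  push_cast
  simp

lemma farR_raw (L : ℚ) (p q : Pt) :
    farR (raw L) (rawP p) (rawP q) = true ↔ (L : ℝ) ≤ dist p.toE q.toE := by
  have hden : ∀ q : ℚ, ((q.den : ℕ) : ℚ) ≠ 0 := fun q => by exact_mod_cast q.den_nz
  have h1 : ∀ x y : ℚ, (x - y) ^ 2 = ((dNum (raw x) (raw y) : ℕ) : ℚ) ^ 2 /
      ((dDen (raw x) (raw y) : ℕ) : ℚ) ^ 2 := by
    intro x y
    rw [dNum_sq]
    conv_lhs => rw [← toRat_raw x, ← toRat_raw y]
    unfold toRat dDen
    have hx : (((raw x).2.2 : ℕ) : ℚ) ≠ 0 := hden x
    have hy : (((raw y).2.2 : ℕ) : ℚ) ≠ 0 := hden y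
    push_cast
    field_simp
  have hD : ∀ x y : ℚ, (0 : ℚ) < ((dDen (raw x) (raw y) : ℕ) : ℚ) := by
    intro x y
    have : 0 < dDen (raw x) (raw y) := Nat.mul_pos x.den_pos y.den_pos
    exact_mod_cast this
  have hL : L ^ 2 = (((raw L).2.1 : ℕ) : ℚ) ^ 2 / (((raw L).2.2 : ℕ) : ℚ) ^ 2 := by
    conv_lhs => rw [← toRat_raw L]
    unfold toRat
    split_ifs
    · rw [div_pow, neg_sq]
    · rw [div_pow]
  have hLd : (0 : ℚ) < (((raw L).2.2 : ℕ) : ℚ) := by
    have : 0 < L.den := L.den_pos
    exact_mod_cast this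
  rw [farR, Bool.or_eq_true, decide_eq_true_eq, dist_toE]
  have hmain : ((raw L).2.1 * (raw L).2.1 * (dDen (rawP p).1 (rawP q).1 * dDen (rawP p).2 (rawP q).2 *
      (dDen (rawP p).1 (rawP q).1 * dDen (rawP p).2 (rawP q).2)) ≤
    (raw L).2.2 * (raw L).2.2 * (dNum (rawP p).1 (rawP q).1 * dDen (rawP p).2 (rawP q).2 *
      (dNum (rawP p).1 (rawP q).1 * dDen (rawP p).2 (rawP q).2) +
      dNum (rawP p).2 (rawP q).2 * dDen (rawP p).1 (rawP q).1 *
        (dNum (rawP p).2 (rawP q).2 * dDen (rawP p).1 (rawP q).1))) ↔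
      L ^ 2 ≤ (p.1 - q.1) ^ 2 + (p.2 - q.2) ^ 2 := by
    rw [h1, h1, hL]
    have e1 : (rawP p).1 = raw p.1 := rfl
    have e2 : (rawP p).2 = raw p.2 := rfl
    have e3 : (rawP q).1 = raw q.1 := rfl
    have e4 : (rawP q).2 = raw q.2 := rfl
    rw [e1, e2, e3, e4]
    have d1 := hD p.1 q.1
    have d2 := hD p.2 q.2
    rw [div_add_div _ _ (pow_pos d1 2).ne' (pow_pos d2 2).ne', div_le_div_iff₀ (pow_pos hLd 2)
      (mul_pos (pow_pos d1 2) (pow_pos d2 2))]
    rw [← Nat.cast_le (α := ℚ)]
    push_cast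
    constructor
    · intro h; nlinarith [h]
    · intro h; nlinarith [h]
  rw [hmain]
  constructor
  · rintro (h | h)
    · have h2 : L < 0 := by
        have h3 : L.num < 0 := by simpa [raw] using h
        exact Rat.num_neg.mp h3
      have h3 : (L : ℝ) < 0 := by exact_mod_cast h2
      exact h3.le.trans (Real.sqrt_nonneg _)
    · apply Real.le_sqrt_of_sq_le
      exact_mod_cast h
  · intro h
    by_cases h2 : L < 0
    · left
      have h3 : L.num < 0 := Rat.num_neg.mpr h2
      simpa [raw] using h3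
    · right
      have h3 : (0 : ℝ) ≤ (L : ℝ) := by exact_mod_cast (not_lt.mp h2)
      have h4 : (L : ℝ) ^ 2 ≤ ((((p.1 - q.1) ^ 2 + (p.2 - q.2) ^ 2 : ℚ)) : ℝ) := by
        rw [← Real.le_sqrt h3 ?_]
        · exact h
        · exact_mod_cast add_nonneg (sq_nonneg (p.1 - q.1)) (sq_nonneg (p.2 - q.2))
      exact_mod_cast h4

/-! ### The verifier -/

/-- a default point -/
def rp0 : RP := ((false, 0, 0), (false, 0, 0))

/-- are the elements of a list pairwise different? -/
def nodupB (P : List RP) : Bool :=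
  (List.range P.length).all fun i => (List.range P.length).all fun j =>
    decide (j ≤ i) || !decide (P.getD i rp0 = P.getD j rp0)

lemma nodupB_iff (P : List RP) : nodupB P = true ↔ P.Nodup := by
  rw [nodupB, List.Nodup, List.pairwise_iff_getElem]
  simp only [List.all_eq_true, List.mem_range, Bool.or_eq_true, decide_eq_true_eq,
    Bool.not_eq_true', decide_eq_false_iff_not]
  constructor
  · intro h i j hi hj hij
    rcases h i hi j hj with h1 | h1
    · omega
    · rwa [List.getD_eq_getElem _ _ hi, List.getD_eq_getElem _ _ hj] at h1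
  · intro h i hi j hj
    by_cases hij : j ≤ i
    · left; exact hij
    · right
      rw [List.getD_eq_getElem _ _ hi, List.getD_eq_getElem _ _ hj]
      exact h i j hi hj (by omega)

/-- are consecutive points far? -/
def tourB (L : RR) (l : List RP) : Bool :=
  (List.range l.length).all fun i => farR L (l.getD i rp0) (l.getD ((i + 1) % l.length) rp0)

lemma tourB_iff (L : ℚ) (l : List Pt) : tourB (raw L) (l.map rawP) = true ↔
    ∀ (i : ℕ) (hi : i < l.length),
      (L : ℝ) ≤ dist l[i].toE (l[(i + 1) % l.length]'(Nat.mod_lt _ (by omega))).toE := by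
  rw [tourB]
  simp only [List.all_eq_true, List.mem_range, List.length_map]
  refine forall_congr' fun i => forall_congr' fun hi => ?_
  have hi2 : (i + 1) % l.length < l.length := Nat.mod_lt _ (by omega)
  rw [List.getD_eq_getElem _ _ (by rw [List.length_map]; exact hi),
    List.getD_eq_getElem _ _ (by rw [List.length_map]; exact hi2), List.getElem_map,
    List.getElem_map, farR_raw]

/-- the verifier: the certificate is the word of the round-trip -/
def verify (p : Word × Word) : Bool :=
  let P := (parsePts p.1).1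
  let L := (parseRR (parsePts p.1).2.tail).1
  let l := (parsePts p.2).1.reverse
  decide (encRI P.reverse L = p.1) && (P.all okRP && (okR L && (nodupB P && (decide (3 ≤ P.length) &&
    (decide (l.length = P.length) && ((P.all fun x => decide (x ∈ l)) && tourB L l))))))

lemma PT_dNum {α : Type*} [Enc α] {x y : α → RR} (hx : PT x) (hy : PT y) :
    PT fun a => dNum (x a) (y a) := by
  unfold dNum
  exact PT.bif (by fun_prop) (by fun_prop) (by fun_prop)

lemma PT_dDen {α : Type*} [Enc α] {x y : α → RR} (hx : PT x) (hy : PT y) :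
    PT fun a => dDen (x a) (y a) := by
  unfold dDen
  fun_prop

lemma PT_farR {α : Type*} [Enc α] {L : α → RR} {p q : α → RP} (hL : PT L) (hp : PT p) (hq : PT q) :
    PT fun a => farR (L a) (p a) (q a) := by
  have h1 := PT_dDen hp.fst hq.fst
  have h2 := PT_dDen hp.snd hq.snd
  have h3 := PT_dNum hp.fst hq.fst
  have h4 := PT_dNum hp.snd hq.snd
  unfold farR
  fun_prop

lemma PT_nodupB {α : Type*} [Enc α] {P : α → List RP} (hP : PT P) :
    PT fun a => nodupB (P a) := by
  refine PT.all (f := fun (a : α) (i : ℕ) => (List.range (P a).length).all fun j =>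
    decide (j ≤ i) || !decide ((P a).getD i rp0 = (P a).getD j rp0)) ?_ (PT.rangeLength hP)
  refine PT.all (f := fun (p : α × ℕ) (j : ℕ) =>
    decide (j ≤ p.2) || !decide ((P p.1).getD p.2 rp0 = (P p.1).getD j rp0)) ?_
    (PT.rangeLength (hP.comp PT.fst'))
  refine PT.or (by fun_prop) (PT.not (PT.decide_eq ?_ ?_))
  · exact PT.getD (hP.comp (by fun_prop)) (by fun_prop) (by fun_prop)
  · exact PT.getD (hP.comp (by fun_prop)) (by fun_prop) (by fun_prop)

lemma PT_tourB {α : Type*} [Enc α] {L : α → RR} {l : α → List RP} (hL : PT L) (hl : PT l) :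
    PT fun a => tourB (L a) (l a) := by
  refine PT.all (f := fun (a : α) (i : ℕ) => farR (L a) ((l a).getD i rp0)
    ((l a).getD ((i + 1) % (l a).length) rp0)) ?_ (PT.rangeLength hl)
  have h1 : PT fun p : α × ℕ => l p.1 := hl.comp PT.fst'
  exact PT_farR (hL.comp PT.fst') (PT.getD h1 PT.snd' (by fun_prop))
    (PT.getD h1 (PT.mod (by fun_prop) (PT.length h1)) (by fun_prop))

lemma PT_verify : PT verify := by
  have hp : PT fun p : Word × Word => parsePts p.1 := PT_parsePts.comp PT.fst'
  have hP : PT fun p : Word × Word => (parsePts p.1).1 := hp.fst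
  have hL : PT fun p : Word × Word => (parseRR (parsePts p.1).2.tail).1 :=
    (PT_parseRR.comp (PT.tail hp.snd)).fst
  have hl : PT fun p : Word × Word => (parsePts p.2).1.reverse :=
    PT.reverse (PT_parsePts.comp PT.snd').fst
  refine PT.and (PT.decide_eq (PT_encRI.comp (PT.pair (PT.reverse hP) hL)) PT.fst') ?_
  refine PT.and (PT.all (f := fun (_ : Word × Word) (p : RP) => okRP p)
    (PT_okRP.comp PT.snd') hP) ?_
  refine PT.and (PT_okR.comp hL) ?_
  refine PT.and (PT_nodupB hP) ?_
  refine PT.and (PT.decide_le (by fun_prop) (PT.length hP)) ?_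
  refine PT.and (PT.decide_eq (PT.length hl) (PT.length hP)) ?_
  refine PT.and ?_ (PT_tourB hL hl)
  refine PT.all (f := fun (p : Word × Word) (x : RP) => decide (x ∈ (parsePts p.2).1.reverse)) ?_ hP
  exact (PT.mem PT.snd' (hl.comp PT.fst')).congr fun a => decide_eq_decide.mpr Iff.rfl

theorem inNP_maxScatter : InNP MaxScatter := by
  refine ⟨Polynomial.X, verify, PT.tmPair PT_verify, fun w => ?_⟩
  constructor
  · rintro ⟨P, L, rfl, hnd, h3, l, hperm, htour⟩
    refine ⟨encRI (l.map rawP) (raw L), ?_, ?_⟩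
    · rw [Polynomial.eval_X, encInst_eq, encRI, encRI, List.length_append, List.length_append]
      have h1 : ((l.map rawP).flatMap fun p => true :: encRP p).Perm
          ((P.map rawP).flatMap fun p => true :: encRP p) :=
        (hperm.map rawP).flatMap_right _
      rw [h1.length_eq]
    · rw [verify, encInst_eq]
      simp only [parsePts_encRI, List.tail_cons]
      have h4 : parseRR (encRR (raw L)) = (raw L, []) := by
        have := parseRR_encRR (raw L) []
        rwa [List.append_nil] at this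
      rw [h4]
      simp only [List.reverse_reverse, decide_true, Bool.true_and, Bool.and_eq_true,
        List.all_eq_true, List.mem_reverse, decide_eq_true_eq, List.length_reverse,
        List.length_map]
      refine ⟨?_, okR_raw L, ?_, h3, hperm.length_eq, ?_, ?_⟩
      · intro x hx
        obtain ⟨q, _, rfl⟩ := List.mem_map.mp hx
        rw [okRP, Bool.and_eq_true]
        exact ⟨okR_raw _, okR_raw _⟩
      · rw [nodupB_iff, List.nodup_reverse]
        exact hnd.map rawP_inj
      · intro x hx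
        exact (hperm.map rawP).mem_iff.mpr hx
      · rw [tourB_iff]
        exact htour
  · rintro ⟨y, _, hy⟩
    rw [verify] at hy
    simp only [Bool.and_eq_true, List.all_eq_true, decide_eq_true_eq] at hy
    obtain ⟨h1, h2, h3, h4, h5, h6, h7, h8⟩ := hy
    obtain ⟨L, hL⟩ := exists_raw h3
    obtain ⟨P, hP⟩ := exists_map_rawP (P := (parsePts w).1.reverse)
      (fun p hp => h2 p (List.mem_reverse.mp hp))
    have h4' : ((parsePts w).1.reverse).Nodup := by
      rw [List.nodup_reverse]; exact (nodupB_iff _).mp h4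
    have hperm : ((parsePts y).1.reverse).Perm ((parsePts w).1.reverse) := by
      refine (List.Subperm.perm_of_length_le (h4'.subperm ?_) ?_).symm
      · intro x hx
        exact h7 x (List.mem_reverse.mp hx)
      · rw [h6, List.length_reverse]
    obtain ⟨l, hl⟩ := exists_map_rawP (P := (parsePts y).1.reverse)
      (fun p hp => h2 p (List.mem_reverse.mp (hperm.mem_iff.mp hp)))
    refine ⟨P, L, ?_, ?_, ?_, l, ?_, ?_⟩
    · rw [encInst_eq, hP, hL]
      exact h1.symm
    · rw [← hP] at h4'
      exact List.Nodup.of_map _ h4'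
    · rw [← List.length_map (f := rawP), hP, List.length_reverse]
      exact h5
    · rw [← hl, ← hP] at hperm
      exact (List.map_perm_map_iff rawP_inj).mp hperm
    · rw [← hL, ← hl] at h8
      exact (tourB_iff L l).mp h8

end Pool.Agent.Lib.H48MaxScatter
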