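import Pool.Agent.Lib.CookLevin.TableauPT

/-!
# Integers in polynomial time

`ZPT f`: the integer valued function `f` is a difference of two natural numbers which are computable
in polynomial time.
-/

set_option autoImplicit false

namespace Pool.Agent.Lib.H48MaxScatter

open Pool.Agent.PolyTime

variable {α β : Type*} [Enc α] [Enc β]

/-- `f` is the difference of two polynomial time computable functions -/
@[fun_prop]
def ZPT (f : α → ℤ) : Prop := ∃ p n : α → ℕ, PT p ∧ PT n ∧ ∀ a, f a = (p a : ℤ) - n a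

namespace ZPT

@[fun_prop] lemma ofNat {f : α → ℕ} (hf : PT f) : ZPT fun a => (f a : ℤ) :=
  ⟨f, fun _ => 0, hf, PT.const 0, fun a => by simp⟩

@[fun_prop] lemma const (z : ℤ) : ZPT fun _ : α => z :=
  ⟨fun _ => z.toNat, fun _ => (-z).toNat, PT.const _, PT.const _, fun _ => by beta_reduce; omega⟩

@[fun_prop] lemma add {f g : α → ℤ} (hf : ZPT f) (hg : ZPT g) : ZPT fun a => f a + g a := by
  obtain ⟨p, n, hp, hn, h⟩ := hf
  obtain ⟨p', n', hp', hn', h'⟩ := hg
  exact ⟨fun a => p a + p' a, fun a => n a + n' a, by fun_prop, by fun_prop, fun a => by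
    beta_reduce; rw [h, h']; push_cast; ring⟩

@[fun_prop] lemma neg {f : α → ℤ} (hf : ZPT f) : ZPT fun a => -f a := by
  obtain ⟨p, n, hp, hn, h⟩ := hf
  exact ⟨n, p, hn, hp, fun a => by beta_reduce; rw [h]; ring⟩

@[fun_prop] lemma sub {f g : α → ℤ} (hf : ZPT f) (hg : ZPT g) : ZPT fun a => f a - g a := by
  simp only [sub_eq_add_neg]
  exact add hf (neg hg)

@[fun_prop] lemma mul {f g : α → ℤ} (hf : ZPT f) (hg : ZPT g) : ZPT fun a => f a * g a := by
  obtain ⟨p, n, hp, hn, h⟩ := hf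
  obtain ⟨p', n', hp', hn', h'⟩ := hg
  exact ⟨fun a => p a * p' a + n a * n' a, fun a => p a * n' a + n a * p' a, by fun_prop,
    by fun_prop, fun a => by beta_reduce; rw [h, h']; push_cast; ring⟩

lemma comp {f : β → ℤ} {g : α → β} (hf : ZPT f) (hg : PT g) : ZPT fun a => f (g a) := by
  obtain ⟨p, n, hp, hn, h⟩ := hf
  exact ⟨fun a => p (g a), fun a => n (g a), hp.comp hg, hn.comp hg, fun a => h (g a)⟩

lemma congr {f g : α → ℤ} (hf : ZPT f) (h : ∀ a, f a = g a) : ZPT g := by
  have : f = g := funext h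
  rwa [← this]

lemma ite {p : α → Prop} [DecidablePred p] {f g : α → ℤ} (hc : PT fun a => decide (p a))
    (hf : ZPT f) (hg : ZPT g) : ZPT fun a => if p a then f a else g a := by
  obtain ⟨p₁, n₁, hp₁, hn₁, h₁⟩ := hf
  obtain ⟨p₂, n₂, hp₂, hn₂, h₂⟩ := hg
  refine ⟨fun a => if p a then p₁ a else p₂ a, fun a => if p a then n₁ a else n₂ a,
    PT.ite hc hp₁ hp₂, PT.ite hc hn₁ hn₂, fun a => ?_⟩
  by_cases h : p a <;> simp [h, h₁, h₂]

lemma decide_lt {f g : α → ℤ} (hf : ZPT f) (hg : ZPT g) : PT fun a => decide (f a < g a) := by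
  obtain ⟨p, n, hp, hn, h⟩ := hf
  obtain ⟨p', n', hp', hn', h'⟩ := hg
  have : PT fun a => decide (p a + n' a < p' a + n a) := by fun_prop
  refine this.congr fun a => ?_
  rw [decide_eq_decide, h, h']
  omega

lemma decide_le {f g : α → ℤ} (hf : ZPT f) (hg : ZPT g) : PT fun a => decide (f a ≤ g a) := by
  obtain ⟨p, n, hp, hn, h⟩ := hf
  obtain ⟨p', n', hp', hn', h'⟩ := hg
  have : PT fun a => decide (p a + n' a ≤ p' a + n a) := by fun_prop
  refine this.congr fun a => ?_
  rw [decide_eq_decide, h, h']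
  omega

lemma decide_eq {f g : α → ℤ} (hf : ZPT f) (hg : ZPT g) : PT fun a => decide (f a = g a) := by
  obtain ⟨p, n, hp, hn, h⟩ := hf
  obtain ⟨p', n', hp', hn', h'⟩ := hg
  have : PT fun a => decide (p a + n' a = p' a + n a) :=
    PT.decide_eq (f := fun a => p a + n' a) (g := fun a => p' a + n a) (by fun_prop) (by fun_prop)
  refine this.congr fun a => ?_
  rw [decide_eq_decide, h, h']
  omega

lemma natAbs {f : α → ℤ} (hf : ZPT f) : PT fun a => (f a).natAbs := by
  obtain ⟨p, n, hp, hn, h⟩ := hf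
  have : PT fun a => (p a - n a) + (n a - p a) := by fun_prop
  refine this.congr fun a => ?_
  rw [h]
  omega

lemma toNat {f : α → ℤ} (hf : ZPT f) : PT fun a => (f a).toNat := by
  obtain ⟨p, n, hp, hn, h⟩ := hf
  have : PT fun a => p a - n a := by fun_prop
  refine this.congr fun a => ?_
  rw [h]
  omega

example {f g : α → ℤ} {n : α → ℕ} (hf : ZPT f) (hg : ZPT g) (hn : PT n) :
    ZPT fun a => 3 * f a * g a - (n a : ℤ) * (2 * (n a : ℤ) - 1) + -(g a) := by fun_prop

end ZPT

end Pool.Agent.Lib.H48MaxScatter
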