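import Pool.Agent.Lib.CookLevin.ThreeCol
import Pool.Agent.Lib.H48MaxScatter.Geom

/-!
# The reduction from CNF satisfiability
-/

set_option autoImplicit false

namespace Pool.Agent.Lib.H48MaxScatter

open Pool.Agent.Lib.CookLevin

/-- the clauses: a tautology is added -/
def clauses (f : List (List (ℕ × Bool))) : List (List (ℕ × Bool)) := [(0, true), (0, false)] :: f

/-- remove duplicates -/
def dedup' (l : List ℕ) : List ℕ := l.foldl (fun acc x => if x ∈ acc then acc else acc ++ [x]) []

/-- the variables -/
def vars (f : List (List (ℕ × Bool))) : List ℕ :=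
  dedup' ((clauses f).flatMap fun c => c.map Prod.fst)

/-- is the literal with the sign `b` of the variable number `m` in the clause of the corner `j`? -/
def lit (b : Bool) (f : List (List (ℕ × Bool))) (j m : ℕ) : Bool :=
  decide (1 ≤ j ∧ j < (clauses f).length + 1 ∧ m < (vars f).length) &&
    decide (((vars f).getD m 0, b) ∈ (clauses f).getD (j - 1) [])

lemma dedup_aux (l : List ℕ) : ∀ acc : List ℕ, acc.Nodup →
    (l.foldl (fun acc x => if x ∈ acc then acc else acc ++ [x]) acc).Nodup ∧
    ∀ y, y ∈ l.foldl (fun acc x => if x ∈ acc then acc else acc ++ [x]) acc ↔ y ∈ acc ∨ y ∈ l := by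
  induction l with
  | nil => intro acc h; exact ⟨h, by simp⟩
  | cons x l ih =>
    intro acc h
    rw [List.foldl_cons]
    split_ifs with hx
    · refine ⟨(ih acc h).1, fun y => ?_⟩
      rw [(ih acc h).2, List.mem_cons]
      constructor
      · rintro (h1 | h1)
        · exact Or.inl h1
        · exact Or.inr (Or.inr h1)
      · rintro (h1 | rfl | h1)
        · exact Or.inl h1
        · exact Or.inl hx
        · exact Or.inr h1
    · have h' : (acc ++ [x]).Nodup := by
        rw [List.nodup_append]
        refine ⟨h, by simp, fun a ha b hb => ?_⟩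
        rw [List.mem_singleton] at hb
        subst hb
        rintro rfl
        exact hx ha
      refine ⟨(ih _ h').1, fun y => ?_⟩
      rw [(ih _ h').2, List.mem_append, List.mem_singleton, List.mem_cons, or_assoc]

lemma nodup_vars (f : List (List (ℕ × Bool))) : (vars f).Nodup :=
  (dedup_aux _ [] List.nodup_nil).1

lemma mem_vars {f : List (List (ℕ × Bool))} {c : List (ℕ × Bool)} {x : ℕ} {b : Bool}
    (hc : c ∈ clauses f) (hx : (x, b) ∈ c) : x ∈ vars f := by
  unfold vars dedup'
  rw [(dedup_aux _ [] List.nodup_nil).2]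
  right
  rw [List.mem_flatMap]
  exact ⟨c, hc, List.mem_map.2 ⟨_, hx, rfl⟩⟩

lemma one_le_vars (f : List (List (ℕ × Bool))) : 1 ≤ (vars f).length := by
  have h : 0 ∈ vars f := mem_vars (c := [(0, true), (0, false)]) (b := true)
    (List.mem_cons_self ..) (List.mem_cons_self ..)
  exact List.length_pos_of_mem h

/-- the data of a formula -/
def datOf (f : List (List (ℕ × Bool))) : Dat where
  N := (clauses f).length + 1
  V := (vars f).length
  pos := lit true f
  neg := lit false f
  hN := by simp [clauses]
  hV := one_le_vars f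
  pos_lt := fun j m h => by
    simp only [lit, Bool.and_eq_true, decide_eq_true_eq] at h
    exact h.1
  neg_lt := fun j m h => by
    simp only [lit, Bool.and_eq_true, decide_eq_true_eq] at h
    exact h.1

lemma lit_iff {b : Bool} {f : List (List (ℕ × Bool))} {j m : ℕ} : lit b f j m = true ↔
    (1 ≤ j ∧ j < (clauses f).length + 1 ∧ m < (vars f).length) ∧
    ((vars f).getD m 0, b) ∈ (clauses f).getD (j - 1) [] := by
  simp only [lit, Bool.and_eq_true, decide_eq_true_eq]

theorem datOf_sat (f : List (List (ℕ × Bool))) : CNFSat f ↔ (datOf f).Sat := by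
  constructor
  · rintro ⟨a, ha⟩
    refine ⟨fun m => a ((vars f).getD m 0), fun j h1 h2 => ?_⟩
    have h3 : j - 1 < (clauses f).length := by
      have : j < (clauses f).length + 1 := h2
      omega
    have hc : (clauses f).getD (j - 1) [] ∈ clauses f := by
      rw [List.getD_eq_getElem _ _ h3]
      exact List.getElem_mem h3
    have key : ∃ l ∈ (clauses f).getD (j - 1) [], a l.1 = l.2 := by
      generalize (clauses f).getD (j - 1) [] = c at hc
      rcases List.mem_cons.1 hc with rfl | hc
      · rcases h0 : a 0
        · exact ⟨(0, false), by simp, h0⟩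
        · exact ⟨(0, true), by simp, h0⟩
      · exact ha _ hc
    obtain ⟨⟨x, b⟩, hl, hax⟩ := key
    obtain ⟨m, hm, hmx⟩ := List.mem_iff_getElem.1 (mem_vars hc hl)
    have hmx' : (vars f).getD m 0 = x := by rw [List.getD_eq_getElem _ _ hm, hmx]
    refine ⟨m, hm, ?_⟩
    simp only at hax
    simp only [hmx', hax]
    rcases b
    · right
      refine ⟨rfl, ?_⟩
      show lit false f j m = true
      rw [lit_iff, hmx']
      exact ⟨⟨h1, h2, hm⟩, hl⟩
    · left
      refine ⟨rfl, ?_⟩
      show lit true f j m = true
      rw [lit_iff, hmx']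
      exact ⟨⟨h1, h2, hm⟩, hl⟩
  · rintro ⟨a, ha⟩
    refine ⟨fun x => a ((vars f).idxOf x), fun c hc => ?_⟩
    obtain ⟨i, hi, hic⟩ := List.mem_iff_getElem.1 hc
    have h2 : i + 2 < (datOf f).N := by
      show i + 2 < (clauses f).length + 1
      simp only [clauses, List.length_cons]
      omega
    have hget : (clauses f).getD (i + 2 - 1) [] = c := by
      simp only [clauses, show i + 2 - 1 = i + 1 by omega, List.getD_cons_succ]
      rw [List.getD_eq_getElem _ _ hi, hic]
    obtain ⟨m, hm, h⟩ := ha (i + 2) (by omega) h2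
    have hidx : (vars f).idxOf ((vars f).getD m 0) = m := by
      rw [List.getD_eq_getElem _ _ hm]
      exact (nodup_vars f).idxOf_getElem m hm
    rcases h with ⟨h3, h4⟩ | ⟨h3, h4⟩
    · have h5 := (lit_iff.1 h4).2
      rw [hget] at h5
      exact ⟨_, h5, by simp only [hidx, h3]⟩
    · have h5 := (lit_iff.1 h4).2
      rw [hget] at h5
      exact ⟨_, h5, by simp only [hidx, h3]⟩

/-- the integer points of the instance -/
def intPts (f : List (List (ℕ × Bool))) : List (ℤ × ℤ) :=
  (datOf f).hps.map (fun h => (datOf f).cH ((datOf f).dH h)) ++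
    (datOf f).pts.map (fun p => (datOf f).cP ((datOf f).dP p))

end Pool.Agent.Lib.H48MaxScatter
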