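import Pool.Agent.Lib.CookLevin.TableauPT
import Pool.Agent.Lib.H48MaxScatter.Problem
import Pool.Agent.Lib.H48MaxScatter.Reduce
import Pool.Agent.Lib.H48MaxScatter.IntPT

/-!
# The reduction is computable in polynomial time
-/

set_option autoImplicit false

namespace Pool.Agent.Lib.H48MaxScatter

open Pool.Agent.Lib.CookLevin Pool.Agent.PolyTime

/-- the word of the instance of a formula -/
def word (f : List (List (ℕ × Bool))) : Word :=
  encInst ((intPts f).map fun z => ((z.1 : ℚ), (z.2 : ℚ))) ((datOf f).zZ : ℚ)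

namespace RPT

variable {α : Type*} [Enc α]

/-- formulas -/
abbrev Fm : Type := List (List (ℕ × Bool))

/-! ### Lists -/

@[fun_prop] lemma PT_clauses {g : α → Fm} (hg : PT g) : PT fun a => clauses (g a) :=
  PT.cons (PT.const _) hg

lemma sz_foldl_dedup (l : List ℕ) : ∀ s : List ℕ,
    sz (l.foldl (fun acc x => if x ∈ acc then acc else acc ++ [x]) s) + 1 ≤ sz s + sz l := by
  induction l with
  | nil => intro s; simp
  | cons x l ih =>
    intro s
    rw [List.foldl_cons, sz_cons]
    split_ifs with h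
    · have := ih s
      omega
    · have h1 := ih (s ++ [x])
      have h2 := sz_append s [x]
      rw [sz_cons, sz_nil] at h2
      omega

lemma PT_dedup {l : α → List ℕ} (hl : PT l) : PT fun a => dedup' (l a) := by
  refine PT.foldl (g := fun (_ : α) (acc : List ℕ) (x : ℕ) => if x ∈ acc then acc else acc ++ [x])
    (s := fun _ => []) (B := fun a => sz (l a)) ?_ (PT.const _) hl (PT.bdd hl) ?_
  · refine PT.ite (p := fun p : α × List ℕ × ℕ => p.2.2 ∈ p.2.1) ?_ (by fun_prop) (by fun_prop)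
    exact PT.mem (by fun_prop) (by fun_prop)
  · intro a l1 l2 h
    have h1 := sz_foldl_dedup l1 []
    have h2 := sz_append l1 l2
    rw [← h] at h2
    have h3 := one_le_sz l2
    rw [sz_nil] at h1
    omega

@[fun_prop] lemma PT_vars {g : α → Fm} (hg : PT g) : PT fun a => vars (g a) := by
  refine PT_dedup ?_
  refine PT.flatMap (f := fun (_ : α) (c : List (ℕ × Bool)) => c.map Prod.fst) ?_ (PT_clauses hg)
  exact PT.map (f := fun (_ : α × List (ℕ × Bool)) (x : ℕ × Bool) => x.1) (by fun_prop)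
    (by fun_prop)

lemma PT_getD {β : Type*} [Enc β] {l : α → List β} {n : α → ℕ} (d : β) (hl : PT l) (hn : PT n) :
    PT fun a => (l a).getD (n a) d := by
  have h := PT.optionElim (o := fun a => (l a)[n a]?) (f := fun _ => d)
    (g := fun p : α × β => p.2) (by fun_prop) (PT.const _) (by fun_prop)
  refine h.congr fun a => ?_
  rw [List.getD_eq_getElem?_getD]
  cases (l a)[n a]? <;> rfl

lemma PT_lit (b : Bool) {g : α → Fm} {j m : α → ℕ} (hg : PT g) (hj : PT j) (hm : PT m) :
    PT fun a => lit b (g a) (j a) (m a) := by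
  unfold lit
  refine PT.and ?_ ?_
  · exact PT.decide_and (by fun_prop) (PT.decide_and (by fun_prop) (by fun_prop))
  · have h := PT.mem (f := fun a => ((vars (g a)).getD (m a) 0, b))
      (l := fun a => (clauses (g a)).getD (j a - 1) [])
      (PT.pair (PT_getD 0 (by fun_prop) hm) (PT.const _)) (PT_getD [] (by fun_prop) (by fun_prop))
    refine h.congr fun a => ?_
    rw [decide_eq_decide]

@[fun_prop] lemma PT_pos {g : α → Fm} {j m : α → ℕ} (hg : PT g) (hj : PT j) (hm : PT m) :
    PT fun a => (datOf (g a)).pos (j a) (m a) := PT_lit true hg hj hm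

@[fun_prop] lemma PT_neg {g : α → Fm} {j m : α → ℕ} (hg : PT g) (hj : PT j) (hm : PT m) :
    PT fun a => (datOf (g a)).neg (j a) (m a) := PT_lit false hg hj hm

@[fun_prop] lemma PT_N {g : α → Fm} (hg : PT g) : PT fun a => (datOf (g a)).N :=
  PT.succ (PT.length (PT_clauses hg))

@[fun_prop] lemma PT_V {g : α → Fm} (hg : PT g) : PT fun a => (datOf (g a)).V :=
  PT.length (l := fun a => vars (g a)) (PT_vars hg)

/-! ### The constants -/

lemma PT_lin (c k : ℕ) {m : α → ℕ} (hm : PT m) : PT fun a => c * m a + k :=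
  PT.add (PT.mul (PT.const c) hm) (PT.const k)

@[fun_prop] lemma PT_I {g : α → Fm} (hg : PT g) : PT fun a => (datOf (g a)).I :=
  PT_lin 32 64 (PT_V hg)
@[fun_prop] lemma Z_I {g : α → Fm} (hg : PT g) : ZPT fun a => (datOf (g a)).zI := by
  unfold Dat.zI; fun_prop
@[fun_prop] lemma Z_Q {g : α → Fm} (hg : PT g) : ZPT fun a => (datOf (g a)).zQ := by
  unfold Dat.zQ; fun_prop
@[fun_prop] lemma Z_Lp {g : α → Fm} (hg : PT g) : ZPT fun a => (datOf (g a)).zLp := by
  unfold Dat.zLp; fun_prop
@[fun_prop] lemma Z_Lam {g : α → Fm} (hg : PT g) : ZPT fun a => (datOf (g a)).zLam := by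
  unfold Dat.zLam; fun_prop
@[fun_prop] lemma Z_Zp {g : α → Fm} (hg : PT g) : ZPT fun a => (datOf (g a)).zZp := by
  unfold Dat.zZp; fun_prop
@[fun_prop] lemma Z_G {g : α → Fm} (hg : PT g) : ZPT fun a => (datOf (g a)).zG := by
  unfold Dat.zG; fun_prop
@[fun_prop] lemma Z_M' {g : α → Fm} (hg : PT g) : ZPT fun a => (datOf (g a)).zM' := by
  unfold Dat.zM'; fun_prop
@[fun_prop] lemma Z_M {g : α → Fm} (hg : PT g) : ZPT fun a => (datOf (g a)).zM := by
  unfold Dat.zM; fun_prop
@[fun_prop] lemma Z_T {g : α → Fm} (hg : PT g) : ZPT fun a => (datOf (g a)).zT := by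
  unfold Dat.zT; fun_prop
@[fun_prop] lemma Z_Z {g : α → Fm} (hg : PT g) : ZPT fun a => (datOf (g a)).zZ := by
  unfold Dat.zZ; fun_prop
@[fun_prop] lemma Z_Y0 {g : α → Fm} (hg : PT g) : ZPT fun a => (datOf (g a)).zY0 := by
  unfold Dat.zY0; fun_prop

/-! ### Words -/

@[fun_prop] lemma PT_encNat {n : α → ℕ} (hn : PT n) : PT fun a => encNat (n a) := by
  refine PT.append ?_ (PT.const _)
  exact PT.flatMap (f := fun (_ : α) (b : Bool) => [true, b]) (by fun_prop) (by fun_prop)

@[fun_prop] lemma PT_encInt {z : α → ℤ} (hz : ZPT z) : PT fun a => encInt (z a) :=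
  PT.cons (hz.decide_lt (ZPT.const 0)) (PT_encNat hz.natAbs)

/-- the word of a point -/
def wd (z : ℤ × ℤ) : Word := true :: ((encInt z.1 ++ encNat 1) ++ (encInt z.2 ++ encNat 1))

lemma encRat_intCast (z : ℤ) : encRat (z : ℚ) = encInt z ++ encNat 1 := by
  simp [encRat]

lemma PT_wd {z : α → ℤ × ℤ} (h1 : ZPT fun a => (z a).1) (h2 : ZPT fun a => (z a).2) :
    PT fun a => wd (z a) := by
  unfold wd
  fun_prop

/-! ### Coordinates -/

lemma PT_eqN {g : α → Fm} {c : α → ℕ} (hg : PT g) (hc : PT c) :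
    PT fun a => decide (c a = (datOf (g a)).N) := PT.decide_eq hc (PT_N hg)

lemma PT_eqN1 {g : α → Fm} {c : α → ℕ} (hg : PT g) (hc : PT c) :
    PT fun a => decide (c a = (datOf (g a)).N + 1) := PT.decide_eq hc (PT.succ (PT_N hg))

lemma PT_corner {g : α → Fm} {c p q : α → ℕ} (hg : PT g) (hc : PT c) (hp : PT p) (hq : PT q) :
    PT fun a => wd ((datOf (g a)).cP (.corner (c a) (p a) (q a))) := by
  have e1 := PT_eqN hg hc
  have e2 := PT_eqN1 hg hc
  refine PT_wd ?_ ?_
  · simp only [Dat.cP, apply_ite Prod.fst]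
    exact ZPT.ite e1 (by fun_prop) (ZPT.ite e2 (by fun_prop) (by fun_prop))
  · simp only [Dat.cP, apply_ite Prod.snd]
    exact ZPT.ite e1 (by fun_prop) (ZPT.ite e2 (by fun_prop) (by fun_prop))

lemma PT_mid {g : α → Fm} {e z : α → ℕ} (hg : PT g) (he : PT e) (hz : PT z) :
    PT fun a => wd ((datOf (g a)).cP (.mid (e a) (z a))) := by
  have e2 := PT_eqN1 hg he
  refine PT_wd ?_ ?_
  · simp only [Dat.cP, apply_ite Prod.fst]
    exact ZPT.ite e2 (by fun_prop) (by fun_prop)
  · simp only [Dat.cP, apply_ite Prod.snd]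
    exact ZPT.ite e2 (by fun_prop) (by fun_prop)

@[fun_prop] lemma Z_slope {g : α → Fm} {c : α → ℕ} (hg : PT g) (hc : PT c) (k : Kind) :
    ZPT fun a => (datOf (g a)).slope (c a) k := by
  cases k <;> (unfold Dat.slope; fun_prop)

lemma PT_edge {g : α → Fm} {e t : α → ℕ} (hg : PT g) (he : PT e) (ht : PT t) :
    PT fun a => wd ((datOf (g a)).cH (.edge (e a) (t a))) := by
  have e2 := PT_eqN1 hg he
  refine PT_wd ?_ ?_
  · simp only [Dat.cH, apply_ite Prod.fst, Dat.up]
    exact ZPT.ite e2 (by fun_prop) (by fun_prop)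
  · simp only [Dat.cH, apply_ite Prod.snd, Dat.up]
    exact ZPT.ite e2 (by fun_prop) (by fun_prop)

lemma PT_loc {g : α → Fm} {c t : α → ℕ} (k : Kind) (hg : PT g) (hc : PT c) (ht : PT t) :
    PT fun a => wd ((datOf (g a)).cH (.loc (c a) k (t a))) := by
  have e1 := PT_eqN hg hc
  have e2 := PT_eqN1 hg hc
  refine PT_wd ?_ ?_
  · simp only [Dat.cH, apply_ite Prod.fst, Dat.up]
    exact ZPT.ite e1 (by fun_prop) (ZPT.ite e2 (by fun_prop) (by fun_prop))
  · simp only [Dat.cH, apply_ite Prod.snd, Dat.up]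
    exact ZPT.ite e1 (by fun_prop) (ZPT.ite e2 (by fun_prop) (by fun_prop))

end RPT

namespace RPT

variable {α : Type*} [Enc α]

/-- the word of a far point -/
def wH (f : Fm) (h : HN) : Word := wd ((datOf f).cH ((datOf f).dH h))

/-- the word of a point of the cluster -/
def wP (f : Fm) (p : PN) : Word := wd ((datOf f).cP ((datOf f).dP p))

lemma word_eq (f : Fm) : word f = (datOf f).hps.flatMap (wH f) ++ (datOf f).pts.flatMap (wP f) ++
    false :: (encInt (datOf f).zZ ++ encNat 1) := by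
  simp only [word, encInst, intPts, List.map_append, List.map_map, List.flatMap_append,
    List.flatMap_map, encRat_intCast]
  rfl

/-- nested loops -/
lemma PT_loop {β γ : Type*} [Enc β] [Enc γ] {l : α → List β} {k : α → ℕ → List γ}
    (hl : PT l) (hk : PT fun p : α × ℕ => k p.1 p.2) :
    PT fun a => (List.range (l a).length).flatMap (k a) :=
  PT.flatMap (f := k) hk (PT.rangeLength hl)

/-! #### the far points -/

section names

variable {g : α → Fm} {e m : α → ℕ}

lemma wH_T0 (hg : PT g) (he : PT e) : PT fun a => wH (g a) (HN.T (e a) false) :=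
  PT_edge hg he (PT.const 6)
lemma wH_T1 (hg : PT g) (he : PT e) : PT fun a => wH (g a) (HN.T (e a) true) :=
  PT_edge hg he (PT_lin 16 8 (PT_V hg))
lemma wH_HA (hg : PT g) (he : PT e) (hm : PT m) : PT fun a => wH (g a) (HN.HA (e a) (m a)) :=
  PT_edge hg he (PT_lin 16 10 hm)
lemma wH_HB (hg : PT g) (he : PT e) (hm : PT m) : PT fun a => wH (g a) (HN.HB (e a) (m a)) :=
  PT_edge hg he (PT_lin 16 18 hm)
lemma wH_GlA (hg : PT g) (he : PT e) (hm : PT m) : PT fun a => wH (g a) (HN.GlA (e a) (m a)) :=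
  PT_loc .L hg he (PT_lin 16 14 hm)
lemma wH_GlB (hg : PT g) (he : PT e) (hm : PT m) : PT fun a => wH (g a) (HN.GlB (e a) (m a)) :=
  PT_loc .L hg he (PT_lin 16 22 hm)
lemma wH_GrA (hg : PT g) (he : PT e) (hm : PT m) : PT fun a => wH (g a) (HN.GrA (e a) (m a)) :=
  PT_loc .R hg he (PT_lin 16 14 hm)
lemma wH_GrB (hg : PT g) (he : PT e) (hm : PT m) : PT fun a => wH (g a) (HN.GrB (e a) (m a)) :=
  PT_loc .R hg he (PT_lin 16 22 hm)
lemma wH_Go (hg : PT g) (he : PT e) (hm : PT m) : PT fun a => wH (g a) (HN.Go (e a) (m a)) :=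
  PT_loc .M hg he (PT_lin 16 18 hm)
lemma wH_D (hg : PT g) (hm : PT m) : PT fun a => wH (g a) (HN.D (m a)) :=
  PT_edge hg (e := fun a => (datOf (g a)).N + 1) (by fun_prop) (PT_lin 16 8 hm)
lemma wH_D' (hg : PT g) (hm : PT m) : PT fun a => wH (g a) (HN.D' (m a)) :=
  PT_edge hg (e := fun a => (datOf (g a)).N + 1) (by fun_prop) (PT_lin 16 21 hm)
lemma wH_D1 (hg : PT g) (hm : PT m) : PT fun a => wH (g a) (HN.D1 (m a)) :=
  PT_loc .M hg (c := fun a => (datOf (g a)).N + 1) (by fun_prop) (PT_lin 16 17 hm)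
lemma wH_D2 (hg : PT g) (hm : PT m) : PT fun a => wH (g a) (HN.D2 (m a)) :=
  PT_loc .M hg (c := fun a => (datOf (g a)).N) (by fun_prop) (PT_lin 16 17 hm)

/-! #### the points of the cluster -/

lemma wP_l0 (hg : PT g) (he : PT e) (hm : PT m) : PT fun a => wP (g a) (PN.l0 (e a) (m a)) := by
  refine PT_corner (p := fun a => if (datOf (g a)).pos (e a) (m a) then 16 * m a + 8
    else (datOf (g a)).I) hg he ?_ (PT_lin 16 4 hm)
  refine PT.ite ?_ (PT_lin 16 8 hm) (by fun_prop)
  simpa using PT_pos hg he hm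

lemma wP_r0 (hg : PT g) (he : PT e) (hm : PT m) : PT fun a => wP (g a) (PN.r0 (e a) (m a)) := by
  refine PT_corner (q := fun a => if (datOf (g a)).neg (e a) (m a) then 16 * m a + 8
    else (datOf (g a)).I) hg he (PT_lin 16 4 hm) ?_
  refine PT.ite ?_ (PT_lin 16 8 hm) (by fun_prop)
  simpa using PT_neg hg he hm

lemma wP_l1 (hg : PT g) (he : PT e) (hm : PT m) : PT fun a => wP (g a) (PN.l1 (e a) (m a)) :=
  PT_corner hg he (PT_I hg) (PT_lin 16 12 hm)

lemma wP_r1 (hg : PT g) (he : PT e) (hm : PT m) : PT fun a => wP (g a) (PN.r1 (e a) (m a)) :=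
  PT_corner hg he (PT_lin 16 12 hm) (PT_I hg)

lemma wP_oA (hg : PT g) (he : PT e) (hm : PT m) : PT fun a => wP (g a) (PN.oA (e a) (m a)) := by
  refine PT_corner (p := fun a => if e a = (datOf (g a)).N + 1 then 16 * m a + 7 else 16 * m a + 8)
    (q := fun a => if e a = (datOf (g a)).N then 16 * m a + 7 else 16 * m a + 8) hg he ?_ ?_
  · exact PT.ite (PT_eqN1 hg he) (PT_lin 16 7 hm) (PT_lin 16 8 hm)
  · exact PT.ite (PT_eqN hg he) (PT_lin 16 7 hm) (PT_lin 16 8 hm)

lemma wP_oB (hg : PT g) (he : PT e) (hm : PT m) : PT fun a => wP (g a) (PN.oB (e a) (m a)) :=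
  PT_corner hg he (PT_lin 16 16 hm) (PT_lin 16 16 hm)

lemma wP_q (hg : PT g) (he : PT e) (hm : PT m) : PT fun a => wP (g a) (PN.q (e a) (m a)) := by
  refine PT_mid (z := fun a => if e a = (datOf (g a)).N + 1 then 16 * m a + 9 else 16 * m a + 8)
    hg he ?_
  exact PT.ite (PT_eqN1 hg he) (PT_lin 16 9 hm) (PT_lin 16 8 hm)

lemma wP_qA (hg : PT g) (he : PT e) (hm : PT m) : PT fun a => wP (g a) (PN.qA (e a) (m a)) := by
  have h1 := PT_corner hg (c := fun a => (datOf (g a)).N + 1) (by fun_prop) (PT_lin 16 14 hm)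
    (PT_lin 16 8 hm)
  have h2 := PT_corner hg (PT_N hg) (PT_lin 16 8 hm) (PT_lin 16 14 hm)
  have h := PT.ite (p := fun a => e a = 0) (PT.decide_eq he (PT.const 0)) h1 h2
  refine h.congr fun a => ?_
  by_cases h0 : e a = 0 <;> simp [wP, Dat.dP, h0]

lemma wP_qB (hg : PT g) (he : PT e) (hm : PT m) : PT fun a => wP (g a) (PN.qB (e a) (m a)) := by
  have h1 := PT_corner hg (c := fun a => (datOf (g a)).N + 1) (by fun_prop) (PT_lin 16 20 hm)
    (PT_lin 16 16 hm)
  have h2 := PT_corner hg (PT_N hg) (PT_lin 16 16 hm) (PT_lin 16 20 hm)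
  have h := PT.ite (p := fun a => e a = 0) (PT.decide_eq he (PT.const 0)) h1 h2
  refine h.congr fun a => ?_
  by_cases h0 : e a = 0 <;> simp [wP, Dat.dP, h0]

lemma wP_x0 (hg : PT g) (he : PT e) : PT fun a => wP (g a) (PN.x (e a) false) :=
  PT_corner hg he (PT.const 4) (PT.const 4)

lemma wP_x1 (hg : PT g) (he : PT e) : PT fun a => wP (g a) (PN.x (e a) true) := by
  refine PT_corner (p := fun a => if e a = (datOf (g a)).N + 1 then 16 * (datOf (g a)).V + 7
      else 16 * (datOf (g a)).V + 4)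
    (q := fun a => if e a = (datOf (g a)).N then 16 * (datOf (g a)).V + 7
      else 16 * (datOf (g a)).V + 4) hg he ?_ ?_
  · exact PT.ite (PT_eqN1 hg he) (PT_lin 16 7 (PT_V hg)) (PT_lin 16 4 (PT_V hg))
  · exact PT.ite (PT_eqN hg he) (PT_lin 16 7 (PT_V hg)) (PT_lin 16 4 (PT_V hg))

end names

/-! ### Assembly -/

/-- lists of the lengths `N`, `N + 2`, `V`, `V + 1`, `N - 1` -/
def lN (f : Fm) : Fm := [] :: clauses f
def lN2 (f : Fm) : Fm := [] :: [] :: [] :: clauses f
def lV1 (f : Fm) : List ℕ := 0 :: vars f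

@[fun_prop] lemma PT_lN {g : α → Fm} (hg : PT g) : PT fun a => lN (g a) := by
  unfold lN; fun_prop
@[fun_prop] lemma PT_lN2 {g : α → Fm} (hg : PT g) : PT fun a => lN2 (g a) := by
  unfold lN2; fun_prop
@[fun_prop] lemma PT_lV1 {g : α → Fm} (hg : PT g) : PT fun a => lV1 (g a) := by
  unfold lV1; fun_prop

lemma PT_hps : PT fun f : Fm => (datOf f).hps.flatMap (wH f) := by
  have key : ∀ f : Fm, (datOf f).hps.flatMap (wH f) =
      ((List.range (lN2 f).length).flatMap fun e =>
        wH f (HN.T e false) ++ wH f (HN.T e true)) ++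
      ((List.range (lN2 f).length).flatMap fun e => (List.range (vars f).length).flatMap fun m =>
        wH f (HN.HA e m) ++ wH f (HN.HB e m)) ++
      ((List.range (lN f).length).flatMap fun e => (List.range (vars f).length).flatMap fun m =>
        wH f (HN.GlA e m) ++ (wH f (HN.GlB e m) ++ (wH f (HN.GrA e m) ++
          (wH f (HN.GrB e m) ++ wH f (HN.Go e m))))) ++
      ((List.range (vars f).length).flatMap fun m =>
        wH f (HN.D m) ++ (wH f (HN.D' m) ++ (wH f (HN.D1 m) ++ wH f (HN.D2 m)))) := by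
    intro f
    simp only [Dat.hps, List.flatMap_append, List.flatMap_assoc, List.flatMap_cons,
      List.flatMap_nil, List.append_nil]
    rfl
  refine PT.congr ?_ fun f => (key f).symm
  refine PT.append (PT.append (PT.append ?_ ?_) ?_) ?_
  · refine PT_loop (l := fun f : Fm => lN2 f) (k := fun f e =>
      wH f (HN.T e false) ++ wH f (HN.T e true)) (by fun_prop) ?_
    exact PT.append (wH_T0 (by fun_prop) (by fun_prop)) (wH_T1 (by fun_prop) (by fun_prop))
  · refine PT_loop (l := fun f : Fm => lN2 f) (k := fun f e =>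
      (List.range (vars f).length).flatMap fun m => wH f (HN.HA e m) ++ wH f (HN.HB e m))
      (by fun_prop) ?_
    refine PT_loop (l := fun p : Fm × ℕ => vars p.1) (k := fun p m =>
      wH p.1 (HN.HA p.2 m) ++ wH p.1 (HN.HB p.2 m)) (by fun_prop) ?_
    exact PT.append (wH_HA (by fun_prop) (by fun_prop) (by fun_prop))
      (wH_HB (by fun_prop) (by fun_prop) (by fun_prop))
  · refine PT_loop (l := fun f : Fm => lN f) (k := fun f e =>
      (List.range (vars f).length).flatMap fun m =>
        wH f (HN.GlA e m) ++ (wH f (HN.GlB e m) ++ (wH f (HN.GrA e m) ++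
          (wH f (HN.GrB e m) ++ wH f (HN.Go e m))))) (by fun_prop) ?_
    refine PT_loop (l := fun p : Fm × ℕ => vars p.1) (k := fun p m =>
        wH p.1 (HN.GlA p.2 m) ++ (wH p.1 (HN.GlB p.2 m) ++ (wH p.1 (HN.GrA p.2 m) ++
          (wH p.1 (HN.GrB p.2 m) ++ wH p.1 (HN.Go p.2 m))))) (by fun_prop) ?_
    exact PT.append (wH_GlA (by fun_prop) (by fun_prop) (by fun_prop))
      (PT.append (wH_GlB (by fun_prop) (by fun_prop) (by fun_prop))
      (PT.append (wH_GrA (by fun_prop) (by fun_prop) (by fun_prop))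
      (PT.append (wH_GrB (by fun_prop) (by fun_prop) (by fun_prop))
      (wH_Go (by fun_prop) (by fun_prop) (by fun_prop)))))
  · refine PT_loop (l := fun f : Fm => vars f) (k := fun f m =>
      wH f (HN.D m) ++ (wH f (HN.D' m) ++ (wH f (HN.D1 m) ++ wH f (HN.D2 m)))) (by fun_prop) ?_
    exact PT.append (wH_D (by fun_prop) (by fun_prop)) (PT.append (wH_D' (by fun_prop)
      (by fun_prop)) (PT.append (wH_D1 (by fun_prop) (by fun_prop)) (wH_D2 (by fun_prop)
      (by fun_prop))))

lemma PT_pts : PT fun f : Fm => (datOf f).pts.flatMap (wP f) := by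
  have key : ∀ f : Fm, (datOf f).pts.flatMap (wP f) =
      ((List.range (lN f).length).flatMap fun j => (List.range (lV1 f).length).flatMap fun m =>
        wP f (PN.l0 j m) ++ wP f (PN.r0 j m)) ++
      ((List.range (lN f).length).flatMap fun j => (List.range (vars f).length).flatMap fun m =>
        wP f (PN.l1 j m) ++ wP f (PN.r1 j m)) ++
      ((List.range (lN2 f).length).flatMap fun c => (List.range (vars f).length).flatMap fun m =>
        wP f (PN.oA c m) ++ wP f (PN.oB c m)) ++
      ((List.range (clauses f).length).flatMap fun e => (List.range (vars f).length).flatMap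
        fun m => wP f (PN.q (e + 1) m)) ++
      ((List.range (vars f).length).flatMap fun m =>
        wP f (PN.q ((datOf f).N + 1) m) ++ (wP f (PN.qA 0 m) ++ (wP f (PN.qB 0 m) ++
        (wP f (PN.qA (datOf f).N m) ++ wP f (PN.qB (datOf f).N m))))) ++
      (wP f (PN.x (datOf f).N false) ++ (wP f (PN.x (datOf f).N true) ++
        (wP f (PN.x ((datOf f).N + 1) false) ++ wP f (PN.x ((datOf f).N + 1) true)))) := by
    intro f
    simp only [Dat.pts, List.flatMap_append, List.flatMap_assoc, List.flatMap_cons,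
      List.flatMap_nil, List.append_nil, List.flatMap_map]
    rfl
  refine PT.congr ?_ fun f => (key f).symm
  refine PT.append (PT.append (PT.append (PT.append (PT.append ?_ ?_) ?_) ?_) ?_) ?_
  · refine PT_loop (l := fun f : Fm => lN f) (k := fun f j =>
      (List.range (lV1 f).length).flatMap fun m => wP f (PN.l0 j m) ++ wP f (PN.r0 j m))
      (by fun_prop) ?_
    refine PT_loop (l := fun p : Fm × ℕ => lV1 p.1) (k := fun p m =>
      wP p.1 (PN.l0 p.2 m) ++ wP p.1 (PN.r0 p.2 m)) (by fun_prop) ?_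
    exact PT.append (wP_l0 (by fun_prop) (by fun_prop) (by fun_prop))
      (wP_r0 (by fun_prop) (by fun_prop) (by fun_prop))
  · refine PT_loop (l := fun f : Fm => lN f) (k := fun f j =>
      (List.range (vars f).length).flatMap fun m => wP f (PN.l1 j m) ++ wP f (PN.r1 j m))
      (by fun_prop) ?_
    refine PT_loop (l := fun p : Fm × ℕ => vars p.1) (k := fun p m =>
      wP p.1 (PN.l1 p.2 m) ++ wP p.1 (PN.r1 p.2 m)) (by fun_prop) ?_
    exact PT.append (wP_l1 (by fun_prop) (by fun_prop) (by fun_prop))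
      (wP_r1 (by fun_prop) (by fun_prop) (by fun_prop))
  · refine PT_loop (l := fun f : Fm => lN2 f) (k := fun f j =>
      (List.range (vars f).length).flatMap fun m => wP f (PN.oA j m) ++ wP f (PN.oB j m))
      (by fun_prop) ?_
    refine PT_loop (l := fun p : Fm × ℕ => vars p.1) (k := fun p m =>
      wP p.1 (PN.oA p.2 m) ++ wP p.1 (PN.oB p.2 m)) (by fun_prop) ?_
    exact PT.append (wP_oA (by fun_prop) (by fun_prop) (by fun_prop))
      (wP_oB (by fun_prop) (by fun_prop) (by fun_prop))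
  · refine PT_loop (l := fun f : Fm => clauses f) (k := fun f e =>
      (List.range (vars f).length).flatMap fun m => wP f (PN.q (e + 1) m)) (by fun_prop) ?_
    refine PT_loop (l := fun p : Fm × ℕ => vars p.1) (k := fun p m =>
      wP p.1 (PN.q (p.2 + 1) m)) (by fun_prop) ?_
    exact wP_q (e := fun p : (Fm × ℕ) × ℕ => p.1.2 + 1) (by fun_prop) (by fun_prop) (by fun_prop)
  · refine PT_loop (l := fun f : Fm => vars f) (k := fun f m =>
        wP f (PN.q ((datOf f).N + 1) m) ++ (wP f (PN.qA 0 m) ++ (wP f (PN.qB 0 m) ++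
        (wP f (PN.qA (datOf f).N m) ++ wP f (PN.qB (datOf f).N m))))) (by fun_prop) ?_
    exact PT.append (wP_q (e := fun p : Fm × ℕ => (datOf p.1).N + 1) (by fun_prop) (by fun_prop)
        (by fun_prop))
      (PT.append (wP_qA (e := fun _ => 0) (by fun_prop) (by fun_prop) (by fun_prop))
      (PT.append (wP_qB (e := fun _ => 0) (by fun_prop) (by fun_prop) (by fun_prop))
      (PT.append (wP_qA (e := fun p : Fm × ℕ => (datOf p.1).N) (by fun_prop) (by fun_prop)
        (by fun_prop))
      (wP_qB (e := fun p : Fm × ℕ => (datOf p.1).N) (by fun_prop) (by fun_prop)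
        (by fun_prop)))))
  · exact PT.append (wP_x0 (e := fun f : Fm => (datOf f).N) (by fun_prop) (by fun_prop))
      (PT.append (wP_x1 (e := fun f : Fm => (datOf f).N) (by fun_prop) (by fun_prop))
      (PT.append (wP_x0 (e := fun f : Fm => (datOf f).N + 1) (by fun_prop) (by fun_prop))
      (wP_x1 (e := fun f : Fm => (datOf f).N + 1) (by fun_prop) (by fun_prop))))

end RPT

open RPT in
theorem PT_word : PT word := by
  refine PT.congr ?_ fun f => (word_eq f).symm
  refine PT.append (PT.append PT_hps PT_pts) ?_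
  exact PT.cons (PT.const _) (PT.append (PT_encInt (by fun_prop)) (PT.const _))

end Pool.Agent.Lib.H48MaxScatter
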