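import Pool.Agent.Lib.H48MaxScatter.SoundD

/-!
# Soundness: a connected 2-factor yields a satisfying assignment
-/

set_option autoImplicit false
set_option linter.unusedSimpArgs false

namespace Pool.Agent.Lib.H48MaxScatter

namespace Dat

variable {d : Dat} {F : HN → PN → Prop}

/-- the edges between the corners `0` and `j0` -/
def In (j0 e : ℕ) : Prop := 1 ≤ e ∧ e ≤ j0

/-- the half-planes between the corners `0` and `j0` -/
def sideH (j0 : ℕ) (md : ℕ → ℕ) : HN → Prop
  | .T e _ => In j0 e
  | .HA e _ => In j0 e
  | .HB e _ => In j0 e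
  | .GlA j _ => In j0 (j + 1)
  | .GlB j _ => In j0 (j + 1)
  | .GrA j _ => In j0 j
  | .GrB j _ => In j0 j
  | .Go j m => if md m = 0 then In j0 (j + 1) else In j0 j
  | .D _ => False
  | .D' _ => False
  | .D1 _ => False
  | .D2 _ => False

/-- the points between the corners `0` and `j0` -/
def sideP (j0 : ℕ) (md : ℕ → ℕ) : PN → Prop
  | .l0 j _ => In j0 (j + 1)
  | .l1 j _ => In j0 (j + 1)
  | .r0 j _ => In j0 j
  | .r1 j _ => In j0 j
  | .oA j m => if md m = 0 then In j0 (j + 1) else In j0 j
  | .oB j m => if md m = 0 then In j0 (j + 1) else In j0 j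
  | .q e _ => In j0 e
  | .qA e _ => In j0 e
  | .qB e _ => In j0 e
  | .x _ _ => False

lemma leftEdge_rc {N e : ℕ} (he : e < N + 2) : leftEdge N (rc N e) = e := by
  unfold leftEdge rc
  split_ifs <;> omega

/-! ### visibility of the points `l0`, `r0` in the vertex column -/

lemma vis_HA_r0 {j m : ℕ} (hj : j < d.N) (h : d.Vis (.HA (j + 1) m) (.r0 j m)) (hm : m < d.V) :
    d.neg j m = true := by
  by_contra hn
  rw [Bool.not_eq_true] at hn
  simp only [Vis, dH, dP, Sees, hn, Bool.false_eq_true, if_false, I] at h
  omega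

lemma vis_HA_l0 {j m : ℕ} (hj : j < d.N) (h : d.Vis (.HA j m) (.l0 j m)) (hm : m < d.V) :
    d.pos j m = true := by
  by_contra hn
  rw [Bool.not_eq_true] at hn
  simp only [Vis, dH, dP, Sees, hn, Bool.false_eq_true, if_false, I,
    leftEdge_lt (show j < d.N + 1 by omega)] at h
  omega

lemma vis_GlA_r0 {j m : ℕ} (h : d.Vis (.GlA j m) (.r0 j m)) (hm : m < d.V) :
    d.neg j m = true := by
  by_contra hn
  rw [Bool.not_eq_true] at hn
  simp only [Vis, dH, dP, Sees, hn, Bool.false_eq_true, if_false, I] at h
  omega

lemma vis_GrA_l0 {j m : ℕ} (h : d.Vis (.GrA j m) (.l0 j m)) (hm : m < d.V) :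
    d.pos j m = true := by
  by_contra hn
  rw [Bool.not_eq_true] at hn
  simp only [Vis, dH, dP, Sees, hn, Bool.false_eq_true, if_false, I] at h
  omega

lemma vis_Go_l0 {j m : ℕ} (h : d.Vis (.Go j m) (.l0 j m)) (hm : m < d.V) :
    d.pos j m = true := by
  by_contra hn
  rw [Bool.not_eq_true] at hn
  simp only [Vis, dH, dP, Sees, hn, Bool.false_eq_true, if_false, I] at h
  omega

lemma vis_Go_r0 {j m : ℕ} (h : d.Vis (.Go j m) (.r0 j m)) (hm : m < d.V) :
    d.neg j m = true := by
  by_contra hn
  rw [Bool.not_eq_true] at hn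
  simp only [Vis, dH, dP, Sees, hn, Bool.false_eq_true, if_false, I] at h
  omega

/-- in mode one, at a corner whose type is not positive, `GlA` uses `l0` -/
lemma gl_rigid (hF : Fac d F) {j m : ℕ} (hj : j < d.N) (hm : m < d.V) (hmd : bA d F 0 m = 1)
    (hp : d.pos j m = false) : ind F (.GlA j m) (.oA j m) = 0 ∧ ind F (.GlA j m) (.r0 j m) = 0 := by
  have fa := factsA_all hF hm
  have r := fa.ring j (by omega)
  simp only [aA, leftEdge_lt (show j < d.N + 1 by omega)] at r
  have e1 : ind F (.GrA j m) (.l0 j m) = 0 := ind_eq_zero.2 fun h => by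
    have := vis_GrA_l0 (hF.sub _ _ h).2.2 hm
    simp [hp] at this
  have e2 : ind F (.Go j m) (.l0 j m) = 0 := ind_eq_zero.2 fun h => by
    have := vis_Go_l0 (hF.sub _ _ h).2.2 hm
    simp [hp] at this
  have e3 : ind F (.HA j m) (.l0 j m) = 0 := ind_eq_zero.2 fun h => by
    have := vis_HA_l0 hj (hF.sub _ _ h).2.2 hm
    simp [hp] at this
  have e4 := fa.cl j hj
  have e5 := fa.rl j hj
  have e6 := ind_eq_one.2 (fa.gl j hj)
  omega

/-- in mode zero, at a corner whose type is not negative, `GrA` uses `r0` -/
lemma gr_rigid (hF : Fac d F) {j m : ℕ} (hj : j < d.N) (hm : m < d.V) (hmd : bA d F 0 m = 0)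
    (hn : d.neg j m = false) : ind F (.GrA j m) (.oA j m) = 0 ∧ ind F (.GrA j m) (.l0 j m) = 0 := by
  have fa := factsA_all hF hm
  have r := fa.ring j (by omega)
  have e0 : bA d F j m = 0 := by omega
  simp only [bA] at e0
  have e1 : ind F (.GlA j m) (.r0 j m) = 0 := ind_eq_zero.2 fun h => by
    have := vis_GlA_r0 (hF.sub _ _ h).2.2 hm
    simp [hn] at this
  have e2 : ind F (.Go j m) (.r0 j m) = 0 := ind_eq_zero.2 fun h => by
    have := vis_Go_r0 (hF.sub _ _ h).2.2 hm
    simp [hn] at this
  have e3 : ind F (.HA (j + 1) m) (.r0 j m) = 0 := ind_eq_zero.2 fun h => by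
    have := vis_HA_r0 hj (hF.sub _ _ h).2.2 hm
    simp [hn] at this
  have e4 := fa.cr j hj
  have e5 := fa.rr j hj
  have e6 := ind_eq_one.2 (fa.gr j hj)
  omega

lemma glB_rigid (hF : Fac d F) {j m : ℕ} (hj : j < d.N) (hm : m < d.V) (hmd : bB d F 0 m = 1) :
    ind F (.GlB j m) (.oB j m) = 0 := by
  have fb := factsB_all hF hm
  have r := fb.ring j (by omega)
  simp only [aB, leftEdge_lt (show j < d.N + 1 by omega)] at r
  have e4 := fb.cl j hj
  have e5 := fb.rl j hj
  have e6 := ind_eq_one.2 (fb.pre.l j hj)
  simp only [inL, Nat.succ_ne_zero, if_false, Nat.add_sub_cancel] at e6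
  omega

lemma grB_rigid (hF : Fac d F) {j m : ℕ} (hj : j < d.N) (hm : m < d.V) (hmd : bB d F 0 m = 0) :
    ind F (.GrB j m) (.oB j m) = 0 := by
  have fb := factsB_all hF hm
  have r := fb.ring j (by omega)
  have e0 : bB d F j m = 0 := by omega
  simp only [bB] at e0
  have e4 := fb.cr j hj
  have e5 := fb.rr j hj
  have e6 := ind_eq_one.2 (fb.pre.r j hj)
  simp only [inR, Nat.succ_ne_zero, if_false, Nat.add_sub_cancel] at e6
  omega

set_option maxHeartbeats 1000000 in
theorem closed_side (hF : Fac d F) (hc : Conn {h | d.okH h} {p | d.okP p} F) {j0 : ℕ}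
    (h1 : 1 ≤ j0) (h2 : j0 < d.N)
    (hp : ∀ m, m < d.V → bA d F 0 m = 1 → d.pos j0 m = false)
    (hn : ∀ m, m < d.V → bA d F 0 m = 0 → d.neg j0 m = false) (h : HN) (p : PN) (hf : F h p) :
    sideH j0 (fun m => bA d F 0 m) h ↔ sideP j0 (fun m => bA d F 0 m) p := by
  have hN := d.hN
  have hl := live_all hF hf
  obtain ⟨okh, okp, vis⟩ := hF.sub h p hf
  simp only [Set.mem_setOf_eq] at okh okp
  -- at the cut corners
  have hcutp : ∀ j m, m < d.V → bA d F 0 m = 1 → ¬ (In j0 (j + 1) ↔ In j0 j) →
      d.pos j m = false := by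
    intro j m hm hmd hcut
    by_cases hj : j = j0
    · subst hj; exact hp m hm hmd
    · rcases d.pos_cases j m with h | ⟨_, h, _, _⟩
      · exact h
      · exfalso
        apply hcut
        unfold In
        omega
  have hcutn : ∀ j m, m < d.V → bA d F 0 m = 0 → ¬ (In j0 (j + 1) ↔ In j0 j) →
      d.neg j m = false := by
    intro j m hm hmd hcut
    by_cases hj : j = j0
    · subst hj; exact hn m hm hmd
    · rcases d.neg_cases j m with h | ⟨_, h, _, _⟩
      · exact h
      · exfalso
        apply hcut
        unfold In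
        omega
  have inN : ∀ e, d.N ≤ e → ¬ In j0 e := fun e he h => by unfold In at h; omega
  have in0 : ¬ In j0 0 := fun h => by unfold In at h; omega
  rcases h with ⟨e, b⟩ | ⟨e, m⟩ | ⟨e, m⟩ | ⟨j, m⟩ | ⟨j, m⟩ | ⟨j, m⟩ | ⟨j, m⟩ | ⟨j, m⟩ |
    m | m | m | m <;>
  simp only [live, List.mem_cons, List.not_mem_nil, or_false] at hl <;>
  simp only [okH] at okh
  · -- T
    rcases hl with rfl | rfl | rfl | rfl <;> simp only [okP] at okp <;>
      simp only [sideH, sideP]
    · have : rc d.N e + 1 = e := by unfold rc at okp ⊢; split_ifs at * <;> omega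
      rw [this]
    · have h3 : e = 0 ∨ d.N ≤ e := by unfold rc at okp; split_ifs at * <;> omega
      rcases h3 with rfl | h3
      · simp [in0]
      · simp [inN e h3]
    · simp [inN e (by omega)]
  · -- HA
    obtain ⟨okh1, okh2⟩ := okh
    have fa := factsA_all hF okh2
    have lA := bA_le hF okh2
    rcases hl with rfl | rfl | rfl | rfl | rfl | rfl | rfl
    · split_ifs at hf ⊢ <;> simp only [sideH, sideP]
    · simp only [okP] at okp
      have : rc d.N e + 1 = e := by unfold rc at okp ⊢; split_ifs at * <;> omega
      simp only [sideH, sideP]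
      rw [this]
    · have r := fa.ring (rc d.N e) okp.1
      have h3 := ind_eq_one.2 hf
      simp only [aA, leftEdge_rc okh1] at r
      have h4 : bA d F 0 m = 0 := by omega
      simp only [sideH, sideP, h4, if_true]
      rcases Nat.eq_zero_or_pos e with rfl | he
      · have e1 : rc d.N 0 = d.N + 1 := by simp [rc]
        rw [e1]
        simp only [in0, false_iff]
        exact inN _ (by omega)
      · have : rc d.N e + 1 = e := by unfold rc; split_ifs <;> omega
        rw [this]
    · simp only [okP] at okp
      have hrc : rc d.N e + 1 = e := by unfold rc at okp ⊢; split_ifs at * <;> omega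
      have r := fa.ring (rc d.N e) (by omega)
      have h3 := ind_eq_one.2 hf
      simp only [aA, leftEdge_rc okh1] at r
      have h4 : bA d F 0 m = 0 := by omega
      simp only [sideH, sideP]
      by_contra hcut
      rw [← hrc] at vis hcut
      rw [hrc] at vis
      have h5 : d.neg (rc d.N e) m = true := by
        refine vis_HA_r0 okp.1 ?_ okh2
        rwa [hrc]
      have h6 := hcutn (rc d.N e) m okh2 h4 (by rwa [hrc] at hcut ⊢)
      rw [h5] at h6
      exact absurd h6 (by simp)
    · simp only [sideH, sideP]
    · have r := fa.ring e okp.1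
      have h3 := ind_eq_one.2 hf
      have h4 : bA d F e m = bA d F 0 m := r.1
      simp only [bA] at h4
      have h5 : ¬ (ind F (HN.HA 0 m) (PN.r0 0 m) + ind F (HN.HA 0 m) (PN.oA 0 m) +
        ind F (HN.HA 0 m) (PN.l0 0 m) = 0) := by omega
      simp only [sideH, sideP, bA, h5, if_false]
    · simp only [okP] at okp
      have r := fa.ring e (by omega)
      have h3 := ind_eq_one.2 hf
      have h4 : bA d F 0 m = 1 := by
        have h5 : bA d F e m = bA d F 0 m := r.1
        have h6 : bA d F e m = ind F (.HA e m) (.r0 e m) + ind F (.HA e m) (.oA e m) +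
          ind F (.HA e m) (.l0 e m) := rfl
        omega
      simp only [sideH, sideP]
      by_contra hcut
      have h5 := vis_HA_l0 okp.1 vis okh2
      have h6 := hcutp e m okh2 h4 (fun h => hcut h.symm)
      rw [h5] at h6
      exact absurd h6 (by simp)
  · -- HB
    obtain ⟨okh1, okh2⟩ := okh
    have fb := factsB_all hF okh2
    have lB := bB_le hF okh2
    have me := mode_eq hF hc okh2
    rcases hl with rfl | rfl | rfl | rfl | rfl
    · split_ifs at hf ⊢ <;> simp only [sideH, sideP]
    · simp only [okP] at okp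
      have : rc d.N e + 1 = e := by unfold rc at okp ⊢; split_ifs at * <;> omega
      simp only [sideH, sideP]
      rw [this]
    · have r := fb.ring (rc d.N e) okp.1
      have h3 := ind_eq_one.2 hf
      simp only [aB, leftEdge_rc okh1] at r
      have h4 : bA d F 0 m = 0 := by omega
      simp only [sideH, sideP, h4, if_true]
      rcases Nat.eq_zero_or_pos e with rfl | he
      · have e1 : rc d.N 0 = d.N + 1 := by simp [rc]
        rw [e1]
        simp only [in0, false_iff]
        exact inN _ (by omega)
      · have : rc d.N e + 1 = e := by unfold rc; split_ifs <;> omega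
        rw [this]
    · simp only [sideH, sideP]
    · have r := fb.ring e okp.1
      have h3 := ind_eq_one.2 hf
      have h4 : bA d F 0 m = 1 := by
        have h5 : bB d F e m = bB d F 0 m := r.1
        have h6 : bB d F e m = ind F (.HB e m) (.r1 e m) + ind F (.HB e m) (.oB e m) := rfl
        omega
      simp only [sideH, sideP, h4, one_ne_zero, if_false]
  · -- GlA
    obtain ⟨okh1, okh2⟩ := okh
    have lA := bA_le hF okh2
    rcases hl with rfl | rfl | rfl | rfl
    · simp only [sideH, sideP]
    · simp only [sideH, sideP]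
    · have h3 := ind_eq_one.2 hf
      by_cases hmd : bA d F 0 m = 0
      · simp only [sideH, sideP, hmd, if_true]
      · simp only [sideH, sideP, hmd, if_false]
        by_contra hcut
        have h5 := gl_rigid hF okh1 okh2 (by omega) (hcutp j m okh2 (by omega) hcut)
        omega
    · have h3 := ind_eq_one.2 hf
      simp only [sideH, sideP]
      by_contra hcut
      have h4 := vis_GlA_r0 vis okh2
      have h5 : bA d F 0 m = 1 := by
        by_contra h6
        have h7 := hcutn j m okh2 (by omega) hcut
        rw [h4] at h7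
        exact absurd h7 (by simp)
      have h6 := gl_rigid hF okh1 okh2 h5 (hcutp j m okh2 h5 hcut)
      omega
  · -- GlB
    obtain ⟨okh1, okh2⟩ := okh
    have me := mode_eq hF hc okh2
    have lB := bB_le hF okh2
    rcases hl with rfl | rfl | rfl
    · simp only [sideH, sideP]
    · simp only [sideH, sideP]
    · have h3 := ind_eq_one.2 hf
      by_cases hmd : bA d F 0 m = 0
      · simp only [sideH, sideP, hmd, if_true]
      · have h5 := glB_rigid hF okh1 okh2 (by omega)
        omega
  · -- GrA
    obtain ⟨okh1, okh2⟩ := okh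
    have lA := bA_le hF okh2
    rcases hl with rfl | rfl | rfl | rfl
    · simp only [sideH, sideP]
    · simp only [sideH, sideP]
    · have h3 := ind_eq_one.2 hf
      by_cases hmd : bA d F 0 m = 0
      · simp only [sideH, sideP, hmd, if_true]
        by_contra hcut
        have h5 := gr_rigid hF okh1 okh2 hmd (hcutn j m okh2 hmd (fun h => hcut h.symm))
        omega
      · simp only [sideH, sideP, hmd, if_false]
    · have h3 := ind_eq_one.2 hf
      simp only [sideH, sideP]
      by_contra hcut
      have h4 := vis_GrA_l0 vis okh2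
      have h5 : bA d F 0 m = 0 := by
        by_contra h6
        have h7 := hcutp j m okh2 (by omega) (fun h => hcut h.symm)
        rw [h4] at h7
        exact absurd h7 (by simp)
      have h6 := gr_rigid hF okh1 okh2 h5 (hcutn j m okh2 h5 (fun h => hcut h.symm))
      omega
  · -- GrB
    obtain ⟨okh1, okh2⟩ := okh
    have me := mode_eq hF hc okh2
    have lB := bB_le hF okh2
    rcases hl with rfl | rfl | rfl
    · simp only [sideH, sideP]
    · simp only [sideH, sideP]
    · have h3 := ind_eq_one.2 hf
      by_cases hmd : bA d F 0 m = 0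
      · have h5 := grB_rigid hF okh1 okh2 (by omega)
        omega
      · simp only [sideH, sideP, hmd, if_false]
  · -- Go
    obtain ⟨okh1, okh2⟩ := okh
    have lA := bA_le hF okh2
    rcases hl with rfl | rfl | rfl | rfl
    · simp only [sideH, sideP]
    · simp only [sideH, sideP]
    · by_cases hmd : bA d F 0 m = 0
      · simp only [sideH, sideP, hmd, if_true]
      · simp only [sideH, sideP, hmd, if_false]
        by_contra hcut
        have h4 := vis_Go_l0 vis okh2
        have h7 := hcutp j m okh2 (by omega) (fun h => hcut h.symm)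
        rw [h4] at h7
        exact absurd h7 (by simp)
    · by_cases hmd : bA d F 0 m = 0
      · simp only [sideH, sideP, hmd, if_true]
        by_contra hcut
        have h4 := vis_Go_r0 vis okh2
        have h7 := hcutn j m okh2 (by omega) hcut
        rw [h4] at h7
        exact absurd h7 (by simp)
      · simp only [sideH, sideP, hmd, if_false]
  · rcases hl with rfl | rfl <;> simp only [sideH, sideP, false_iff] <;> split_ifs <;>
      exact inN _ (by omega)
  · rcases hl with rfl | rfl | rfl | rfl | rfl <;> simp only [sideH, sideP, false_iff] <;>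
      (try split_ifs) <;> first | exact in0 | exact inN _ (by omega)
  · rcases hl with rfl | rfl | rfl <;> simp only [sideH, sideP, false_iff] <;>
      (try split_ifs) <;> first | exact in0 | exact inN _ (by omega)
  · rcases hl with rfl | rfl | rfl <;> simp only [sideH, sideP, false_iff] <;>
      (try split_ifs) <;> first | exact in0 | exact inN _ (by omega)

/-- **Soundness.** -/
theorem sound (hF : Fac d F) (hc : Conn {h | d.okH h} {p | d.okP p} F) : d.Sat := by
  have hV := d.hV
  refine ⟨fun m => decide (bA d F 0 m = 1), fun j0 h1 h2 => ?_⟩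
  by_contra hcon
  push Not at hcon
  have hcl := closed_side hF hc h1 h2 (fun m hm hmd => by
      have := (hcon m hm).1 (by simpa using hmd)
      simpa using this) (fun m hm hmd => by
      have := (hcon m hm).2 (by simp [hmd])
      simpa using this)
  refine no_loop hc {h | sideH j0 (fun m => bA d F 0 m) h}
    {p | sideP j0 (fun m => bA d F 0 m) p} hcl (h1 := .HA 1 0) (h2 := .T 0 false)
    ⟨by omega, by omega⟩ (by simp only [okH]; omega) ?_ ?_
  · simp only [Set.mem_setOf_eq, sideH, In]
    omega
  · simp only [Set.mem_setOf_eq, sideH, In]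
    omega

end Dat

end Pool.Agent.Lib.H48MaxScatter
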