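import Pool.Agent.Lib.H48MaxScatter.Factor

/-!
# Round-trips and connected 2-factors

If half of the points form a set `B` without far pairs, then a round-trip with far consecutive
points alternates, so it is a connected 2-factor of the bipartite graph of the far pairs.
-/

set_option autoImplicit false

namespace Pool.Agent.Lib.H48MaxScatter

variable {α β E : Type*}

/-- a cyclic ordering of the list `P` with consecutive elements in the relation `far` -/
def HasTour (far : E → E → Prop) (P : List E) : Prop :=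
  ∃ l : List E, l.Perm P ∧ ∀ (i : ℕ) (hi : i < l.length),
    far l[i] (l[(i + 1) % l.length]'(Nat.mod_lt _ (by omega)))

/-- a round-trip as a map on `ZMod n` -/
theorem HasTour.exists_zmod {far : E → E → Prop} {P : List E} (h : HasTour far P) (hnd : P.Nodup)
    (n : ℕ) [NeZero n] (hPn : P.length = n) :
    ∃ e : ZMod n → E, Function.Injective e ∧ (∀ x, x ∈ P ↔ ∃ i, e i = x) ∧
      ∀ i, far (e i) (e (i + 1)) := by
  obtain ⟨l, hl, hfar⟩ := h
  have hlen : l.length = n := hl.length_eq.trans hPn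
  have hlnd : l.Nodup := hl.nodup_iff.mpr hnd
  refine ⟨fun i => l[i.val]'(by rw [hlen]; exact ZMod.val_lt i), ?_, ?_, ?_⟩
  · intro i j hij
    simp only at hij
    have := (hlnd.getElem_inj_iff).mp hij
    exact ZMod.val_injective _ this
  · intro x
    rw [← hl.mem_iff, List.mem_iff_getElem]
    constructor
    · rintro ⟨i, hi, rfl⟩
      refine ⟨(i : ZMod n), ?_⟩
      simp only
      congr 1
      rw [ZMod.val_natCast, Nat.mod_eq_of_lt (by omega)]
    · rintro ⟨i, rfl⟩
      exact ⟨i.val, by rw [hlen]; exact ZMod.val_lt i, rfl⟩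
  · intro i
    have h1 := hfar i.val (by rw [hlen]; exact ZMod.val_lt i)
    have h2 : (i + 1).val = (i.val + 1) % l.length := by
      rw [ZMod.val_add, ZMod.val_one_eq_one_mod, hlen]
      simp
    simp only [h2]
    exact h1

/-- the bipartite graph of consecutive elements -/
def Cons {n : ℕ} (e : ZMod n → E) (hs : Set α) (ps : Set β) (cH : α → E) (cP : β → E) :
    α → β → Prop :=
  fun h p => h ∈ hs ∧ p ∈ ps ∧ ∃ i, (e i = cH h ∧ e (i + 1) = cP p) ∨ (e i = cP p ∧ e (i + 1) = cH h)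

theorem cons_symm {n : ℕ} (e : ZMod n → E) (hs : Set α) (ps : Set β) (cH : α → E) (cP : β → E)
    (h : α) (p : β) : Cons e hs ps cH cP h p ↔ Cons e ps hs cP cH p h := by
  constructor
  · rintro ⟨h1, h2, i, h3 | h3⟩
    · exact ⟨h2, h1, i, Or.inr h3⟩
    · exact ⟨h2, h1, i, Or.inl h3⟩
  · rintro ⟨h1, h2, i, h3 | h3⟩
    · exact ⟨h2, h1, i, Or.inr h3⟩
    · exact ⟨h2, h1, i, Or.inl h3⟩

theorem cons_row {n : ℕ} (h2 : 2 < n) {e : ZMod n → E} (he : Function.Injective e)
    {hs : Set α} {ps : Set β} {cH : α → E} {cP : β → E}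
    (hinj : Set.InjOn cP ps)
    (hex : ∀ h ∈ hs, ∃ i, e i = cH h)
    (halt : ∀ i, (∃ h ∈ hs, cH h = e i) →
      (∃ p ∈ ps, cP p = e (i + 1)) ∧ (∃ p ∈ ps, cP p = e (i - 1)))
    (h : α) (hh : h ∈ hs) :
    ∃ p1 p2, p1 ≠ p2 ∧ ∀ p, Cons e hs ps cH cP h p ↔ p = p1 ∨ p = p2 := by
  obtain ⟨i, hi⟩ := hex h hh
  obtain ⟨⟨p1, hp1, hq1⟩, ⟨p2, hp2, hq2⟩⟩ := halt i ⟨h, hh, hi.symm⟩
  refine ⟨p1, p2, ?_, ?_⟩
  · rintro rfl
    have h3 : e (i + 1) = e (i - 1) := by rw [← hq1, ← hq2]
    have h4 := he h3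
    have h5 : ((2 : ℕ) : ZMod n) = 0 := by
      have : i + 1 - (i - 1) = 0 := by rw [h4]; ring
      push_cast
      linear_combination this
    rw [ZMod.natCast_eq_zero_iff] at h5
    have := Nat.le_of_dvd (by norm_num) h5
    omega
  · intro p
    constructor
    · rintro ⟨-, hp, j, ⟨h3, h4⟩ | ⟨h3, h4⟩⟩
      · left
        have : j = i := he (by rw [h3, hi])
        subst this
        exact hinj hp hp1 (by rw [hq1, h4])
      · right
        have : j + 1 = i := he (by rw [h4, hi])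
        have h5 : j = i - 1 := by rw [← this]; ring
        subst h5
        exact hinj hp hp2 (by rw [hq2, h3])
    · rintro (rfl | rfl)
      · exact ⟨hh, hp1, i, Or.inl ⟨hi, hq1.symm⟩⟩
      · exact ⟨hh, hp2, i - 1, Or.inr ⟨hq2.symm, by rw [sub_add_cancel]; exact hi⟩⟩

theorem twoFac_of_hasTour {far : E → E → Prop} (hfar : ∀ x y, far x y → far y x)
    {hs : List α} {ps : List β} {cH : α → E} {cP : β → E}
    (hnd : (hs.map cH ++ ps.map cP).Nodup) (hlen : hs.length = ps.length) (h2 : 2 ≤ hs.length)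
    (hB : ∀ p ∈ ps, ∀ p' ∈ ps, ¬ far (cP p) (cP p'))
    (h : HasTour far (hs.map cH ++ ps.map cP)) :
    ∃ F, TwoFac {h | h ∈ hs} {p | p ∈ ps} (fun h p => far (cH h) (cP p)) F ∧
      Conn {h | h ∈ hs} {p | p ∈ ps} F := by
  classical
  obtain ⟨n, hndef⟩ : ∃ n, (hs.map cH ++ ps.map cP).length = n := ⟨_, rfl⟩
  have hn : n = 2 * hs.length := by
    rw [← hndef]; simp; omega
  have : NeZero n := ⟨by omega⟩
  obtain ⟨e, he, hmem, hef⟩ := h.exists_zmod hnd n hndef
  obtain ⟨hnd1, hnd2, hdisj⟩ := List.nodup_append.mp hnd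
  have hinjH : Set.InjOn cH {h | h ∈ hs} := List.inj_on_of_nodup_map hnd1
  have hinjP : Set.InjOn cP {p | p ∈ ps} := List.inj_on_of_nodup_map hnd2
  -- every index is of exactly one kind
  have hkind : ∀ i, (∃ h ∈ hs, cH h = e i) ∨ (∃ p ∈ ps, cP p = e i) := by
    intro i
    have := (hmem (e i)).mpr ⟨i, rfl⟩
    rw [List.mem_append, List.mem_map, List.mem_map] at this
    exact this
  have hexcl : ∀ i, (∃ h ∈ hs, cH h = e i) → ¬ (∃ p ∈ ps, cP p = e i) := by
    rintro i ⟨h, hh, h1⟩ ⟨p, hp, h3⟩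
    exact hdisj _ (List.mem_map.mpr ⟨h, hh, h1⟩) _ (List.mem_map.mpr ⟨p, hp, h3⟩) rfl
  -- the sets of indices
  set BH : Finset (ZMod n) := Finset.univ.filter fun i => ∃ h ∈ hs, cH h = e i with hBH
  set BP : Finset (ZMod n) := Finset.univ.filter fun i => ∃ p ∈ ps, cP p = e i with hBP
  have hcP : BP.card = hs.length := by
    rw [hlen, ← List.length_map (f := cP), ← List.toFinset_card_of_nodup hnd2,
      ← Finset.card_image_of_injective BP he]
    congr 1
    ext x
    simp only [hBP, Finset.mem_image, Finset.mem_filter, Finset.mem_univ, true_and,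
      List.mem_toFinset, List.mem_map]
    constructor
    · rintro ⟨i, h1, rfl⟩
      exact h1
    · rintro ⟨p, hp, rfl⟩
      obtain ⟨i, hi⟩ := (hmem (cP p)).mp
        (List.mem_append.mpr (Or.inr (List.mem_map.mpr ⟨p, hp, rfl⟩)))
      exact ⟨i, ⟨p, hp, hi.symm⟩, hi⟩
  have hcH : BH.card = hs.length := by
    rw [← List.length_map (f := cH), ← List.toFinset_card_of_nodup hnd1,
      ← Finset.card_image_of_injective BH he]
    congr 1
    ext x
    simp only [hBH, Finset.mem_image, Finset.mem_filter, Finset.mem_univ, true_and,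
      List.mem_toFinset, List.mem_map]
    constructor
    · rintro ⟨i, h1, rfl⟩
      exact h1
    · rintro ⟨p, hp, rfl⟩
      obtain ⟨i, hi⟩ := (hmem (cH p)).mp
        (List.mem_append.mpr (Or.inl (List.mem_map.mpr ⟨p, hp, rfl⟩)))
      exact ⟨i, ⟨p, hp, hi.symm⟩, hi⟩
  have hstep : ∀ i, i ∈ BP → i + 1 ∈ BH := by
    intro i hi
    rw [hBH, Finset.mem_filter]
    refine ⟨Finset.mem_univ _, ?_⟩
    rcases hkind (i + 1) with h1 | h1
    · exact h1
    · obtain ⟨p, hp, h3⟩ := (Finset.mem_filter.mp hi).2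
      obtain ⟨p', hp', h4⟩ := h1
      exact absurd (by rw [h3, h4]; exact hef i) (hB p hp p' hp')
  have himg : BP.image (fun i => i + 1) = BH := by
    apply Finset.eq_of_subset_of_card_le
    · intro j hj
      obtain ⟨i, hi, rfl⟩ := Finset.mem_image.mp hj
      exact hstep i hi
    · rw [Finset.card_image_of_injective _ (add_left_injective 1), hcP, hcH]
  have hprev : ∀ i, i ∈ BH → i - 1 ∈ BP := by
    intro i hi
    rw [← himg] at hi
    obtain ⟨j, hj, rfl⟩ := Finset.mem_image.mp hi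
    simpa using hj
  have hnext : ∀ i, i ∈ BH → i + 1 ∈ BP := by
    intro i hi
    by_contra hcon
    have h1 : i + 1 ∈ BH := by
      rcases hkind (i + 1) with h1 | h1
      · exact Finset.mem_filter.mpr ⟨Finset.mem_univ _, h1⟩
      · exact (hcon (Finset.mem_filter.mpr ⟨Finset.mem_univ _, h1⟩)).elim
    have h3 := hprev _ h1
    rw [add_sub_cancel_right] at h3
    exact hexcl i (Finset.mem_filter.mp hi).2 (Finset.mem_filter.mp h3).2
  have hprev' : ∀ i, i ∈ BP → i - 1 ∈ BH := by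
    intro i hi
    rcases hkind (i - 1) with h1 | h1
    · exact Finset.mem_filter.mpr ⟨Finset.mem_univ _, h1⟩
    · have h3 := hstep _ (Finset.mem_filter.mpr ⟨Finset.mem_univ _, h1⟩)
      rw [sub_add_cancel] at h3
      exact absurd (Finset.mem_filter.mp hi).2 (hexcl i (Finset.mem_filter.mp h3).2)
  refine ⟨Cons e {h | h ∈ hs} {p | p ∈ ps} cH cP, ⟨?_, ?_, ?_⟩, ?_⟩
  · rintro h p ⟨h1, h3, i, ⟨h4, h5⟩ | ⟨h4, h5⟩⟩
    · exact ⟨h1, h3, by rw [← h4, ← h5]; exact hef i⟩
    · exact ⟨h1, h3, hfar _ _ (by rw [← h4, ← h5]; exact hef i)⟩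
  · refine cons_row (by omega) he hinjP ?_ ?_
    · intro h hh
      exact (hmem (cH h)).mp (List.mem_append.mpr (Or.inl (List.mem_map.mpr ⟨h, hh, rfl⟩)))
    · intro i hi
      have hi' : i ∈ BH := Finset.mem_filter.mpr ⟨Finset.mem_univ _, hi⟩
      exact ⟨(Finset.mem_filter.mp (hnext i hi')).2, (Finset.mem_filter.mp (hprev i hi')).2⟩
  · intro p hp
    have := cons_row (hs := {p | p ∈ ps}) (ps := {h | h ∈ hs}) (cH := cP) (cP := cH)
      (by omega) he hinjH (fun h hh =>
        (hmem (cP h)).mp (List.mem_append.mpr (Or.inr (List.mem_map.mpr ⟨h, hh, rfl⟩))))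
      (fun i hi => by
        have hi' : i ∈ BP := Finset.mem_filter.mpr ⟨Finset.mem_univ _, hi⟩
        exact ⟨(Finset.mem_filter.mp (hstep i hi')).2, (Finset.mem_filter.mp (hprev' i hi')).2⟩)
      p hp
    obtain ⟨h1, h3, h4, h5⟩ := this
    exact ⟨h1, h3, h4, fun h => by rw [cons_symm]; exact h5 h⟩
  · -- connected
    intro S S' hcl
    set m : ZMod n → Prop := fun i => (∃ h ∈ hs, cH h = e i ∧ h ∈ S) ∨ (∃ p ∈ ps, cP p = e i ∧ p ∈ S')
      with hm
    have hmH : ∀ i, ∀ h ∈ hs, cH h = e i → (m i ↔ h ∈ S) := by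
      intro i h hh hi
      constructor
      · rintro (⟨h', hh', h1, h3⟩ | ⟨p, hp, h1, h3⟩)
        · rwa [← hinjH hh' hh (by rw [h1, hi])]
        · exact absurd ⟨p, hp, h1⟩ (hexcl i ⟨h, hh, hi⟩)
      · intro h1
        exact Or.inl ⟨h, hh, hi, h1⟩
    have hmP : ∀ i, ∀ p ∈ ps, cP p = e i → (m i ↔ p ∈ S') := by
      intro i p hp hi
      constructor
      · rintro (⟨h', hh', h1, h3⟩ | ⟨p', hp', h1, h3⟩)
        · exact absurd ⟨p, hp, hi⟩ (hexcl i ⟨h', hh', h1⟩)
        · rwa [← hinjP hp' hp (by rw [h1, hi])]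
      · intro h1
        exact Or.inr ⟨p, hp, hi, h1⟩
    have hms : ∀ i, m (i + 1) ↔ m i := by
      intro i
      rcases hkind i with ⟨h, hh, hi⟩ | ⟨p, hp, hi⟩
      · obtain ⟨p, hp, hi'⟩ := (Finset.mem_filter.mp
          (hnext i (Finset.mem_filter.mpr ⟨Finset.mem_univ _, ⟨h, hh, hi⟩⟩))).2
        rw [hmH i h hh hi, hmP (i + 1) p hp hi']
        exact (hcl h p ⟨hh, hp, i, Or.inl ⟨hi.symm, hi'.symm⟩⟩).symm
      · obtain ⟨h, hh, hi'⟩ := (Finset.mem_filter.mp
          (hstep i (Finset.mem_filter.mpr ⟨Finset.mem_univ _, ⟨p, hp, hi⟩⟩))).2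
        rw [hmP i p hp hi, hmH (i + 1) h hh hi']
        exact hcl h p ⟨hh, hp, i, Or.inr ⟨hi.symm, hi'.symm⟩⟩
    have hmall : ∀ k : ℕ, m (k : ZMod n) ↔ m 0 := by
      intro k
      induction k with
      | zero => simp
      | succ k ih => rw [Nat.cast_succ, hms, ih]
    have hmall' : ∀ i, m i ↔ m 0 := by
      intro i
      have := hmall i.val
      rwa [ZMod.natCast_zmod_val] at this
    have hexH : ∀ h ∈ hs, ∃ i, cH h = e i := fun h hh => by
      obtain ⟨i, hi⟩ := (hmem (cH h)).mp (List.mem_append.mpr (Or.inl (List.mem_map.mpr ⟨h, hh, rfl⟩)))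
      exact ⟨i, hi.symm⟩
    have hexP : ∀ p ∈ ps, ∃ i, cP p = e i := fun p hp => by
      obtain ⟨i, hi⟩ := (hmem (cP p)).mp (List.mem_append.mpr (Or.inr (List.mem_map.mpr ⟨p, hp, rfl⟩)))
      exact ⟨i, hi.symm⟩
    by_cases h0 : m 0
    · left
      constructor
      · intro h hh
        obtain ⟨i, hi⟩ := hexH h hh
        exact (hmH i h hh hi).mp ((hmall' i).mpr h0)
      · intro p hp
        obtain ⟨i, hi⟩ := hexP p hp
        exact (hmP i p hp hi).mp ((hmall' i).mpr h0)
    · right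
      constructor
      · rw [Set.disjoint_left]
        intro h hh hS
        obtain ⟨i, hi⟩ := hexH h hh
        exact h0 ((hmall' i).mp ((hmH i h hh hi).mpr hS))
      · rw [Set.disjoint_left]
        intro p hp hS
        obtain ⟨i, hi⟩ := hexP p hp
        exact h0 ((hmall' i).mp ((hmP i p hp hi).mpr hS))

theorem hasTour_of_twoFac {far : E → E → Prop} (hfar : ∀ x y, far x y → far y x)
    {hs : List α} {ps : List β} {cH : α → E} {cP : β → E}
    (hnd : (hs.map cH ++ ps.map cP).Nodup) (hlen : hs.length = ps.length) (h2 : 2 ≤ hs.length)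
    {F : α → β → Prop}
    (hF : TwoFac {h | h ∈ hs} {p | p ∈ ps} (fun h p => far (cH h) (cP p)) F)
    (hconn : Conn {h | h ∈ hs} {p | p ∈ ps} F) :
    HasTour far (hs.map cH ++ ps.map cP) := by
  classical
  set P := hs.map cH ++ ps.map cP with hP
  obtain ⟨hnd1, hnd2, hdisj⟩ := List.nodup_append.mp hnd
  have hinjH : Set.InjOn cH {h | h ∈ hs} := List.inj_on_of_nodup_map hnd1
  have hinjP : Set.InjOn cP {p | p ∈ ps} := List.inj_on_of_nodup_map hnd2
  have hHP : ∀ h ∈ hs, ∀ p ∈ ps, cH h ≠ cP p := fun h hh p hp =>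
    hdisj _ (List.mem_map.mpr ⟨h, hh, rfl⟩) _ (List.mem_map.mpr ⟨p, hp, rfl⟩)
  let V := {x : E // x ∈ P}
  have : Finite V := List.finite_toSet P |>.to_subtype
  let G : SimpleGraph V :=
    { Adj := fun x y => ∃ h p, F h p ∧ ((x.1 = cH h ∧ y.1 = cP p) ∨ (x.1 = cP p ∧ y.1 = cH h))
      symm := ⟨by
        rintro x y ⟨h, p, h1, h3 | h3⟩
        · exact ⟨h, p, h1, Or.inr h3.symm⟩
        · exact ⟨h, p, h1, Or.inl h3.symm⟩⟩
      loopless := ⟨by
        rintro x ⟨h, p, h1, h3 | h3⟩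
        · exact hHP h (hF.sub h p h1).1 p (hF.sub h p h1).2.1 (h3.1.symm.trans h3.2)
        · exact hHP h (hF.sub h p h1).1 p (hF.sub h p h1).2.1 (h3.2.symm.trans h3.1)⟩ }
  have hvH : ∀ h ∈ hs, cH h ∈ P := fun h hh => List.mem_append.mpr (Or.inl (List.mem_map.mpr ⟨h, hh, rfl⟩))
  have hvP : ∀ p ∈ ps, cP p ∈ P := fun p hp => List.mem_append.mpr (Or.inr (List.mem_map.mpr ⟨p, hp, rfl⟩))
  have hnbH : ∀ h (hh : h ∈ hs), ∃ a b : V, a ≠ b ∧ G.neighborSet ⟨cH h, hvH h hh⟩ = {a, b} := by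
    intro h hh
    obtain ⟨p1, p2, hne, hiff⟩ := hF.row h hh
    have hp1 := (hF.sub h p1 ((hiff p1).mpr (Or.inl rfl))).2.1
    have hp2 := (hF.sub h p2 ((hiff p2).mpr (Or.inr rfl))).2.1
    refine ⟨⟨cP p1, hvP p1 hp1⟩, ⟨cP p2, hvP p2 hp2⟩, ?_, ?_⟩
    · intro h3
      exact hne (hinjP hp1 hp2 (Subtype.mk.inj h3))
    · ext ⟨y, hy⟩
      rw [SimpleGraph.mem_neighborSet, Set.mem_insert_iff, Set.mem_singleton_iff]
      constructor
      · rintro ⟨h', p', h3, ⟨h4, h5⟩ | ⟨h4, h5⟩⟩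
        · simp only at h4 h5
          have h6 : h = h' := hinjH hh (hF.sub h' p' h3).1 h4
          subst h6
          rcases (hiff p').mp h3 with rfl | rfl
          · left; exact Subtype.ext h5
          · right; exact Subtype.ext h5
        · simp only at h4 h5
          exact absurd h4 (hHP h hh p' (hF.sub h' p' h3).2.1)
      · rintro (h3 | h3)
        · exact ⟨h, p1, (hiff p1).mpr (Or.inl rfl), Or.inl ⟨rfl, Subtype.mk.inj h3⟩⟩
        · exact ⟨h, p2, (hiff p2).mpr (Or.inr rfl), Or.inl ⟨rfl, Subtype.mk.inj h3⟩⟩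
  have hnbP : ∀ p (hp : p ∈ ps), ∃ a b : V, a ≠ b ∧ G.neighborSet ⟨cP p, hvP p hp⟩ = {a, b} := by
    intro p hp
    obtain ⟨h1, h2, hne, hiff⟩ := hF.col p hp
    have hh1 := (hF.sub h1 p ((hiff h1).mpr (Or.inl rfl))).1
    have hh2 := (hF.sub h2 p ((hiff h2).mpr (Or.inr rfl))).1
    refine ⟨⟨cH h1, hvH h1 hh1⟩, ⟨cH h2, hvH h2 hh2⟩, ?_, ?_⟩
    · intro h3
      exact hne (hinjH hh1 hh2 (Subtype.mk.inj h3))
    · ext ⟨y, hy⟩
      rw [SimpleGraph.mem_neighborSet, Set.mem_insert_iff, Set.mem_singleton_iff]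
      constructor
      · rintro ⟨h', p', h3, ⟨h4, h5⟩ | ⟨h4, h5⟩⟩
        · simp only at h4 h5
          exact absurd h4.symm (hHP h' (hF.sub h' p' h3).1 p hp)
        · simp only at h4 h5
          have h6 : p = p' := hinjP hp (hF.sub h' p' h3).2.1 h4
          subst h6
          rcases (hiff h').mp h3 with rfl | rfl
          · left; exact Subtype.ext h5
          · right; exact Subtype.ext h5
      · rintro (h3 | h3)
        · exact ⟨h1, p, (hiff h1).mpr (Or.inl rfl), Or.inr ⟨rfl, Subtype.mk.inj h3⟩⟩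
        · exact ⟨h2, p, (hiff h2).mpr (Or.inr rfl), Or.inr ⟨rfl, Subtype.mk.inj h3⟩⟩
  have hnb : ∀ v : V, ∃ a b : V, a ≠ b ∧ G.neighborSet v = {a, b} := by
    rintro ⟨v, hv⟩
    have hv' := hv
    rw [hP, List.mem_append, List.mem_map, List.mem_map] at hv'
    rcases hv' with ⟨h, hh, rfl⟩ | ⟨p, hp, rfl⟩
    · exact hnbH h hh
    · exact hnbP p hp
  have hcyc : G.IsCycles := by
    intro v _
    obtain ⟨a, b, hab, heq⟩ := hnb v
    rw [heq]
    exact Set.ncard_pair hab
  -- a base vertex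
  obtain ⟨h0, hh0⟩ : ∃ h, h ∈ hs := by
    cases hs with
    | nil => simp at h2
    | cons a t => exact ⟨a, by simp⟩
  let v0 : V := ⟨cH h0, hvH h0 hh0⟩
  have hne0 : (G.neighborSet v0).Nonempty := by
    obtain ⟨a, b, hab, heq⟩ := hnb v0
    rw [heq]
    exact ⟨a, by simp⟩
  obtain ⟨w, hw, hsupp⟩ := hcyc.exists_cycle_toSubgraph_verts_eq_connectedComponentSupp
    (c := G.connectedComponentMk v0) rfl hne0
  -- the component is everything
  have hall : ∀ v : V, v ∈ (G.connectedComponentMk v0).supp := by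
    have hcl := hconn {h | ∃ hh : h ∈ hs, (⟨cH h, hvH h hh⟩ : V) ∈ (G.connectedComponentMk v0).supp}
      {p | ∃ hp : p ∈ ps, (⟨cP p, hvP p hp⟩ : V) ∈ (G.connectedComponentMk v0).supp} (by
        intro h p hFhp
        have hh := (hF.sub h p hFhp).1
        have hp := (hF.sub h p hFhp).2.1
        have hadj : G.Adj ⟨cH h, hvH h hh⟩ ⟨cP p, hvP p hp⟩ := ⟨h, p, hFhp, Or.inl ⟨rfl, rfl⟩⟩
        constructor
        · rintro ⟨_, h3⟩
          refine ⟨hp, ?_⟩
          rw [SimpleGraph.ConnectedComponent.mem_supp_iff] at h3 ⊢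
          rw [← h3]
          exact (SimpleGraph.ConnectedComponent.sound hadj.reachable).symm
        · rintro ⟨_, h3⟩
          refine ⟨hh, ?_⟩
          rw [SimpleGraph.ConnectedComponent.mem_supp_iff] at h3 ⊢
          rw [← h3]
          exact SimpleGraph.ConnectedComponent.sound hadj.reachable)
    rcases hcl with ⟨h3, h4⟩ | ⟨h3, h4⟩
    · rintro ⟨v, hv⟩
      have hv' := hv
      rw [hP, List.mem_append, List.mem_map, List.mem_map] at hv'
      rcases hv' with ⟨h, hh, rfl⟩ | ⟨p, hp, rfl⟩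
      · obtain ⟨_, h5⟩ := h3 hh
        exact h5
      · obtain ⟨_, h5⟩ := h4 hp
        exact h5
    · exfalso
      rw [Set.disjoint_left] at h3
      exact h3 hh0 ⟨hh0, rfl⟩
  have hmem : ∀ v : V, v ∈ w.support := by
    intro v
    rw [← SimpleGraph.Walk.mem_verts_toSubgraph, hsupp]
    exact hall v
  have hwlen : 3 ≤ w.length := hw.three_le_length
  have htail : ∀ v : V, v ∈ w.support.tail := by
    intro v
    have h3 := hmem v
    rw [← w.cons_tail_support, List.mem_cons] at h3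
    rcases h3 with rfl | h3
    · exact w.end_mem_tail_support (by
        intro hnil
        have := SimpleGraph.Walk.length_eq_zero_iff.mpr hnil
        omega)
    · exact h3
  have htlen : w.support.tail.length = w.length := by
    rw [List.length_tail, w.length_support]; omega
  refine ⟨w.support.tail.map Subtype.val, ?_, ?_⟩
  · rw [List.perm_ext_iff_of_nodup ?_ hnd]
    · intro x
      constructor
      · intro hx
        obtain ⟨v, _, rfl⟩ := List.mem_map.mp hx
        exact v.2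
      · intro hx
        exact List.mem_map.mpr ⟨⟨x, hx⟩, htail _, rfl⟩
    · exact hw.support_nodup.map Subtype.val_injective
  · intro i hi
    rw [List.length_map, htlen] at hi
    have hget : ∀ (k : ℕ) (hk : k < (w.support.tail.map Subtype.val).length),
        (w.support.tail.map Subtype.val)[k] = (w.getVert (k + 1)).1 := by
      intro k hk
      rw [List.getElem_map, List.getElem_tail]
      congr 1
      rw [SimpleGraph.Walk.support_getElem_eq_getVert]
    rw [hget, hget]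
    have hadjfar : ∀ x y : V, G.Adj x y → far x.1 y.1 := by
      rintro x y ⟨h, p, h3, ⟨h4, h5⟩ | ⟨h4, h5⟩⟩
      · rw [h4, h5]; exact (hF.sub h p h3).2.2
      · rw [h4, h5]; exact hfar _ _ (hF.sub h p h3).2.2
    apply hadjfar
    have hlen' : (w.support.tail.map Subtype.val).length = w.length := by
      rw [List.length_map, htlen]
    rw [hlen']
    by_cases hc : i + 1 < w.length
    · rw [Nat.mod_eq_of_lt hc]
      exact w.adj_getVert_succ hc
    · have : i + 1 = w.length := by omega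
      rw [this, Nat.mod_self, w.getVert_length]
      have h3 := w.adj_getVert_succ (i := 0) (by omega)
      rwa [w.getVert_zero] at h3

end Pool.Agent.Lib.H48MaxScatter
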