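import Pool.Agent.Lib.H48MaxScatter.Problem

/-!
# Planar Euclidean Max-Scatter TSP with integer coordinates in unary
-/

set_option autoImplicit false

namespace Pool.Agent.Lib.H48MaxScatter

open Pool.Agent.Lib.CookLevin

/-- a natural number in unary, followed by `0` -/
def encNatU (n : ℕ) : Word := List.replicate n true ++ [false]

/-- an integer: the sign, and the absolute value in unary -/
def encIntU (z : ℤ) : Word := decide (z < 0) :: encNatU z.natAbs

/-- an instance with integer coordinates: the points, each preceded by `1`, then `0`, then `L`; all
numbers are written in unary -/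
def encInstU (P : List (ℤ × ℤ)) (L : ℤ) : Word :=
  (P.flatMap fun p => true :: (encIntU p.1 ++ encIntU p.2)) ++ false :: encIntU L

/-- the decision version of the planar Euclidean Max-Scatter TSP for points with integer coordinates
and an integer `L`, all numbers being written in unary -/
def MaxScatterU (w : Word) : Prop :=
  ∃ (P : List (ℤ × ℤ)) (L : ℤ), w = encInstU P L ∧ P.Nodup ∧ 3 ≤ P.length ∧
    ∃ l : List Pt, IsRoundTrip (P.map fun p => ((p.1 : ℚ), (p.2 : ℚ))) (L : ℚ) l

end Pool.Agent.Lib.H48MaxScatter
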