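import Pool.Agent.Lib.H48MaxScatter.IntPT

/-!
# Natural numbers and integers in unary in polynomial time

`UN f`: the natural number `f a` can be written in unary in polynomial time. `UZ f`: the integer
`f a` is a difference of two natural numbers which can be written in unary in polynomial time.
-/

set_option autoImplicit false

namespace Pool.Agent.Lib.H48MaxScatter

open Pool.Agent.PolyTime

variable {α β : Type*} [Enc α] [Enc β]

/-- `f` can be written in unary in polynomial time -/
@[fun_prop]
def UN (f : α → ℕ) : Prop := PT fun a => List.replicate (f a) true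

namespace UN

lemma pt {f : α → ℕ} (hf : UN f) : PT f := by
  have h : PT fun a => List.replicate (f a) true := hf
  exact (PT.length h).congr fun a => by simp

lemma congr {f g : α → ℕ} (hf : UN f) (h : ∀ a, f a = g a) : UN g := by
  have : f = g := funext h
  rwa [← this]

@[fun_prop] lemma const (n : ℕ) : UN fun _ : α => n := PT.const _

@[fun_prop] lemma length {l : α → List β} (hl : PT l) : UN fun a => (l a).length := by
  have h := PT.map (f := fun (_ : α) (_ : β) => true) (by fun_prop) hl
  refine PT.congr h fun a => ?_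
  simp [List.map_const']

@[fun_prop] lemma add {f g : α → ℕ} (hf : UN f) (hg : UN g) : UN fun a => f a + g a := by
  have hf' : PT fun a => List.replicate (f a) true := hf
  have hg' : PT fun a => List.replicate (g a) true := hg
  refine PT.congr (PT.append hf' hg') fun a => ?_
  rw [List.replicate_add]

@[fun_prop] lemma mul {f g : α → ℕ} (hf : UN f) (hg : UN g) : UN fun a => f a * g a := by
  have hf' : PT fun a => List.replicate (f a) true := hf
  have hg' : PT fun a => List.replicate (g a) true := hg
  have h := PT.flatMap (f := fun (a : α) (_ : Bool) => List.replicate (g a) true)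
    (hg'.comp (by fun_prop)) hf'
  refine PT.congr h fun a => ?_
  rw [List.eq_replicate_iff]
  refine ⟨by simp [List.length_flatMap], fun b hb => ?_⟩
  simp only [List.mem_flatMap, List.mem_replicate] at hb
  obtain ⟨_, _, _, h⟩ := hb
  exact h

lemma comp {f : β → ℕ} {g : α → β} (hf : UN f) (hg : PT g) : UN fun a => f (g a) := by
  have hf' : PT fun b => List.replicate (f b) true := hf
  exact hf'.comp hg

lemma of_le {f g : α → ℕ} (hf : PT f) (hg : UN g) (h : ∀ a, f a ≤ g a) : UN f := by
  have hg' : PT fun a => List.replicate (g a) true := hg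
  have h1 := PT.flatMap (f := fun (a : α) (i : ℕ) => if i < f a then [true] else [])
    (l := fun a => List.range (List.replicate (g a) true).length)
    (PT.ite (p := fun p : α × ℕ => p.2 < f p.1)
      (PT.decide_lt (by fun_prop) (hf.comp (by fun_prop))) (by fun_prop) (by fun_prop))
    (PT.rangeLength hg')
  refine PT.congr h1 fun a => ?_
  have key : ∀ n m : ℕ, ((List.range n).flatMap fun i => if i < m then [true] else []) =
      List.replicate (min n m) true := by
    intro n m
    induction n with
    | zero => simp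
    | succ n ih =>
      rw [List.range_succ, List.flatMap_append, ih]
      by_cases hn : n < m
      · have e1 : min (n + 1) m = min n m + 1 := by omega
        rw [e1, List.replicate_succ']
        simp [hn]
      · have e1 : min (n + 1) m = min n m := by omega
        rw [e1]
        simp [hn]
  rw [key, List.length_replicate, Nat.min_eq_right (h a)]

@[fun_prop] lemma sub {f g : α → ℕ} (hf : UN f) (hg : UN g) : UN fun a => f a - g a :=
  of_le (PT.sub hf.pt hg.pt) hf fun _ => Nat.sub_le _ _

lemma ite {p : α → Prop} [DecidablePred p] {f g : α → ℕ} (hc : PT fun a => decide (p a))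
    (hf : UN f) (hg : UN g) : UN fun a => if p a then f a else g a := by
  have hf' : PT fun a => List.replicate (f a) true := hf
  have hg' : PT fun a => List.replicate (g a) true := hg
  refine PT.congr (PT.ite hc hf' hg') fun a => ?_
  by_cases h : p a <;> simp [h]

@[fun_prop] lemma min_left {f g : α → ℕ} (hf : UN f) (hg : PT g) : UN fun a => min (g a) (f a) := by
  refine of_le ?_ hf fun _ => Nat.min_le_right _ _
  have h : PT fun a => if g a ≤ f a then g a else f a :=
    PT.ite (p := fun a => g a ≤ f a) (PT.decide_le hg hf.pt) hg hf.pt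
  refine h.congr fun a => ?_
  rw [Nat.min_def]

end UN

/-- `f` is the difference of two functions which can be written in unary in polynomial time -/
@[fun_prop]
def UZ (f : α → ℤ) : Prop := ∃ p n : α → ℕ, UN p ∧ UN n ∧ ∀ a, f a = (p a : ℤ) - n a

namespace UZ

lemma zpt {f : α → ℤ} (hf : UZ f) : ZPT f := by
  obtain ⟨p, n, hp, hn, h⟩ := hf
  exact ⟨p, n, hp.pt, hn.pt, h⟩

@[fun_prop] lemma ofNat {f : α → ℕ} (hf : UN f) : UZ fun a => (f a : ℤ) :=
  ⟨f, fun _ => 0, hf, UN.const 0, fun a => by simp⟩

@[fun_prop] lemma const (z : ℤ) : UZ fun _ : α => z :=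
  ⟨fun _ => z.toNat, fun _ => (-z).toNat, UN.const _, UN.const _, fun _ => by beta_reduce; omega⟩

@[fun_prop] lemma add {f g : α → ℤ} (hf : UZ f) (hg : UZ g) : UZ fun a => f a + g a := by
  obtain ⟨p, n, hp, hn, h⟩ := hf
  obtain ⟨p', n', hp', hn', h'⟩ := hg
  exact ⟨fun a => p a + p' a, fun a => n a + n' a, by fun_prop, by fun_prop, fun a => by
    beta_reduce; rw [h, h']; push_cast; ring⟩

@[fun_prop] lemma neg {f : α → ℤ} (hf : UZ f) : UZ fun a => -f a := by
  obtain ⟨p, n, hp, hn, h⟩ := hf
  exact ⟨n, p, hn, hp, fun a => by beta_reduce; rw [h]; ring⟩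

@[fun_prop] lemma sub {f g : α → ℤ} (hf : UZ f) (hg : UZ g) : UZ fun a => f a - g a := by
  simp only [sub_eq_add_neg]
  exact add hf (neg hg)

@[fun_prop] lemma mul {f g : α → ℤ} (hf : UZ f) (hg : UZ g) : UZ fun a => f a * g a := by
  obtain ⟨p, n, hp, hn, h⟩ := hf
  obtain ⟨p', n', hp', hn', h'⟩ := hg
  exact ⟨fun a => p a * p' a + n a * n' a, fun a => p a * n' a + n a * p' a, by fun_prop,
    by fun_prop, fun a => by beta_reduce; rw [h, h']; push_cast; ring⟩

lemma comp {f : β → ℤ} {g : α → β} (hf : UZ f) (hg : PT g) : UZ fun a => f (g a) := by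
  obtain ⟨p, n, hp, hn, h⟩ := hf
  exact ⟨fun a => p (g a), fun a => n (g a), hp.comp hg, hn.comp hg, fun a => h (g a)⟩

lemma congr {f g : α → ℤ} (hf : UZ f) (h : ∀ a, f a = g a) : UZ g := by
  have : f = g := funext h
  rwa [← this]

lemma ite {p : α → Prop} [DecidablePred p] {f g : α → ℤ} (hc : PT fun a => decide (p a))
    (hf : UZ f) (hg : UZ g) : UZ fun a => if p a then f a else g a := by
  obtain ⟨p₁, n₁, hp₁, hn₁, h₁⟩ := hf
  obtain ⟨p₂, n₂, hp₂, hn₂, h₂⟩ := hg
  refine ⟨fun a => if p a then p₁ a else p₂ a, fun a => if p a then n₁ a else n₂ a,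
    UN.ite hc hp₁ hp₂, UN.ite hc hn₁ hn₂, fun a => ?_⟩
  by_cases h : p a <;> simp [h, h₁, h₂]

lemma natAbs {f : α → ℤ} (hf : UZ f) : UN fun a => (f a).natAbs := by
  obtain ⟨p, n, hp, hn, h⟩ := hf
  have : UN fun a => (p a - n a) + (n a - p a) := by fun_prop
  refine this.congr fun a => ?_
  rw [h]
  omega

end UZ

end Pool.Agent.Lib.H48MaxScatter
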