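import Pool.Agent.Lib.H48MaxScatter.ReducePT
import Pool.Agent.Lib.H48MaxScatter.UnaryPT
import Pool.Agent.Lib.H48MaxScatter.ProblemU

/-!
# Planar Euclidean Max-Scatter TSP with integer coordinates in unary

Instances with integer coordinates, all numbers written in unary. The reduction is still computable
in polynomial time, all coordinates being polynomially bounded: the problem is strongly NP-hard.
-/

set_option autoImplicit false

namespace Pool.Agent.Lib.H48MaxScatter

open Pool.Agent.Lib.CookLevin Pool.Agent.PolyTime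

/-! ### The encoding is injective -/

lemma encNatU_inj {m n : ℕ} {v w : Word} (h : encNatU m ++ v = encNatU n ++ w) :
    m = n ∧ v = w := by
  induction m generalizing n with
  | zero => cases n with
    | zero => simpa [encNatU] using h
    | succ n => simp [encNatU, List.replicate_succ] at h
  | succ m ih => cases n with
    | zero => simp [encNatU, List.replicate_succ] at h
    | succ n =>
      have h' : encNatU m ++ v = encNatU n ++ w := by
        simpa [encNatU, List.replicate_succ] using h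
      obtain ⟨h1, h2⟩ := ih h'
      exact ⟨by rw [h1], h2⟩

lemma encIntU_inj {y z : ℤ} {v w : Word} (h : encIntU y ++ v = encIntU z ++ w) :
    y = z ∧ v = w := by
  simp only [encIntU, List.cons_append, List.cons.injEq, decide_eq_decide] at h
  obtain ⟨h1, h2⟩ := h
  obtain ⟨h3, h4⟩ := encNatU_inj h2
  refine ⟨?_, h4⟩
  omega

theorem encInstU_inj {P P' : List (ℤ × ℤ)} {L L' : ℤ} (h : encInstU P L = encInstU P' L') :
    P = P' ∧ L = L' := by
  induction P generalizing P' with
  | nil => cases P' with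
    | nil =>
      simp only [encInstU, List.flatMap_nil, List.nil_append, List.cons.injEq, true_and] at h
      have h' : encIntU L ++ [] = encIntU L' ++ [] := by rw [h]
      exact ⟨rfl, (encIntU_inj h').1⟩
    | cons p P' => simp [encInstU] at h
  | cons p P ih => cases P' with
    | nil => simp [encInstU] at h
    | cons p' P' =>
      simp only [encInstU, List.flatMap_cons, List.cons_append, List.append_assoc,
        List.cons.injEq, true_and] at h
      obtain ⟨h1, h2⟩ := encIntU_inj h
      obtain ⟨h3, h4⟩ := encIntU_inj h2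
      obtain ⟨h5, h6⟩ := ih h4
      exact ⟨by rw [h5, Prod.ext h1 h3], h6⟩

/-! ### The reduction -/

/-- the word of the instance of a formula, numbers in unary -/
def wordU (f : List (List (ℕ × Bool))) : Word := encInstU (intPts f) (datOf f).zZ

namespace RPT

variable {α : Type*} [Enc α]

/-! ### The constants -/

@[fun_prop] lemma UN_N {g : α → Fm} (hg : PT g) : UN fun a => (datOf (g a)).N := by
  have h : UN fun a => (clauses (g a)).length + 1 := by fun_prop
  exact h

@[fun_prop] lemma UN_V {g : α → Fm} (hg : PT g) : UN fun a => (datOf (g a)).V :=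
  UN.length (l := fun a => vars (g a)) (PT_vars hg)

lemma UN_lin (c k : ℕ) {m : α → ℕ} (hm : UN m) : UN fun a => c * m a + k :=
  UN.add (UN.mul (UN.const c) hm) (UN.const k)

@[fun_prop] lemma UN_I {g : α → Fm} (hg : PT g) : UN fun a => (datOf (g a)).I :=
  UN_lin 32 64 (UN_V hg)
@[fun_prop] lemma UZ_I {g : α → Fm} (hg : PT g) : UZ fun a => (datOf (g a)).zI := by
  unfold Dat.zI; fun_prop
@[fun_prop] lemma UZ_Q {g : α → Fm} (hg : PT g) : UZ fun a => (datOf (g a)).zQ := by
  unfold Dat.zQ; fun_prop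
@[fun_prop] lemma UZ_Lp {g : α → Fm} (hg : PT g) : UZ fun a => (datOf (g a)).zLp := by
  unfold Dat.zLp; fun_prop
@[fun_prop] lemma UZ_Lam {g : α → Fm} (hg : PT g) : UZ fun a => (datOf (g a)).zLam := by
  unfold Dat.zLam; fun_prop
@[fun_prop] lemma UZ_Zp {g : α → Fm} (hg : PT g) : UZ fun a => (datOf (g a)).zZp := by
  unfold Dat.zZp; fun_prop
@[fun_prop] lemma UZ_G {g : α → Fm} (hg : PT g) : UZ fun a => (datOf (g a)).zG := by
  unfold Dat.zG; fun_prop
@[fun_prop] lemma UZ_M' {g : α → Fm} (hg : PT g) : UZ fun a => (datOf (g a)).zM' := by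
  unfold Dat.zM'; fun_prop
@[fun_prop] lemma UZ_M {g : α → Fm} (hg : PT g) : UZ fun a => (datOf (g a)).zM := by
  unfold Dat.zM; fun_prop
@[fun_prop] lemma UZ_T {g : α → Fm} (hg : PT g) : UZ fun a => (datOf (g a)).zT := by
  unfold Dat.zT; fun_prop
@[fun_prop] lemma UZ_Z {g : α → Fm} (hg : PT g) : UZ fun a => (datOf (g a)).zZ := by
  unfold Dat.zZ; fun_prop
@[fun_prop] lemma UZ_Y0 {g : α → Fm} (hg : PT g) : UZ fun a => (datOf (g a)).zY0 := by
  unfold Dat.zY0; fun_prop

/-! ### Words -/

@[fun_prop] lemma PT_encNatU {n : α → ℕ} (hn : UN n) : PT fun a => encNatU (n a) := by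
  have hn' : PT fun a => List.replicate (n a) true := hn
  exact PT.append hn' (PT.const _)

@[fun_prop] lemma PT_encIntU {z : α → ℤ} (hz : UZ z) : PT fun a => encIntU (z a) :=
  PT.cons (hz.zpt.decide_lt (ZPT.const 0)) (PT_encNatU hz.natAbs)

/-- the word of a point -/
def wdU (z : ℤ × ℤ) : Word := true :: (encIntU z.1 ++ encIntU z.2)

lemma PT_wdU {z : α → ℤ × ℤ} (h1 : UZ fun a => (z a).1) (h2 : UZ fun a => (z a).2) :
    PT fun a => wdU (z a) := by
  unfold wdU
  fun_prop

/-! ### Coordinates -/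

lemma PTU_eqN {g : α → Fm} {c : α → ℕ} (hg : PT g) (hc : UN c) :
    PT fun a => decide (c a = (datOf (g a)).N) := PT.decide_eq hc.pt (PT_N hg)

lemma PTU_eqN1 {g : α → Fm} {c : α → ℕ} (hg : PT g) (hc : UN c) :
    PT fun a => decide (c a = (datOf (g a)).N + 1) := PT.decide_eq hc.pt (PT.succ (PT_N hg))

lemma PTU_corner {g : α → Fm} {c p q : α → ℕ} (hg : PT g) (hc : UN c) (hp : UN p) (hq : UN q) :
    PT fun a => wdU ((datOf (g a)).cP (.corner (c a) (p a) (q a))) := by
  have e1 := PTU_eqN hg hc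
  have e2 := PTU_eqN1 hg hc
  refine PT_wdU ?_ ?_
  · simp only [Dat.cP, apply_ite Prod.fst]
    exact UZ.ite e1 (by fun_prop) (UZ.ite e2 (by fun_prop) (by fun_prop))
  · simp only [Dat.cP, apply_ite Prod.snd]
    exact UZ.ite e1 (by fun_prop) (UZ.ite e2 (by fun_prop) (by fun_prop))

lemma PTU_mid {g : α → Fm} {e z : α → ℕ} (hg : PT g) (he : UN e) (hz : UN z) :
    PT fun a => wdU ((datOf (g a)).cP (.mid (e a) (z a))) := by
  have e2 := PTU_eqN1 hg he
  refine PT_wdU ?_ ?_
  · simp only [Dat.cP, apply_ite Prod.fst]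
    exact UZ.ite e2 (by fun_prop) (by fun_prop)
  · simp only [Dat.cP, apply_ite Prod.snd]
    exact UZ.ite e2 (by fun_prop) (by fun_prop)

@[fun_prop] lemma UZ_slope {g : α → Fm} {c : α → ℕ} (hg : PT g) (hc : UN c) (k : Kind) :
    UZ fun a => (datOf (g a)).slope (c a) k := by
  cases k <;> (unfold Dat.slope; fun_prop)

lemma PTU_edge {g : α → Fm} {e t : α → ℕ} (hg : PT g) (he : UN e) (ht : UN t) :
    PT fun a => wdU ((datOf (g a)).cH (.edge (e a) (t a))) := by
  have e2 := PTU_eqN1 hg he
  refine PT_wdU ?_ ?_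
  · simp only [Dat.cH, apply_ite Prod.fst, Dat.up]
    exact UZ.ite e2 (by fun_prop) (by fun_prop)
  · simp only [Dat.cH, apply_ite Prod.snd, Dat.up]
    exact UZ.ite e2 (by fun_prop) (by fun_prop)

lemma PTU_loc {g : α → Fm} {c t : α → ℕ} (k : Kind) (hg : PT g) (hc : UN c) (ht : UN t) :
    PT fun a => wdU ((datOf (g a)).cH (.loc (c a) k (t a))) := by
  have e1 := PTU_eqN hg hc
  have e2 := PTU_eqN1 hg hc
  refine PT_wdU ?_ ?_
  · simp only [Dat.cH, apply_ite Prod.fst, Dat.up]
    exact UZ.ite e1 (by fun_prop) (UZ.ite e2 (by fun_prop) (by fun_prop))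
  · simp only [Dat.cH, apply_ite Prod.snd, Dat.up]
    exact UZ.ite e1 (by fun_prop) (UZ.ite e2 (by fun_prop) (by fun_prop))

end RPT

namespace RPT

variable {α : Type*} [Enc α]

/-- the word of a far point -/
def uH (f : Fm) (h : HN) : Word := wdU ((datOf f).cH ((datOf f).dH h))

/-- the word of a point of the cluster -/
def uP (f : Fm) (p : PN) : Word := wdU ((datOf f).cP ((datOf f).dP p))

lemma wordU_eq (f : Fm) : wordU f = (datOf f).hps.flatMap (uH f) ++
    (datOf f).pts.flatMap (uP f) ++ false :: encIntU (datOf f).zZ := by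
  simp only [wordU, encInstU, intPts, List.flatMap_append, List.flatMap_map]
  rfl

/-- nested loops -/
lemma PT_loopU {β γ : Type*} [Enc β] [Enc γ] {l : α → List β} {k : α → ℕ → List γ}
    (hl : PT l) (hk : PT fun p : α × ℕ => k p.1 (min p.2 (l p.1).length)) :
    PT fun a => (List.range (l a).length).flatMap (k a) := by
  refine (PT.flatMap (f := fun a n => k a (min n (l a).length)) hk (PT.rangeLength hl)).congr
    fun a => ?_
  refine List.flatMap_congr fun n hn => ?_
  rw [List.mem_range] at hn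
  rw [Nat.min_eq_left hn.le]

/-! #### the far points -/

section names

variable {g : α → Fm} {e m : α → ℕ}

lemma uH_T0 (hg : PT g) (he : UN e) : PT fun a => uH (g a) (HN.T (e a) false) :=
  PTU_edge hg he (UN.const 6)
lemma uH_T1 (hg : PT g) (he : UN e) : PT fun a => uH (g a) (HN.T (e a) true) :=
  PTU_edge hg he (UN_lin 16 8 (UN_V hg))
lemma uH_HA (hg : PT g) (he : UN e) (hm : UN m) : PT fun a => uH (g a) (HN.HA (e a) (m a)) :=
  PTU_edge hg he (UN_lin 16 10 hm)
lemma uH_HB (hg : PT g) (he : UN e) (hm : UN m) : PT fun a => uH (g a) (HN.HB (e a) (m a)) :=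
  PTU_edge hg he (UN_lin 16 18 hm)
lemma uH_GlA (hg : PT g) (he : UN e) (hm : UN m) : PT fun a => uH (g a) (HN.GlA (e a) (m a)) :=
  PTU_loc .L hg he (UN_lin 16 14 hm)
lemma uH_GlB (hg : PT g) (he : UN e) (hm : UN m) : PT fun a => uH (g a) (HN.GlB (e a) (m a)) :=
  PTU_loc .L hg he (UN_lin 16 22 hm)
lemma uH_GrA (hg : PT g) (he : UN e) (hm : UN m) : PT fun a => uH (g a) (HN.GrA (e a) (m a)) :=
  PTU_loc .R hg he (UN_lin 16 14 hm)
lemma uH_GrB (hg : PT g) (he : UN e) (hm : UN m) : PT fun a => uH (g a) (HN.GrB (e a) (m a)) :=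
  PTU_loc .R hg he (UN_lin 16 22 hm)
lemma uH_Go (hg : PT g) (he : UN e) (hm : UN m) : PT fun a => uH (g a) (HN.Go (e a) (m a)) :=
  PTU_loc .M hg he (UN_lin 16 18 hm)
lemma uH_D (hg : PT g) (hm : UN m) : PT fun a => uH (g a) (HN.D (m a)) :=
  PTU_edge hg (e := fun a => (datOf (g a)).N + 1) (by fun_prop) (UN_lin 16 8 hm)
lemma uH_D' (hg : PT g) (hm : UN m) : PT fun a => uH (g a) (HN.D' (m a)) :=
  PTU_edge hg (e := fun a => (datOf (g a)).N + 1) (by fun_prop) (UN_lin 16 21 hm)
lemma uH_D1 (hg : PT g) (hm : UN m) : PT fun a => uH (g a) (HN.D1 (m a)) :=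
  PTU_loc .M hg (c := fun a => (datOf (g a)).N + 1) (by fun_prop) (UN_lin 16 17 hm)
lemma uH_D2 (hg : PT g) (hm : UN m) : PT fun a => uH (g a) (HN.D2 (m a)) :=
  PTU_loc .M hg (c := fun a => (datOf (g a)).N) (by fun_prop) (UN_lin 16 17 hm)

/-! #### the points of the cluster -/

lemma uP_l0 (hg : PT g) (he : UN e) (hm : UN m) : PT fun a => uP (g a) (PN.l0 (e a) (m a)) := by
  refine PTU_corner (p := fun a => if (datOf (g a)).pos (e a) (m a) then 16 * m a + 8
    else (datOf (g a)).I) hg he ?_ (UN_lin 16 4 hm)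
  refine UN.ite ?_ (UN_lin 16 8 hm) (by fun_prop)
  simpa using PT_pos hg he.pt hm.pt

lemma uP_r0 (hg : PT g) (he : UN e) (hm : UN m) : PT fun a => uP (g a) (PN.r0 (e a) (m a)) := by
  refine PTU_corner (q := fun a => if (datOf (g a)).neg (e a) (m a) then 16 * m a + 8
    else (datOf (g a)).I) hg he (UN_lin 16 4 hm) ?_
  refine UN.ite ?_ (UN_lin 16 8 hm) (by fun_prop)
  simpa using PT_neg hg he.pt hm.pt

lemma uP_l1 (hg : PT g) (he : UN e) (hm : UN m) : PT fun a => uP (g a) (PN.l1 (e a) (m a)) :=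
  PTU_corner hg he (UN_I hg) (UN_lin 16 12 hm)

lemma uP_r1 (hg : PT g) (he : UN e) (hm : UN m) : PT fun a => uP (g a) (PN.r1 (e a) (m a)) :=
  PTU_corner hg he (UN_lin 16 12 hm) (UN_I hg)

lemma uP_oA (hg : PT g) (he : UN e) (hm : UN m) : PT fun a => uP (g a) (PN.oA (e a) (m a)) := by
  refine PTU_corner (p := fun a => if e a = (datOf (g a)).N + 1 then 16 * m a + 7 else 16 * m a + 8)
    (q := fun a => if e a = (datOf (g a)).N then 16 * m a + 7 else 16 * m a + 8) hg he ?_ ?_
  · exact UN.ite (PTU_eqN1 hg he) (UN_lin 16 7 hm) (UN_lin 16 8 hm)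
  · exact UN.ite (PTU_eqN hg he) (UN_lin 16 7 hm) (UN_lin 16 8 hm)

lemma uP_oB (hg : PT g) (he : UN e) (hm : UN m) : PT fun a => uP (g a) (PN.oB (e a) (m a)) :=
  PTU_corner hg he (UN_lin 16 16 hm) (UN_lin 16 16 hm)

lemma uP_q (hg : PT g) (he : UN e) (hm : UN m) : PT fun a => uP (g a) (PN.q (e a) (m a)) := by
  refine PTU_mid (z := fun a => if e a = (datOf (g a)).N + 1 then 16 * m a + 9 else 16 * m a + 8)
    hg he ?_
  exact UN.ite (PTU_eqN1 hg he) (UN_lin 16 9 hm) (UN_lin 16 8 hm)

lemma uP_qA (hg : PT g) (he : UN e) (hm : UN m) : PT fun a => uP (g a) (PN.qA (e a) (m a)) := by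
  have h1 := PTU_corner hg (c := fun a => (datOf (g a)).N + 1) (by fun_prop) (UN_lin 16 14 hm)
    (UN_lin 16 8 hm)
  have h2 := PTU_corner hg (UN_N hg) (UN_lin 16 8 hm) (UN_lin 16 14 hm)
  have h := PT.ite (p := fun a => e a = 0) (PT.decide_eq he.pt (PT.const 0)) h1 h2
  refine h.congr fun a => ?_
  by_cases h0 : e a = 0 <;> simp [uP, Dat.dP, h0]

lemma uP_qB (hg : PT g) (he : UN e) (hm : UN m) : PT fun a => uP (g a) (PN.qB (e a) (m a)) := by
  have h1 := PTU_corner hg (c := fun a => (datOf (g a)).N + 1) (by fun_prop) (UN_lin 16 20 hm)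
    (UN_lin 16 16 hm)
  have h2 := PTU_corner hg (UN_N hg) (UN_lin 16 16 hm) (UN_lin 16 20 hm)
  have h := PT.ite (p := fun a => e a = 0) (PT.decide_eq he.pt (PT.const 0)) h1 h2
  refine h.congr fun a => ?_
  by_cases h0 : e a = 0 <;> simp [uP, Dat.dP, h0]

lemma uP_x0 (hg : PT g) (he : UN e) : PT fun a => uP (g a) (PN.x (e a) false) :=
  PTU_corner hg he (UN.const 4) (UN.const 4)

lemma uP_x1 (hg : PT g) (he : UN e) : PT fun a => uP (g a) (PN.x (e a) true) := by
  refine PTU_corner (p := fun a => if e a = (datOf (g a)).N + 1 then 16 * (datOf (g a)).V + 7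
      else 16 * (datOf (g a)).V + 4)
    (q := fun a => if e a = (datOf (g a)).N then 16 * (datOf (g a)).V + 7
      else 16 * (datOf (g a)).V + 4) hg he ?_ ?_
  · exact UN.ite (PTU_eqN1 hg he) (UN_lin 16 7 (UN_V hg)) (UN_lin 16 4 (UN_V hg))
  · exact UN.ite (PTU_eqN hg he) (UN_lin 16 7 (UN_V hg)) (UN_lin 16 4 (UN_V hg))

end names

/-! ### Assembly -/

lemma PTU_hps : PT fun f : Fm => (datOf f).hps.flatMap (uH f) := by
  have key : ∀ f : Fm, (datOf f).hps.flatMap (uH f) =
      ((List.range (lN2 f).length).flatMap fun e =>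
        uH f (HN.T e false) ++ uH f (HN.T e true)) ++
      ((List.range (lN2 f).length).flatMap fun e => (List.range (vars f).length).flatMap fun m =>
        uH f (HN.HA e m) ++ uH f (HN.HB e m)) ++
      ((List.range (lN f).length).flatMap fun e => (List.range (vars f).length).flatMap fun m =>
        uH f (HN.GlA e m) ++ (uH f (HN.GlB e m) ++ (uH f (HN.GrA e m) ++
          (uH f (HN.GrB e m) ++ uH f (HN.Go e m))))) ++
      ((List.range (vars f).length).flatMap fun m =>
        uH f (HN.D m) ++ (uH f (HN.D' m) ++ (uH f (HN.D1 m) ++ uH f (HN.D2 m)))) := by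
    intro f
    simp only [Dat.hps, List.flatMap_append, List.flatMap_assoc, List.flatMap_cons,
      List.flatMap_nil, List.append_nil]
    rfl
  refine PT.congr ?_ fun f => (key f).symm
  refine PT.append (PT.append (PT.append ?_ ?_) ?_) ?_
  · refine PT_loopU (l := fun f : Fm => lN2 f) (k := fun f e =>
      uH f (HN.T e false) ++ uH f (HN.T e true)) (by fun_prop) ?_
    exact PT.append (uH_T0 (by fun_prop) (by fun_prop)) (uH_T1 (by fun_prop) (by fun_prop))
  · refine PT_loopU (l := fun f : Fm => lN2 f) (k := fun f e =>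
      (List.range (vars f).length).flatMap fun m => uH f (HN.HA e m) ++ uH f (HN.HB e m))
      (by fun_prop) ?_
    refine PT_loopU (l := fun p : Fm × ℕ => vars p.1) (k := fun p m =>
      uH p.1 (HN.HA (min p.2 (lN2 p.1).length) m) ++ uH p.1 (HN.HB (min p.2 (lN2 p.1).length) m)) (by fun_prop) ?_
    exact PT.append (uH_HA (by fun_prop) (by fun_prop) (by fun_prop))
      (uH_HB (by fun_prop) (by fun_prop) (by fun_prop))
  · refine PT_loopU (l := fun f : Fm => lN f) (k := fun f e =>
      (List.range (vars f).length).flatMap fun m =>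
        uH f (HN.GlA e m) ++ (uH f (HN.GlB e m) ++ (uH f (HN.GrA e m) ++
          (uH f (HN.GrB e m) ++ uH f (HN.Go e m))))) (by fun_prop) ?_
    refine PT_loopU (l := fun p : Fm × ℕ => vars p.1) (k := fun p m =>
        uH p.1 (HN.GlA (min p.2 (lN p.1).length) m) ++ (uH p.1 (HN.GlB (min p.2 (lN p.1).length) m) ++ (uH p.1 (HN.GrA (min p.2 (lN p.1).length) m) ++
          (uH p.1 (HN.GrB (min p.2 (lN p.1).length) m) ++ uH p.1 (HN.Go (min p.2 (lN p.1).length) m))))) (by fun_prop) ?_
    exact PT.append (uH_GlA (by fun_prop) (by fun_prop) (by fun_prop))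
      (PT.append (uH_GlB (by fun_prop) (by fun_prop) (by fun_prop))
      (PT.append (uH_GrA (by fun_prop) (by fun_prop) (by fun_prop))
      (PT.append (uH_GrB (by fun_prop) (by fun_prop) (by fun_prop))
      (uH_Go (by fun_prop) (by fun_prop) (by fun_prop)))))
  · refine PT_loopU (l := fun f : Fm => vars f) (k := fun f m =>
      uH f (HN.D m) ++ (uH f (HN.D' m) ++ (uH f (HN.D1 m) ++ uH f (HN.D2 m)))) (by fun_prop) ?_
    exact PT.append (uH_D (by fun_prop) (by fun_prop)) (PT.append (uH_D' (by fun_prop)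
      (by fun_prop)) (PT.append (uH_D1 (by fun_prop) (by fun_prop)) (uH_D2 (by fun_prop)
      (by fun_prop))))

lemma PTU_pts : PT fun f : Fm => (datOf f).pts.flatMap (uP f) := by
  have key : ∀ f : Fm, (datOf f).pts.flatMap (uP f) =
      ((List.range (lN f).length).flatMap fun j => (List.range (lV1 f).length).flatMap fun m =>
        uP f (PN.l0 j m) ++ uP f (PN.r0 j m)) ++
      ((List.range (lN f).length).flatMap fun j => (List.range (vars f).length).flatMap fun m =>
        uP f (PN.l1 j m) ++ uP f (PN.r1 j m)) ++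
      ((List.range (lN2 f).length).flatMap fun c => (List.range (vars f).length).flatMap fun m =>
        uP f (PN.oA c m) ++ uP f (PN.oB c m)) ++
      ((List.range (clauses f).length).flatMap fun e => (List.range (vars f).length).flatMap
        fun m => uP f (PN.q (e + 1) m)) ++
      ((List.range (vars f).length).flatMap fun m =>
        uP f (PN.q ((datOf f).N + 1) m) ++ (uP f (PN.qA 0 m) ++ (uP f (PN.qB 0 m) ++
        (uP f (PN.qA (datOf f).N m) ++ uP f (PN.qB (datOf f).N m))))) ++
      (uP f (PN.x (datOf f).N false) ++ (uP f (PN.x (datOf f).N true) ++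
        (uP f (PN.x ((datOf f).N + 1) false) ++ uP f (PN.x ((datOf f).N + 1) true)))) := by
    intro f
    simp only [Dat.pts, List.flatMap_append, List.flatMap_assoc, List.flatMap_cons,
      List.flatMap_nil, List.append_nil, List.flatMap_map]
    rfl
  refine PT.congr ?_ fun f => (key f).symm
  refine PT.append (PT.append (PT.append (PT.append (PT.append ?_ ?_) ?_) ?_) ?_) ?_
  · refine PT_loopU (l := fun f : Fm => lN f) (k := fun f j =>
      (List.range (lV1 f).length).flatMap fun m => uP f (PN.l0 j m) ++ uP f (PN.r0 j m))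
      (by fun_prop) ?_
    refine PT_loopU (l := fun p : Fm × ℕ => lV1 p.1) (k := fun p m =>
      uP p.1 (PN.l0 (min p.2 (lN p.1).length) m) ++ uP p.1 (PN.r0 (min p.2 (lN p.1).length) m)) (by fun_prop) ?_
    exact PT.append (uP_l0 (by fun_prop) (by fun_prop) (by fun_prop))
      (uP_r0 (by fun_prop) (by fun_prop) (by fun_prop))
  · refine PT_loopU (l := fun f : Fm => lN f) (k := fun f j =>
      (List.range (vars f).length).flatMap fun m => uP f (PN.l1 j m) ++ uP f (PN.r1 j m))
      (by fun_prop) ?_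
    refine PT_loopU (l := fun p : Fm × ℕ => vars p.1) (k := fun p m =>
      uP p.1 (PN.l1 (min p.2 (lN p.1).length) m) ++ uP p.1 (PN.r1 (min p.2 (lN p.1).length) m)) (by fun_prop) ?_
    exact PT.append (uP_l1 (by fun_prop) (by fun_prop) (by fun_prop))
      (uP_r1 (by fun_prop) (by fun_prop) (by fun_prop))
  · refine PT_loopU (l := fun f : Fm => lN2 f) (k := fun f j =>
      (List.range (vars f).length).flatMap fun m => uP f (PN.oA j m) ++ uP f (PN.oB j m))
      (by fun_prop) ?_
    refine PT_loopU (l := fun p : Fm × ℕ => vars p.1) (k := fun p m =>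
      uP p.1 (PN.oA (min p.2 (lN2 p.1).length) m) ++ uP p.1 (PN.oB (min p.2 (lN2 p.1).length) m)) (by fun_prop) ?_
    exact PT.append (uP_oA (by fun_prop) (by fun_prop) (by fun_prop))
      (uP_oB (by fun_prop) (by fun_prop) (by fun_prop))
  · refine PT_loopU (l := fun f : Fm => clauses f) (k := fun f e =>
      (List.range (vars f).length).flatMap fun m => uP f (PN.q (e + 1) m)) (by fun_prop) ?_
    refine PT_loopU (l := fun p : Fm × ℕ => vars p.1) (k := fun p m =>
      uP p.1 (PN.q (min p.2 (clauses p.1).length + 1) m)) (by fun_prop) ?_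
    exact uP_q (e := fun p : (Fm × ℕ) × ℕ => min p.1.2 (clauses p.1.1).length + 1) (by fun_prop) (by fun_prop) (by fun_prop)
  · refine PT_loopU (l := fun f : Fm => vars f) (k := fun f m =>
        uP f (PN.q ((datOf f).N + 1) m) ++ (uP f (PN.qA 0 m) ++ (uP f (PN.qB 0 m) ++
        (uP f (PN.qA (datOf f).N m) ++ uP f (PN.qB (datOf f).N m))))) (by fun_prop) ?_
    exact PT.append (uP_q (e := fun p : Fm × ℕ => (datOf p.1).N + 1) (by fun_prop) (by fun_prop)
        (by fun_prop))
      (PT.append (uP_qA (e := fun _ => 0) (by fun_prop) (by fun_prop) (by fun_prop))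
      (PT.append (uP_qB (e := fun _ => 0) (by fun_prop) (by fun_prop) (by fun_prop))
      (PT.append (uP_qA (e := fun p : Fm × ℕ => (datOf p.1).N) (by fun_prop) (by fun_prop)
        (by fun_prop))
      (uP_qB (e := fun p : Fm × ℕ => (datOf p.1).N) (by fun_prop) (by fun_prop)
        (by fun_prop)))))
  · exact PT.append (uP_x0 (e := fun f : Fm => (datOf f).N) (by fun_prop) (by fun_prop))
      (PT.append (uP_x1 (e := fun f : Fm => (datOf f).N) (by fun_prop) (by fun_prop))
      (PT.append (uP_x0 (e := fun f : Fm => (datOf f).N + 1) (by fun_prop) (by fun_prop))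
      (uP_x1 (e := fun f : Fm => (datOf f).N + 1) (by fun_prop) (by fun_prop))))

end RPT

open RPT in
theorem PT_wordU : PT wordU := by
  refine PT.congr ?_ fun f => (wordU_eq f).symm
  refine PT.append (PT.append PTU_hps PTU_pts) ?_
  exact PT.cons (PT.const _) (PT_encIntU (by fun_prop))

end Pool.Agent.Lib.H48MaxScatter
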