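import Pool.Agent.Lib.CookLevin.TMLocal
import Pool.Agent.Lib.H48MaxScatter.Tour
import Pool.Agent.Lib.H48MaxScatter.Sound
import Pool.Agent.Lib.H48MaxScatter.Complete
import Pool.Agent.Lib.H48MaxScatter.Encode
import Pool.Agent.Lib.H48MaxScatter.InNP
import Pool.Agent.Lib.H48MaxScatter.ReducePT
import Pool.Agent.Lib.H48MaxScatter.Unary
import Pool.Agent.Lib.H48MaxScatter.GeomFar
import Pool.Agent.Lib.H48MaxScatter.GeomInj

/-!
# The planar Euclidean Max-Scatter TSP is NP-complete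
-/

set_option autoImplicit false

namespace Pool.Agent.Lib.H48MaxScatter

open Pool.Agent.Lib.CookLevin

/-! ### Integer points -/

/-- an integer point as a rational point -/
def toQ (z : ℤ × ℤ) : Pt := ((z.1 : ℚ), (z.2 : ℚ))

/-- the inverse map -/
def ofQ (p : Pt) : ℤ × ℤ := (p.1.num, p.2.num)

lemma ofQ_toQ (z : ℤ × ℤ) : ofQ (toQ z) = z := by
  simp [ofQ, toQ]

lemma toQ_inj : Function.Injective toQ := fun a b h => by
  rw [← ofQ_toQ a, ← ofQ_toQ b, h]

lemma le_dist_iff {z : ℤ} (hz : 0 ≤ z) (a b : ℤ × ℤ) :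
    (((z : ℤ) : ℚ) : ℝ) ≤ dist (toQ a).toE (toQ b).toE ↔ z ^ 2 ≤ sqd a b := by
  have h1 : dist (toQ a).toE (toQ b).toE = Real.sqrt ((sqd a b : ℤ) : ℝ) := by
    rw [EuclideanSpace.dist_eq]
    congr 1
    rw [Fin.sum_univ_two]
    simp only [Pt.toE, toQ, sqd, Real.dist_eq, sq_abs]
    push_cast
    simp
  rw [h1]
  have h2 : (((z : ℤ) : ℚ) : ℝ) = ((z : ℤ) : ℝ) := by push_cast; rfl
  have h3 : 0 ≤ sqd a b := by unfold sqd; positivity
  rw [h2, Real.le_sqrt (by exact_mod_cast hz) (by exact_mod_cast h3)]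
  exact_mod_cast Iff.rfl

/-- round-trips of integer points -/
theorem roundTrip_iff {z : ℤ} (hz : 0 ≤ z) (P : List (ℤ × ℤ)) :
    (∃ l, IsRoundTrip (P.map toQ) ((z : ℤ) : ℚ) l) ↔ HasTour (fun a b => z ^ 2 ≤ sqd a b) P := by
  constructor
  · rintro ⟨l, hl, hd⟩
    have hm : ∀ x ∈ l, toQ (ofQ x) = x := by
      intro x hx
      obtain ⟨y, _, rfl⟩ := List.mem_map.1 (hl.mem_iff.1 hx)
      rw [ofQ_toQ]
    refine ⟨l.map ofQ, ?_, ?_⟩
    · have := hl.map ofQ
      rw [List.map_map] at this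
      have e : ofQ ∘ toQ = id := funext ofQ_toQ
      rw [e, List.map_id] at this
      exact this
    · intro i hi
      rw [List.length_map] at hi
      have h1 := hd i hi
      rw [← hm _ (List.getElem_mem hi), ← hm _ (List.getElem_mem (Nat.mod_lt (i + 1)
        (show 0 < l.length by omega))), le_dist_iff hz] at h1
      simpa using h1
  · rintro ⟨l, hl, hd⟩
    refine ⟨l.map toQ, hl.map toQ, ?_⟩
    intro i hi
    rw [List.length_map] at hi
    have h1 := (le_dist_iff hz _ _).2 (hd i hi)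
    simpa using h1


/-! ### The arrangement -/

theorem sqd_comm (a b : ℤ × ℤ) : sqd a b = sqd b a := by
  unfold sqd
  ring

namespace Dat

variable (d : Dat)

/-- the points of the instance -/
def inst : List (ℤ × ℤ) :=
  d.hps.map (fun h => d.cH (d.dH h)) ++ d.pts.map (fun p => d.cP (d.dP p))

lemma nodup_inst : d.inst.Nodup := by
  refine List.Nodup.append ?_ ?_ ?_
  · refine List.Nodup.map_on ?_ d.nodup_hps
    intro h hh h' hh' e
    exact d.cH_inj (d.mem_hps.1 hh) (d.mem_hps.1 hh') e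
  · refine List.Nodup.map_on ?_ d.nodup_pts
    intro p hp p' hp' e
    exact d.cP_inj (d.mem_pts.1 hp) (d.mem_pts.1 hp') e
  · intro x h1 h2
    obtain ⟨h, hh, rfl⟩ := List.mem_map.1 h1
    obtain ⟨p, hp, e⟩ := List.mem_map.1 h2
    exact d.cH_ne_cP (d.mem_hps.1 hh) (d.mem_pts.1 hp) e.symm

lemma two_le_length : 2 ≤ d.hps.length := by
  have hN := d.hN
  have hV := d.hV
  unfold hps
  simp [List.length_flatMap]
  omega

lemma twoFac_congr {α β : Type*} {VH VH' : Set α} {VP VP' : Set β} {adj adj' F : α → β → Prop}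
    (hH : VH = VH') (hP : VP = VP') (ha : ∀ h ∈ VH, ∀ p ∈ VP, adj h p ↔ adj' h p)
    (hF : TwoFac VH VP adj F) : TwoFac VH' VP' adj' F := by
  subst hH hP
  refine ⟨fun h p hf => ?_, hF.row, hF.col⟩
  obtain ⟨h1, h2, h3⟩ := hF.sub h p hf
  exact ⟨h1, h2, (ha h h1 p h2).1 h3⟩

lemma far_vis {h : HN} {p : PN} (hh : d.okH h) (hp : d.okP p) :
    d.zZ ^ 2 ≤ sqd (d.cH (d.dH h)) (d.cP (d.dP p)) ↔ d.Vis h p :=
  d.far_iff' (d.okHD_dH hh) (d.okPD_dP hp) (d.compat_names hh hp)

theorem hasTour_iff : HasTour (fun a b => d.zZ ^ 2 ≤ sqd a b) d.inst ↔ d.Sat := by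
  have eH : {h | h ∈ d.hps} = {h | d.okH h} := by
    ext h
    exact d.mem_hps
  have eP : {p | p ∈ d.pts} = {p | d.okP p} := by
    ext p
    exact d.mem_pts
  have hsymm : ∀ x y : ℤ × ℤ, (fun a b => d.zZ ^ 2 ≤ sqd a b) x y →
      (fun a b => d.zZ ^ 2 ≤ sqd a b) y x := by
    intro x y h
    show d.zZ ^ 2 ≤ sqd y x
    rw [sqd_comm]
    exact h
  constructor
  · intro h
    obtain ⟨F, h1, h2⟩ := twoFac_of_hasTour hsymm d.nodup_inst d.length_eq d.two_le_length
      (fun p hp p' hp' => by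
        have := d.near (d.okPD_dP (d.mem_pts.1 hp)) (d.okPD_dP (d.mem_pts.1 hp'))
        exact not_le.2 this) h
    refine sound (d := d) (F := F) ?_ ?_
    · refine twoFac_congr eH eP ?_ h1
      intro h hh p hp
      exact d.far_vis (d.mem_hps.1 hh) (d.mem_pts.1 hp)
    · rw [← eH, ← eP]
      exact h2
  · intro hs
    obtain ⟨F, h1, h2⟩ := d.complete hs
    refine hasTour_of_twoFac hsymm d.nodup_inst d.length_eq d.two_le_length (F := F) ?_ ?_
    · refine twoFac_congr eH.symm eP.symm ?_ h1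
      intro h hh p hp
      exact (d.far_vis hh hp).symm
    · rw [eH, eP]
      exact h2

end Dat

theorem sat_iff (f : List (List (ℕ × Bool))) : CNFSat f ↔ MaxScatter (word f) := by
  rw [datOf_sat, ← Dat.hasTour_iff, ← roundTrip_iff (datOf f).zZ_pos.le]
  have hnd := (datOf f).nodup_inst
  have hlen : 3 ≤ (datOf f).inst.length := by
    have h1 := (datOf f).two_le_length
    have h2 := (datOf f).length_eq
    unfold Dat.inst
    rw [List.length_append, List.length_map, List.length_map]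
    omega
  constructor
  · rintro ⟨l, hl⟩
    exact ⟨_, _, rfl, hnd.map toQ_inj, by rw [List.length_map]; exact hlen, l, hl⟩
  · rintro ⟨P, L, hw, _, _, l, hl⟩
    obtain ⟨rfl, rfl⟩ := encInst_inj hw
    exact ⟨l, hl⟩

theorem npComplete : NPComplete MaxScatter :=
  ⟨inNP_maxScatter, npHard_of_cnfSat word PT_word sat_iff⟩

/-! ### Numbers in unary -/

theorem sat_iffU (f : List (List (ℕ × Bool))) : CNFSat f ↔ MaxScatterU (wordU f) := by
  rw [datOf_sat, ← Dat.hasTour_iff, ← roundTrip_iff (datOf f).zZ_pos.le]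
  have hnd := (datOf f).nodup_inst
  have hlen : 3 ≤ (datOf f).inst.length := by
    have h1 := (datOf f).two_le_length
    have h2 := (datOf f).length_eq
    unfold Dat.inst
    rw [List.length_append, List.length_map, List.length_map]
    omega
  constructor
  · rintro ⟨l, hl⟩
    exact ⟨_, _, rfl, hnd, hlen, l, hl⟩
  · rintro ⟨P, L, hw, _, _, l, hl⟩
    obtain ⟨rfl, rfl⟩ := encInstU_inj hw
    exact ⟨l, hl⟩

/-- the problem is strongly NP-hard: it is NP-hard for integer coordinates written in unary -/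
theorem npHardU : NPHard MaxScatterU := npHard_of_cnfSat wordU PT_wordU sat_iffU

end Pool.Agent.Lib.H48MaxScatter
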