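import Pool.Agent.Lib.H48MaxScatter.SoundBase

/-!
# Soundness: the levels
-/

set_option autoImplicit false

namespace Pool.Agent.Lib.H48MaxScatter

namespace Dat

variable {d : Dat} {F : HN → PN → Prop}

/-- all neighbours of points saturated below level `k` are below level `k` -/
def Inv (d : Dat) (F : HN → PN → Prop) (k : ℕ) : Prop := ∀ h p, F h p → d.dl p < k → d.lv h < k

/-- `F` is a 2-factor of the arrangement -/
abbrev Fac (d : Dat) (F : HN → PN → Prop) : Prop :=
  TwoFac {h | d.okH h} {p | d.okP p} d.Vis F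

lemma mem_live (hF : Fac d F) {k : ℕ} (hi : Inv d F k) {h : HN} (hk : d.lv h = k) {p : PN}
    (hp : F h p) : p ∈ d.live h := by
  obtain ⟨h1, h2, h3⟩ := hF.sub h p hp
  refine d.live_of_vis h1 h2 h3 ?_
  by_contra hc
  have := hi h p hp (by omega)
  omega

lemma row_live (hF : Fac d F) {k : ℕ} (hi : Inv d F k) {h : HN} (hk : d.lv h = k)
    (hok : d.okH h) (hnd : (d.live h).Nodup) : ((d.live h).map (ind F h)).sum = 2 :=
  row_sum hF hok _ hnd fun _ hp => mem_live hF hi hk hp

lemma ind_not_ok (hF : Fac d F) {h : HN} {p : PN} (hp : ¬ d.okP p) : ind F h p = 0 :=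
  ind_eq_zero.2 fun h1 => hp (hF.sub h p h1).2.1

lemma rc_ne (N e : ℕ) : rc N e ≠ e := by
  unfold rc; split_ifs <;> omega

lemma rc_succ (N e : ℕ) : rc N (e + 1) = e := by
  simp [rc]

/-- the half-plane which saturates the first half of the point `l0 j m` -/
def inL (j m : ℕ) : HN := if m = 0 then .T (j + 1) false else .GlB j (m - 1)

/-- the half-plane which saturates the first half of the point `r0 j m` -/
def inR (j m : ℕ) : HN := if m = 0 then .T j false else .GrB j (m - 1)

structure Pre (d : Dat) (F : HN → PN → Prop) (m : ℕ) : Prop where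
  inv : Inv d F (2 * m + 1)
  l : ∀ j, j < d.N → F (inL j m) (.l0 j m)
  r : ∀ j, j < d.N → F (inR j m) (.r0 j m)

/-- level zero -/
theorem pre_zero (hF : Fac d F) : Pre d F 0 := by
  have hN := d.hN
  have hi : Inv d F 0 := fun h p _ h2 => absurd h2 (by omega)
  have row : ∀ e, e < d.N + 2 → ind F (.T e false) (.l0 (rc d.N e) 0) +
      ind F (.T e false) (.r0 e 0) + ind F (.T e false) (.x (rc d.N e) false) +
      ind F (.T e false) (.x e false) = 2 := by
    intro e he
    have hne := rc_ne d.N e
    have h1 := row_live hF hi (h := .T e false) rfl he (by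
      simp [live, hne])
    simp only [live, Bool.false_eq_true, if_false, List.map_cons, List.map_nil, List.sum_cons,
      List.sum_nil] at h1
    omega
  have nx : ∀ h j, j < d.N → ind F h (.x j false) = 0 := fun h j hj => ind_not_ok hF (by
    simp only [okP]; omega)
  have nl : ∀ h j, d.N ≤ j → ind F h (.l0 j 0) = 0 := fun h j hj => ind_not_ok hF (by
    simp only [okP]; omega)
  have nr : ∀ h j, d.N ≤ j → ind F h (.r0 j 0) = 0 := fun h j hj => ind_not_ok hF (by
    simp only [okP]; omega)
  have hl : ∀ j, j < d.N → F (.T (j + 1) false) (.l0 j 0) := by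
    intro j hj
    have h1 := row (j + 1) (by omega)
    rw [rc_succ] at h1
    have h2 := nx (.T (j + 1) false) j hj
    have b1 := ind_le (F := F) (HN.T (j + 1) false) (PN.l0 j 0)
    have b2 := ind_le (F := F) (HN.T (j + 1) false) (PN.r0 (j + 1) 0)
    have b3 := ind_le (F := F) (HN.T (j + 1) false) (PN.x (j + 1) false)
    refine ind_eq_one.1 ?_
    rcases Nat.lt_or_ge (j + 1) d.N with h | h
    · have h3 := nx (.T (j + 1) false) (j + 1) h
      omega
    · have h3 := nr (.T (j + 1) false) (j + 1) h
      omega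
  have hr : ∀ j, j < d.N → F (.T j false) (.r0 j 0) := by
    intro j hj
    have h1 := row j (by omega)
    have h2 := nx (.T j false) j hj
    have b1 := ind_le (F := F) (HN.T j false) (PN.l0 (rc d.N j) 0)
    have b2 := ind_le (F := F) (HN.T j false) (PN.r0 j 0)
    have b3 := ind_le (F := F) (HN.T j false) (PN.x (rc d.N j) false)
    refine ind_eq_one.1 ?_
    rcases Nat.eq_zero_or_pos j with rfl | h
    · have h3 := nl (.T 0 false) (rc d.N 0) (by simp [rc])
      omega
    · have h3 := nx (.T j false) (rc d.N j) (by simp only [rc]; split_ifs <;> omega)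
      omega
  have t1 : F (.T d.N false) (.x d.N false) := by
    have h1 := row d.N (by omega)
    have b1 := ind_le (F := F) (HN.T d.N false) (PN.l0 (rc d.N d.N) 0)
    have h2 := nr (.T d.N false) d.N le_rfl
    have h3 := nx (.T d.N false) (rc d.N d.N) (by simp only [rc]; split_ifs <;> omega)
    have b2 := ind_le (F := F) (HN.T d.N false) (PN.x d.N false)
    refine ind_eq_one.1 ?_
    omega
  have t2 : F (.T (d.N + 1) false) (.x d.N false) ∧ F (.T (d.N + 1) false) (.x (d.N + 1) false) := by
    have h1 := row (d.N + 1) (by omega)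
    rw [rc_succ] at h1
    have h2 := nl (.T (d.N + 1) false) d.N le_rfl
    have h3 := nr (.T (d.N + 1) false) (d.N + 1) (by omega)
    have b1 := ind_le (F := F) (HN.T (d.N + 1) false) (PN.x d.N false)
    have b2 := ind_le (F := F) (HN.T (d.N + 1) false) (PN.x (d.N + 1) false)
    refine ⟨ind_eq_one.1 ?_, ind_eq_one.1 ?_⟩ <;>
    omega
  have t3 : F (.T 0 false) (.x (d.N + 1) false) := by
    have h1 := row 0 (by omega)
    have e1 : rc d.N 0 = d.N + 1 := by simp [rc]
    rw [e1] at h1
    have h2 := nl (.T 0 false) (d.N + 1) (by omega)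
    have h3 := nx (.T 0 false) 0 (by omega)
    have b1 := ind_le (F := F) (HN.T 0 false) (PN.x (d.N + 1) false)
    have b2 := ind_le (F := F) (HN.T 0 false) (PN.r0 0 0)
    refine ind_eq_one.1 ?_
    omega
  refine ⟨?_, ?_, ?_⟩
  · intro h p hp hdl
    have hok := (hF.sub h p hp).2.1
    rcases p with ⟨j', m'⟩ | ⟨j', m'⟩ | ⟨j', m'⟩ | ⟨j', m'⟩ | ⟨j', m'⟩ | ⟨j', m'⟩ | ⟨j', m'⟩ |
      ⟨j', m'⟩ | ⟨j', m'⟩ | ⟨j', _ | _⟩ <;> simp only [dl] at hdl <;> try omega
    rcases hok with rfl | rfl
    · rcases col_two hF t1 t2.1 (by simp) hp with rfl | rfl <;> simp [lv]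
    · rcases col_two hF t2.2 t3 (by simp) hp with rfl | rfl <;> simp [lv]
  · intro j hj
    simpa [inL] using hl j hj
  · intro j hj
    simpa [inR] using hr j hj

end Dat

end Pool.Agent.Lib.H48MaxScatter
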