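import Pool.Agent.Lib.H48MaxScatter.SoundA

/-!
# Soundness: the levels `A_m` and `B_m`
-/

set_option autoImplicit false
set_option linter.unusedSimpArgs false

namespace Pool.Agent.Lib.H48MaxScatter

namespace Dat

variable {d : Dat} {F : HN → PN → Prop}

lemma leftEdge_lt {N c : ℕ} (h : c < N + 1) : leftEdge N c = c + 1 := by
  unfold leftEdge; rw [if_neg (by omega)]

lemma leftEdge_last (N : ℕ) : leftEdge N (N + 1) = 0 := by
  unfold leftEdge; rw [if_pos rfl]

/-- the slots of `HA` used at its right end, the corner `c` -/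
noncomputable def aA (d : Dat) (F : HN → PN → Prop) (c m : ℕ) : ℕ :=
  ind F (.HA (leftEdge d.N c) m) (.l0 c m) + ind F (.HA (leftEdge d.N c) m) (.oA c m) +
    ind F (.HA (leftEdge d.N c) m) (.r0 c m)

/-- the slots of `HA` used at its left end, the corner `c` -/
noncomputable def bA (_d : Dat) (F : HN → PN → Prop) (c m : ℕ) : ℕ :=
  ind F (.HA c m) (.r0 c m) + ind F (.HA c m) (.oA c m) + ind F (.HA c m) (.l0 c m)

/-- the slots of `HB` used at its right end, the corner `c` -/
noncomputable def aB (d : Dat) (F : HN → PN → Prop) (c m : ℕ) : ℕ :=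
  ind F (.HB (leftEdge d.N c) m) (.l1 c m) + ind F (.HB (leftEdge d.N c) m) (.oB c m)

/-- the slots of `HB` used at its left end, the corner `c` -/
noncomputable def bB (_d : Dat) (F : HN → PN → Prop) (c m : ℕ) : ℕ :=
  ind F (.HB c m) (.r1 c m) + ind F (.HB c m) (.oB c m)

structure FactsA (d : Dat) (F : HN → PN → Prop) (m : ℕ) : Prop where
  inv : Inv d F (2 * m + 2)
  gl : ∀ j, j < d.N → F (.GlA j m) (.l1 j m)
  gr : ∀ j, j < d.N → F (.GrA j m) (.r1 j m)
  go : ∀ j, j < d.N → F (.Go j m) (.oB j m)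
  d1 : F (.D1 m) (.oB (d.N + 1) m)
  d1' : F (.D1 m) (.qA 0 m)
  d2 : F (.D2 m) (.oB d.N m)
  d2' : F (.D2 m) (.qA d.N m)
  dd : F (.D m) (.oA d.N m)
  dd' : F (.D m) (.oA (d.N + 1) m)
  hq : ∀ e, e < d.N + 2 → F (.HA e m) (if e = 0 ∨ e = d.N then .qA e m else .q e m)
  ring : ∀ c, c < d.N + 2 → bA d F c m = bA d F 0 m ∧ aA d F c m + bA d F c m = 1
  /-- the point `l0` is saturated by `GlA` or visible to others -/
  cl : ∀ j, j < d.N → ind F (.GlA j m) (.l0 j m) + ind F (.GrA j m) (.l0 j m) +
    ind F (.Go j m) (.l0 j m) + ind F (.HA (j + 1) m) (.l0 j m) + ind F (.HA j m) (.l0 j m) = 1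
  cr : ∀ j, j < d.N → ind F (.GlA j m) (.r0 j m) + ind F (.GrA j m) (.r0 j m) +
    ind F (.Go j m) (.r0 j m) + ind F (.HA (j + 1) m) (.r0 j m) + ind F (.HA j m) (.r0 j m) = 1
  rl : ∀ j, j < d.N → ind F (.GlA j m) (.l1 j m) + ind F (.GlA j m) (.l0 j m) +
    ind F (.GlA j m) (.oA j m) + ind F (.GlA j m) (.r0 j m) = 2
  rr : ∀ j, j < d.N → ind F (.GrA j m) (.r1 j m) + ind F (.GrA j m) (.r0 j m) +
    ind F (.GrA j m) (.oA j m) + ind F (.GrA j m) (.l0 j m) = 2

set_option maxHeartbeats 1000000 in
theorem factsA (hF : Fac d F) {m : ℕ} (hm : m < d.V) (pre : Pre d F m) : FactsA d F m := by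
  have hN := d.hN
  have hi := pre.inv
  -- existence
  have nl : ∀ h j, d.N ≤ j → ind F h (.l0 j m) = 0 := fun h j hj => ind_not_ok hF (by
    simp only [okP]; omega)
  have nr : ∀ h j, d.N ≤ j → ind F h (.r0 j m) = 0 := fun h j hj => ind_not_ok hF (by
    simp only [okP]; omega)
  -- rows
  have rowHA : ∀ e, e < d.N + 2 → ind F (.HA e m) (if e = 0 ∨ e = d.N then .qA e m else .q e m) +
      (ind F (.HA e m) (.l0 (rc d.N e) m) + ind F (.HA e m) (.oA (rc d.N e) m) +
        ind F (.HA e m) (.r0 (rc d.N e) m)) + bA d F e m = 2 := by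
    intro e he
    have hne := rc_ne d.N e
    have h1 := row_live hF hi (h := .HA e m) rfl ⟨he, hm⟩ (by
      simp only [live]
      split_ifs <;> simp [hne])
    simp only [live, List.map_cons, List.map_nil, List.sum_cons, List.sum_nil] at h1
    unfold bA
    omega
  have rowGo : ∀ j, j < d.N → ind F (.Go j m) (.oA j m) + ind F (.Go j m) (.oB j m) +
      ind F (.Go j m) (.l0 j m) + ind F (.Go j m) (.r0 j m) = 2 := by
    intro j hj
    have h1 := row_live hF hi (h := .Go j m) rfl ⟨hj, hm⟩ (by simp [live])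
    simp only [live, List.map_cons, List.map_nil, List.sum_cons, List.sum_nil] at h1
    omega
  have rowGl : ∀ j, j < d.N → ind F (.GlA j m) (.l1 j m) + ind F (.GlA j m) (.l0 j m) +
      ind F (.GlA j m) (.oA j m) + ind F (.GlA j m) (.r0 j m) = 2 := by
    intro j hj
    have h1 := row_live hF hi (h := .GlA j m) rfl ⟨hj, hm⟩ (by simp [live])
    simp only [live, List.map_cons, List.map_nil, List.sum_cons, List.sum_nil] at h1
    omega
  have rowGr : ∀ j, j < d.N → ind F (.GrA j m) (.r1 j m) + ind F (.GrA j m) (.r0 j m) +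
      ind F (.GrA j m) (.oA j m) + ind F (.GrA j m) (.l0 j m) = 2 := by
    intro j hj
    have h1 := row_live hF hi (h := .GrA j m) rfl ⟨hj, hm⟩ (by simp [live])
    simp only [live, List.map_cons, List.map_nil, List.sum_cons, List.sum_nil] at h1
    omega
  have rowD : ind F (.D m) (.oA d.N m) + ind F (.D m) (.oA (d.N + 1) m) = 2 := by
    have h1 := row_live hF hi (h := .D m) rfl hm (by simp [live])
    simp only [live, List.map_cons, List.map_nil, List.sum_cons, List.sum_nil] at h1
    omega
  have rowD1 : ind F (.D1 m) (.qA 0 m) + ind F (.D1 m) (.oA (d.N + 1) m) +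
      ind F (.D1 m) (.oB (d.N + 1) m) = 2 := by
    have h1 := row_live hF hi (h := .D1 m) rfl hm (by simp [live])
    simp only [live, List.map_cons, List.map_nil, List.sum_cons, List.sum_nil] at h1
    omega
  have rowD2 : ind F (.D2 m) (.qA d.N m) + ind F (.D2 m) (.oA d.N m) +
      ind F (.D2 m) (.oB d.N m) = 2 := by
    have h1 := row_live hF hi (h := .D2 m) rfl hm (by simp [live])
    simp only [live, List.map_cons, List.map_nil, List.sum_cons, List.sum_nil] at h1
    omega
  -- columns
  have colL : ∀ j, j < d.N → ind F (.GlA j m) (.l0 j m) + ind F (.GrA j m) (.l0 j m) +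
      ind F (.Go j m) (.l0 j m) + ind F (.HA (j + 1) m) (.l0 j m) +
      ind F (.HA j m) (.l0 j m) ≤ 1 := by
    intro j hj
    have h1 := col_sum_le hF (p := .l0 j m) ⟨hj, hm.le⟩
      [inL j m, .GlA j m, .GrA j m, .Go j m, .HA (j + 1) m, .HA j m] (by
        unfold inL; split_ifs <;> simp)
    have h2 := ind_eq_one.2 (pre.l j hj)
    simp only [List.map_cons, List.map_nil, List.sum_cons, List.sum_nil] at h1
    omega
  have colR : ∀ j, j < d.N → ind F (.GlA j m) (.r0 j m) + ind F (.GrA j m) (.r0 j m) +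
      ind F (.Go j m) (.r0 j m) + ind F (.HA (j + 1) m) (.r0 j m) +
      ind F (.HA j m) (.r0 j m) ≤ 1 := by
    intro j hj
    have h1 := col_sum_le hF (p := .r0 j m) ⟨hj, hm.le⟩
      [inR j m, .GlA j m, .GrA j m, .Go j m, .HA (j + 1) m, .HA j m] (by
        unfold inR; split_ifs <;> simp)
    have h2 := ind_eq_one.2 (pre.r j hj)
    simp only [List.map_cons, List.map_nil, List.sum_cons, List.sum_nil] at h1
    omega
  have colO : ∀ j, j < d.N → ind F (.GlA j m) (.oA j m) + ind F (.GrA j m) (.oA j m) +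
      ind F (.Go j m) (.oA j m) + ind F (.HA (j + 1) m) (.oA j m) +
      ind F (.HA j m) (.oA j m) ≤ 2 := by
    intro j hj
    have h1 := col_sum_le hF (p := .oA j m) ⟨by omega, hm⟩
      [.GlA j m, .GrA j m, .Go j m, .HA (j + 1) m, .HA j m] (by simp)
    simp only [List.map_cons, List.map_nil, List.sum_cons, List.sum_nil] at h1
    omega
  have colON : ind F (.D m) (.oA d.N m) + ind F (.D2 m) (.oA d.N m) +
      ind F (.HA (d.N + 1) m) (.oA d.N m) + ind F (.HA d.N m) (.oA d.N m) ≤ 2 := by
    have h1 := col_sum_le hF (p := .oA d.N m) ⟨by omega, hm⟩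
      [.D m, .D2 m, .HA (d.N + 1) m, .HA d.N m] (by simp)
    simp only [List.map_cons, List.map_nil, List.sum_cons, List.sum_nil] at h1
    omega
  have colON' : ind F (.D m) (.oA (d.N + 1) m) + ind F (.D1 m) (.oA (d.N + 1) m) +
      ind F (.HA 0 m) (.oA (d.N + 1) m) + ind F (.HA (d.N + 1) m) (.oA (d.N + 1) m) ≤ 2 := by
    have h1 := col_sum_le hF (p := .oA (d.N + 1) m) ⟨by omega, hm⟩
      [.D m, .D1 m, .HA 0 m, .HA (d.N + 1) m] (by simp)
    simp only [List.map_cons, List.map_nil, List.sum_cons, List.sum_nil] at h1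
    omega
  have b : ∀ h p, ind F h p ≤ 1 := fun h p => ind_le h p
  -- the corners
  have hab : ∀ c, c ≤ d.N + 1 → aA d F c m + bA d F c m ≤ 1 := by
    intro c hc
    rcases Nat.lt_or_ge c d.N with h | h
    · have e1 := rowGo c h
      have e2 := rowGl c h
      have e3 := rowGr c h
      have e4 := colL c h
      have e5 := colR c h
      have e6 := colO c h
      have e7 := b (.Go c m) (.oB c m)
      have e8 := b (.GlA c m) (.l1 c m)
      have e9 := b (.GrA c m) (.r1 c m)
      unfold aA bA
      rw [leftEdge_lt (by omega)]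
      omega
    · rcases Nat.lt_or_ge c (d.N + 1) with h' | h'
      · obtain rfl : c = d.N := by omega
        unfold aA bA
        rw [leftEdge_lt (by omega)]
        have e1 := nl (.HA (d.N + 1) m) d.N le_rfl
        have e2 := nr (.HA (d.N + 1) m) d.N le_rfl
        have e3 := nl (.HA d.N m) d.N le_rfl
        have e4 := nr (.HA d.N m) d.N le_rfl
        have e5 := b (.D m) (.oA (d.N + 1) m)
        have e6 := b (.D m) (.oA d.N m)
        omega
      · obtain rfl : c = d.N + 1 := by omega
        unfold aA bA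
        rw [leftEdge_last]
        have e1 := nl (.HA (d.N + 1) m) (d.N + 1) (by omega)
        have e2 := nr (.HA (d.N + 1) m) (d.N + 1) (by omega)
        have e3 := nl (.HA 0 m) (d.N + 1) (by omega)
        have e4 := nr (.HA 0 m) (d.N + 1) (by omega)
        have e5 := b (.D m) (.oA (d.N + 1) m)
        have e6 := b (.D m) (.oA d.N m)
        omega
  obtain ⟨r1, r2, r3⟩ := ring_lemma (d.N + 1)
    (fun e => ind F (.HA e m) (if e = 0 ∨ e = d.N then .qA e m else .q e m))
    (fun c => aA d F c m) (fun c => bA d F c m) (by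
      have h1 := rowHA 0 (by omega)
      have e1 : rc d.N 0 = d.N + 1 := by simp [rc]
      rw [e1] at h1
      simp only [aA, leftEdge_last]
      exact h1) (by
      intro e he
      have h1 := rowHA (e + 1) (by omega)
      rw [rc_succ] at h1
      simp only [aA, leftEdge_lt he]
      exact h1) (fun e _ => b _ _) hab
  have r2' := r2 d.N (by omega)
  have r2'' := r2 (d.N + 1) le_rfl
  have b1 := b (.D m) (.oA (d.N + 1) m)
  have b2 := b (.D m) (.oA d.N m)
  have sp1 : ind F (.HA (d.N + 1) m) (.oA d.N m) + ind F (.HA d.N m) (.oA d.N m) = 1 := by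
    simp only [aA, bA] at r2'
    rw [leftEdge_lt (by omega)] at r2'
    have e1 := nl (.HA (d.N + 1) m) d.N le_rfl
    have e2 := nr (.HA (d.N + 1) m) d.N le_rfl
    have e3 := nl (.HA d.N m) d.N le_rfl
    have e4 := nr (.HA d.N m) d.N le_rfl
    omega
  have sp2 : ind F (.HA 0 m) (.oA (d.N + 1) m) +
      ind F (.HA (d.N + 1) m) (.oA (d.N + 1) m) = 1 := by
    simp only [aA, bA] at r2''
    rw [leftEdge_last] at r2''
    have e1 := nl (.HA (d.N + 1) m) (d.N + 1) (by omega)
    have e2 := nr (.HA (d.N + 1) m) (d.N + 1) (by omega)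
    have e3 := nl (.HA 0 m) (d.N + 1) (by omega)
    have e4 := nr (.HA 0 m) (d.N + 1) (by omega)
    omega
  have b3 := b (.D1 m) (.oB (d.N + 1) m)
  have b4 := b (.D1 m) (.qA 0 m)
  have b5 := b (.D2 m) (.oB d.N m)
  have b6 := b (.D2 m) (.qA d.N m)
  -- the normal corners are tight
  have tight : ∀ j, j < d.N → (ind F (.HA (j + 1) m) (.l0 j m) +
      ind F (.HA (j + 1) m) (.oA j m) + ind F (.HA (j + 1) m) (.r0 j m)) +
      (ind F (.HA j m) (.r0 j m) + ind F (.HA j m) (.oA j m) + ind F (.HA j m) (.l0 j m)) = 1 := by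
    intro j hj
    have h1 := r2 j (by omega)
    simp only [aA, bA] at h1
    rw [leftEdge_lt (by omega)] at h1
    exact h1
  have fgl : ∀ j, j < d.N → F (.GlA j m) (.l1 j m) := by
    intro c h
    have e0 := tight c h
    have e1 := rowGo c h
    have e2 := rowGl c h
    have e3 := rowGr c h
    have e4 := colL c h
    have e5 := colR c h
    have e6 := colO c h
    have e7 := b (.Go c m) (.oB c m)
    have e8 := b (.GlA c m) (.l1 c m)
    have e9 := b (.GrA c m) (.r1 c m)
    refine ind_eq_one.1 ?_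
    omega
  have fgr : ∀ j, j < d.N → F (.GrA j m) (.r1 j m) := by
    intro c h
    have e0 := tight c h
    have e1 := rowGo c h
    have e2 := rowGl c h
    have e3 := rowGr c h
    have e4 := colL c h
    have e5 := colR c h
    have e6 := colO c h
    have e7 := b (.Go c m) (.oB c m)
    have e8 := b (.GlA c m) (.l1 c m)
    have e9 := b (.GrA c m) (.r1 c m)
    refine ind_eq_one.1 ?_
    omega
  have fgo : ∀ j, j < d.N → F (.Go j m) (.oB j m) := by
    intro c h
    have e0 := tight c h
    have e1 := rowGo c h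
    have e2 := rowGl c h
    have e3 := rowGr c h
    have e4 := colL c h
    have e5 := colR c h
    have e6 := colO c h
    have e7 := b (.Go c m) (.oB c m)
    have e8 := b (.GlA c m) (.l1 c m)
    have e9 := b (.GrA c m) (.r1 c m)
    refine ind_eq_one.1 ?_
    omega
  have fcl : ∀ j, j < d.N → ind F (.GlA j m) (.l0 j m) + ind F (.GrA j m) (.l0 j m) +
      ind F (.Go j m) (.l0 j m) + ind F (.HA (j + 1) m) (.l0 j m) +
      ind F (.HA j m) (.l0 j m) = 1 := by
    intro c h
    have e0 := tight c h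
    have e1 := rowGo c h
    have e2 := rowGl c h
    have e3 := rowGr c h
    have e4 := colL c h
    have e5 := colR c h
    have e6 := colO c h
    have e7 := b (.Go c m) (.oB c m)
    have e8 := b (.GlA c m) (.l1 c m)
    have e9 := b (.GrA c m) (.r1 c m)
    omega
  have fcr : ∀ j, j < d.N → ind F (.GlA j m) (.r0 j m) + ind F (.GrA j m) (.r0 j m) +
      ind F (.Go j m) (.r0 j m) + ind F (.HA (j + 1) m) (.r0 j m) +
      ind F (.HA j m) (.r0 j m) = 1 := by
    intro c h
    have e0 := tight c h
    have e1 := rowGo c h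
    have e2 := rowGl c h
    have e3 := rowGr c h
    have e4 := colL c h
    have e5 := colR c h
    have e6 := colO c h
    have e7 := b (.Go c m) (.oB c m)
    have e8 := b (.GlA c m) (.l1 c m)
    have e9 := b (.GrA c m) (.r1 c m)
    omega
  have fco : ∀ j, j < d.N → ind F (.GlA j m) (.oA j m) + ind F (.GrA j m) (.oA j m) +
      ind F (.Go j m) (.oA j m) + ind F (.HA (j + 1) m) (.oA j m) +
      ind F (.HA j m) (.oA j m) = 2 := by
    intro c h
    have e0 := tight c h
    have e1 := rowGo c h
    have e2 := rowGl c h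
    have e3 := rowGr c h
    have e4 := colL c h
    have e5 := colR c h
    have e6 := colO c h
    have e7 := b (.Go c m) (.oB c m)
    have e8 := b (.GlA c m) (.l1 c m)
    have e9 := b (.GrA c m) (.r1 c m)
    omega
  have fhq : ∀ e, e < d.N + 2 → F (.HA e m) (if e = 0 ∨ e = d.N then .qA e m else .q e m) :=
    fun e he => ind_eq_one.1 (r1 e (by omega))
  have fd1 : F (.D1 m) (.oB (d.N + 1) m) := ind_eq_one.1 (by omega)
  have fd1' : F (.D1 m) (.qA 0 m) := ind_eq_one.1 (by omega)
  have fd2 : F (.D2 m) (.oB d.N m) := ind_eq_one.1 (by omega)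
  have fd2' : F (.D2 m) (.qA d.N m) := ind_eq_one.1 (by omega)
  have fdd : F (.D m) (.oA d.N m) := ind_eq_one.1 (by omega)
  have fdd' : F (.D m) (.oA (d.N + 1) m) := ind_eq_one.1 (by omega)
  refine ⟨?_, fgl, fgr, fgo, fd1, fd1', fd2, fd2', fdd, fdd', fhq,
    fun c hc => ⟨r3 c (by omega), r2 c (by omega)⟩, fcl, fcr, rowGl, rowGr⟩
  -- the invariant
  intro h p hp hdl
  by_cases hlt : d.dl p < 2 * m + 1
  · have := hi h p hp hlt
    omega
  have hok := (hF.sub h p hp).2.1
  have fin : ∀ l : List HN, l.Nodup → (l.map (fun h => ind F h p)).sum = 2 →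
      (∀ h ∈ l, d.lv h < 2 * m + 2) → d.lv h < 2 * m + 2 := fun l h1 h2 h3 =>
    h3 h (mem_of_col_sum hF hok l h1 h2 hp)
  rcases p with ⟨j', m'⟩ | ⟨j', m'⟩ | ⟨j', m'⟩ | ⟨j', m'⟩ | ⟨j', m'⟩ | ⟨j', m'⟩ | ⟨j', m'⟩ |
    ⟨j', m'⟩ | ⟨j', m'⟩ | ⟨j', _ | _⟩ <;> simp only [dl] at hdl hlt <;> try omega
  · -- l0
    obtain rfl : m' = m := by omega
    have hj : j' < d.N := hok.1
    refine fin [inL j' m', .GlA j' m', .GrA j' m', .Go j' m', .HA (j' + 1) m', .HA j' m'] (by
        unfold inL; split_ifs <;> simp) ?_ ?_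
    · have h2 := ind_eq_one.2 (pre.l j' hj)
      have h3 := fcl j' hj
      simp only [List.map_cons, List.map_nil, List.sum_cons, List.sum_nil]
      omega
    · simp only [List.mem_cons, List.not_mem_nil, or_false, forall_eq_or_imp, forall_eq, inL]
      split_ifs <;> simp only [lv] <;> omega
  · -- r0
    obtain rfl : m' = m := by omega
    have hj : j' < d.N := hok.1
    refine fin [inR j' m', .GlA j' m', .GrA j' m', .Go j' m', .HA (j' + 1) m', .HA j' m'] (by
        unfold inR; split_ifs <;> simp) ?_ ?_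
    · have h2 := ind_eq_one.2 (pre.r j' hj)
      have h3 := fcr j' hj
      simp only [List.map_cons, List.map_nil, List.sum_cons, List.sum_nil]
      omega
    · simp only [List.mem_cons, List.not_mem_nil, or_false, forall_eq_or_imp, forall_eq, inR]
      split_ifs <;> simp only [lv] <;> omega
  · -- oA
    obtain rfl : m' = m := by omega
    have hj : j' < d.N + 2 := hok.1
    rcases Nat.lt_or_ge j' d.N with h | h
    · refine fin [.GlA j' m', .GrA j' m', .Go j' m', .HA (j' + 1) m', .HA j' m'] (by simp) ?_ ?_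
      · have h3 := fco j' h
        simp only [List.map_cons, List.map_nil, List.sum_cons, List.sum_nil]
        omega
      · simp only [List.mem_cons, List.not_mem_nil, or_false, forall_eq_or_imp, forall_eq, lv]
        omega
    · rcases Nat.lt_or_ge j' (d.N + 1) with h' | h'
      · obtain rfl : j' = d.N := by omega
        refine fin [.D m', .HA (d.N + 1) m', .HA d.N m'] (by simp) ?_ ?_
        · simp only [List.map_cons, List.map_nil, List.sum_cons, List.sum_nil]
          have := ind_eq_one.2 fdd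
          omega
        · simp only [List.mem_cons, List.not_mem_nil, or_false, forall_eq_or_imp, forall_eq, lv]
          omega
      · obtain rfl : j' = d.N + 1 := by omega
        refine fin [.D m', .HA 0 m', .HA (d.N + 1) m'] (by simp) ?_ ?_
        · simp only [List.map_cons, List.map_nil, List.sum_cons, List.sum_nil]
          have := ind_eq_one.2 fdd'
          omega
        · simp only [List.mem_cons, List.not_mem_nil, or_false, forall_eq_or_imp, forall_eq, lv]
          omega
  · -- qA
    obtain rfl : m' = m := by omega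
    rcases hok.1 with rfl | rfl
    · have h1 := fhq 0 (by omega)
      rw [if_pos (Or.inl rfl)] at h1
      rcases col_two hF fd1' h1 (by simp) hp with rfl | rfl <;> simp only [lv] <;> omega
    · have h1 := fhq d.N (by omega)
      rw [if_pos (Or.inr rfl)] at h1
      rcases col_two hF fd2' h1 (by simp) hp with rfl | rfl <;> simp only [lv] <;> omega

end Dat

end Pool.Agent.Lib.H48MaxScatter
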