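import Pool.Agent.Lib.H48MaxScatter.Spec
import Pool.Agent.Lib.H48MaxScatter.Factor

/-!
# Counting lemmas for 2-factors and the ring lemma
-/

set_option autoImplicit false

namespace Pool.Agent.Lib.H48MaxScatter

open Classical in
/-- the indicator of an edge -/
noncomputable def ind {α β : Type*} (F : α → β → Prop) (h : α) (p : β) : ℕ := if F h p then 1 else 0

section general

variable {α β : Type*} {VH : Set α} {VP : Set β} {adj F : α → β → Prop}

lemma ind_le (h : α) (p : β) : ind F h p ≤ 1 := by
  unfold ind; split_ifs <;> omega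

lemma ind_eq_one {h : α} {p : β} : ind F h p = 1 ↔ F h p := by
  unfold ind; split_ifs with h1 <;> simp [h1]

lemma ind_eq_zero {h : α} {p : β} : ind F h p = 0 ↔ ¬ F h p := by
  unfold ind; split_ifs with h1 <;> simp [h1]

lemma sum_ite_le [DecidableEq β] (l : List β) (hl : l.Nodup) (a : β) :
    (l.map fun p => if p = a then 1 else 0).sum = if a ∈ l then 1 else 0 := by
  induction l with
  | nil => simp
  | cons b l ih =>
    rw [List.nodup_cons] at hl
    rw [List.map_cons, List.sum_cons, ih hl.2]
    by_cases h1 : b = a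
    · subst h1
      simp [hl.1]
    · by_cases h2 : a ∈ l
      · simp [h1, h2]
      · have h3 : ¬ a = b := fun h => h1 h.symm
        simp [h1, h2, h3]

lemma sum_two [DecidableEq β] {l : List β} (hl : l.Nodup) (P : β → ℕ) {a b : β} (hab : a ≠ b)
    (hP : ∀ p, P p = if p = a ∨ p = b then 1 else 0) :
    (l.map P).sum = (if a ∈ l then 1 else 0) + (if b ∈ l then 1 else 0) := by
  classical
  rw [← sum_ite_le l hl a, ← sum_ite_le l hl b, ← List.sum_map_add]
  congr 1
  refine List.map_congr_left fun p _ => ?_
  rw [hP]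
  by_cases h1 : p = a
  · subst h1; simp [hab]
  · by_cases h2 : p = b
    · subst h2; simp [h1]
    · simp [h1, h2]

/-- the sum of a row over a list containing all neighbours -/
lemma row_sum (hF : TwoFac VH VP adj F) {h : α} (hh : h ∈ VH) (l : List β) (hl : l.Nodup)
    (hm : ∀ p, F h p → p ∈ l) : (l.map (ind F h)).sum = 2 := by
  classical
  obtain ⟨p1, p2, h12, h3⟩ := hF.row h hh
  rw [sum_two hl _ h12 (fun p => by unfold ind; simp only [h3])]
  rw [if_pos (hm p1 ((h3 p1).2 (Or.inl rfl))), if_pos (hm p2 ((h3 p2).2 (Or.inr rfl)))]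

/-- the sum of a column over any list -/
lemma col_sum_le (hF : TwoFac VH VP adj F) {p : β} (hp : p ∈ VP) (l : List α) (hl : l.Nodup) :
    (l.map (fun h => ind F h p)).sum ≤ 2 := by
  classical
  obtain ⟨p1, p2, h12, h3⟩ := hF.col p hp
  rw [sum_two hl _ h12 (fun h => by unfold ind; simp only [h3])]
  split_ifs <;> omega

/-- if the sum of a column over a list is two, then the list contains all neighbours -/
lemma mem_of_col_sum (hF : TwoFac VH VP adj F) {p : β} (hp : p ∈ VP) (l : List α) (hl : l.Nodup)
    (hs : (l.map (fun h => ind F h p)).sum = 2) {h : α} (hh : F h p) : h ∈ l := by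
  classical
  obtain ⟨p1, p2, h12, h3⟩ := hF.col p hp
  rw [sum_two hl _ h12 (fun h => by unfold ind; simp only [h3])] at hs
  rcases (h3 h).1 hh with rfl | rfl
  · by_contra h4
    rw [if_neg h4] at hs
    split_ifs at hs <;> omega
  · by_contra h4
    rw [if_neg h4] at hs
    split_ifs at hs <;> omega

lemma row_two (hF : TwoFac VH VP adj F) {h : α} {p1 p2 : β} (h1 : F h p1) (h2 : F h p2)
    (h12 : p1 ≠ p2) {p : β} (hp : F h p) : p = p1 ∨ p = p2 := by
  obtain ⟨a, b, hab, h3⟩ := hF.row h (hF.sub h p1 h1).1
  have e1 := (h3 p1).1 h1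
  have e2 := (h3 p2).1 h2
  have e3 := (h3 p).1 hp
  rcases e1 with rfl | rfl <;> rcases e2 with rfl | rfl <;> rcases e3 with rfl | rfl <;> tauto

lemma col_two (hF : TwoFac VH VP adj F) {p : β} {h1 h2 : α} (e1 : F h1 p) (e2 : F h2 p)
    (h12 : h1 ≠ h2) {h : α} (hh : F h p) : h = h1 ∨ h = h2 := by
  obtain ⟨a, b, hab, h3⟩ := hF.col p (hF.sub h1 p e1).2.1
  have e1 := (h3 h1).1 e1
  have e2 := (h3 h2).1 e2
  have e3 := (h3 h).1 hh
  rcases e1 with rfl | rfl <;> rcases e2 with rfl | rfl <;> rcases e3 with rfl | rfl <;> tauto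

end general

/-- **The ring lemma.** -/
lemma ring_lemma (K : ℕ) (q a b : ℕ → ℕ) (h0 : q 0 + a K + b 0 = 2)
    (h1 : ∀ e, e < K → q (e + 1) + a e + b (e + 1) = 2) (hq : ∀ e, e ≤ K → q e ≤ 1)
    (hab : ∀ c, c ≤ K → a c + b c ≤ 1) :
    (∀ e, e ≤ K → q e = 1) ∧ (∀ c, c ≤ K → a c + b c = 1) ∧ (∀ c, c ≤ K → b c = b 0) := by
  -- partial sums: b 0 is nonincreasing along the ring
  have key : ∀ c, c ≤ K → b c ≤ 1 ∧ b 0 ≤ b c + 0 := by
    intro c
    induction c with
    | zero => intro _; have := hab 0 (Nat.zero_le _); omega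
    | succ c ih =>
      intro hc
      have i1 := ih (by omega)
      have i2 := h1 c (by omega)
      have i3 := hq (c + 1) hc
      have i4 := hab c (by omega)
      have i5 := hab (c + 1) hc
      omega
  -- closing the ring
  have back : ∀ n, n ≤ K → b (K - n) ≤ b 0 := by
    intro n
    induction n with
    | zero =>
      intro _
      have i1 := hab K le_rfl
      have i2 := hq 0 (Nat.zero_le _)
      simp only [Nat.sub_zero]
      omega
    | succ n ih =>
      intro hn
      have i1 := ih (by omega)
      have e1 : K - n = (K - (n + 1)) + 1 := by omega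
      have i2 := h1 (K - (n + 1)) (by omega)
      have i3 := hq (K - (n + 1) + 1) (by omega)
      have i4 := hab (K - (n + 1)) (by omega)
      rw [e1] at i1
      omega
  have hb : ∀ c, c ≤ K → b c = b 0 := by
    intro c hc
    have i1 := key c hc
    have i2 := back (K - c) (by omega)
    rw [show K - (K - c) = c by omega] at i2
    omega
  refine ⟨?_, ?_, hb⟩
  · intro e he
    rcases Nat.eq_zero_or_pos e with rfl | hpos
    · have i1 := hab K le_rfl
      have i2 := hq 0 (Nat.zero_le _)
      have i3 := hb K le_rfl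
      omega
    · obtain ⟨e', rfl⟩ : ∃ e', e = e' + 1 := ⟨e - 1, by omega⟩
      have i1 := hab e' (by omega)
      have i2 := hq (e' + 1) he
      have i3 := hb e' (by omega)
      have i4 := hb (e' + 1) he
      have i5 := h1 e' (by omega)
      omega
  · intro c hc
    rcases Nat.lt_or_ge c K with h | h
    · have i1 := hab c hc
      have i2 := hq (c + 1) (by omega)
      have i3 := hb c hc
      have i4 := hb (c + 1) (by omega)
      have i5 := h1 c h
      omega
    · obtain rfl : c = K := by omega
      have i1 := hab c le_rfl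
      have i2 := hq 0 (Nat.zero_le _)
      have i3 := hb c le_rfl
      omega

end Pool.Agent.Lib.H48MaxScatter
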