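import Pool.Agent.Lib.H48MaxScatter.SoundB

/-!
# Soundness: the level `B_m`, and all levels
-/

set_option autoImplicit false
set_option linter.unusedSimpArgs false

namespace Pool.Agent.Lib.H48MaxScatter

namespace Dat

variable {d : Dat} {F : HN → PN → Prop}

structure FactsB (d : Dat) (F : HN → PN → Prop) (m : ℕ) : Prop where
  pre : Pre d F (m + 1)
  d' : F (.D' m) (.qB 0 m)
  d'' : F (.D' m) (.qB d.N m)
  hq : ∀ e, e < d.N + 2 → F (.HB e m) (if e = 0 ∨ e = d.N then .qB e m else .q e m)
  ring : ∀ c, c < d.N + 2 → bB d F c m = bB d F 0 m ∧ aB d F c m + bB d F c m = 1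
  cl : ∀ j, j < d.N → ind F (.GlB j m) (.l1 j m) + ind F (.HB (j + 1) m) (.l1 j m) = 1
  cr : ∀ j, j < d.N → ind F (.GrB j m) (.r1 j m) + ind F (.HB j m) (.r1 j m) = 1
  rl : ∀ j, j < d.N → ind F (.GlB j m) (.l1 j m) + ind F (.GlB j m) (.l0 j (m + 1)) +
    ind F (.GlB j m) (.oB j m) = 2
  rr : ∀ j, j < d.N → ind F (.GrB j m) (.r1 j m) + ind F (.GrB j m) (.r0 j (m + 1)) +
    ind F (.GrB j m) (.oB j m) = 2

set_option maxHeartbeats 1000000 in
theorem factsB (hF : Fac d F) {m : ℕ} (hm : m < d.V) (fa : FactsA d F m) : FactsB d F m := by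
  have hN := d.hN
  have hi := fa.inv
  have nl : ∀ h j, d.N ≤ j → ind F h (.l1 j m) = 0 := fun h j hj => ind_not_ok hF (by
    simp only [okP]; omega)
  have nr : ∀ h j, d.N ≤ j → ind F h (.r1 j m) = 0 := fun h j hj => ind_not_ok hF (by
    simp only [okP]; omega)
  -- rows
  have rowHB : ∀ e, e < d.N + 2 → ind F (.HB e m) (if e = 0 ∨ e = d.N then .qB e m else .q e m) +
      (ind F (.HB e m) (.l1 (rc d.N e) m) + ind F (.HB e m) (.oB (rc d.N e) m)) +
        bB d F e m = 2 := by
    intro e he
    have hne := rc_ne d.N e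
    have h1 := row_live hF hi (h := .HB e m) rfl ⟨he, hm⟩ (by
      simp only [live]
      split_ifs <;> simp [hne])
    simp only [live, List.map_cons, List.map_nil, List.sum_cons, List.sum_nil] at h1
    unfold bB
    omega
  have rowGl : ∀ j, j < d.N → ind F (.GlB j m) (.l1 j m) + ind F (.GlB j m) (.l0 j (m + 1)) +
      ind F (.GlB j m) (.oB j m) = 2 := by
    intro j hj
    have h1 := row_live hF hi (h := .GlB j m) rfl ⟨hj, hm⟩ (by simp [live])
    simp only [live, List.map_cons, List.map_nil, List.sum_cons, List.sum_nil] at h1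
    omega
  have rowGr : ∀ j, j < d.N → ind F (.GrB j m) (.r1 j m) + ind F (.GrB j m) (.r0 j (m + 1)) +
      ind F (.GrB j m) (.oB j m) = 2 := by
    intro j hj
    have h1 := row_live hF hi (h := .GrB j m) rfl ⟨hj, hm⟩ (by simp [live])
    simp only [live, List.map_cons, List.map_nil, List.sum_cons, List.sum_nil] at h1
    omega
  have rowD' : ind F (.D' m) (.qB 0 m) + ind F (.D' m) (.qB d.N m) +
      ind F (.D' m) (.q (d.N + 1) m) + ind F (.D' m) (.oB d.N m) +
      ind F (.D' m) (.oB (d.N + 1) m) = 2 := by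
    have h1 := row_live hF hi (h := .D' m) rfl hm (by simp [live]; omega)
    simp only [live, List.map_cons, List.map_nil, List.sum_cons, List.sum_nil] at h1
    omega
  -- columns
  have colL : ∀ j, j < d.N → ind F (.GlB j m) (.l1 j m) +
      ind F (.HB (j + 1) m) (.l1 j m) ≤ 1 := by
    intro j hj
    have h1 := col_sum_le hF (p := .l1 j m) ⟨hj, hm⟩
      [.GlA j m, .GlB j m, .HB (j + 1) m] (by simp)
    have h2 := ind_eq_one.2 (fa.gl j hj)
    simp only [List.map_cons, List.map_nil, List.sum_cons, List.sum_nil] at h1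
    omega
  have colR : ∀ j, j < d.N → ind F (.GrB j m) (.r1 j m) +
      ind F (.HB j m) (.r1 j m) ≤ 1 := by
    intro j hj
    have h1 := col_sum_le hF (p := .r1 j m) ⟨hj, hm⟩
      [.GrA j m, .GrB j m, .HB j m] (by simp)
    have h2 := ind_eq_one.2 (fa.gr j hj)
    simp only [List.map_cons, List.map_nil, List.sum_cons, List.sum_nil] at h1
    omega
  have colO : ∀ j, j < d.N → ind F (.GlB j m) (.oB j m) + ind F (.GrB j m) (.oB j m) +
      ind F (.HB (j + 1) m) (.oB j m) + ind F (.HB j m) (.oB j m) ≤ 1 := by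
    intro j hj
    have h1 := col_sum_le hF (p := .oB j m) ⟨by omega, hm⟩
      [.Go j m, .GlB j m, .GrB j m, .HB (j + 1) m, .HB j m] (by simp)
    have h2 := ind_eq_one.2 (fa.go j hj)
    simp only [List.map_cons, List.map_nil, List.sum_cons, List.sum_nil] at h1
    omega
  have colON : ind F (.D' m) (.oB d.N m) +
      ind F (.HB (d.N + 1) m) (.oB d.N m) + ind F (.HB d.N m) (.oB d.N m) ≤ 1 := by
    have h1 := col_sum_le hF (p := .oB d.N m) ⟨by omega, hm⟩
      [.D2 m, .D' m, .HB (d.N + 1) m, .HB d.N m] (by simp)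
    have h2 := ind_eq_one.2 fa.d2
    simp only [List.map_cons, List.map_nil, List.sum_cons, List.sum_nil] at h1
    omega
  have colON' : ind F (.D' m) (.oB (d.N + 1) m) +
      ind F (.HB 0 m) (.oB (d.N + 1) m) + ind F (.HB (d.N + 1) m) (.oB (d.N + 1) m) ≤ 1 := by
    have h1 := col_sum_le hF (p := .oB (d.N + 1) m) ⟨by omega, hm⟩
      [.D1 m, .D' m, .HB 0 m, .HB (d.N + 1) m] (by simp)
    have h2 := ind_eq_one.2 fa.d1
    simp only [List.map_cons, List.map_nil, List.sum_cons, List.sum_nil] at h1
    omega
  have haq : F (.HA (d.N + 1) m) (.q (d.N + 1) m) := by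
    have h1 := fa.hq (d.N + 1) (by omega)
    rwa [if_neg (by omega)] at h1
  have colq : ind F (.D' m) (.q (d.N + 1) m) + ind F (.HB (d.N + 1) m) (.q (d.N + 1) m) ≤ 1 := by
    have h1 := col_sum_le hF (p := .q (d.N + 1) m) ⟨Or.inr rfl, hm⟩
      [.HA (d.N + 1) m, .D' m, .HB (d.N + 1) m] (by simp)
    have h2 := ind_eq_one.2 haq
    simp only [List.map_cons, List.map_nil, List.sum_cons, List.sum_nil] at h1
    omega
  have b : ∀ h p, ind F h p ≤ 1 := fun h p => ind_le h p
  -- the corners
  have hab : ∀ c, c ≤ d.N + 1 → aB d F c m + bB d F c m ≤ 1 := by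
    intro c hc
    rcases Nat.lt_or_ge c d.N with h | h
    · have e2 := rowGl c h
      have e3 := rowGr c h
      have e4 := colL c h
      have e5 := colR c h
      have e6 := colO c h
      have e8 := b (.GlB c m) (.l0 c (m + 1))
      have e9 := b (.GrB c m) (.r0 c (m + 1))
      unfold aB bB
      rw [leftEdge_lt (by omega)]
      omega
    · rcases Nat.lt_or_ge c (d.N + 1) with h' | h'
      · obtain rfl : c = d.N := by omega
        unfold aB bB
        rw [leftEdge_lt (by omega)]
        have e1 := nl (.HB (d.N + 1) m) d.N le_rfl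
        have e4 := nr (.HB d.N m) d.N le_rfl
        omega
      · obtain rfl : c = d.N + 1 := by omega
        unfold aB bB
        rw [leftEdge_last]
        have e2 := nr (.HB (d.N + 1) m) (d.N + 1) (by omega)
        have e3 := nl (.HB 0 m) (d.N + 1) (by omega)
        omega
  obtain ⟨r1, r2, r3⟩ := ring_lemma (d.N + 1)
    (fun e => ind F (.HB e m) (if e = 0 ∨ e = d.N then .qB e m else .q e m))
    (fun c => aB d F c m) (fun c => bB d F c m) (by
      have h1 := rowHB 0 (by omega)
      have e1 : rc d.N 0 = d.N + 1 := by simp [rc]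
      rw [e1] at h1
      simp only [aB, leftEdge_last]
      exact h1) (by
      intro e he
      have h1 := rowHB (e + 1) (by omega)
      rw [rc_succ] at h1
      simp only [aB, leftEdge_lt he]
      exact h1) (fun e _ => b _ _) hab
  have r2' := r2 d.N (by omega)
  have r2'' := r2 (d.N + 1) le_rfl
  have r1' := r1 (d.N + 1) le_rfl
  rw [if_neg (by omega)] at r1'
  have sp1 : ind F (.HB (d.N + 1) m) (.oB d.N m) + ind F (.HB d.N m) (.oB d.N m) = 1 := by
    simp only [aB, bB] at r2'
    rw [leftEdge_lt (by omega)] at r2'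
    have e1 := nl (.HB (d.N + 1) m) d.N le_rfl
    have e4 := nr (.HB d.N m) d.N le_rfl
    omega
  have sp2 : ind F (.HB 0 m) (.oB (d.N + 1) m) +
      ind F (.HB (d.N + 1) m) (.oB (d.N + 1) m) = 1 := by
    simp only [aB, bB] at r2''
    rw [leftEdge_last] at r2''
    have e2 := nr (.HB (d.N + 1) m) (d.N + 1) (by omega)
    have e3 := nl (.HB 0 m) (d.N + 1) (by omega)
    omega
  have b1 := b (.D' m) (.qB 0 m)
  have b2 := b (.D' m) (.qB d.N m)
  have fd' : F (.D' m) (.qB 0 m) := ind_eq_one.1 (by omega)
  have fd'' : F (.D' m) (.qB d.N m) := ind_eq_one.1 (by omega)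
  -- the normal corners are tight
  have tight : ∀ j, j < d.N → (ind F (.HB (j + 1) m) (.l1 j m) +
      ind F (.HB (j + 1) m) (.oB j m)) +
      (ind F (.HB j m) (.r1 j m) + ind F (.HB j m) (.oB j m)) = 1 := by
    intro j hj
    have h1 := r2 j (by omega)
    simp only [aB, bB] at h1
    rw [leftEdge_lt (by omega)] at h1
    exact h1
  have fgl : ∀ j, j < d.N → F (.GlB j m) (.l0 j (m + 1)) := by
    intro c h
    have e0 := tight c h
    have e2 := rowGl c h
    have e3 := rowGr c h
    have e4 := colL c h
    have e5 := colR c h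
    have e6 := colO c h
    have e8 := b (.GlB c m) (.l0 c (m + 1))
    have e9 := b (.GrB c m) (.r0 c (m + 1))
    refine ind_eq_one.1 ?_
    omega
  have fgr : ∀ j, j < d.N → F (.GrB j m) (.r0 j (m + 1)) := by
    intro c h
    have e0 := tight c h
    have e2 := rowGl c h
    have e3 := rowGr c h
    have e4 := colL c h
    have e5 := colR c h
    have e6 := colO c h
    have e8 := b (.GlB c m) (.l0 c (m + 1))
    have e9 := b (.GrB c m) (.r0 c (m + 1))
    refine ind_eq_one.1 ?_
    omega
  have fcl : ∀ j, j < d.N → ind F (.GlB j m) (.l1 j m) +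
      ind F (.HB (j + 1) m) (.l1 j m) = 1 := by
    intro c h
    have e0 := tight c h
    have e2 := rowGl c h
    have e3 := rowGr c h
    have e4 := colL c h
    have e5 := colR c h
    have e6 := colO c h
    have e8 := b (.GlB c m) (.l0 c (m + 1))
    have e9 := b (.GrB c m) (.r0 c (m + 1))
    omega
  have fcr : ∀ j, j < d.N → ind F (.GrB j m) (.r1 j m) +
      ind F (.HB j m) (.r1 j m) = 1 := by
    intro c h
    have e0 := tight c h
    have e2 := rowGl c h
    have e3 := rowGr c h
    have e4 := colL c h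
    have e5 := colR c h
    have e6 := colO c h
    have e8 := b (.GlB c m) (.l0 c (m + 1))
    have e9 := b (.GrB c m) (.r0 c (m + 1))
    omega
  have fco : ∀ j, j < d.N → ind F (.GlB j m) (.oB j m) + ind F (.GrB j m) (.oB j m) +
      ind F (.HB (j + 1) m) (.oB j m) + ind F (.HB j m) (.oB j m) = 1 := by
    intro c h
    have e0 := tight c h
    have e2 := rowGl c h
    have e3 := rowGr c h
    have e4 := colL c h
    have e5 := colR c h
    have e6 := colO c h
    have e8 := b (.GlB c m) (.l0 c (m + 1))
    have e9 := b (.GrB c m) (.r0 c (m + 1))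
    omega
  have fhq : ∀ e, e < d.N + 2 → F (.HB e m) (if e = 0 ∨ e = d.N then .qB e m else .q e m) :=
    fun e he => ind_eq_one.1 (r1 e (by omega))
  refine ⟨⟨?_, ?_, ?_⟩, fd', fd'', fhq, fun c hc => ⟨r3 c (by omega), r2 c (by omega)⟩, fcl, fcr,
    rowGl, rowGr⟩
  · -- the invariant
    intro h p hp hdl
    by_cases hlt : d.dl p < 2 * m + 2
    · have := hi h p hp hlt
      omega
    have hok := (hF.sub h p hp).2.1
    have fin : ∀ l : List HN, l.Nodup → (l.map (fun h => ind F h p)).sum = 2 →
        (∀ h ∈ l, d.lv h < 2 * (m + 1) + 1) → d.lv h < 2 * (m + 1) + 1 := fun l h1 h2 h3 =>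
      h3 h (mem_of_col_sum hF hok l h1 h2 hp)
    rcases p with ⟨j', m'⟩ | ⟨j', m'⟩ | ⟨j', m'⟩ | ⟨j', m'⟩ | ⟨j', m'⟩ | ⟨j', m'⟩ | ⟨j', m'⟩ |
      ⟨j', m'⟩ | ⟨j', m'⟩ | ⟨j', _ | _⟩ <;> simp only [dl] at hdl hlt <;> try omega
    · -- l1
      obtain rfl : m' = m := by omega
      have hj : j' < d.N := hok.1
      refine fin [.GlA j' m', .GlB j' m', .HB (j' + 1) m'] (by simp) ?_ ?_
      · have h2 := ind_eq_one.2 (fa.gl j' hj)
        have h3 := fcl j' hj
        simp only [List.map_cons, List.map_nil, List.sum_cons, List.sum_nil]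
        omega
      · simp only [List.mem_cons, List.not_mem_nil, or_false, forall_eq_or_imp, forall_eq, lv]
        omega
    · -- r1
      obtain rfl : m' = m := by omega
      have hj : j' < d.N := hok.1
      refine fin [.GrA j' m', .GrB j' m', .HB j' m'] (by simp) ?_ ?_
      · have h2 := ind_eq_one.2 (fa.gr j' hj)
        have h3 := fcr j' hj
        simp only [List.map_cons, List.map_nil, List.sum_cons, List.sum_nil]
        omega
      · simp only [List.mem_cons, List.not_mem_nil, or_false, forall_eq_or_imp, forall_eq, lv]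
        omega
    · -- oB
      obtain rfl : m' = m := by omega
      have hj : j' < d.N + 2 := hok.1
      rcases Nat.lt_or_ge j' d.N with h | h
      · refine fin [.Go j' m', .GlB j' m', .GrB j' m', .HB (j' + 1) m', .HB j' m'] (by simp)
          ?_ ?_
        · have h3 := fco j' h
          have h4 := ind_eq_one.2 (fa.go j' h)
          simp only [List.map_cons, List.map_nil, List.sum_cons, List.sum_nil]
          omega
        · simp only [List.mem_cons, List.not_mem_nil, or_false, forall_eq_or_imp, forall_eq, lv]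
          omega
      · rcases Nat.lt_or_ge j' (d.N + 1) with h' | h'
        · obtain rfl : j' = d.N := by omega
          refine fin [.D2 m', .HB (d.N + 1) m', .HB d.N m'] (by simp) ?_ ?_
          · simp only [List.map_cons, List.map_nil, List.sum_cons, List.sum_nil]
            have := ind_eq_one.2 fa.d2
            omega
          · simp only [List.mem_cons, List.not_mem_nil, or_false, forall_eq_or_imp, forall_eq, lv]
            omega
        · obtain rfl : j' = d.N + 1 := by omega
          refine fin [.D1 m', .HB 0 m', .HB (d.N + 1) m'] (by simp) ?_ ?_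
          · simp only [List.map_cons, List.map_nil, List.sum_cons, List.sum_nil]
            have := ind_eq_one.2 fa.d1
            omega
          · simp only [List.mem_cons, List.not_mem_nil, or_false, forall_eq_or_imp, forall_eq, lv]
            omega
    · -- q
      obtain rfl : m' = m := by omega
      have hne : ¬ (j' = 0 ∨ j' = d.N) := by
        rcases hok.1 with h | h <;> omega
      have hlt2 : j' < d.N + 2 := by
        rcases hok.1 with h | h <;> omega
      have h1 := fa.hq j' hlt2
      have h2 := fhq j' hlt2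
      rw [if_neg hne] at h1 h2
      rcases col_two hF h1 h2 (by simp) hp with rfl | rfl <;> simp only [lv] <;> omega
    · -- qB
      obtain rfl : m' = m := by omega
      rcases hok.1 with rfl | rfl
      · have h1 := fhq 0 (by omega)
        rw [if_pos (Or.inl rfl)] at h1
        rcases col_two hF fd' h1 (by simp) hp with rfl | rfl <;> simp only [lv] <;> omega
      · have h1 := fhq d.N (by omega)
        rw [if_pos (Or.inr rfl)] at h1
        rcases col_two hF fd'' h1 (by simp) hp with rfl | rfl <;> simp only [lv] <;> omega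
  · intro j hj
    simpa [inL] using fgl j hj
  · intro j hj
    simpa [inR] using fgr j hj

theorem pre_all (hF : Fac d F) : ∀ m, m ≤ d.V → Pre d F m := by
  intro m
  induction m with
  | zero => intro _; exact pre_zero hF
  | succ m ih =>
    intro hm
    have h1 := factsA hF (by omega) (ih (by omega))
    exact (factsB hF (by omega) h1).pre

theorem factsA_all (hF : Fac d F) {m : ℕ} (hm : m < d.V) : FactsA d F m :=
  factsA hF hm (pre_all hF m hm.le)

theorem factsB_all (hF : Fac d F) {m : ℕ} (hm : m < d.V) : FactsB d F m :=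
  factsB hF hm (factsA_all hF hm)

/-- for every half-plane, all neighbours are in the list `live` -/
theorem live_all (hF : Fac d F) {h : HN} {p : PN} (hp : F h p) : p ∈ d.live h := by
  have hok := (hF.sub h p hp).1
  have key : Inv d F (d.lv h) := by
    rcases h with ⟨e, _ | _⟩ | ⟨e, m⟩ | ⟨e, m⟩ | ⟨j, m⟩ | ⟨j, m⟩ | ⟨j, m⟩ | ⟨j, m⟩ | ⟨j, m⟩ |
      m | m | m | m
    · exact fun h p _ h2 => absurd h2 (by simp [lv])
    · exact (pre_all hF d.V le_rfl).inv
    · exact (pre_all hF m (le_of_lt hok.2)).inv
    · exact (factsA_all hF hok.2).inv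
    · exact (pre_all hF m (le_of_lt hok.2)).inv
    · exact (factsA_all hF hok.2).inv
    · exact (pre_all hF m (le_of_lt hok.2)).inv
    · exact (factsA_all hF hok.2).inv
    · exact (pre_all hF m (le_of_lt hok.2)).inv
    · exact (pre_all hF m (le_of_lt hok)).inv
    · exact (factsA_all hF hok).inv
    · exact (pre_all hF m (le_of_lt hok)).inv
    · exact (pre_all hF m (le_of_lt hok)).inv
  exact mem_live hF key rfl hp

end Dat

end Pool.Agent.Lib.H48MaxScatter
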