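import Pool.Agent.Lib.H48MaxScatter.SoundC

/-!
# Soundness: the modes of the levels `A_m` and `B_m` agree
-/

set_option autoImplicit false
set_option linter.unusedSimpArgs false

namespace Pool.Agent.Lib.H48MaxScatter

namespace Dat

variable {d : Dat} {F : HN → PN → Prop}

lemma ha_oA_of_mode_zero (hF : Fac d F) {m : ℕ} (hm : m < d.V) (h0 : bA d F 0 m = 0) :
    F (.HA 0 m) (.oA (d.N + 1) m) ∧ F (.HA (d.N + 1) m) (.oA d.N m) := by
  have fa := factsA_all hF hm
  have r1 := fa.ring (d.N + 1) (by omega)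
  have r2 := fa.ring d.N (by omega)
  simp only [aA, leftEdge_last] at r1
  simp only [aA, leftEdge_lt (show d.N < d.N + 1 by omega)] at r2
  have e1 : ind F (.HA 0 m) (.l0 (d.N + 1) m) = 0 := ind_not_ok hF (by simp only [okP]; omega)
  have e2 : ind F (.HA 0 m) (.r0 (d.N + 1) m) = 0 := ind_not_ok hF (by simp only [okP]; omega)
  have e3 : ind F (.HA (d.N + 1) m) (.l0 d.N m) = 0 := ind_not_ok hF (by simp only [okP]; omega)
  have e4 : ind F (.HA (d.N + 1) m) (.r0 d.N m) = 0 := ind_not_ok hF (by simp only [okP]; omega)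
  exact ⟨ind_eq_one.1 (by omega), ind_eq_one.1 (by omega)⟩

lemma ha_oA_of_mode_one (hF : Fac d F) {m : ℕ} (hm : m < d.V) (h0 : bA d F 0 m = 1) :
    F (.HA (d.N + 1) m) (.oA (d.N + 1) m) ∧ F (.HA d.N m) (.oA d.N m) := by
  have fa := factsA_all hF hm
  have r1 := (fa.ring (d.N + 1) (by omega)).1
  have r2 := (fa.ring d.N (by omega)).1
  rw [h0] at r1 r2
  simp only [bA] at r1 r2
  have e1 : ind F (.HA (d.N + 1) m) (.r0 (d.N + 1) m) = 0 :=
    ind_not_ok hF (by simp only [okP]; omega)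
  have e2 : ind F (.HA (d.N + 1) m) (.l0 (d.N + 1) m) = 0 :=
    ind_not_ok hF (by simp only [okP]; omega)
  have e3 : ind F (.HA d.N m) (.r0 d.N m) = 0 := ind_not_ok hF (by simp only [okP]; omega)
  have e4 : ind F (.HA d.N m) (.l0 d.N m) = 0 := ind_not_ok hF (by simp only [okP]; omega)
  exact ⟨ind_eq_one.1 (by omega), ind_eq_one.1 (by omega)⟩

lemma hb_oB_of_mode_zero (hF : Fac d F) {m : ℕ} (hm : m < d.V) (h0 : bB d F 0 m = 0) :
    F (.HB (d.N + 1) m) (.oB d.N m) := by
  have fb := factsB_all hF hm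
  have r2 := fb.ring d.N (by omega)
  simp only [aB, leftEdge_lt (show d.N < d.N + 1 by omega)] at r2
  have e3 : ind F (.HB (d.N + 1) m) (.l1 d.N m) = 0 := ind_not_ok hF (by simp only [okP]; omega)
  exact ind_eq_one.1 (by omega)

lemma hb_oB_of_mode_one (hF : Fac d F) {m : ℕ} (hm : m < d.V) (h0 : bB d F 0 m = 1) :
    F (.HB (d.N + 1) m) (.oB (d.N + 1) m) := by
  have fb := factsB_all hF hm
  have r1 := (fb.ring (d.N + 1) (by omega)).1
  rw [h0] at r1
  simp only [bB] at r1
  have e1 : ind F (.HB (d.N + 1) m) (.r1 (d.N + 1) m) = 0 :=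
    ind_not_ok hF (by simp only [okP]; omega)
  exact ind_eq_one.1 (by omega)

lemma bA_le (hF : Fac d F) {m : ℕ} (hm : m < d.V) : bA d F 0 m ≤ 1 := by
  have := (factsA_all hF hm).ring 0 (by omega)
  omega

lemma bB_le (hF : Fac d F) {m : ℕ} (hm : m < d.V) : bB d F 0 m ≤ 1 := by
  have := (factsB_all hF hm).ring 0 (by omega)
  omega

/-- a closed loop that misses a half-plane contradicts connectedness -/
lemma no_loop (hc : Conn {h | d.okH h} {p | d.okP p} F) (S : Set HN) (S' : Set PN)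
    (hS : ∀ h p, F h p → (h ∈ S ↔ p ∈ S')) {h1 h2 : HN} (ok1 : d.okH h1) (ok2 : d.okH h2)
    (i1 : h1 ∈ S) (i2 : h2 ∉ S) : False := by
  rcases hc S S' hS with ⟨h3, _⟩ | ⟨h3, _⟩
  · exact i2 (h3 ok2)
  · exact Set.disjoint_left.1 h3 ok1 i1

theorem mode_eq (hF : Fac d F) (hc : Conn {h | d.okH h} {p | d.okP p} F) {m : ℕ} (hm : m < d.V) :
    bA d F 0 m = bB d F 0 m := by
  have hN := d.hN
  have fa := factsA_all hF hm
  have fb := factsB_all hF hm
  have lA := bA_le hF hm
  have lB := bB_le hF hm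
  have q1 : F (.HA (d.N + 1) m) (.q (d.N + 1) m) := by
    have h1 := fa.hq (d.N + 1) (by omega)
    rwa [if_neg (by omega)] at h1
  have q2 : F (.HB (d.N + 1) m) (.q (d.N + 1) m) := by
    have h1 := fb.hq (d.N + 1) (by omega)
    rwa [if_neg (by omega)] at h1
  by_contra hne
  have ok0 : d.okH (.T 0 false) := by simp only [okH]; omega
  have okD : d.okH (.D m) := hm
  rcases Nat.lt_or_ge (bA d F 0 m) 1 with h | h
  · -- mode (0, 1)
    obtain ⟨a1, a2⟩ := ha_oA_of_mode_zero hF hm (by omega)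
    have a3 := hb_oB_of_mode_one hF hm (by omega)
    have q3 : F (.HA 0 m) (.qA 0 m) := by
      have h1 := fa.hq 0 (by omega)
      rwa [if_pos (Or.inl rfl)] at h1
    refine no_loop hc {h | h = .HA 0 m ∨ h = .D m ∨ h = .HA (d.N + 1) m ∨ h = .HB (d.N + 1) m ∨
      h = .D1 m} {p | p = .qA 0 m ∨ p = .oA (d.N + 1) m ∨ p = .oA d.N m ∨ p = .q (d.N + 1) m ∨
      p = .oB (d.N + 1) m} ?_ okD ok0 (by simp) (by simp)
    intro h p hp
    simp only [Set.mem_setOf_eq]
    constructor
    · rintro (rfl | rfl | rfl | rfl | rfl)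
      · rcases row_two hF q3 a1 (by simp) hp with rfl | rfl <;> simp
      · rcases row_two hF fa.dd fa.dd' (by simp) hp with rfl | rfl <;> simp
      · rcases row_two hF q1 a2 (by simp) hp with rfl | rfl <;> simp
      · rcases row_two hF q2 a3 (by simp) hp with rfl | rfl <;> simp
      · rcases row_two hF fa.d1 fa.d1' (by simp) hp with rfl | rfl <;> simp
    · rintro (rfl | rfl | rfl | rfl | rfl)
      · rcases col_two hF q3 fa.d1' (by simp) hp with rfl | rfl <;> simp
      · rcases col_two hF a1 fa.dd' (by simp) hp with rfl | rfl <;> simp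
      · rcases col_two hF a2 fa.dd (by simp) hp with rfl | rfl <;> simp
      · rcases col_two hF q1 q2 (by simp) hp with rfl | rfl <;> simp
      · rcases col_two hF a3 fa.d1 (by simp) hp with rfl | rfl <;> simp
  · -- mode (1, 0)
    obtain ⟨a1, a2⟩ := ha_oA_of_mode_one hF hm (by omega)
    have a3 := hb_oB_of_mode_zero hF hm (by omega)
    have q3 : F (.HA d.N m) (.qA d.N m) := by
      have h1 := fa.hq d.N (by omega)
      rwa [if_pos (Or.inr rfl)] at h1
    refine no_loop hc {h | h = .HA (d.N + 1) m ∨ h = .D m ∨ h = .HA d.N m ∨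
      h = .HB (d.N + 1) m ∨ h = .D2 m} {p | p = .q (d.N + 1) m ∨ p = .oA (d.N + 1) m ∨
      p = .oA d.N m ∨ p = .qA d.N m ∨ p = .oB d.N m} ?_ okD ok0 (by simp) (by simp)
    intro h p hp
    simp only [Set.mem_setOf_eq]
    constructor
    · rintro (rfl | rfl | rfl | rfl | rfl)
      · rcases row_two hF q1 a1 (by simp) hp with rfl | rfl <;> simp
      · rcases row_two hF fa.dd fa.dd' (by simp) hp with rfl | rfl <;> simp
      · rcases row_two hF q3 a2 (by simp) hp with rfl | rfl <;> simp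
      · rcases row_two hF q2 a3 (by simp) hp with rfl | rfl <;> simp
      · rcases row_two hF fa.d2 fa.d2' (by simp) hp with rfl | rfl <;> simp
    · rintro (rfl | rfl | rfl | rfl | rfl)
      · rcases col_two hF q1 q2 (by simp) hp with rfl | rfl <;> simp
      · rcases col_two hF a1 fa.dd' (by simp) hp with rfl | rfl <;> simp
      · rcases col_two hF a2 fa.dd (by simp) hp with rfl | rfl <;> simp
      · rcases col_two hF q3 fa.d2' (by simp) hp with rfl | rfl <;> simp
      · rcases col_two hF a3 fa.d2 (by simp) hp with rfl | rfl <;> simp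

end Dat

end Pool.Agent.Lib.H48MaxScatter
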