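import Pool.Agent.Lib.H48MaxScatter.Defs

/-!
# The incidences of the arrangement

* `live_of_vis`: a visible point which is not yet saturated is in the list `live`
* the lists of the existing points and half-planes
-/

set_option autoImplicit false
set_option linter.unusedSimpArgs false

namespace Pool.Agent.Lib.H48MaxScatter

lemma nodup_flatMap_key {β : Type*} (n : ℕ) (f : ℕ → List β) (key : β → ℕ)
    (hf : ∀ i, (f i).Nodup) (hk : ∀ i x, x ∈ f i → key x = i) :
    ((List.range n).flatMap f).Nodup := by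
  rw [List.nodup_flatMap]
  refine ⟨fun i _ => hf i, ?_⟩
  refine List.nodup_range.imp ?_
  intro i j hij x hx hy
  exact hij ((hk i x hx).symm.trans (hk j x hy))

lemma nodup_map_key {β : Type*} (n : ℕ) (f : ℕ → β) (key : β → ℕ)
    (hk : ∀ i, key (f i) = i) : ((List.range n).map f).Nodup := by
  refine List.Nodup.map ?_ List.nodup_range
  intro i j hij
  rw [← hk i, ← hk j, hij]

/-- first index -/
def PN.i1 : PN → ℕ
  | .l0 j _ => j | .l1 j _ => j | .r0 j _ => j | .r1 j _ => j | .oA j _ => j | .oB j _ => j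
  | .q j _ => j | .qA j _ => j | .qB j _ => j | .x j _ => j
/-- second index -/
def PN.i2 : PN → ℕ
  | .l0 _ j => j | .l1 _ j => j | .r0 _ j => j | .r1 _ j => j | .oA _ j => j | .oB _ j => j
  | .q _ j => j | .qA _ j => j | .qB _ j => j | .x _ _ => 0
/-- first index -/
def HN.i1 : HN → ℕ
  | .T j _ => j | .HA j _ => j | .HB j _ => j | .GlA j _ => j | .GlB j _ => j | .GrA j _ => j
  | .GrB j _ => j | .Go j _ => j | .D j => j | .D' j => j | .D1 j => j | .D2 j => j
/-- second index -/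
def HN.i2 : HN → ℕ
  | .T _ _ => 0 | .HA _ j => j | .HB _ j => j | .GlA _ j => j | .GlB _ j => j | .GrA _ j => j
  | .GrB _ j => j | .Go _ j => j | .D j => j | .D' j => j | .D1 j => j | .D2 j => j

namespace Dat

variable (d : Dat)

lemma pos_cases (j m : ℕ) :
    d.pos j m = false ∨ (d.pos j m = true ∧ 1 ≤ j ∧ j < d.N ∧ m < d.V) := by
  rcases h : d.pos j m
  · exact Or.inl rfl
  · exact Or.inr ⟨rfl, d.pos_lt j m h⟩

lemma neg_cases (j m : ℕ) :
    d.neg j m = false ∨ (d.neg j m = true ∧ 1 ≤ j ∧ j < d.N ∧ m < d.V) := by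
  rcases h : d.neg j m
  · exact Or.inl rfl
  · exact Or.inr ⟨rfl, d.neg_lt j m h⟩

/-- a visible point is in the list `live` or already saturated -/
theorem live_of_vis {h : HN} {p : PN} (hh : d.okH h) (hp : d.okP p) (hv : d.Vis h p)
    (hl : d.lv h ≤ d.dl p) : p ∈ d.live h := by
  have hN := d.hN
  have hV := d.hV
  have hI : d.I = 32 * d.V + 64 := rfl
  rcases p with ⟨j', m'⟩ | ⟨j', m'⟩ | ⟨j', m'⟩ | ⟨j', m'⟩ | ⟨j', m'⟩ | ⟨j', m'⟩ | ⟨j', m'⟩ |
    ⟨j', m'⟩ | ⟨j', m'⟩ | ⟨j', _ | _⟩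
  case l0 =>
    rcases d.pos_cases j' m' with h1 | ⟨h1, h2⟩ <;>
    rcases h with ⟨e, _ | _⟩ | ⟨e, m⟩ | ⟨e, m⟩ | ⟨j, m⟩ | ⟨j, m⟩ | ⟨j, m⟩ | ⟨j, m⟩ | ⟨j, m⟩ |
      m | m | m | m <;>
    simp only [okH, okP, Vis, dH, dP, lv, dl, live, leftEdge, rc, List.mem_cons, PN.l0.injEq,
      reduceCtorEq, false_or, or_false, List.not_mem_nil, Bool.false_eq_true, if_true, if_false,
      and_true, and_false, Sees, h1] at * <;>
    (try split_ifs at *) <;> omega
  case r0 =>
    rcases d.neg_cases j' m' with h1 | ⟨h1, h2⟩ <;>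
    rcases h with ⟨e, _ | _⟩ | ⟨e, m⟩ | ⟨e, m⟩ | ⟨j, m⟩ | ⟨j, m⟩ | ⟨j, m⟩ | ⟨j, m⟩ | ⟨j, m⟩ |
      m | m | m | m <;>
    simp only [okH, okP, Vis, dH, dP, lv, dl, live, leftEdge, rc, List.mem_cons, PN.r0.injEq,
      reduceCtorEq, false_or, or_false, List.not_mem_nil, Bool.false_eq_true, if_true, if_false,
      and_true, and_false, Sees, h1] at * <;>
    (try split_ifs at *) <;> omega
  all_goals
    rcases h with ⟨e, _ | _⟩ | ⟨e, m⟩ | ⟨e, m⟩ | ⟨j, m⟩ | ⟨j, m⟩ | ⟨j, m⟩ | ⟨j, m⟩ | ⟨j, m⟩ |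
      m | m | m | m
  all_goals
    simp only [okH, okP, Vis, dH, dP, lv, dl, live, leftEdge, rc, List.mem_cons, PN.l0.injEq,
      PN.l1.injEq, PN.r0.injEq, PN.r1.injEq, PN.oA.injEq, PN.oB.injEq, PN.x.injEq, PN.q.injEq,
      PN.qA.injEq, PN.qB.injEq, reduceCtorEq, false_or, or_false, List.not_mem_nil,
      Bool.false_eq_true, if_true, if_false, and_true, and_false, Sees] at *
  all_goals
    (try split_ifs at *) <;>
    (try simp only [Sees, leftEdge, PN.l0.injEq, PN.l1.injEq, PN.r0.injEq, PN.r1.injEq,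
      PN.oA.injEq, PN.oB.injEq, PN.x.injEq, PN.q.injEq, PN.qA.injEq, PN.qB.injEq, reduceCtorEq,
      false_or, or_false] at *) <;>
    (try split_ifs at *) <;>
    first
    | omega
    | (simp only [true_and, false_and, or_false, false_or, not_true_eq_false] at *; omega)
    | (simp only [true_and, false_and, or_false, false_or, not_true_eq_false] at *)

theorem mem_pts {p : PN} : p ∈ d.pts ↔ d.okP p := by
  have hN := d.hN
  rcases p with ⟨j, m⟩ | ⟨j, m⟩ | ⟨j, m⟩ | ⟨j, m⟩ | ⟨j, m⟩ | ⟨j, m⟩ | ⟨j, m⟩ |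
    ⟨j, m⟩ | ⟨j, m⟩ | ⟨j, _ | _⟩ <;>
  simp [pts, okP]
  case q =>
    constructor
    · rintro (⟨a, h1, h2, rfl⟩ | ⟨h1, h2⟩) <;> omega
    · rintro ⟨h1 | h1, h2⟩
      · exact Or.inl ⟨j - 1, by omega, h2, by omega⟩
      · exact Or.inr ⟨h2, h1⟩
  all_goals
    constructor
    · rintro ⟨a, h1, (⟨h2, rfl⟩ | ⟨h2, rfl⟩)⟩ <;> tauto
    · rintro ⟨h1 | h1, h2⟩
      · exact ⟨m, h2, Or.inl ⟨h1, rfl⟩⟩
      · exact ⟨m, h2, Or.inr ⟨h1, rfl⟩⟩

theorem nodup_hps : d.hps.Nodup := by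
  unfold hps
  refine List.Nodup.append (List.Nodup.append (List.Nodup.append ?_ ?_ ?_) ?_ ?_) ?_ ?_
  · refine nodup_flatMap_key _ _ HN.i1 (fun i => by simp) (fun i x hx => ?_)
    simp at hx; rcases hx with rfl | rfl <;> rfl
  · refine nodup_flatMap_key _ _ HN.i1 (fun i => ?_) (fun i x hx => ?_)
    · refine nodup_flatMap_key _ _ HN.i2 (fun i => by simp) (fun i x hx => ?_)
      simp at hx; rcases hx with rfl | rfl <;> rfl
    · simp at hx; rcases hx with ⟨a, _, rfl | rfl⟩ <;> rfl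
  · intro x h1 h2
    simp at h1 h2
    obtain ⟨a, _, rfl | rfl⟩ := h1 <;> simp at h2
  · refine nodup_flatMap_key _ _ HN.i1 (fun i => ?_) (fun i x hx => ?_)
    · refine nodup_flatMap_key _ _ HN.i2 (fun i => by simp) (fun i x hx => ?_)
      simp at hx; rcases hx with rfl | rfl | rfl | rfl | rfl <;> rfl
    · simp at hx; rcases hx with ⟨a, _, rfl | rfl | rfl | rfl | rfl⟩ <;> rfl
  · intro x h1 h2
    simp at h2
    obtain ⟨a, _, b, _, rfl | rfl | rfl | rfl | rfl⟩ := h2 <;> simp at h1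
  · refine nodup_flatMap_key _ _ HN.i1 (fun i => by simp) (fun i x hx => ?_)
    simp at hx; rcases hx with rfl | rfl | rfl | rfl <;> rfl
  · intro x h1 h2
    simp at h2
    obtain ⟨a, _, rfl | rfl | rfl | rfl⟩ := h2 <;> simp at h1

theorem nodup_pts : d.pts.Nodup := by
  have hN := d.hN
  unfold pts
  refine List.Nodup.append (List.Nodup.append (List.Nodup.append (List.Nodup.append
    (List.Nodup.append ?_ ?_ ?_) ?_ ?_) ?_ ?_) ?_ ?_) ?_ ?_
  · refine nodup_flatMap_key _ _ PN.i1 (fun i => ?_) (fun i x hx => ?_)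
    · refine nodup_flatMap_key _ _ PN.i2 (fun i => by simp) (fun i x hx => ?_)
      simp at hx; rcases hx with rfl | rfl <;> rfl
    · simp at hx; rcases hx with ⟨a, _, rfl | rfl⟩ <;> rfl
  · refine nodup_flatMap_key _ _ PN.i1 (fun i => ?_) (fun i x hx => ?_)
    · refine nodup_flatMap_key _ _ PN.i2 (fun i => by simp) (fun i x hx => ?_)
      simp at hx; rcases hx with rfl | rfl <;> rfl
    · simp at hx; rcases hx with ⟨a, _, rfl | rfl⟩ <;> rfl
  · intro x h1 h2
    simp at h2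
    obtain ⟨a, _, b, _, rfl | rfl⟩ := h2 <;> simp at h1
  · refine nodup_flatMap_key _ _ PN.i1 (fun i => ?_) (fun i x hx => ?_)
    · refine nodup_flatMap_key _ _ PN.i2 (fun i => by simp) (fun i x hx => ?_)
      simp at hx; rcases hx with rfl | rfl <;> rfl
    · simp at hx; rcases hx with ⟨a, _, rfl | rfl⟩ <;> rfl
  · intro x h1 h2
    simp at h2
    obtain ⟨a, _, b, _, rfl | rfl⟩ := h2 <;> simp at h1
  · refine nodup_flatMap_key _ _ (fun x => x.i1 - 1) (fun i => ?_) (fun i x hx => ?_)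
    · exact nodup_map_key _ _ PN.i2 (fun i => rfl)
    · simp at hx; obtain ⟨a, _, rfl⟩ := hx; simp [PN.i1]
  · intro x h1 h2
    simp at h2
    obtain ⟨a, _, b, _, rfl⟩ := h2; simp at h1
  · refine nodup_flatMap_key _ _ PN.i2 (fun i => ?_) (fun i x hx => ?_)
    · simp; omega
    · simp at hx; rcases hx with rfl | rfl | rfl | rfl | rfl <;> rfl
  · intro x h1 h2
    simp at h2
    obtain ⟨a, _, rfl | rfl | rfl | rfl | rfl⟩ := h2 <;> simp at h1 
    omega
  · simp
  · intro x h1 h2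
    simp at h2
    obtain rfl | rfl | rfl | rfl := h2 <;> simp at h1

theorem length_eq : d.hps.length = d.pts.length := by
  have hN := d.hN
  unfold hps pts
  simp [List.length_flatMap]
  obtain ⟨n, hn⟩ : ∃ n, d.N = n + 2 := ⟨d.N - 2, by omega⟩
  rw [hn]
  simp
  ring

end Dat
end Pool.Agent.Lib.H48MaxScatter
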